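import Pool.Agent.Lib.MP_56e41f_co.FQ.ATa

/-!
Repeated attempts: all hosts with `n ≥ C₀ d`.
-/

set_option autoImplicit false

open Finset

namespace Pool.Agent.Lib.MP_56e41f_co.FQ

/-- the numbers of one attempt -/
theorem attempt_numbers (c : ℝ) (hc : 0 < c) (hc1 : c < 1) : ∃ K0 : ℝ, 1 ≤ K0 ∧
    ∀ K : ℝ, K0 ≤ K → ∀ (t Δ : ℕ) (T : TD t Δ) (d p : ℝ), 1 ≤ Δ → 1 ≤ t → 0 < d →
      K * Δ / d ≤ p → p ≤ 1 → (t : ℝ) ≤ (1 - c) * d →
      ∃ (w m n M : ℕ) (r : ℝ), 0 ≤ r ∧ r ≤ 1 ∧ 1 ≤ m ∧ (m : ℝ) ≤ c / 512 * ((1 - c / 8) * d) ∧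
        64 * ((1 - r) ^ m) ^ 2 ≤ 1 ∧ 3 * Δ * (32 * ((1 - r) ^ m) ^ 2) ^ Δ ≤ 1 / 2 ∧
        n * m ≤ M ∧ (M : ℝ) ≤ d ^ 2 ∧ (t : ℝ) + w + 1 ≤ (1 - c / 2) * ((1 - c / 8) * d) ∧
        val T (3 * Δ) w ((1 - r) ^ m) (n + 1) (init t) + 3 * (32 * ((1 - r) ^ m) ^ 2) ^ Δ +
          (1 - c / 4) ≤ 1 - c / 8 ∧
        1 - (1 - r) ^ (3 * Δ) ≤ p := by
  obtain ⟨q0, hq0, hcore⟩ := core_lim c hc hc1
  obtain ⟨q1, hq1, hq1q0, hq1c⟩ : ∃ q1 : ℝ, 0 < q1 ∧ q1 ≤ q0 ∧ q1 ≤ c / 100 :=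
    ⟨min q0 (c / 100), lt_min hq0 (by positivity), min_le_left _ _, min_le_right _ _⟩
  obtain ⟨d0, hd0, hval⟩ := hcore (c / 32) (by positivity)
  obtain ⟨K1, hK1⟩ : ∃ K1 : ℝ, Real.exp (-(K1 * c / 8192)) ≤ q1 ∧ 1 ≤ K1 := by
    refine ⟨max 1 (8192 * (-Real.log q1) / c), ?_, le_max_left _ _⟩
    rw [← Real.le_log_iff_exp_le hq1]
    have h1 : 8192 * (-Real.log q1) / c ≤ max 1 (8192 * (-Real.log q1) / c) := le_max_right _ _
    rw [div_le_iff₀ hc] at h1
    linarith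
  refine ⟨K1 + d0 + 2048 / c ^ 2, ?_, ?_⟩
  · have : 0 < 2048 / c ^ 2 := by positivity
    linarith [hK1.2]
  intro K hK t Δ T d p hΔ ht hd hp hp1 htd
  have hc2 : 0 < 2048 / c ^ 2 := by positivity
  have hΔr : (1 : ℝ) ≤ (Δ : ℝ) := by exact_mod_cast hΔ
  have hKpos : 0 < K := by linarith [hK1.2]
  have hKd : K ≤ d := by
    have h1 : K * Δ / d ≤ 1 := hp.trans hp1
    rw [div_le_one hd] at h1
    nlinarith
  have hdd0 : d0 ≤ d := by linarith [hK1.2]
  have hdc2 : 2048 / c ^ 2 ≤ d := by linarith [hK1.2]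
  have hdc2' : 2048 ≤ c ^ 2 * d := by
    rw [div_le_iff₀ (by positivity)] at hdc2
    linarith
  have hcd : 2048 ≤ c * d := by
    have : c ^ 2 * d ≤ c * d := by
      refine mul_le_mul_of_nonneg_right ?_ hd.le
      nlinarith
    linarith
  have hp0 : 0 ≤ p := le_trans (by positivity) hp
  -- r
  obtain ⟨r, hr⟩ : ∃ r : ℝ, r = p / (3 * Δ) := ⟨_, rfl⟩
  have hr0 : 0 ≤ r := by rw [hr]; positivity
  have hr3 : r ≤ 1 / 3 := by
    rw [hr, div_le_div_iff₀ (by positivity) (by norm_num)]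
    linarith
  have hlay : 1 - (1 - r) ^ (3 * Δ) ≤ p := by
    have h1 := one_add_mul_le_pow (show (-2 : ℝ) ≤ -r by linarith) (3 * Δ)
    have h2 : ((3 * Δ : ℕ) : ℝ) * r = p := by
      rw [hr]
      push_cast
      field_simp
    have h3 : 1 + -r = 1 - r := by ring
    rw [h3] at h1
    linarith
  -- m
  obtain ⟨m, hm⟩ : ∃ m : ℕ, m = ⌊c / 512 * ((1 - c / 8) * d)⌋₊ := ⟨_, rfl⟩
  have hx0 : 0 ≤ c / 512 * ((1 - c / 8) * d) := by
    have : 0 ≤ 1 - c / 8 := by linarith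
    positivity
  have hma : (m : ℝ) ≤ c / 512 * ((1 - c / 8) * d) := by
    rw [hm]; exact Nat.floor_le hx0
  have hmb : c / 2048 * d ≤ (m : ℝ) := by
    have h1 := Nat.sub_one_lt_floor (c / 512 * ((1 - c / 8) * d))
    rw [hm]
    have h2 : c / 512 * ((1 - c / 8) * d) = c * d / 512 * (1 - c / 8) := by ring
    have h3 : c * d / 512 * (1 / 2) ≤ c * d / 512 * (1 - c / 8) :=
      mul_le_mul_of_nonneg_left (by linarith) (by positivity)
    linarith
  have hm1 : 1 ≤ m := by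
    have h1 : (1 : ℝ) ≤ (m : ℝ) := by linarith
    exact_mod_cast h1
  -- w
  obtain ⟨w, hw⟩ : ∃ w : ℕ, w = ⌊c * d / 8⌋₊ := ⟨_, rfl⟩
  have hwa : (w : ℝ) ≤ c * d / 8 := by
    rw [hw]; exact Nat.floor_le (by positivity)
  have hwb : c * d / 16 ≤ (w : ℝ) := by
    have h1 := Nat.sub_one_lt_floor (c * d / 8)
    rw [hw]
    linarith
  have hw1 : 1 ≤ w := by
    have h1 : (1 : ℝ) ≤ (w : ℝ) := by linarith
    exact_mod_cast h1
  -- q
  obtain ⟨q, hq⟩ : ∃ q : ℝ, q = (1 - r) ^ m := ⟨_, rfl⟩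
  have hqpos : 0 < q := by rw [hq]; exact pow_pos (by linarith) _
  have hqq1 : q ≤ q1 := by
    refine le_trans ?_ hK1.1
    have h1 : 1 - r ≤ Real.exp (-r) := by
      have := Real.add_one_le_exp (-r)
      linarith
    calc q = (1 - r) ^ m := hq
      _ ≤ Real.exp (-r) ^ m := pow_le_pow_left₀ (by linarith) h1 _
      _ = Real.exp (-(r * m)) := by
          rw [← Real.exp_nat_mul]
          congr 1
          ring
      _ ≤ Real.exp (-(K1 * c / 8192)) := by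
          refine Real.exp_le_exp.2 (neg_le_neg ?_)
          have h2 : K / (3 * d) ≤ r := by
            rw [hr, le_div_iff₀ (by positivity)]
            calc K / (3 * d) * (3 * Δ) = K * Δ / d := by field_simp
              _ ≤ p := hp
          calc K1 * c / 8192 ≤ K * c / 6144 := by
                have h3 : K1 * c ≤ K * c := mul_le_mul_of_nonneg_right (by linarith) hc.le
                have h4 : 0 ≤ K * c := by positivity
                linarith
            _ = K / (3 * d) * (c / 2048 * d) := by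
                field_simp
                norm_num
            _ ≤ r * m := mul_le_mul h2 hmb (by positivity) hr0
  have hqc : q ≤ c / 100 := hqq1.trans hq1c
  have hq2 : q ^ 2 ≤ c / 10000 := by
    calc q ^ 2 ≤ (c / 100) ^ 2 := pow_le_pow_left₀ hqpos.le hqc 2
      _ = c * c / 10000 := by ring
      _ ≤ c / 10000 := by
          have : c * c ≤ c * 1 := mul_le_mul_of_nonneg_left hc1.le hc.le
          linarith
  have hq2' : 0 ≤ q ^ 2 := sq_nonneg _
  have hx : 32 * q ^ 2 ≤ 1 / 2 := by linarith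
  have hxΔ : (Δ : ℝ) * (32 * q ^ 2) ^ Δ ≤ 32 * q ^ 2 :=
    mul_pow_le Δ hΔ (32 * q ^ 2) (by positivity) hx
  have hxΔ' : (32 * q ^ 2) ^ Δ ≤ 32 * q ^ 2 := by
    have h1 : 0 ≤ (32 * q ^ 2) ^ Δ := by positivity
    have h2 : 1 * (32 * q ^ 2) ^ Δ ≤ (Δ : ℝ) * (32 * q ^ 2) ^ Δ :=
      mul_le_mul_of_nonneg_right hΔr h1
    linarith
  -- n
  have hn : 4 * (t + w) - 1 + 1 = 4 * (t + w) := by omega
  have hv1 := hval t Δ w T d q hdd0 hΔ htd hwb hwa hqpos.le (hqq1.trans hq1q0)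
    ((3 * Δ + 2) * (t + w + 1)) le_rfl
  have hv2 := val_cap_init T (3 * Δ) w hqpos (by linarith) ((3 * Δ + 2) * (t + w + 1))
  have hv3 := pow_hundred (t + w) (by omega)
  have hv4 : (1 : ℝ) / ((t + w : ℕ) : ℝ) ≤ c / 32 := by
    have h1 : (0 : ℝ) < ((t + w : ℕ) : ℝ) := by
      have : 0 < t + w := by omega
      exact_mod_cast this
    rw [div_le_div_iff₀ h1 (by norm_num)]
    push_cast
    have h2 : c * (c * d / 16) ≤ c * ((t : ℝ) + w) := by
      refine mul_le_mul_of_nonneg_left ?_ hc.le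
      have : (0 : ℝ) ≤ t := Nat.cast_nonneg _
      linarith
    have h3 : c * (c * d / 16) = c ^ 2 * d / 16 := by ring
    linarith
  have htw : (t : ℝ) + w ≤ d := by
    have h1 : (t : ℝ) ≤ d - c * d := by linarith
    have h2 : 0 ≤ c * d := by positivity
    linarith
  refine ⟨w, m, 4 * (t + w) - 1, 4 * (t + w) * m, r, hr0, by linarith, hm1, hma, ?_, ?_, ?_, ?_,
    ?_, ?_, hlay⟩
  · rw [← hq]
    linarith
  · rw [← hq]
    have h1 : 3 * (Δ : ℝ) * (32 * q ^ 2) ^ Δ = 3 * ((Δ : ℝ) * (32 * q ^ 2) ^ Δ) := by ring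
    rw [h1]
    linarith
  · exact Nat.mul_le_mul_right m (Nat.sub_le _ _)
  · push_cast
    have hm2 : (m : ℝ) ≤ d / 4 := by
      have h2 : c / 512 * ((1 - c / 8) * d) = c * (1 - c / 8) * d / 512 := by ring
      have h3 : c * (1 - c / 8) ≤ 1 := by nlinarith
      have h4 : c * (1 - c / 8) * d ≤ 1 * d := mul_le_mul_of_nonneg_right h3 hd.le
      linarith
    have h5 : 0 ≤ (t : ℝ) + w := by positivity
    calc 4 * ((t : ℝ) + w) * m ≤ 4 * d * (d / 4) :=
          mul_le_mul (by linarith) hm2 (Nat.cast_nonneg _) (by linarith)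
      _ = d ^ 2 := by ring
  · have h1 : (1 - c / 2) * ((1 - c / 8) * d) = d - 5 / 8 * (c * d) + c ^ 2 * d / 16 := by ring
    rw [h1]
    have h2 : (t : ℝ) ≤ d - c * d := by linarith
    have h3 : 0 ≤ c ^ 2 * d := by positivity
    linarith
  · rw [← hq, hn]
    have h1 : 3 * (32 * q ^ 2) ^ Δ ≤ 96 * q ^ 2 := by linarith
    linarith

/-- Hosts with many more vertices than the average degree. -/
theorem attempts (c : ℝ) (hc : 0 < c) (hc1 : c < 1) : ∃ K0 : ℝ, 1 ≤ K0 ∧ ∀ K : ℝ, K0 ≤ K →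
    ∀ ε : ℝ, 0 < ε → ∃ C0 : ℝ, 1 ≤ C0 ∧ ∀ (V : Type) [Fintype V] [DecidableEq V]
      (t Δ : ℕ) (T : TD t Δ) (E : Finset (Sym2 V)) (d p : ℝ),
      (∀ x, s(x, x) ∉ E) → 1 ≤ Δ → 2 ≤ t → 0 < d → d / 2 * Fintype.card V ≤ E.card →
      C0 * d ≤ Fintype.card V → K * Δ / d ≤ p → p ≤ 1 → (t : ℝ) ≤ (1 - c) * d →
      pr p E (fun F => ¬ Emb T F) ≤ ε := by
  obtain ⟨K1, hK1, hnum⟩ := attempt_numbers c hc hc1
  obtain ⟨d₁, hd₁, hst⟩ := starts c hc hc1
  refine ⟨max K1 (2 * d₁), le_max_of_le_left hK1, fun K hK ε hε => ?_⟩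
  have hKK1 : K1 ≤ K := (le_max_left _ _).trans hK
  have hKd₁ : 2 * d₁ ≤ K := (le_max_right _ _).trans hK
  obtain ⟨J, hJ⟩ : ∃ J : ℕ, (1 - c / 8) ^ J < ε :=
    exists_pow_lt_of_lt_one hε (by linarith)
  refine ⟨1 + 16 * J / c, by
    have : 0 ≤ 16 * (J : ℝ) / c := by positivity
    linarith, ?_⟩
  intro V _ _ t Δ T E d p hl hΔ ht hd hE hCn hp hp1 htd
  obtain ⟨w, m, n, M, r, hr0, hr1, hm, hmd, hq, hβ, hM, hMd, htw, hval, hlay⟩ :=
    hnum K hKK1 t Δ T d p hΔ (by omega) hd hp hp1 htd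
  have hKpos : 0 < K := by linarith
  have hΔr : (1 : ℝ) ≤ (Δ : ℝ) := by exact_mod_cast hΔ
  have hKd : K ≤ d := by
    have h1 : K * Δ / d ≤ 1 := hp.trans hp1
    rw [div_le_one hd] at h1
    nlinarith
  set d' : ℝ := (1 - c / 8) * d with hd'
  have hd'1 : d₁ ≤ d' := by
    rw [hd']
    have h1 : (1 / 2) * d ≤ (1 - c / 8) * d := mul_le_mul_of_nonneg_right (by linarith) hd.le
    linarith
  have hnpos : (0 : ℝ) < Fintype.card V := by
    have h1 : 0 < (1 + 16 * J / c) * d := by positivity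
    linarith
  have hV : 0 < Fintype.card V := by exact_mod_cast hnpos
  have hmain : ∀ (j : ℕ) (E' : Finset (Sym2 V)), E' ⊆ E →
      d' * Fintype.card V + 2 * j * M ≤ 2 * E'.card → nc T r E' ≤ (1 - c / 8) ^ j := by
    intro j
    induction j with
    | zero =>
      intro E' _ _
      rw [pow_zero]
      exact nc_le_one T hr0 hr1 E'
    | succ j ih =>
      intro E' hE' hcard
      have hl' : ∀ x, s(x, x) ∉ E' := fun x h => hl x (hE' h)
      have hjM : (0 : ℝ) ≤ 2 * ((j + 1 : ℕ) : ℝ) * M := by positivity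
      obtain ⟨N, hN, hsym, hirr, hD, hpn⟩ := hst V E' d' m hl' hd'1 (by linarith) hm hmd hV
      rw [pow_succ]
      refine attempt_one T (by omega) hΔ w m n M hr0 hr1 hm hq hβ hM E' N hN hirr hD (1 - c / 4)
        (1 - c / 8) ((1 - c / 8) ^ j) (by
          have : 0 ≤ 1 - c / 8 := by linarith
          positivity) ?_ hval ?_
      · intro q hq k hk
        refine hpn q hq k ?_ (fun y z => fun j => if j = 0 then z else y) (by
          intro y z _
          simp)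
        have h1 : (k : ℝ) + 2 ≤ (t : ℝ) + w + 1 := by exact_mod_cast hk
        linarith
      · intro E'' hE'' hc''
        refine ih E'' (hE''.trans hE') ?_
        have h1 : (E' \ E'').card + E''.card = E'.card := card_sdiff_add_card_eq_card hE''
        have h2 : ((E' \ E'').card : ℝ) + E''.card = E'.card := by exact_mod_cast h1
        have h3 : ((E' \ E'').card : ℝ) ≤ M := by exact_mod_cast hc''
        push_cast at hcard
        linarith
  have hfin : d' * Fintype.card V + 2 * J * M ≤ 2 * E.card := by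
    have h1 : 2 * (J : ℝ) * M ≤ 2 * J * d ^ 2 := mul_le_mul_of_nonneg_left hMd (by positivity)
    have h2 : 16 * (J : ℝ) / c * d ≤ Fintype.card V := by
      have : (1 + 16 * (J : ℝ) / c) * d = d + 16 * (J : ℝ) / c * d := by ring
      linarith
    have h3 : 2 * (J : ℝ) * d ^ 2 ≤ c / 8 * d * Fintype.card V := by
      have h4 : c / 8 * d * (16 * (J : ℝ) / c * d) ≤ c / 8 * d * Fintype.card V :=
        mul_le_mul_of_nonneg_left h2 (by positivity)
      have h5 : c / 8 * d * (16 * (J : ℝ) / c * d) = 2 * J * d ^ 2 := by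
        field_simp
        ring
      linarith
    have h6 : d' * Fintype.card V = d * Fintype.card V - c / 8 * d * Fintype.card V := by
      rw [hd']
      ring
    linarith
  have h := hmain J E (Finset.Subset.refl _) hfin
  have hle := lay_emb T hr0 hr1 hp1 (3 * Δ) hlay E
  exact (hle.trans h).trans hJ.le

end Pool.Agent.Lib.MP_56e41f_co.FQ
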