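import Pool.Agent.Lib.MP_56e41f_co.ValEq

/-!
# The number of requests
-/

open Finset

namespace Pool.Agent.Lib.MP_56e41f_co.FQ

variable {t Δ : ℕ}

private theorem cap_bd (T : TD t Δ) (B w : ℕ) {q : ℝ} (hq0 : 0 ≤ q) (hq : q ≤ 1) (n : ℕ) :
    ∀ s : St t, 0 ≤ val T B w q n s ∧ val T B w q n s ≤ 1 := by
  induction n with
  | zero =>
    intro s
    rw [val]
    exact ⟨ind_nonneg _, ind_le_one _⟩
  | succ n ih =>
    intro s
    rw [val]
    cases act T B w s with
    | stop => exact ⟨ind_nonneg _, ind_le_one _⟩
    | root v => exact ih _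
    | rem u => exact ih _
    | ask v u x =>
      obtain ⟨h1, h2⟩ := ih (succSt T s v u x)
      obtain ⟨h3, h4⟩ := ih (failSt s u x)
      simp only
      constructor
      · have := mul_nonneg (sub_nonneg.mpr hq) h1
        have := mul_nonneg hq0 h3
        linarith
      · have h5 := mul_le_mul_of_nonneg_left h2 (sub_nonneg.mpr hq)
        have h6 := mul_le_mul_of_nonneg_left h4 hq0
        linarith

private theorem cap_one (T : TD t Δ) (B w : ℕ) {q : ℝ} {s : St t} {v : Fin t}
    (h : s.nxt = some v) : val T B w q 0 s = 1 := by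
  rw [val, h]
  exact ind_true (by simp)

private theorem cap_len {T : TD t Δ} {B w : ℕ} {s : St t} {v : Fin t} (hS : Str T B s)
    (h : s.nxt = some v) (hd : s.dead ≤ w) : s.tch.length + 1 ≤ t + w := by
  have h1 := valeq_alive_lt (nxt_eq_some h).1
  have h2 := hS.alive_le
  unfold St.dead at hd
  omega

/-- Not finishing in `n` steps costs little: induction on `n` with the potential
`(3/2)^n (2q)^(n - r)`, `r = 2 (t + w - |tch|) + alive` decreases in every step which is not a
failed request; `(1 - q) + q / (2q) ≤ 3/2`; `n = 0`: the last term is at least `1`; at a final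
state all values agree. -/
theorem val_cap (T : TD t Δ) (B w : ℕ) {q : ℝ} (hq0 : 0 < q) (hq : q ≤ 1 / 2) (n N : ℕ)
    (s : St t) (hS : Str T B s) (hl : s.tch.length ≤ t + w) :
    val T B w q n s ≤ val T B w q N s +
      (3 / 2) ^ n * (2 * q) ^ ((n : ℤ) - ((2 * (t + w - s.tch.length) + s.alive : ℕ) : ℤ)) := by
  have h2q : 0 < 2 * q := by linarith
  have h2q1 : 2 * q ≤ 1 := by linarith
  have hq1 : q ≤ 1 := by linarith
  induction n generalizing N s with
  | zero =>
    have h1 := (cap_bd T B w hq0.le hq1 0 s).2
    have h2 := (cap_bd T B w hq0.le hq1 N s).1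
    have h3 : 1 ≤ (2 * q) ^ (((0 : ℕ) : ℤ) - ((2 * (t + w - s.tch.length) + s.alive : ℕ) : ℤ)) :=
      one_le_zpow_of_nonpos₀ h2q h2q1 (by push_cast; omega)
    rw [pow_zero, one_mul]
    linarith
  | succ n ih =>
    have hpos : ∀ z : ℤ, 0 < (3 / 2 : ℝ) ^ n * (2 * q) ^ z := fun z => by positivity
    obtain ⟨r, hr⟩ : ∃ r : ℕ, r = 2 * (t + w - s.tch.length) + s.alive := ⟨_, rfl⟩
    rw [← hr]
    have hstep : ∀ r' : ℕ, r' + 1 ≤ r → (3 / 2 : ℝ) ^ n * (2 * q) ^ ((n : ℤ) - (r' : ℤ)) ≤
        (3 / 2) ^ (n + 1) * (2 * q) ^ (((n + 1 : ℕ) : ℤ) - (r : ℤ)) := by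
      intro r' hr'
      have h1 : (2 * q) ^ ((n : ℤ) - (r' : ℤ)) ≤ (2 * q) ^ (((n + 1 : ℕ) : ℤ) - (r : ℤ)) :=
        zpow_le_zpow_right_of_le_one₀ h2q h2q1 (by push_cast; omega)
      have h2 : (3 / 2 : ℝ) ^ n ≤ (3 / 2) ^ (n + 1) := by
        rw [pow_succ]
        have := pow_pos (show (0 : ℝ) < 3 / 2 by norm_num) n
        linarith
      exact mul_le_mul h2 h1 (by positivity) (by positivity)
    have hrhs : 0 < (3 / 2 : ℝ) ^ (n + 1) * (2 * q) ^ (((n + 1 : ℕ) : ℤ) - (r : ℤ)) := by
      positivity
    have hone := (cap_bd T B w hq0.le hq1 (n + 1) s).2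
    cases hact : act T B w s with
    | stop =>
      have e1 : val T B w q (n + 1) s = ind (s.nxt ≠ none) := by rw [val, hact]
      have e2 : val T B w q N s = ind (s.nxt ≠ none) := by
        cases N with
        | zero => rw [val]
        | succ N => rw [val, hact]
      rw [e1, e2]
      linarith
    | root v =>
      obtain ⟨hn, hd, -⟩ := act_root T B w hact
      have hlen := cap_len hS hn hd
      cases N with
      | zero =>
        rw [cap_one T B w hn]
        linarith
      | succ N =>
        have e1 : ∀ k, val T B w q (k + 1) s = val T B w q k (placeRoot s v) := by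
          intro k
          rw [val, hact]
        have h1 := ih N (placeRoot s v) (Str_root T B w s v hS hact) (by
          simp only [placeRoot, List.length_cons]; omega)
        rw [e1, e1]
        refine h1.trans ?_
        have h2 := alive_placeRoot s v (nxt_eq_some hn).1
        have h3 : (placeRoot s v).tch.length = s.tch.length + 1 := rfl
        have h4 := hstep (2 * (t + w - (placeRoot s v).tch.length) + (placeRoot s v).alive) (by
          rw [h2, h3, hr]; omega)
        linarith
    | rem u =>
      obtain ⟨v, x, hn, hd, hv0, huv, hx, hask⟩ := act_rem T B w hact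
      cases N with
      | zero =>
        rw [cap_one T B w hn]
        linarith
      | succ N =>
        have e1 : ∀ k, val T B w q (k + 1) s = val T B w q k (remSt T s u) := by
          intro k
          rw [val, hact]
        have h1 := ih N (remSt T s u) (Str_rem T B w s u hS hact) hl
        rw [e1, e1]
        refine h1.trans ?_
        have h2 := alive_remSt T s u
        have h3 : (remSt T s u).tch.length = s.tch.length := rfl
        classical
        have h5 : 0 < (univ.filter (fun z => T.desc u z ∧ (s.f z).isSome)).card := by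
          refine card_pos.mpr ⟨u, mem_filter.mpr ⟨mem_univ _, T.desc_refl u, ?_⟩⟩
          rw [hx]
          rfl
        have h4 := hstep (2 * (t + w - (remSt T s u).tch.length) + (remSt T s u).alive) (by
          have h6 : (remSt T s u).alive + 1 ≤ s.alive := by
            rw [← h2]
            refine Nat.add_le_add_left (le_trans h5 (le_of_eq ?_)) _
            congr
          rw [h3, hr]; omega)
        linarith
    | ask v u x =>
      obtain ⟨hn, hd, hv0, huv, hx, hask⟩ := act_ask T B w hact
      have hlen := cap_len hS hn hd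
      cases N with
      | zero =>
        rw [cap_one T B w hn]
        linarith
      | succ N =>
        have e1 : ∀ k, val T B w q (k + 1) s = (1 - q) * val T B w q k (succSt T s v u x) +
            q * val T B w q k (failSt s u x) := by
          intro k
          rw [val, hact]
        have h1 := ih N (succSt T s v u x) (Str_succ T B w s v u x hS hact) (by
          simp only [succSt, List.length_cons]; omega)
        have h2 := ih N (failSt s u x) (Str_fail T B w s v u x hS hact) hl
        have hne : u ≠ v := by
          rw [huv]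
          exact (T.par_lt v hv0).ne
        have h3 := alive_succSt T s v u x (nxt_eq_some hn).1 hx hne
        have h4 : (succSt T s v u x).tch.length = s.tch.length + 1 := rfl
        have h5 := alive_failSt s u x hx
        have h6 : (failSt s u x).tch.length = s.tch.length := rfl
        have i1 : (n : ℤ) - ((2 * (t + w - (succSt T s v u x).tch.length) +
            (succSt T s v u x).alive : ℕ) : ℤ) = ((n + 1 : ℕ) : ℤ) - (r : ℤ) := by
          rw [h3, h4, hr]
          push_cast
          omega
        have i2 : (n : ℤ) - ((2 * (t + w - (failSt s u x).tch.length) +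
            (failSt s u x).alive : ℕ) : ℤ) = (((n + 1 : ℕ) : ℤ) - (r : ℤ)) - 1 := by
          rw [h5, h6, ← hr]
          push_cast
          omega
        rw [i1] at h1
        rw [i2, zpow_sub_one₀ h2q.ne'] at h2
        rw [e1, e1, pow_succ]
        set X : ℝ := (2 * q) ^ (((n + 1 : ℕ) : ℤ) - (r : ℤ)) with hX
        have hX0 : 0 < X := by positivity
        have hY0 : 0 < (3 / 2 : ℝ) ^ n * X := by positivity
        have h7 := mul_le_mul_of_nonneg_left h1 (sub_nonneg.mpr hq1)
        have h8 := mul_le_mul_of_nonneg_left h2 hq0.le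
        have h9 : q * (val T B w q N (failSt s u x) + (3 / 2 : ℝ) ^ n * (X * (2 * q)⁻¹)) =
            q * val T B w q N (failSt s u x) + (3 / 2 : ℝ) ^ n * X / 2 := by
          field_simp
        have h10 : (1 - q) * (val T B w q N (succSt T s v u x) + (3 / 2 : ℝ) ^ n * X) ≤
            (1 - q) * val T B w q N (succSt T s v u x) + (3 / 2 : ℝ) ^ n * X := by
          have : 0 ≤ q * ((3 / 2 : ℝ) ^ n * X) := by positivity
          linarith
        rw [h9] at h8
        have h11 : (3 / 2 : ℝ) ^ n * (3 / 2) * X = (3 / 2 : ℝ) ^ n * X + (3 / 2 : ℝ) ^ n * X / 2 := by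
          ring
        rw [h11]
        linarith

theorem val_cap_init (T : TD t Δ) (B w : ℕ) {q : ℝ} (hq0 : 0 < q) (hq : q ≤ 1 / 100) (N : ℕ) :
    val T B w q (4 * (t + w)) (init t) ≤ val T B w q N (init t) + (1 / 100) ^ (t + w) := by
  have h1 := val_cap T B w hq0 (by linarith) (4 * (t + w)) N (init t) (Str_init T B) (by
    simp [init])
  refine h1.trans ?_
  have h2 : (init t).alive = 0 := by
    simp [St.alive, init]
  have h3 : (init t).tch.length = 0 := rfl
  rw [h2, h3, Nat.sub_zero, add_zero]
  have h4 : (((4 * (t + w) : ℕ) : ℤ) - ((2 * (t + w) : ℕ) : ℤ)) = ((2 * (t + w) : ℕ) : ℤ) := by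
    push_cast
    ring
  rw [h4, zpow_natCast, pow_mul, pow_mul, ← mul_pow]
  refine add_le_add le_rfl (pow_le_pow_left₀ (by positivity) ?_ _)
  nlinarith

end Pool.Agent.Lib.MP_56e41f_co.FQ
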