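import Pool.Agent.Lib.MP_56e41f_co.FQ.Defs

/-!
# Layers
-/

open Finset

namespace Pool.Agent.Lib.MP_56e41f_co.FQ

variable {α : Type*} [DecidableEq α]

/-- More edges with larger probability: `f` antitone. -/
theorem ex_anti_p {p p' : ℝ} (h0 : 0 ≤ p) (hp : p ≤ p') (h1 : p' ≤ 1) (E : Finset α)
    {f : Finset α → ℝ} (hf : ∀ W W', W ⊆ W' → f W' ≤ f W) : ex p' E f ≤ ex p E f := by
  induction E using Finset.induction_on generalizing f with
  | empty => rw [ex_empty, ex_empty]
  | insert a A ha ih =>
    rw [ex_insert p' A a ha, ex_insert p A a ha]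
    have hA : ex p' A (fun F => f (insert a F)) ≤ ex p A (fun F => f (insert a F)) :=
      ih (fun W W' h => hf _ _ (Finset.insert_subset_insert a h))
    have hB : ex p' A f ≤ ex p A f := ih hf
    have hC : ex p' A (fun F => f (insert a F)) ≤ ex p' A f :=
      ex_mono (le_trans h0 hp) h1 A (fun F _ => hf _ _ (Finset.subset_insert a F))
    have e1 := mul_nonneg (sub_nonneg.2 hp) (sub_nonneg.2 hC)
    have e2 := mul_nonneg h0 (sub_nonneg.2 hA)
    have e3 := mul_nonneg (sub_nonneg.2 (le_trans hp h1)) (sub_nonneg.2 hB)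
    nlinarith [e1, e2, e3]

private theorem lay_one (r : ℝ) (e : α) (B : ℕ) (g : Finset α → ℝ) :
    ex r (({e} : Finset α) ×ˢ range B) (fun W => g (W.image Prod.fst)) =
      (1 - (1 - r) ^ B) * g {e} + (1 - r) ^ B * g ∅ := by
  induction B with
  | zero =>
    rw [Finset.range_zero, Finset.product_empty, ex_empty, Finset.image_empty]
    simp
  | succ B ih =>
    have h1 : ({e} : Finset α) ×ˢ range (B + 1) = insert (e, B) (({e} : Finset α) ×ˢ range B) := by
      ext ⟨x, j⟩
      simp only [mem_product, mem_singleton, mem_range, mem_insert, Prod.mk.injEq]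
      constructor
      · rintro ⟨rfl, h⟩
        rcases Nat.lt_succ_iff_lt_or_eq.1 h with h | h
        · exact Or.inr ⟨rfl, h⟩
        · exact Or.inl ⟨rfl, h⟩
      · rintro (⟨rfl, rfl⟩ | ⟨rfl, h⟩)
        · exact ⟨rfl, Nat.lt_succ_self _⟩
        · exact ⟨rfl, Nat.lt_succ_of_lt h⟩
    have h2 : (e, B) ∉ (({e} : Finset α) ×ˢ range B) := by
      simp
    rw [h1, ex_insert r _ _ h2, ih]
    have h3 : ex r (({e} : Finset α) ×ˢ range B)
        (fun F => g ((insert (e, B) F).image Prod.fst)) = g {e} := by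
      rw [ex_congr r _ (g := fun _ => g {e}), ex_const]
      intro F hF
      congr 1
      ext x
      simp only [mem_image, mem_insert, mem_singleton, Prod.exists]
      constructor
      · rintro ⟨y, j, h | h, rfl⟩
        · exact (Prod.mk.inj h).1
        · have := hF h
          rw [mem_product, mem_singleton] at this
          exact this.1
      · rintro rfl
        exact ⟨x, B, Or.inl rfl, rfl⟩
    rw [h3]
    ring

/-- The projection of the layered random set is a random set of density `1 - (1 - r) ^ B`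
(induction on `E`: `(insert e E) ×ˢ range B` is the disjoint union of `{e} ×ˢ range B` and
`E ×ˢ range B`, `ex_union`, `ex_insert`). -/
theorem ex_proj (r : ℝ) (E : Finset α) (B : ℕ) (f : Finset α → ℝ) :
    ex r (E ×ˢ range B) (fun W => f (W.image Prod.fst)) = ex (1 - (1 - r) ^ B) E f := by
  induction E using Finset.induction_on generalizing f with
  | empty =>
    rw [Finset.empty_product, ex_empty, ex_empty, Finset.image_empty]
  | insert a A ha ih =>
    have h1 : (insert a A) ×ˢ range B = (({a} : Finset α) ×ˢ range B) ∪ (A ×ˢ range B) := by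
      rw [Finset.insert_eq, Finset.union_product]
    have h2 : Disjoint (({a} : Finset α) ×ˢ range B) (A ×ˢ range B) := by
      rw [Finset.disjoint_left]
      rintro ⟨x, j⟩ hx hy
      rw [mem_product, mem_singleton] at hx
      rw [mem_product] at hy
      exact ha (hx.1 ▸ hy.1)
    rw [h1, ex_union r _ _ h2]
    have h3 : ∀ F : Finset (α × ℕ), ex r (A ×ˢ range B) (fun F' => f ((F ∪ F').image Prod.fst)) =
        ex (1 - (1 - r) ^ B) A (fun G => f (F.image Prod.fst ∪ G)) := by
      intro F
      rw [← ih (fun G => f (F.image Prod.fst ∪ G))]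
      refine ex_congr r _ (fun F' _ => ?_)
      rw [Finset.image_union]
    simp only [h3]
    rw [lay_one r a B (fun H => ex (1 - (1 - r) ^ B) A (fun G => f (H ∪ G))),
      ex_insert _ A a ha]
    simp only [Finset.empty_union, sub_sub_cancel, ← Finset.insert_eq]

variable {V : Type*} [Fintype V] [DecidableEq V] {t Δ : ℕ}

theorem lay_emb (T : TD t Δ) {p r : ℝ} (hr0 : 0 ≤ r) (hr1 : r ≤ 1) (hp1 : p ≤ 1) (B : ℕ)
    (hr : 1 - (1 - r) ^ B ≤ p) (E : Finset (Sym2 V)) :
    pr p E (fun F => ¬ Emb T F) ≤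
      ex r (E ×ˢ range B) (fun W => ind (¬ Emb2 T W)) := by
  have h1 : ∀ W : Finset (Sym2 V × ℕ), Emb2 T W ↔ Emb T (W.image Prod.fst) := by
    intro W
    unfold Emb2 Emb
    refine exists_congr (fun φ => and_congr_right (fun _ => forall_congr' (fun i =>
      forall_congr' (fun _ => ?_))))
    rw [mem_image]
    constructor
    · rintro ⟨j, hj⟩
      exact ⟨_, hj, rfl⟩
    · rintro ⟨⟨e, j⟩, hj, he⟩
      refine ⟨j, ?_⟩
      simp only at he
      rw [← he]
      exact hj
  have h2 : ex r (E ×ˢ range B) (fun W => ind (¬ Emb2 T W)) =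
      ex (1 - (1 - r) ^ B) E (fun F => ind (¬ Emb T F)) := by
    rw [← ex_proj r E B (fun F => ind (¬ Emb T F))]
    refine ex_congr r _ (fun W _ => ?_)
    rw [h1 W]
  rw [h2, pr]
  have h3 : 0 ≤ 1 - (1 - r) ^ B :=
    sub_nonneg.2 (pow_le_one₀ (by linarith) (by linarith))
  refine ex_anti_p h3 hr hp1 E ?_
  intro W W' hW
  refine ind_mono (fun h h' => h ?_)
  obtain ⟨φ, hφ, hφ'⟩ := h'
  exact ⟨φ, hφ, fun i hi => hW (hφ' i hi)⟩

end Pool.Agent.Lib.MP_56e41f_co.FQ
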