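import Pool.Agent.Lib.MP_56e41f_co.FQ.QdA
import Pool.Agent.Lib.MP_56e41f_co.StrRun

/-!
# The list of the used labels
-/

open Finset

namespace Pool.Agent.Lib.MP_56e41f_co.FQ

variable {t Δ : ℕ}

/-- Properties of a list of labels in order of use. -/
structure Oko (B : ℕ) (ls : List Lab) : Prop where
  nd : ls.Nodup
  nn : [] ∉ ls
  sl : ∀ j a, j :: a ∈ ls → a ≠ [] → j < B
  /-- parents first -/
  pf : ls.Pairwise (fun a b => a.tail ≠ b)
  cl : ∀ j a, j :: a ∈ ls → a ≠ [] → a ∈ ls

private theorem qdc_step_tch (T : TD t Δ) (B w : ℕ) (F : Finset Lab) (s : St t) :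
    (step T B w F s).tch = s.tch ∨ ∃ l, (step T B w F s).tch = l :: s.tch := by
  rw [step]
  cases act T B w s with
  | stop => left; rfl
  | root v => right; exact ⟨_, rfl⟩
  | rem u => left; rfl
  | ask v u x =>
    simp only
    split_ifs
    · right; exact ⟨_, rfl⟩
    · left; rfl

private theorem qdc_pair (T : TD t Δ) (B w : ℕ) (F : Finset Lab) (n : ℕ) :
    (run T B w F n (init t)).tch.Pairwise (fun x y => y.tail ≠ x) := by
  induction n with
  | zero => exact List.Pairwise.nil
  | succ n ih =>
    have h0 := Str_run T B w F n
    have h1 := Str_run T B w F (n + 1)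
    rw [run_succ'] at h1 ⊢
    rcases qdc_step_tch T B w F (run T B w F n (init t)) with h | ⟨l, h⟩
    · rw [h]
      exact ih
    · have hnd := h1.nodup
      have hnn := h1.nonnil
      rw [h] at hnd hnn ⊢
      refine List.pairwise_cons.2 ⟨fun y hy hyl => ?_, ih⟩
      have hl : l ≠ [] := fun hl => hnn (by rw [hl]; exact List.mem_cons_self)
      cases y with
      | nil => exact hl hyl.symm
      | cons j a =>
        have hyl' : a = l := hyl
        subst hyl'
        exact (List.nodup_cons.1 hnd).1 (h0.closed j a hy hl)

private theorem qdc_nl (T : TD t Δ) (B w : ℕ) (b : Finset Lab) (n : ℕ) :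
    nl T B w b n (init t) = (run T B w b n (init t)).tch.reverse := by
  have h := nl_tch T B w b n (init t)
  have h2 : (init t).tch = [] := rfl
  rw [h2, List.append_nil] at h
  rw [h, List.reverse_reverse]

/-- `Str_run` for all prefixes of the run, with `nl_tch` -/
theorem nl_ok (T : TD t Δ) (B w : ℕ) (b : Finset Lab) (n : ℕ) :
    Oko B (nl T B w b n (init t)) := by
  have h := Str_run T B w b n
  rw [qdc_nl]
  refine ⟨List.nodup_reverse.2 h.nodup, ?_, ?_, ?_, ?_⟩
  · rw [List.mem_reverse]
    exact h.nonnil
  · intro j a hm ha
    rw [List.mem_reverse] at hm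
    exact h.slotB j a hm ha
  · rw [List.pairwise_reverse]
    exact qdc_pair T B w b n
  · intro j a hm ha
    rw [List.mem_reverse] at hm ⊢
    exact h.closed j a hm ha

/-- If the tree is embedded at the end, the used labels are the labels of the embedded vertices
(of length `dep + 1`) and at most `w` lost labels. -/
theorem nl_cnt (T : TD t Δ) (B w : ℕ) (b : Finset Lab) (n : ℕ)
    (h : (run T B w b n (init t)).nxt = none) (P : ℕ → Bool) :
    ((nl T B w b n (init t)).filter (fun a => P a.length)).length ≤
      (univ.filter (fun i : Fin t => P (T.dep i + 1) = true)).card + w := by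
  classical
  have hS := Str_run T B w b n
  have hlen := tch_le T B w b n
  rw [qdc_nl]
  set s := run T B w b n (init t) with hs
  have hall : ∀ i, ∃ x, s.f i = some x := by
    intro i
    cases hx : s.f i with
    | none => exact absurd hx (nxt_eq_none h i)
    | some x => exact ⟨x, rfl⟩
  choose x hx using hall
  have hnd : s.tch.reverse.Nodup := List.nodup_reverse.2 hS.nodup
  have hcard : (s.tch.reverse.filter (fun a => P a.length)).length =
      (s.tch.toFinset.filter (fun a => P a.length = true)).card := by
    rw [← List.toFinset_card_of_nodup (hnd.filter _), List.toFinset_filter, List.toFinset_reverse]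
  rw [hcard]
  have hinj : Function.Injective (fun i => (x i).lab) := by
    intro i j hij
    exact hS.inj i j (x i) (x j) (hx i) (hx j) hij
  set E : Finset Lab := univ.image (fun i => (x i).lab) with hE
  have hEc : E.card = t := by
    rw [hE, Finset.card_image_of_injective _ hinj, Finset.card_univ, Fintype.card_fin]
  have hES : E ⊆ s.tch.toFinset := by
    intro a ha
    rw [hE, Finset.mem_image] at ha
    obtain ⟨i, -, rfl⟩ := ha
    rw [List.mem_toFinset]
    exact (hS.lab i (x i) (hx i)).1
  have hSc : s.tch.toFinset.card ≤ t + w := le_trans (List.toFinset_card_le _) hlen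
  have hsub : s.tch.toFinset.filter (fun a => P a.length = true) ⊆
      (E.filter (fun a => P a.length = true)) ∪ (s.tch.toFinset \ E) := by
    intro a ha
    rw [Finset.mem_filter] at ha
    rw [Finset.mem_union, Finset.mem_filter, Finset.mem_sdiff]
    by_cases haE : a ∈ E
    · exact Or.inl ⟨haE, ha.2⟩
    · exact Or.inr ⟨ha.1, haE⟩
  have h1 : (E.filter (fun a => P a.length = true)).card ≤
      (univ.filter (fun i : Fin t => P (T.dep i + 1) = true)).card := by
    have h2 : E.filter (fun a => P a.length = true) ⊆
        (univ.filter (fun i : Fin t => P (T.dep i + 1) = true)).image (fun i => (x i).lab) := by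
      intro a ha
      rw [Finset.mem_filter, hE, Finset.mem_image] at ha
      obtain ⟨⟨i, -, rfl⟩, hP⟩ := ha
      rw [Finset.mem_image]
      refine ⟨i, ?_, rfl⟩
      rw [Finset.mem_filter]
      refine ⟨Finset.mem_univ _, ?_⟩
      rw [← (hS.lab i (x i) (hx i)).2.1]
      exact hP
    exact le_trans (Finset.card_le_card h2) Finset.card_image_le
  have h3 : (s.tch.toFinset \ E).card ≤ w := by
    have h4 := Finset.card_sdiff_add_card_eq_card hES
    omega
  calc (s.tch.toFinset.filter (fun a => P a.length = true)).card
      ≤ ((E.filter (fun a => P a.length = true)) ∪ (s.tch.toFinset \ E)).card :=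
        Finset.card_le_card hsub
    _ ≤ (E.filter (fun a => P a.length = true)).card + (s.tch.toFinset \ E).card :=
        Finset.card_union_le _ _
    _ ≤ _ := Nat.add_le_add h1 h3

end Pool.Agent.Lib.MP_56e41f_co.FQ
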