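import Pool.Agent.Lib.MP_56e41f_co.FQ.QvB
import Pool.Agent.Lib.MP_56e41f_co.FQ.QdC

/-!
# The machine with the card process, start with all cards
-/

open Finset

namespace Pool.Agent.Lib.MP_56e41f_co.FQ

variable {V : Type*} [Fintype V] [DecidableEq V] {t Δ : ℕ}

/-- `Qv_eq` with `R = B + t + w + 1`, `Λ = t + 1`, `val_eq`; for every set of bits
`Qd ≤ ind (nxt ≠ none) + C` by `Qd_le_one` or `Qd_le_pv`. -/
theorem Qv_forest (T : TD t Δ) (B w : ℕ) {q : ℝ} (hq0 : 0 ≤ q) (hq1 : q ≤ 1)
    (N : Lab → V → Finset V) (m : ℕ) (hm : 1 ≤ m) (n : ℕ) (φ : Lab → V) (F : Finset V) (C : ℝ)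
    (hC0 : 0 ≤ C)
    (hC : ∀ ls : List Lab, Oko B ls →
      (∀ P : ℕ → Bool, (ls.filter (fun a => P a.length)).length ≤
        (univ.filter (fun i : Fin t => P (T.dep i + 1) = true)).card + w) →
      pv N m ls φ F ≤ C) :
    Qv T B w q N m n (init t) φ F ≤ val T B w q n (init t) + C := by
  have hl : (init t).tch.length ≤ t + w := by simp [init]
  rw [Qv_eq T B w (B + t + w + 1) (t + 1) (by omega) (by omega) le_rfl q N m n (init t)
    (Str_init T B) hl φ F,
    val_eq T B w (B + t + w + 1) (t + 1) (by omega) (by omega) le_rfl q n (init t)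
      (Str_init T B) hl]
  have h1 : ex (1 - q) (labs (B + t + w + 1) (t + 1))
      (fun b => ind ((run T B w b n (init t)).nxt ≠ none) + C) =
      pr (1 - q) (labs (B + t + w + 1) (t + 1))
        (fun F => (run T B w F n (init t)).nxt ≠ none) + C := by
    rw [ex_add, ex_const, pr]
  rw [← h1]
  refine ex_mono (by linarith) (by linarith) _ fun b _ => ?_
  by_cases hb : (run T B w b n (init t)).nxt ≠ none
  · rw [ind_true hb]
    have := Qd_le_one T B w b N m hm n (init t) φ F
    linarith
  · rw [ind_false hb, zero_add]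
    have h2 := Qd_le_pv T B w b N m hm n (init t) φ F
    rw [ind_false hb, zero_add] at h2
    refine h2.trans (hC _ (nl_ok T B w b n) fun P => ?_)
    exact nl_cnt T B w b n (not_not.mp hb) P

end Pool.Agent.Lib.MP_56e41f_co.FQ
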