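import Pool.Agent.Lib.MP_56e41f_co.FQ.QdB
import Pool.Agent.Lib.MP_56e41f_co.FQ.QdC

/-!
# Parent function of a list of labels
-/

open Finset

namespace Pool.Agent.Lib.MP_56e41f_co.FQ

/-- `p k` is the index of the parent of the `k`-th label in `[] :: ls`; outside of the range
`p k = 1`. -/
theorem oko_plan {B : ℕ} {ls : List Lab} (h : Oko B ls) :
    ∃ p : ℕ → ℕ, Pln ([] :: ls) p ∧ ∀ k, ls.length < k → p k = 1 := by
  classical
  refine ⟨fun k => if k < ([] :: ls).length then
    List.idxOf ((([] :: ls) : List Lab).getD k []).tail ([] :: ls) else 1, ⟨?_, ?_, ?_⟩, ?_⟩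
  · exact List.nodup_cons.2 ⟨h.nn, h.nd⟩
  · rfl
  · intro k hk hkl
    simp only [if_pos hkl]
    obtain ⟨k, rfl⟩ : ∃ k', k = k' + 1 := ⟨k - 1, by omega⟩
    have hkl' : k < ls.length := by simpa using hkl
    have hg : (([] :: ls) : List Lab)[k + 1]? = some ls[k] := by
      simp [List.getElem?_eq_getElem hkl']
    have hgD : (([] :: ls) : List Lab).getD (k + 1) [] = ls[k] := by
      simp [List.getD, List.getElem?_eq_getElem hkl']
    rw [hgD]
    have hmem : ls[k] ∈ ls := List.getElem_mem hkl'
    rcases hc : ls[k] with _ | ⟨i, a⟩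
    · exact absurd (hc ▸ hmem) h.nn
    · rw [hc] at hmem hg
      simp only [List.tail_cons]
      have haL : a ∈ (([] :: ls) : List Lab) := by
        by_cases ha : a = []
        · subst ha; exact List.mem_cons_self
        · exact List.mem_cons_of_mem _ (h.cl i a hmem ha)
      refine ⟨?_, i, a, hg, List.getElem?_idxOf haL⟩
      by_contra hcon
      push Not at hcon
      have hlt : List.idxOf a (([] :: ls) : List Lab) < (([] :: ls) : List Lab).length :=
        List.idxOf_lt_length_iff.2 haL
      have hget := List.getElem?_idxOf haL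
      obtain ⟨m, hm⟩ : ∃ m, List.idxOf a (([] :: ls) : List Lab) = m + 1 :=
        ⟨List.idxOf a (([] :: ls) : List Lab) - 1, by omega⟩
      rw [hm] at hcon hlt hget
      have hml : m < ls.length := by simpa using hlt
      have hma : ls[m] = a := by
        simpa [List.getElem?_eq_getElem hml] using hget
      rcases Nat.lt_or_ge k m with hkm | hkm
      · have := List.pairwise_iff_getElem.1 h.pf k m hkl' hml hkm
        apply this
        rw [hc, hma, List.tail_cons]
      · have hmk : m = k := by omega
        subst hmk
        rw [hc] at hma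
        have := congrArg List.length hma
        simp at this
  · intro k hk
    have : ¬ k < (([] :: ls) : List Lab).length := by
      simp only [List.length_cons]; omega
    simp only [if_neg this]

/-- if `[0]` is the first label and the only root, the parents of the other labels are not the
empty label -/
theorem pln_root {B : ℕ} {ls : List Lab} (h : Oko B ([0] :: ls)) (h0 : ∀ r, [r] ∉ ls)
    {p : ℕ → ℕ} (hp : Pln ([] :: [0] :: ls) p) (hp1 : ∀ k, ls.length + 1 < k → p k = 1)
    (k : ℕ) (hk : 2 ≤ k) : 1 ≤ p k ∧ p k < k := by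
  have _ := h
  by_cases hkl : ls.length + 1 < k
  · rw [hp1 k hkl]; omega
  · push Not at hkl
    obtain ⟨hlt, i, a, hi, ha⟩ := hp.par k (by omega) (by simp only [List.length_cons]; omega)
    refine ⟨?_, hlt⟩
    by_contra hcon
    have hp0 : p k = 0 := by omega
    rw [hp0] at ha
    have ha' : a = [] := by simpa using ha.symm
    subst ha'
    obtain ⟨k, rfl⟩ : ∃ k', k = k' + 2 := ⟨k - 2, by omega⟩
    have : ls[k]? = some [i] := by simpa using hi
    exact h0 i (List.mem_of_getElem? this)

end Pool.Agent.Lib.MP_56e41f_co.FQ
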