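import Pool.Agent.Lib.MP_56e41f_co.LedRun
import Pool.Agent.Lib.MP_56e41f_co.PrChn
import Pool.Agent.Lib.MP_56e41f_co.ValEq

/-!
# A second image of the root is rarely needed
-/

open Finset

namespace Pool.Agent.Lib.MP_56e41f_co.FQ

variable {t Δ : ℕ}

/-- the root is placed with label `[0]` -/
private def RooP (s : St t) : Prop :=
  ∀ i : Fin t, i.val = 0 → ∃ x, s.f i = some x ∧ x.lab = [0]

private theorem roo_step (T : TD t Δ) (w : ℕ) (b : Finset Lab) (s : St t) (hS : Str T (3 * Δ) s)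
    (hL : Led T b s)
    (h : s.roots = 0 ∨ (s.roots = 1 ∧ RooP s) ∨ ∃ M ≤ t, chn Δ b M [0]) :
    (step T (3 * Δ) w b s).roots = 0 ∨
      ((step T (3 * Δ) w b s).roots = 1 ∧ RooP (step T (3 * Δ) w b s)) ∨
      ∃ M ≤ t, chn Δ b M [0] := by
  rcases h with h | ⟨h, hP⟩ | h
  · unfold step
    cases ha : act T (3 * Δ) w s with
    | stop => exact Or.inl h
    | root v =>
      obtain ⟨-, -, hv0⟩ := act_root T (3 * Δ) w ha
      right; left
      refine ⟨by simp [placeRoot, h], ?_⟩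
      intro i hi
      have hiv : i = v := Fin.ext (by omega)
      refine ⟨⟨[s.roots], 0, 0⟩, ?_, ?_⟩
      · simp [placeRoot, hiv]
      · simp [h]
    | ask v u x =>
      left
      simp only
      split_ifs
      · exact h
      · exact h
    | rem u => exact Or.inl h
  · unfold step
    cases ha : act T (3 * Δ) w s with
    | stop => exact Or.inr (Or.inl ⟨h, hP⟩)
    | root v =>
      obtain ⟨hn, -, hv0⟩ := act_root T (3 * Δ) w ha
      obtain ⟨x, hx, -⟩ := hP v hv0
      rw [(nxt_eq_some hn).1] at hx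
      cases hx
    | ask v u x =>
      obtain ⟨hn, hd, hv0, huv, hux, hask⟩ := act_ask T (3 * Δ) w ha
      right; left
      simp only
      split_ifs with hF
      · refine ⟨h, ?_⟩
        intro i hi
        obtain ⟨y, hy, hlab⟩ := hP i hi
        have hne : i ≠ v := by
          rintro rfl
          exact hv0 hi
        obtain ⟨y', hy', h1, -⟩ := ledsucc_old T s v u x hux i y hy hne
        exact ⟨y', hy', by rw [h1, hlab]⟩
      · refine ⟨h, ?_⟩
        intro i hi
        obtain ⟨y, hy, hlab⟩ := hP i hi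
        by_cases hiu : i = u
        · subst hiu
          rw [hux] at hy
          obtain rfl := Option.some.inj hy
          exact ⟨⟨x.lab, x.asks + 1, x.lev⟩, by simp [failSt], hlab⟩
        · exact ⟨y, by simp [failSt, Function.update_of_ne hiu, hy], hlab⟩
    | rem u =>
      obtain ⟨v, x, hn, hd, hv0, huv, hx, hask⟩ := act_rem T (3 * Δ) w ha
      by_cases hu : u.val = 0
      · right; right
        obtain ⟨y, hy, hlab⟩ := hP u hu
        have h1 := Led_chain T w b s u y hS hL ha hy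
        rw [hlab] at h1
        obtain ⟨-, -, -, -, hlev⟩ := hS.lab u y hy
        exact ⟨_, by omega, h1⟩
      · right; left
        refine ⟨h, ?_⟩
        intro i hi
        obtain ⟨y, hy, hlab⟩ := hP i hi
        refine ⟨y, LedRem_f' T ?_ hy, hlab⟩
        rintro ⟨k, hk⟩
        rw [Function.iterate_fixed (T.par_zero i hi)] at hk
        exact hu (hk ▸ hi)
  · exact Or.inr (Or.inr h)

private theorem roo_run (T : TD t Δ) (w : ℕ) (b : Finset Lab) (n : ℕ) :
    (run T (3 * Δ) w b n (init t)).roots = 0 ∨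
      ((run T (3 * Δ) w b n (init t)).roots = 1 ∧ RooP (run T (3 * Δ) w b n (init t))) ∨
      ∃ M ≤ t, chn Δ b M [0] := by
  induction n with
  | zero => exact Or.inl rfl
  | succ n ih =>
    rw [run_succ']
    exact roo_step T w b _ (Str_run T (3 * Δ) w b n) (Led_run T w b n) ih

/-- Invariant: `roots = 0`, or `roots = 1` and the root is placed with label `[0]`, or there is a
chain at `[0]` (`Led_chain` when the root is removed; the vertices below the root are all
vertices). -/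
theorem roots_two (T : TD t Δ) (w : ℕ) (b : Finset Lab) (n : ℕ)
    (h : 2 ≤ (run T (3 * Δ) w b n (init t)).roots) : ∃ M ≤ t, chn Δ b M [0] := by
  rcases roo_run T w b n with h1 | ⟨h1, -⟩ | h1
  · omega
  · omega
  · exact h1

private theorem roo_geom {β : ℝ} (h0 : 0 ≤ β) (h1 : β ≤ 1 / 2) (n : ℕ) :
    ∑ M ∈ range (n + 1), β ^ (M - 1) ≤ 3 := by
  have key : ∀ n : ℕ, ∑ M ∈ range (n + 1), β ^ (M - 1) ≤ 3 - 2 * (1 / 2) ^ n := by
    intro n
    induction n with
    | zero => norm_num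
    | succ n ih =>
      rw [Finset.sum_range_succ]
      have h2 : β ^ (n + 1 - 1) ≤ (1 / 2) ^ n := by
        rw [Nat.add_sub_cancel]
        exact pow_le_pow_left₀ h0 h1 n
      have h3 : (1 / 2 : ℝ) ^ (n + 1) = (1 / 2) ^ n * (1 / 2) := pow_succ _ _
      rw [h3]
      linarith
  have := key n
  have h3 : (0 : ℝ) ≤ (1 / 2) ^ n := by positivity
  linarith

/-- union bound over `M` with `pr_chn` and a geometric series -/
theorem root_once (T : TD t Δ) (hΔ : 1 ≤ Δ) (w : ℕ) (q : ℝ) (hq0 : 0 ≤ q) (hq : 64 * q ^ 2 ≤ 1)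
    (hβ : 3 * Δ * (32 * q ^ 2) ^ Δ ≤ 1 / 2) (R Λ : ℕ) (hR : 3 * Δ ≤ R) (hR1 : 1 ≤ R)
    (hΛ : t + 3 ≤ Λ) (n : ℕ) :
    pr (1 - q) (labs R Λ) (fun b => 2 ≤ (run T (3 * Δ) w b n (init t)).roots)
      ≤ 3 * (32 * q ^ 2) ^ Δ := by
  have hq8 : q ≤ 1 / 8 := by nlinarith
  have hp0 : (0 : ℝ) ≤ 1 - q := by linarith
  have hp1 : (1 : ℝ) - q ≤ 1 := by linarith
  have hpow0 : 0 ≤ (32 * q ^ 2) ^ Δ := by positivity
  have hβ0 : 0 ≤ 3 * Δ * (32 * q ^ 2) ^ Δ := by positivity
  have hle : pr (1 - q) (labs R Λ) (fun b => 2 ≤ (run T (3 * Δ) w b n (init t)).roots) ≤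
      ∑ M ∈ range (t + 1), pr (1 - q) (labs R Λ) (fun b => chn Δ b M [0]) := by
    unfold pr
    rw [← ex_sum]
    apply ex_mono hp0 hp1
    intro b _
    refine le_trans (ind_mono ?_) (ind_exists_le (range (t + 1)) _)
    intro h
    obtain ⟨M, hM, hc⟩ := roots_two T w b n h
    exact ⟨M, Finset.mem_range.2 (by omega), hc⟩
  have hM : ∀ M ∈ range (t + 1), pr (1 - q) (labs R Λ) (fun b => chn Δ b M [0]) ≤
      (32 * q ^ 2) ^ Δ * (3 * Δ * (32 * q ^ 2) ^ Δ) ^ (M - 1) := by
    intro M hM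
    have hMt := Finset.mem_range.1 hM
    have h0 : ([0] : Lab) ∈ labs R (Λ - (M + 1)) := by
      rw [valeq_mem_labs]
      refine ⟨?_, ?_⟩
      · simp only [List.length_cons, List.length_nil]
        omega
      · intro i hi
        rw [List.mem_singleton] at hi
        omega
    exact pr_chn Δ q hq0 hq R Λ hR M [0] h0 (by omega)
  calc pr (1 - q) (labs R Λ) (fun b => 2 ≤ (run T (3 * Δ) w b n (init t)).roots)
      ≤ ∑ M ∈ range (t + 1), pr (1 - q) (labs R Λ) (fun b => chn Δ b M [0]) := hle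
    _ ≤ ∑ M ∈ range (t + 1), (32 * q ^ 2) ^ Δ * (3 * Δ * (32 * q ^ 2) ^ Δ) ^ (M - 1) :=
      Finset.sum_le_sum hM
    _ = (32 * q ^ 2) ^ Δ * ∑ M ∈ range (t + 1), (3 * Δ * (32 * q ^ 2) ^ Δ) ^ (M - 1) := by
      rw [Finset.mul_sum]
    _ ≤ (32 * q ^ 2) ^ Δ * 3 := mul_le_mul_of_nonneg_left (roo_geom hβ0 hβ t) hpow0
    _ = 3 * (32 * q ^ 2) ^ Δ := by ring

end Pool.Agent.Lib.MP_56e41f_co.FQ
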