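import Pool.Agent.Lib.MP_56e41f_co.FQ.QvB
import Pool.Agent.Lib.MP_56e41f_co.FQ.QdE
import Pool.Agent.Lib.MP_56e41f_co.FQ.Roo

/-!
# The machine with the card process, given root
-/

open Finset

namespace Pool.Agent.Lib.MP_56e41f_co.FQ

variable {V : Type*} [Fintype V] [DecidableEq V] {t Δ : ℕ}

/-- the first action is the placement of the root -/
private theorem qsb_act (T : TD t Δ) (B w : ℕ) (v0 : Fin t) (hv0 : v0.val = 0) :
    act T B w (init t) = Act.root v0 := by
  have hn : (init t).nxt = some v0 := by
    cases h : (init t).nxt with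
    | none => exact absurd rfl (nxt_eq_none h v0)
    | some v =>
      congr 1
      by_contra hne
      have h1 : v0 < v := by
        rw [Fin.lt_def, hv0]
        rcases Nat.eq_zero_or_pos v.val with h2 | h2
        · exact absurd (Fin.ext (h2.trans hv0.symm)) hne
        · exact h2
      exact (nxt_eq_some h).2 v0 h1 rfl
  unfold act
  rw [hn]
  have hd : ¬ w < (init t).dead := by
    unfold St.dead init
    simp
  simp only [if_neg hd, if_pos hv0]

/-- the first step of the run is the placement of the root -/
theorem run_first (T : TD t Δ) (B w : ℕ) (b : Finset Lab) (n : ℕ) (v0 : Fin t)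
    (hv0 : v0.val = 0) :
    run T B w b (n + 1) (init t) = run T B w b n (placeRoot (init t) v0) ∧
      nl T B w b (n + 1) (init t) = [0] :: nl T B w b n (placeRoot (init t) v0) := by
  have ha := qsb_act T B w v0 hv0
  constructor
  · rw [run, step, ha]
  · rw [nl, ha]
    rfl

/-- the card process only reads the neighbourhoods of the parents -/
private theorem qsb_pn_congr (N N' : ℕ → V → Finset V) (p : ℕ → ℕ) (m : ℕ) :
    ∀ (r k : ℕ) (x : ℕ → V) (F : Finset V), (∀ j, k ≤ j → j < k + r → N (p j) = N' (p j)) →
      pn N p m r k x F = pn N' p m r k x F := by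
  intro r
  induction r with
  | zero => intro k x F _; rfl
  | succ r ih =>
    intro k x F h
    rw [pn, pn, h k le_rfl (by omega)]
    have h2 : ∀ u F', pn N p m r (k + 1) (Function.update x k u) F' =
        pn N' p m r (k + 1) (Function.update x k u) F' :=
      fun u F' => ih (k + 1) _ F' (fun j hj hj' => h j (by omega) (by omega))
    simp only [h2]

/-- Start with the root at `y i`, ghost at `z i`. If no second image of the root is used all
parents of the indices `≥ 2` are `≥ 1` (`run_first`, `nl_ok`, `oko_plan`, `pln_root`, `pv_eq_pn`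
with `k = 2`); otherwise use `Qd_le_one` and `root_once`. -/
theorem Qv_starts (T : TD t Δ) (hΔ : 1 ≤ Δ) (w : ℕ) {q : ℝ} (hq0 : 0 ≤ q)
    (hq : 64 * q ^ 2 ≤ 1) (hβ : 3 * Δ * (32 * q ^ 2) ^ Δ ≤ 1 / 2)
    (N : V → Finset V) (m : ℕ) (hm : 1 ≤ m) (n : ℕ) (v0 : Fin t) (hv0 : v0.val = 0)
    {ι : Type*} (I : Finset ι) (ω : ι → ℝ) (hω : ∀ i ∈ I, 0 ≤ ω i) (z y : ι → V) (C : ℝ)
    (hC : ∀ (r : ℕ) (p : ℕ → ℕ), r + 2 ≤ t + w + 1 → (∀ k, 2 ≤ k → 1 ≤ p k ∧ p k < k) →
      ∑ i ∈ I, ω i * pn (fun j v => if j = 0 then ∅ else N v) p m r 2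
        (fun j => if j = 0 then z i else y i) ((univ.erase (z i)).erase (y i)) ≤ C) :
    ∑ i ∈ I, ω i * Qv T (3 * Δ) w q (fun a v => if a = [] then ∅ else N v) m n
        (placeRoot (init t) v0) (fun a => if a = [] then z i else y i)
        ((univ.erase (z i)).erase (y i)) ≤
      (∑ i ∈ I, ω i) * (val T (3 * Δ) w q (n + 1) (init t) + 3 * (32 * q ^ 2) ^ Δ) + C := by
  have ht : 1 ≤ t := by have := v0.isLt; omega
  have hq1 : q ≤ 1 := by
    by_contra hc
    have : 1 < q := not_le.mp hc
    nlinarith
  have hW : 0 ≤ ∑ i ∈ I, ω i := sum_nonneg hω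
  have hC0 : 0 ≤ C := by
    have h1 := hC 0 (fun _ => 1) (by omega) (fun k hk => ⟨le_rfl, by omega⟩)
    simpa [pn] using h1
  set R : ℕ := 3 * Δ + t + w + 1 with hR
  set Λ : ℕ := t + 3 with hΛ
  set s1 : St t := placeRoot (init t) v0 with hs1
  have hact := qsb_act T (3 * Δ) w v0 hv0
  have hStr : Str T (3 * Δ) s1 := Str_root T (3 * Δ) w (init t) v0 (Str_init T (3 * Δ)) hact
  have hlen : s1.tch.length ≤ t + w := by
    have h1 : s1.tch.length = 1 := rfl
    omega
  set N' : Lab → V → Finset V := fun a v => if a = [] then ∅ else N v with hN'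
  -- the pointwise estimate
  have key : ∀ b : Finset Lab,
      ∑ i ∈ I, ω i * Qd T (3 * Δ) w b N' m n s1 (fun a => if a = [] then z i else y i)
          ((univ.erase (z i)).erase (y i)) ≤
        (∑ i ∈ I, ω i) * (ind ((run T (3 * Δ) w b (n + 1) (init t)).nxt ≠ none) +
          ind (2 ≤ (run T (3 * Δ) w b (n + 1) (init t)).roots)) + C := by
    intro b
    obtain ⟨hrun, hnl⟩ := run_first T (3 * Δ) w b n v0 hv0
    have hone : ∑ i ∈ I, ω i * Qd T (3 * Δ) w b N' m n s1
        (fun a => if a = [] then z i else y i) ((univ.erase (z i)).erase (y i)) ≤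
        ∑ i ∈ I, ω i := by
      refine sum_le_sum (fun i hi => ?_)
      exact mul_le_of_le_one_right (hω i hi) (Qd_le_one T (3 * Δ) w b N' m hm n s1 _ _)
    by_cases h2 : 2 ≤ (run T (3 * Δ) w b (n + 1) (init t)).roots
    · rw [ind_true h2]
      have h3 := mul_nonneg hW (ind_nonneg ((run T (3 * Δ) w b (n + 1) (init t)).nxt ≠ none))
      rw [mul_add, mul_one]
      linarith
    · rw [ind_false h2, add_zero]
      by_cases h3 : (run T (3 * Δ) w b (n + 1) (init t)).nxt = none
      · -- the run succeeds, only one root
        have hidx : ind ((run T (3 * Δ) w b (n + 1) (init t)).nxt ≠ none) = 0 :=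
          ind_false (fun h => h h3)
        rw [hidx, mul_zero, zero_add]
        set ls := nl T (3 * Δ) w b n s1 with hls
        have hok : Oko (3 * Δ) ([0] :: ls) := by
          rw [← hnl]
          exact nl_ok T (3 * Δ) w b (n + 1)
        have hcnt : ls.length + 1 ≤ t + w := by
          have h4 := nl_cnt T (3 * Δ) w b (n + 1) h3 (fun _ => true)
          rw [hnl] at h4
          simpa using h4
        have hr0 : ∀ r, [r] ∉ ls := by
          intro r hr
          have hS := Str_run T (3 * Δ) w b (n + 1)
          have hmem : [r] ∈ (run T (3 * Δ) w b (n + 1) (init t)).tch := by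
            rw [nl_tch, hnl]
            simp [hr]
          have h5 := hS.rootlab r hmem
          have h6 : r = 0 := by omega
          subst h6
          exact (List.nodup_cons.mp hok.nd).1 hr
        obtain ⟨p, hp, hp1⟩ := oko_plan hok
        have hp2 : ∀ k, 2 ≤ k → 1 ≤ p k ∧ p k < k := fun k hk =>
          pln_root hok hr0 hp (fun k hk => hp1 k (by simpa using hk)) k hk
        have hfin := hC ls.length p (by omega) hp2
        refine le_trans (sum_le_sum (fun i hi => ?_)) hfin
        refine mul_le_mul_of_nonneg_left ?_ (hω i hi)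
        refine le_trans (Qd_le_pv T (3 * Δ) w b N' m hm n s1 _ _) ?_
        rw [← hrun, hidx, zero_add]
        have h7 := pv_eq_pn N' m ([] :: [0] :: ls) p hp ls.length 2 (by omega)
          (by simp only [List.length_cons]; omega) (fun a => if a = [] then z i else y i)
          (fun j => if j = 0 then z i else y i) (by
            intro j hj a ha
            have h8 : j = 0 ∨ j = 1 := by omega
            rcases h8 with h8 | h8
            · subst h8
              simp at ha
              subst ha
              simp
            · subst h8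
              simp at ha
              subst ha
              simp) ((univ.erase (z i)).erase (y i))
        have h9 : List.drop 2 ([] :: [0] :: ls) = ls := rfl
        rw [h9] at h7
        rw [← hls, h7]
        refine le_of_eq (qsb_pn_congr _ _ p m ls.length 2 _ _ (fun j hj hj' => ?_))
        obtain ⟨hpj1, hpj2⟩ := hp2 j hj
        have h10 : p j ≠ 0 := by omega
        have h11 : ([] :: [0] :: ls).getD (p j) [] ≠ [] := by
          have h12 : p j < ([] :: [0] :: ls).length := by
            simp only [List.length_cons]
            omega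
          obtain ⟨k, hk⟩ : ∃ k, p j = k + 1 := ⟨p j - 1, by omega⟩
          rw [hk]
          have h13 : k < ([0] :: ls).length := by
            rw [hk] at h12
            simpa using h12
          rw [List.getD_cons_succ, List.getD_eq_getElem _ _ h13]
          intro h14
          have h15 := List.getElem_mem h13
          rw [h14] at h15
          exact hok.nn h15
        funext v
        simp only [hN', if_neg h10, if_neg h11]
      · rw [ind_true h3, mul_one]
        linarith
  -- expectation
  have e1 : ∑ i ∈ I, ω i * Qv T (3 * Δ) w q N' m n s1 (fun a => if a = [] then z i else y i)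
        ((univ.erase (z i)).erase (y i)) =
      ex (1 - q) (labs R Λ) (fun b => ∑ i ∈ I, ω i * Qd T (3 * Δ) w b N' m n s1
        (fun a => if a = [] then z i else y i) ((univ.erase (z i)).erase (y i))) := by
    rw [ex_sum]
    refine sum_congr rfl (fun i _ => ?_)
    rw [ex_mul_left, Qv_eq T (3 * Δ) w R Λ (by omega) (by omega) (by omega) q N' m n s1 hStr
      hlen]
  have e2 : val T (3 * Δ) w q (n + 1) (init t) =
      pr (1 - q) (labs R Λ) (fun b => (run T (3 * Δ) w b (n + 1) (init t)).nxt ≠ none) :=
    val_eq T (3 * Δ) w R Λ (by omega) (by omega) (by omega) q (n + 1) (init t)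
      (Str_init T (3 * Δ)) (by simp [init])
  have e3 := root_once T hΔ w q hq0 hq hβ R Λ (by omega) (by omega) (by omega) (n + 1)
  rw [e1]
  refine le_trans (ex_mono (by linarith) (by linarith) _ (fun b _ => key b)) ?_
  rw [ex_add, ex_const, ex_mul_left, ex_add, e2]
  have h5 := mul_le_mul_of_nonneg_left e3 hW
  unfold pr at h5 ⊢
  linarith

end Pool.Agent.Lib.MP_56e41f_co.FQ
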