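import Pool.Agent.Lib.MP_56e41f_co.FQ.PMain
import Pool.Agent.Lib.MP_56e41f_co.FQ.QSumA
import Pool.Agent.Lib.MP_56e41f_co.FQ.QSumB
import Pool.Agent.Lib.MP_56e41f_co.FQ.Lay

/-!
# The frame for the two users
-/

open Finset

namespace Pool.Agent.Lib.MP_56e41f_co.FQ

variable {V : Type*} [Fintype V] [DecidableEq V] {t Δ : ℕ}

/-- the first action is the placement of the root -/
private theorem fr_act (T : TD t Δ) (B w : ℕ) (v0 : Fin t) (hv0 : v0.val = 0) :
    act T B w (init t) = Act.root v0 := by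
  have hn : (init t).nxt = some v0 := by
    cases h : (init t).nxt with
    | none => exact absurd rfl (nxt_eq_none h v0)
    | some v =>
      congr 1
      by_contra hne
      have h1 : v0 < v := by
        rw [Fin.lt_def, hv0]
        rcases Nat.eq_zero_or_pos v.val with h2 | h2
        · exact absurd (Fin.ext (h2.trans hv0.symm)) hne
        · exact h2
      exact (nxt_eq_some h).2 v0 h1 rfl
  unfold act
  rw [hn]
  have hd : ¬ w < (init t).dead := by
    unfold St.dead init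
    simp
  simp only [if_neg hd, if_pos hv0]

private theorem fr_f {v0 i : Fin t} {x : Nd} (h : (placeRoot (init t) v0).f i = some x) :
    i = v0 ∧ x.lab = [0] := by
  by_cases hi : i = v0
  · subst hi
    refine ⟨rfl, ?_⟩
    have h1 : (placeRoot (init t) i).f i = some ⟨[0], 0, 0⟩ := by
      simp [placeRoot, init]
    rw [h1] at h
    cases h
    rfl
  · exfalso
    have h1 : (placeRoot (init t) v0).f i = none := by
      simp [placeRoot, init, bump, Function.update_of_ne hi]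
    rw [h1] at h
    cases h

/-- (F1) + (F2): attempts with given roots. -/
theorem frame_starts (T : TD t Δ) (ht : 1 ≤ t) (hΔ : 1 ≤ Δ) (w : ℕ) {r : ℝ} (hr0 : 0 ≤ r)
    (hr1 : r ≤ 1) (E : Finset (Sym2 V)) (N : V → Finset V) (hN : ∀ v, ∀ z ∈ N v, s(v, z) ∈ E)
    (m : ℕ) (hm : 1 ≤ m) (hq : 64 * ((1 - r) ^ m) ^ 2 ≤ 1)
    (hβ : 3 * Δ * (32 * ((1 - r) ^ m) ^ 2) ^ Δ ≤ 1 / 2) (n M : ℕ) (hM : n * m ≤ M) (β : ℝ)
    (hβ0 : 0 ≤ β)
    (hβE : ∀ E' ⊆ E, (E \ E').card ≤ M →
      ex r (E' ×ˢ range (3 * Δ)) (fun W => ind (¬ Emb2 T W)) ≤ β)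
    {ι : Type*} (I : Finset ι) (ω : ι → ℝ) (hω : ∀ i ∈ I, 0 ≤ ω i) (z y : ι → V)
    (hzy : ∀ i ∈ I, z i ≠ y i) (C : ℝ)
    (hC : ∀ (k : ℕ) (p : ℕ → ℕ), k + 2 ≤ t + w + 1 → (∀ j, 2 ≤ j → 1 ≤ p j ∧ p j < j) →
      ∑ i ∈ I, ω i * pn (fun j v => if j = 0 then ∅ else N v) p m k 2
        (fun j => if j = 0 then z i else y i) ((univ.erase (z i)).erase (y i)) ≤ C) :
    (∑ i ∈ I, ω i) * ex r (E ×ˢ range (3 * Δ)) (fun W => ind (¬ Emb2 T W)) ≤
      β * ((∑ i ∈ I, ω i) * (val T (3 * Δ) w ((1 - r) ^ m) (n + 1) (init t)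
        + 3 * (32 * ((1 - r) ^ m) ^ 2) ^ Δ) + C) := by
  classical
  set v0 : Fin t := ⟨0, ht⟩ with hv0d
  have hv0 : v0.val = 0 := rfl
  have hact := fr_act T (3 * Δ) w v0 hv0
  have hStr : Str T (3 * Δ) (placeRoot (init t) v0) :=
    Str_root T (3 * Δ) w (init t) v0 (Str_init T (3 * Δ)) hact
  have hN' : ∀ (a : Lab) (v : V), a ≠ [] → ∀ z ∈ (fun (a : Lab) (v : V) =>
      if a = [] then (∅ : Finset V) else N v) a v, s(v, z) ∈ E := by
    intro a v ha z hz
    simp only [if_neg ha] at hz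
    exact hN v z hz
  have h1 := perc_starts T (3 * Δ) w hr0 hr1 E
    (fun a v => if a = [] then (∅ : Finset V) else N v) hN' m hm M β hβ0 hβE n hM
    (placeRoot (init t) v0) hStr I ω hω (fun i a => if a = [] then z i else y i)
    (fun i => (univ.erase (z i)).erase (y i)) (by
      intro i hi
      refine ⟨?_, ?_, ?_, ?_, ?_⟩
      · intro j x j' x' hj hj' _
        rw [(fr_f hj).1, (fr_f hj').1]
      · intro j x hj
        have hx := (fr_f hj).2
        simp [hx]
      · intro j x y hj0 hj _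
        exact absurd (by rw [(fr_f hj).1]) hj0
      · intro z _ z' _ j
        exact notMem_empty _
      · intro j x _ z _ k _
        exact notMem_empty _)
  have h2 := Qv_starts T hΔ w (pow_nonneg (by linarith : (0 : ℝ) ≤ 1 - r) m) hq hβ N m hm n v0 hv0
    I ω hω z y C hC
  exact h1.trans (mul_le_mul_of_nonneg_left h2 hβ0)

/-- (F1) + (F3): one attempt with all cards and several roots. -/
theorem frame_forest (T : TD t Δ) (B w : ℕ) {r : ℝ} (hr0 : 0 ≤ r) (hr1 : r ≤ 1)
    (E : Finset (Sym2 V)) (N : Lab → V → Finset V)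
    (hN : ∀ a v, a ≠ [] → ∀ z ∈ N a v, s(v, z) ∈ E) (m : ℕ) (hm : 1 ≤ m) (n : ℕ) (φ : Lab → V)
    (C : ℝ) (hC0 : 0 ≤ C)
    (hC : ∀ ls : List Lab, Oko B ls →
      (∀ P : ℕ → Bool, (ls.filter (fun a => P a.length)).length ≤
        (univ.filter (fun i : Fin t => P (T.dep i + 1) = true)).card + w) →
      pv N m ls φ univ ≤ C) :
    ex r (E ×ˢ range B) (fun W => ind (¬ Emb2 T W)) ≤
      val T B w ((1 - r) ^ m) n (init t) + C := by
  classical
  have hq0 : 0 ≤ (1 - r) ^ m := pow_nonneg (by linarith) m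
  have hq1 : (1 - r) ^ m ≤ 1 := pow_le_one₀ (by linarith) (by linarith)
  have h1 := perc_starts T B w hr0 hr1 E N hN m hm (n * m) 1 zero_le_one
    (fun E' _ _ => by
      have h2 : ex r (E' ×ˢ range B) (fun W => ind (¬ Emb2 T W)) ≤
          ex r (E' ×ˢ range B) (fun _ => (1 : ℝ)) :=
        ex_mono hr0 hr1 _ (fun W _ => ind_le_one _)
      rwa [ex_const] at h2)
    n le_rfl (init t) (Str_init T B) ({()} : Finset Unit) (fun _ => (1 : ℝ))
    (fun _ _ => zero_le_one) (fun _ => φ) (fun _ => univ) (by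
      intro i hi
      refine ⟨?_, ?_, ?_, ?_, ?_⟩
      · intro j x j' x' hj hj' _
        simp [init] at hj
      · intro j x hj
        simp [init] at hj
      · intro j x y hj0 hj _
        simp [init] at hj
      · intro z _ z' _ j
        exact notMem_empty _
      · intro j x _ z _ k _
        exact notMem_empty _)
  simp only [sum_singleton, one_mul] at h1
  exact h1.trans (Qv_forest T B w hq0 hq1 N m hm n φ univ C hC0 hC)

end Pool.Agent.Lib.MP_56e41f_co.FQ
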