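import Pool.Agent.Lib.MP_56e41f_co.FQ.LK
import Pool.Agent.Lib.MP_56e41f_co.FQ.Fr
import Pool.Agent.Lib.MP_56e41f_co.FQ.Cap
import Pool.Agent.Lib.MP_56e41f_co.CoreLim

/-!
Repeated attempts: all hosts with `n ≥ C₀ d`.
-/

set_option autoImplicit false

open Finset

namespace Pool.Agent.Lib.MP_56e41f_co.FQ

/-- the layered random graph has no copy -/
noncomputable def nc {V : Type} [Fintype V] [DecidableEq V] {t Δ : ℕ} (T : TD t Δ) (r : ℝ)
    (E : Finset (Sym2 V)) : ℝ :=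
  ex r (E ×ˢ range (3 * Δ)) (fun W => ind (¬ Emb2 T W))

/-- one attempt -/
theorem attempt_one {V : Type} [Fintype V] [DecidableEq V] {t Δ : ℕ} (T : TD t Δ) (ht : 1 ≤ t)
    (hΔ : 1 ≤ Δ) (w m n M : ℕ) {r : ℝ} (hr0 : 0 ≤ r) (hr1 : r ≤ 1) (hm : 1 ≤ m)
    (hq : 64 * ((1 - r) ^ m) ^ 2 ≤ 1)
    (hβ : 3 * Δ * (32 * ((1 - r) ^ m) ^ 2) ^ Δ ≤ 1 / 2) (hM : n * m ≤ M)
    (E : Finset (Sym2 V)) (N : V → Finset V) (hN : ∀ v, ∀ u ∈ N v, s(v, u) ∈ E)
    (hirr : ∀ v, v ∉ N v) (hD : (0 : ℝ) < ∑ y, ((N y).card : ℝ)) (a θ β : ℝ) (hβ0 : 0 ≤ β)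
    (hpn : ∀ (p : ℕ → ℕ), (∀ k, 2 ≤ k → 1 ≤ p k ∧ p k < k) → ∀ k : ℕ, k + 2 ≤ t + w + 1 →
      ∑ y, ∑ z ∈ N y, pn (fun i v => if i = 0 then ∅ else N v) p m k 2
        (fun j => if j = 0 then z else y) ((univ.erase z).erase y) ≤
        a * ∑ y, ((N y).card : ℝ))
    (hval : val T (3 * Δ) w ((1 - r) ^ m) (n + 1) (init t) +
      3 * (32 * ((1 - r) ^ m) ^ 2) ^ Δ + a ≤ θ)
    (hβE : ∀ E' ⊆ E, (E \ E').card ≤ M → nc T r E' ≤ β) :
    nc T r E ≤ β * θ := by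
  classical
  set D : ℝ := ∑ y, ((N y).card : ℝ) with hDdef
  have hsum : ∀ f : V → V → ℝ, ∑ i ∈ (univ : Finset V).sigma (fun y => N y), f i.1 i.2 =
      ∑ y, ∑ z ∈ N y, f y z := fun f => Finset.sum_sigma _ _ _
  have hω : ∑ i ∈ (univ : Finset V).sigma (fun y => N y), (1 : ℝ) = D := by
    rw [hsum (fun _ _ => (1 : ℝ))]
    exact sum_congr rfl fun y _ => by rw [sum_const, nsmul_eq_mul, mul_one]
  have hfr := frame_starts T ht hΔ w hr0 hr1 E N hN m hm hq hβ n M hM β hβ0 hβE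
    ((univ : Finset V).sigma (fun y => N y)) (fun _ => 1) (fun _ _ => zero_le_one)
    (fun i => i.2) (fun i => i.1) (by
      intro i hi h
      have h2 := (mem_sigma.mp hi).2
      rw [h] at h2
      exact hirr _ h2) (a * D) (by
      intro k p hk hp
      rw [hsum (fun y z => 1 * pn (fun j v => if j = 0 then ∅ else N v) p m k 2
        (fun j => if j = 0 then z else y) ((univ.erase z).erase y))]
      simp only [one_mul]
      exact hpn p hp k hk)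
  rw [hω] at hfr
  have h1 : D * nc T r E ≤ D * (β * θ) := by
    refine hfr.trans ?_
    have h2 : D * (val T (3 * Δ) w ((1 - r) ^ m) (n + 1) (init t) +
        3 * (32 * ((1 - r) ^ m) ^ 2) ^ Δ) + a * D ≤ D * θ := by
      have := mul_le_mul_of_nonneg_left hval hD.le
      linarith
    have h3 := mul_le_mul_of_nonneg_left h2 hβ0
    linarith
  exact le_of_mul_le_mul_left h1 hD

theorem nc_le_one {V : Type} [Fintype V] [DecidableEq V] {t Δ : ℕ} (T : TD t Δ) {r : ℝ}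
    (hr0 : 0 ≤ r) (hr1 : r ≤ 1) (E : Finset (Sym2 V)) : nc T r E ≤ 1 := by
  unfold nc
  have h := ex_mono hr0 hr1 (E ×ˢ range (3 * Δ)) (f := fun W => ind (¬ Emb2 T W))
    (g := fun _ => 1) (fun W _ => ind_le_one _)
  rwa [ex_const] at h

/-- powers of a small number -/
theorem mul_pow_le (Δ : ℕ) (hΔ : 1 ≤ Δ) (x : ℝ) (hx0 : 0 ≤ x) (hx : x ≤ 1 / 2) :
    (Δ : ℝ) * x ^ Δ ≤ x := by
  induction Δ, hΔ using Nat.le_induction with
  | base => simp
  | succ k hk ih =>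
    have hk1 : (1 : ℝ) ≤ k := by exact_mod_cast hk
    have h1 : 0 ≤ x ^ k := by positivity
    have h2 : (k : ℝ) + 1 ≤ 2 * k := by linarith
    calc ((k + 1 : ℕ) : ℝ) * x ^ (k + 1) = ((k : ℝ) + 1) * (x ^ k * x) := by
          rw [pow_succ]; push_cast; ring
      _ ≤ (2 * k) * (x ^ k * (1 / 2)) := by
          refine mul_le_mul h2 (mul_le_mul_of_nonneg_left hx h1) (by positivity) (by positivity)
      _ = k * x ^ k := by ring
      _ ≤ x := ih

theorem pow_hundred (n : ℕ) (hn : 1 ≤ n) : ((1 : ℝ) / 100) ^ n ≤ 1 / n := by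
  have h1 : (n : ℝ) ≤ 100 ^ n := by
    have : n < 100 ^ n := Nat.lt_pow_self (by norm_num)
    exact_mod_cast this.le
  have hn0 : (0 : ℝ) < n := by exact_mod_cast hn
  rw [one_div_pow]
  exact one_div_le_one_div_of_le hn0 h1

end Pool.Agent.Lib.MP_56e41f_co.FQ
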