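import Pool.Agent.Lib.MP_56e41f_co.FQ.Defs

/-!
# The weights of one search
-/

open Finset

namespace Pool.Agent.Lib.MP_56e41f_co.FQ

variable {V : Type*} [DecidableEq V]

theorem wt_nonneg (s f : ℕ) : 0 ≤ wt s f := by
  unfold wt
  positivity

/-- Position of the first marked card. -/
private theorem blkA_key (b c : ℕ) :
    (c + 1) * ∑ i ∈ range (b + 1), b.choose i * (i.factorial * (c + b - i).factorial)
      = (c + b + 1).factorial := by
  have h1 : ∀ i ∈ range (b + 1), b.choose i * (i.factorial * (c + b - i).factorial)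
      = b.factorial * c.factorial * ((b - i) + c).choose c := by
    intro i hi
    have hib : i ≤ b := Nat.lt_succ_iff.mp (mem_range.mp hi)
    have e1 : b.choose i * i.factorial * (b - i).factorial = b.factorial :=
      Nat.choose_mul_factorial_mul_factorial hib
    have e2 : ((b - i) + c).choose c * c.factorial * ((b - i) + c - c).factorial
        = ((b - i) + c).factorial :=
      Nat.choose_mul_factorial_mul_factorial (Nat.le_add_left c (b - i))
    rw [Nat.add_sub_cancel] at e2
    have e3 : c + b - i = (b - i) + c := by omega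
    rw [e3, ← e2, ← e1]
    ring
  rw [sum_congr rfl h1, ← mul_sum]
  have h2 : ∑ i ∈ range (b + 1), ((b - i) + c).choose c = (b + c + 1).choose (c + 1) := by
    have h3 := sum_range_reflect (fun j => (j + c).choose c) (b + 1)
    simp only [Nat.add_sub_cancel] at h3
    rw [h3]
    exact Nat.sum_range_add_choose b c
  rw [h2]
  have h4 : (b + c + 1).choose (c + 1) * (c + 1).factorial * (b + c + 1 - (c + 1)).factorial
      = (b + c + 1).factorial :=
    Nat.choose_mul_factorial_mul_factorial (by omega)
  have h5 : b + c + 1 - (c + 1) = b := by omega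
  have h6 : c + b + 1 = b + c + 1 := by omega
  rw [h5] at h4
  rw [h6, ← h4, Nat.factorial_succ c]
  ring

/-- Hockey stick: with `h = |F ∩ N| ≥ 1` and `f = |F|`,
`∑_s choose (f - h) s * s! (f - s - 1)! / f! = 1 / h`
(`∑_s choose (f - s - 1) (h - 1) = choose f h`). -/
theorem wt_sum (N F : Finset V) (h : (F ∩ N).Nonempty) :
    ∑ S ∈ (F \ N).powerset, wt S.card F.card = 1 / ((F ∩ N).card : ℝ) := by
  have hf : (F ∩ N).card + (F \ N).card = F.card := by
    rw [card_inter_add_card_sdiff]
  obtain ⟨c, hc⟩ : ∃ c, (F ∩ N).card = c + 1 :=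
    ⟨(F ∩ N).card - 1, (Nat.sub_add_cancel (card_pos.2 h)).symm⟩
  rw [sum_powerset_apply_card (fun m => wt m F.card)]
  have hF : F.card = c + (F \ N).card + 1 := by omega
  have h1 : ∀ i ∈ range ((F \ N).card + 1), (F \ N).card.choose i • wt i F.card
      = (((F \ N).card.choose i * (i.factorial * (c + (F \ N).card - i).factorial) : ℕ) : ℝ)
        / (F.card.factorial : ℝ) := by
    intro i _
    unfold wt
    have e : F.card - i - 1 = c + (F \ N).card - i := by omega
    rw [e, nsmul_eq_mul]
    push_cast
    ring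
  rw [sum_congr rfl h1, ← sum_div, ← Nat.cast_sum, hc]
  have h2 := blkA_key (F \ N).card c
  rw [← hF] at h2
  have h3 : (F.card.factorial : ℝ) ≠ 0 := Nat.cast_ne_zero.2 (Nat.factorial_ne_zero _)
  have h4 : ((c + 1 : ℕ) : ℝ) ≠ 0 := Nat.cast_ne_zero.2 (Nat.succ_ne_zero c)
  rw [div_eq_div_iff h3 h4, one_mul, ← h2]
  push_cast
  ring

end Pool.Agent.Lib.MP_56e41f_co.FQ
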