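import Pool.Agent.Lib.MP_56e41f_co.FQ.BlkA

/-!
# Elementary properties of `blk`
-/

open Finset

namespace Pool.Agent.Lib.MP_56e41f_co.FQ

variable {V : Type*} [DecidableEq V]

theorem blk_mono {N F : Finset V} {Ψ Ψ' : V → Finset V → ℝ}
    (h : ∀ u ∈ F ∩ N, ∀ S ⊆ F \ N, Ψ u ((F \ S).erase u) ≤ Ψ' u ((F \ S).erase u)) :
    blk N F Ψ ≤ blk N F Ψ' := by
  unfold blk
  refine sum_le_sum fun S hS => mul_le_mul_of_nonneg_left ?_ (wt_nonneg _ _)
  exact sum_le_sum fun u hu => h u hu S (mem_powerset.1 hS)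

theorem blk_nonneg {N F : Finset V} {Ψ : V → Finset V → ℝ}
    (h : ∀ u ∈ F ∩ N, ∀ S ⊆ F \ N, 0 ≤ Ψ u ((F \ S).erase u)) : 0 ≤ blk N F Ψ := by
  unfold blk
  refine sum_nonneg fun S hS => mul_nonneg (wt_nonneg _ _) ?_
  exact sum_nonneg fun u hu => h u hu S (mem_powerset.1 hS)

theorem blk_const {N F : Finset V} (h : (F ∩ N).Nonempty) (c : ℝ) :
    blk N F (fun _ _ => c) = c := by
  unfold blk
  have h1 : ((F ∩ N).card : ℝ) ≠ 0 := Nat.cast_ne_zero.2 (card_pos.2 h).ne'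
  simp only [sum_const, nsmul_eq_mul]
  rw [← sum_mul, wt_sum N F h]
  field_simp

theorem blk_add (N F : Finset V) (Ψ Ψ' : V → Finset V → ℝ) :
    blk N F (fun u F' => Ψ u F' + Ψ' u F') = blk N F Ψ + blk N F Ψ' := by
  unfold blk
  rw [← sum_add_distrib]
  refine sum_congr rfl fun S _ => ?_
  rw [sum_add_distrib, mul_add]

theorem blk_smul (N F : Finset V) (c : ℝ) (Ψ : V → Finset V → ℝ) :
    blk N F (fun u F' => c * Ψ u F') = c * blk N F Ψ := by
  unfold blk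
  rw [mul_sum]
  refine sum_congr rfl fun S _ => ?_
  rw [← mul_sum]
  ring

theorem blk_sum {ι : Type*} (I : Finset ι) (N F : Finset V) (Ψ : ι → V → Finset V → ℝ) :
    blk N F (fun u F' => ∑ i ∈ I, Ψ i u F') = ∑ i ∈ I, blk N F (Ψ i) := by
  unfold blk
  rw [sum_comm]
  refine sum_congr rfl fun S _ => ?_
  rw [sum_comm, mul_sum]

/-- the average over the possible children is at most the value of the search -/
theorem mean_le_blk {N F : Finset V} (h : (F ∩ N).Nonempty) (a : V → ℝ)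
    {Ψ : V → Finset V → ℝ}
    (ha : ∀ u ∈ F ∩ N, ∀ S ⊆ F \ N, a u ≤ Ψ u ((F \ S).erase u)) :
    (∑ u ∈ F ∩ N, a u) / ((F ∩ N).card : ℝ) ≤ blk N F Ψ := by
  have h1 : (∑ u ∈ F ∩ N, a u) / ((F ∩ N).card : ℝ) = blk N F (fun u _ => a u) := by
    unfold blk
    rw [← sum_mul, wt_sum N F h]
    ring
  rw [h1]
  exact blk_mono ha

end Pool.Agent.Lib.MP_56e41f_co.FQ
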