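import Pool.Agent.Lib.MP_56e41f_co.FQ.BlkB

/-!
# One card of a search
-/

open Finset

namespace Pool.Agent.Lib.MP_56e41f_co.FQ

variable {V : Type*} [DecidableEq V]

private theorem blkC_wt0 {f : ℕ} (hf : 0 < f) : (f : ℝ) * wt 0 f = 1 := by
  unfold wt
  obtain ⟨g, rfl⟩ : ∃ g, f = g + 1 := ⟨f - 1, (Nat.sub_add_cancel hf).symm⟩
  have h1 : g + 1 - 0 - 1 = g := by omega
  have h2 : ((g.factorial : ℕ) : ℝ) ≠ 0 := Nat.cast_ne_zero.2 (Nat.factorial_ne_zero _)
  have h3 : ((g + 1 : ℕ) : ℝ) ≠ 0 := Nat.cast_ne_zero.2 (Nat.succ_ne_zero g)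
  rw [h1, Nat.factorial_succ, Nat.factorial_zero]
  push_cast at h3 ⊢
  field_simp

private theorem blkC_wt {s f : ℕ} (hs : 0 < s) (hf : s ≤ f) (hf0 : 0 < f) :
    (s : ℝ) * wt (s - 1) (f - 1) = (f : ℝ) * wt s f := by
  obtain ⟨r, rfl⟩ : ∃ r, s = r + 1 := ⟨s - 1, (Nat.sub_add_cancel hs).symm⟩
  obtain ⟨g, rfl⟩ : ∃ g, f = g + 1 := ⟨f - 1, (Nat.sub_add_cancel hf0).symm⟩
  unfold wt
  have h1 : g + 1 - 1 - (r + 1 - 1) - 1 = g - r - 1 := by omega
  have h2 : g + 1 - (r + 1) - 1 = g - r - 1 := by omega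
  have h3 : r + 1 - 1 = r := by omega
  have h4 : g + 1 - 1 = g := by omega
  rw [h1, h2, h3, h4, Nat.factorial_succ r, Nat.factorial_succ g]
  have h5 : ((g.factorial : ℕ) : ℝ) ≠ 0 := Nat.cast_ne_zero.2 (Nat.factorial_ne_zero _)
  have h6 : ((g + 1 : ℕ) : ℝ) ≠ 0 := Nat.cast_ne_zero.2 (Nat.succ_ne_zero g)
  push_cast at h6 ⊢
  field_simp

private theorem blkC_one {N F : Finset V} (Ψ : V → Finset V → ℝ) {w : V} (hw : w ∈ F \ N) :
    blk N (F.erase w) Ψ
      = ∑ S ∈ (F \ N).powerset with w ∈ S, wt (S.card - 1) (F.card - 1)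
          * ∑ u ∈ F ∩ N, Ψ u ((F \ S).erase u) := by
  obtain ⟨hwF, hwN⟩ := mem_sdiff.1 hw
  have e1 : F.erase w ∩ N = F ∩ N := by
    ext v
    simp only [mem_inter, mem_erase]
    constructor
    · rintro ⟨⟨_, h2⟩, h3⟩
      exact ⟨h2, h3⟩
    · rintro ⟨h2, h3⟩
      refine ⟨⟨?_, h2⟩, h3⟩
      rintro rfl
      exact hwN h3
  have e2 : F.erase w \ N = (F \ N).erase w := by
    ext v
    simp only [mem_sdiff, mem_erase]
    tauto
  unfold blk
  rw [e1, e2, card_erase_of_mem hwF]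
  refine sum_bij' (fun S _ => insert w S) (fun S _ => S.erase w) ?_ ?_ ?_ ?_ ?_
  · intro S hS
    rw [mem_powerset] at hS
    rw [mem_filter, mem_powerset]
    refine ⟨insert_subset hw (hS.trans (erase_subset _ _)), mem_insert_self _ _⟩
  · intro S hS
    rw [mem_filter, mem_powerset] at hS
    rw [mem_powerset]
    exact erase_subset_erase _ hS.1
  · intro S hS
    rw [mem_powerset] at hS
    exact erase_insert (fun h => (notMem_erase w (F \ N)) (hS h))
  · intro S hS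
    rw [mem_filter, mem_powerset] at hS
    exact insert_erase hS.2
  · intro S hS
    rw [mem_powerset] at hS
    have hn : w ∉ S := fun h => (notMem_erase w (F \ N)) (hS h)
    have e3 : F.erase w \ S = F \ insert w S := by
      ext v
      simp only [mem_sdiff, mem_erase, mem_insert]
      tauto
    have e4 : (insert w S).card - 1 = S.card := by
      rw [card_insert_of_notMem hn]
      rfl
    simp only [e3, e4]

/-- The first card is `u ∈ F ∩ N` (the search ends), or `w ∈ F \ N` (the search goes on).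
Group the sets `S ≠ ∅` of dummies by one of their elements:
`|S| * wt |S| f = (|S| / f) * ...`, i.e. `wt (s + 1) f = (s + 1) / f * wt s (f - 1)`. -/
theorem blk_card {N F : Finset V} (hF : F.Nonempty) (Ψ : V → Finset V → ℝ) :
    blk N F Ψ = (∑ u ∈ F ∩ N, Ψ u (F.erase u) + ∑ w ∈ F \ N, blk N (F.erase w) Ψ) / (F.card : ℝ)
    := by
  have hf0 : 0 < F.card := card_pos.2 hF
  have hfne : (F.card : ℝ) ≠ 0 := Nat.cast_ne_zero.2 hf0.ne'
  rw [eq_div_iff hfne, sum_congr rfl (fun w hw => blkC_one Ψ hw)]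
  have h1 : ∑ w ∈ F \ N, ∑ S ∈ (F \ N).powerset with w ∈ S, wt (S.card - 1) (F.card - 1)
          * ∑ u ∈ F ∩ N, Ψ u ((F \ S).erase u)
      = ∑ S ∈ (F \ N).powerset, ∑ _w ∈ S, wt (S.card - 1) (F.card - 1)
          * ∑ u ∈ F ∩ N, Ψ u ((F \ S).erase u) := by
    refine sum_comm' ?_
    intro w S
    simp only [mem_filter, mem_powerset]
    constructor
    · rintro ⟨_, h2, h3⟩
      exact ⟨h3, h2⟩
    · rintro ⟨h2, h3⟩
      exact ⟨h3 h2, h3, h2⟩
  rw [h1]
  unfold blk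
  rw [sum_mul]
  have h2 : ∀ S ∈ (F \ N).powerset, wt S.card F.card * (∑ u ∈ F ∩ N, Ψ u ((F \ S).erase u))
        * (F.card : ℝ)
      = (if S = ∅ then ∑ u ∈ F ∩ N, Ψ u (F.erase u) else 0)
        + ∑ _w ∈ S, wt (S.card - 1) (F.card - 1) * ∑ u ∈ F ∩ N, Ψ u ((F \ S).erase u) := by
    intro S hS
    rw [mem_powerset] at hS
    rw [sum_const, nsmul_eq_mul]
    by_cases h : S = ∅
    · subst h
      rw [if_pos rfl, card_empty, sdiff_empty]
      have := blkC_wt0 hf0
      push_cast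
      linear_combination (∑ u ∈ F ∩ N, Ψ u (F.erase u)) * this
    · rw [if_neg h]
      have hs : 0 < S.card := card_pos.2 (nonempty_iff_ne_empty.2 h)
      have hsf : S.card ≤ F.card := card_le_card (hS.trans sdiff_subset)
      have := blkC_wt hs hsf hf0
      linear_combination (-(∑ u ∈ F ∩ N, Ψ u ((F \ S).erase u))) * this
  rw [sum_congr rfl h2, sum_add_distrib, sum_ite_eq' (F \ N).powerset ∅, if_pos (empty_mem_powerset _)]

end Pool.Agent.Lib.MP_56e41f_co.FQ
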