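import Pool.Agent.Lib.MP_56e41f_co.LD.Defs

/-!
# The card process of a label list in a dense host: definitions

Labels are lists, the parent of `j :: a` is `a`; `[r]` is a root. The vertices of `F` are turned
one after the other in random order; the first one next to the image of the parent of the first
unplaced label becomes its image (for a root: the first one on the side `s` of the host).
-/

open Finset

namespace Pool.Agent.Lib.MP_56e41f_co.FQ

open Pool.Agent.Lib.MP_56e41f_co.LD

variable {V : Type} [Fintype V] [DecidableEq V]

/-- image of the label `a` in the double cover -/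
def pos (s : Bool) (φ : Lab → V) (a : Lab) : V × Bool := (φ a, sd s (a.length - 1))

open Classical in
/-- candidates for the image of `a` -/
noncomputable def nbl (G : SimpleGraph V) (X : Finset (V × Bool)) (s : Bool) (φ : Lab → V)
    (a : Lab) : Finset V :=
  if a.tail = [] then univ.filter (fun u => (u, s) ∈ X) else nb G X (pos s φ a.tail)

open Classical in
/-- Failure probability of the card process for the unplaced labels `rest` (fuel: the number of
cards). -/
noncomputable def pf (G : SimpleGraph V) (X : Finset (V × Bool)) (s : Bool) (m1 : ℕ) :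
    ℕ → List Lab → (Lab → V) → Finset V → ℝ
  | _, [], _, _ => 0
  | 0, _ :: _, _, _ => 1
  | n + 1, a :: rest, φ, F =>
    if (nbl G X s φ a ∩ F).card < m1 then 1
    else (∑ u ∈ nbl G X s φ a ∩ F, pf G X s m1 n rest (Function.update φ a u) (F.erase u)
      + ∑ c ∈ F \ nbl G X s φ a, pf G X s m1 n (a :: rest) φ (F.erase c)) / (F.card : ℝ)

open Classical in
/-- distance from the parent of a label to the nearest placed label -/
noncomputable def dis (rest : List Lab) : Lab → ℕ
  | [] => 0
  | _ :: a => if a ∈ rest then dis rest a + 1 else 0

open Classical in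
/-- nearest placed proper ancestor of a label (`[]` if there is none) -/
noncomputable def anc (rest : List Lab) : Lab → Lab
  | [] => []
  | _ :: a => if a ∈ rest then anc rest a else a

/-- Conditions on the list of the unplaced labels. -/
structure Okl (B : ℕ) (rest : List Lab) : Prop where
  nd : rest.Nodup
  nn : [] ∉ rest
  /-- slots -/
  sl : ∀ j a, j :: a ∈ rest → a ≠ [] → j < B
  /-- parents first -/
  pf : rest.Pairwise (fun a b => a.tail ≠ b)

open Classical in
/-- expected cost of the label `b` -/
noncomputable def hh (G : SimpleGraph V) (X : Finset (V × Bool)) (P : Pm) (s : Bool)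
    (rest : List Lab) (φ : Lab → V) (b : Lab) : ℝ :=
  if b.tail = [] then P.hb / P.mu
  else if anc rest b = [] ∨ P.L ≤ dis rest b then Cst G X P (sd s (b.length - 2))
  else Gr G X (dis rest b) (pos s φ (anc rest b))

/-- expected cost of all unplaced labels (without the corrections for the roots) -/
noncomputable def RR (G : SimpleGraph V) (X : Finset (V × Bool)) (P : Pm) (s : Bool)
    (rest : List Lab) (φ : Lab → V) : ℝ :=
  ∑ b ∈ rest.toFinset, hh G X P s rest φ b

open Classical in
/-- correction for the labels within `L` levels below an unplaced root -/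
noncomputable def exl (P : Pm) (rest : List Lab) : ℝ :=
  ((rest.toFinset.filter (fun b => b.tail ≠ [] ∧ anc rest b = [] ∧ b.length ≤ P.L + 1)).card : ℝ)
    / P.mu

/-- the potential -/
noncomputable def RX (G : SimpleGraph V) (X : Finset (V × Bool)) (P : Pm) (s : Bool)
    (rest : List Lab) (φ : Lab → V) : ℝ :=
  RR G X P s rest φ + exl P rest

open Classical in
/-- change of the cost of `b`, when its nearest placed ancestor changes from `y` to the neighbour
`u` of `y` -/
noncomputable def dl (G : SimpleGraph V) (X : Finset (V × Bool)) (P : Pm) (s : Bool)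
    (rest : List Lab) (y : V × Bool) (u : V) (b : Lab) : ℝ :=
  (if dis rest b < P.L then Gr G X (dis rest b) (u, !y.2)
    else Cst G X P (sd s (b.length - 2)))
  - (if dis rest b + 1 < P.L then Gr G X (dis rest b + 1) y
    else Cst G X P (sd s (b.length - 2)))

/-- change of the total cost, when `a` is placed at the neighbour `u` of `y` -/
noncomputable def dR (G : SimpleGraph V) (X : Finset (V × Bool)) (P : Pm) (s : Bool)
    (rest : List Lab) (a : Lab) (y : V × Bool) (u : V) : ℝ :=
  - Gr G X 0 y + ∑ b ∈ rest.toFinset.filter (fun b => anc rest b = a), dl G X P s rest y u b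

/-- exponential supermartingale; `P.xl` is the additional factor, `P.th` the rate -/
noncomputable def PP (G : SimpleGraph V) (X : Finset (V × Bool)) (P : Pm) (s : Bool)
    (rest : List Lab) (φ : Lab → V) (F : Finset V) : ℝ :=
  Real.exp (P.th * ((Fintype.card V : ℝ) * (1 + P.xl) * RX G X P s rest φ
    - ((F.card : ℝ) - P.κ * (Fintype.card V : ℝ))))

/-- fraction of the vertices in `F` -/
noncomputable def fr (F : Finset V) : ℝ := (F.card : ℝ) / (Fintype.card V : ℝ)

open Classical in
/-- Expected number of sets `F'` in a random order of `F` which are large and not typical. -/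
noncomputable def TF (G : SimpleGraph V) (X : Finset (V × Bool)) (P : Pm) (F : Finset V) : ℝ :=
  ∑ F' ∈ F.powerset.filter (fun F' => P.κ ≤ fr F' ∧ ¬ Typ G X P F' (fr F')),
    1 / ((F.card.choose F'.card : ℕ) : ℝ)

/-- Conditions on the parameters; `m` bounds the number of labels within `L` levels below a label,
`C` is the density. -/
structure Okp (V : Type) [Fintype V] (P : Pm) (m C : ℝ) : Prop where
  ok : P.Ok
  V0 : 0 < Fintype.card V
  xl0 : 0 < P.xl
  m0 : 0 ≤ m
  C1 : 1 ≤ C
  hb4 : P.hb = 4
  den : (Fintype.card V : ℝ) ≤ C * P.mu
  dri : 1 - (1 - P.x) * (1 + P.xl) + 2 * (C * (3 * P.x * m)) ≤ - (P.xl / 2)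
  th1 : P.th * (16 * C * (1 + m)) ≤ 1
  th2 : P.th * (16 * C * (1 + m)) ^ 2 ≤ P.xl / 2

end Pool.Agent.Lib.MP_56e41f_co.FQ
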