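import Mathlib

/-!
Blocks of cards with a general weight `g : Finset V → ℝ` on the rest.
-/

set_option autoImplicit false

open Finset

namespace Pool.Agent.Lib.MP_56e41f_co.FQ

variable {V : Type*} [DecidableEq V]

/-- one block which avoids `C`, weight `g` on the rest -/
noncomputable def bk (C : Finset V) (g : Finset V → ℝ) (D : Finset V) : ℝ :=
  ∑ S ∈ (D \ C).powerset, (S.card.factorial : ℝ) * g (D \ S)

/-- superharmonic weight -/
def SH (g : Finset V → ℝ) : Prop :=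
  (∀ D, 0 ≤ g D) ∧ ∀ D : Finset V, ∑ u ∈ D, g (D.erase u) ≤ g D

theorem bk_rec (C : Finset V) (g : Finset V → ℝ) (D : Finset V) :
    bk C g D = g D + ∑ u ∈ D \ C, bk C g (D.erase u) := by
  have h0 : (∅ : Finset V) ∈ (D \ C).powerset := empty_mem_powerset _
  have e1 : bk C g D = g D + ∑ S ∈ (D \ C).powerset.erase ∅, (S.card.factorial : ℝ) * g (D \ S) := by
    rw [bk, ← Finset.add_sum_erase _ _ h0]
    simp
  rw [e1]
  congr 1
  have e2 : ∀ S ∈ (D \ C).powerset.erase ∅, (S.card.factorial : ℝ) * g (D \ S)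
      = ∑ u ∈ S, ((S.erase u).card.factorial : ℝ) * g ((D.erase u) \ (S.erase u)) := by
    intro S hS
    rw [mem_erase, mem_powerset] at hS
    have hne : S.Nonempty := nonempty_iff_ne_empty.mpr hS.1
    have h2 : ∀ u ∈ S, ((S.erase u).card.factorial : ℝ) * g ((D.erase u) \ (S.erase u))
        = ((S.card - 1).factorial : ℝ) * g (D \ S) := by
      intro u hu
      rw [card_erase_of_mem hu]
      congr 2
      ext x
      simp only [mem_sdiff, mem_erase]
      constructor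
      · rintro ⟨⟨h3, h4⟩, h5⟩
        exact ⟨h4, fun h6 => h5 ⟨h3, h6⟩⟩
      · rintro ⟨h3, h4⟩
        exact ⟨⟨fun h => h4 (h ▸ hu), h3⟩, fun h => h4 h.2⟩
    rw [sum_congr rfl h2, sum_const, nsmul_eq_mul, ← mul_assoc]
    congr 1
    have hc : 0 < S.card := card_pos.mpr hne
    obtain ⟨m, hm⟩ : ∃ m, S.card = m + 1 := ⟨S.card - 1, by omega⟩
    rw [hm, Nat.add_sub_cancel, Nat.factorial_succ]
    push_cast
    ring
  rw [sum_congr rfl e2]
  unfold bk
  rw [Finset.sum_sigma', Finset.sum_sigma']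
  refine Finset.sum_bij' (fun x _ => ⟨x.2, x.1.erase x.2⟩) (fun x _ => ⟨insert x.1 x.2, x.1⟩)
    ?_ ?_ ?_ ?_ ?_
  · rintro ⟨S, u⟩ hx
    simp only [mem_sigma, mem_erase, mem_powerset] at hx ⊢
    obtain ⟨⟨h1, h2⟩, h3⟩ := hx
    refine ⟨h2 h3, fun y hy => ?_⟩
    rw [mem_erase] at hy
    have := h2 hy.2
    rw [mem_sdiff] at this ⊢
    exact ⟨mem_erase.mpr ⟨hy.1, this.1⟩, this.2⟩
  · rintro ⟨u, S⟩ hx
    simp only [mem_sigma, mem_erase, mem_powerset] at hx ⊢
    obtain ⟨h1, h2⟩ := hx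
    refine ⟨⟨insert_ne_empty _ _, fun y hy => ?_⟩, mem_insert_self _ _⟩
    rw [mem_insert] at hy
    rcases hy with rfl | hy
    · exact h1
    · have := h2 hy
      rw [mem_sdiff, mem_erase] at this
      exact mem_sdiff.mpr ⟨this.1.2, this.2⟩
  · rintro ⟨S, u⟩ hx
    simp only [mem_sigma, mem_erase, mem_powerset] at hx
    simp only [insert_erase hx.2]
  · rintro ⟨u, S⟩ hx
    simp only [mem_sigma, mem_powerset] at hx
    have : u ∉ S := fun h => by
      have := hx.2 h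
      rw [mem_sdiff, mem_erase] at this
      exact this.1.1 rfl
    simp only [erase_insert this]
  · rintro ⟨S, u⟩ hx
    rfl

theorem bk_mono (C : Finset V) {g h : Finset V → ℝ} (D : Finset V) (hgh : ∀ S ⊆ D, g S ≤ h S) :
    bk C g D ≤ bk C h D := by
  unfold bk
  exact sum_le_sum fun S _ => mul_le_mul_of_nonneg_left (hgh _ sdiff_subset) (by positivity)

theorem bk_nonneg (C : Finset V) {g : Finset V → ℝ} (h : ∀ D, 0 ≤ g D) (D : Finset V) :
    0 ≤ bk C g D := by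
  unfold bk
  exact sum_nonneg fun S _ => mul_nonneg (by positivity) (h _)

/-- blocks commute -/
theorem bk_comm (A B : Finset V) (f : Finset V → ℝ) : bk A (bk B f) = bk B (bk A f) := by
  funext U
  simp only [bk, Finset.mul_sum]
  rw [Finset.sum_comm' (t' := (U \ B).powerset) (s' := fun B' => ((U \ B') \ A).powerset)]
  · refine Finset.sum_congr rfl fun B' _ => Finset.sum_congr rfl fun B _ => ?_
    rw [sdiff_right_comm, mul_left_comm]
  · intro S S'
    simp only [Finset.mem_powerset, Finset.subset_iff, Finset.mem_sdiff]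
    constructor
    · rintro ⟨h1, h2⟩
      exact ⟨fun u hu => ⟨⟨(h1 hu).1, fun h => (h2 h).1.2 hu⟩, (h1 hu).2⟩,
        fun u hu => ⟨(h2 hu).1.1, (h2 hu).2⟩⟩
    · rintro ⟨h1, h2⟩
      exact ⟨fun u hu => ⟨(h1 hu).1.1, (h1 hu).2⟩,
        fun u hu => ⟨⟨(h2 hu).1, fun h => (h1 h).1.2 hu⟩, (h2 hu).2⟩⟩

/-- taking a card commutes with a block -/
theorem bk_take (C A : Finset V) (g : V → Finset V → ℝ) (D : Finset V) :
    bk C (fun F => ∑ u ∈ F ∩ A, g u (F.erase u)) D = ∑ u ∈ D ∩ A, bk C (g u) (D.erase u) := by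
  unfold bk
  simp only [Finset.mul_sum]
  rw [Finset.sum_comm' (t' := D ∩ A) (s' := fun u => ((D.erase u) \ C).powerset)]
  · refine sum_congr rfl fun u _ => sum_congr rfl fun S _ => ?_
    congr 2
    ext x
    simp only [mem_erase, mem_sdiff]
    tauto
  · intro S u
    simp only [Finset.mem_powerset, Finset.subset_iff, Finset.mem_sdiff, mem_inter, mem_erase]
    constructor
    · rintro ⟨h1, h2⟩
      exact ⟨fun y hy => ⟨⟨fun h => h2.1.2 (h ▸ hy), (h1 hy).1⟩, (h1 hy).2⟩, h2.1.1, h2.2⟩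
    · rintro ⟨h1, h2⟩
      exact ⟨fun y hy => ⟨(h1 hy).1.2, (h1 hy).2⟩, ⟨h2.1, fun h => (h1 h).1.1 rfl⟩, h2.2⟩

theorem bk_sum {ι : Type*} (C : Finset V) (s : Finset ι) (g : ι → Finset V → ℝ) (D : Finset V) :
    bk C (fun F => ∑ i ∈ s, g i F) D = ∑ i ∈ s, bk C (g i) D := by
  unfold bk
  simp only [Finset.mul_sum]
  rw [sum_comm]

/-- a block preserves superharmonicity -/
theorem SH.bk {g : Finset V → ℝ} (hg : SH g) (C : Finset V) : SH (bk C g) := by
  refine ⟨fun D => bk_nonneg C hg.1 D, fun D => ?_⟩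
  have h := bk_take C D (fun _ => g) D
  have h2 : ∑ u ∈ D, FQ.bk C g (D.erase u) = FQ.bk C (fun F => ∑ u ∈ F ∩ D, g (F.erase u)) D := by
    rw [h, inter_self]
  rw [h2]
  refine bk_mono C D fun S hS => ?_
  rw [inter_eq_left.mpr hS]
  exact hg.2 S

/-- a search does not create mass -/
theorem SH.step {g : Finset V → ℝ} (hg : SH g) (C : Finset V) (D : Finset V) :
    ∑ u ∈ D ∩ C, FQ.bk C g (D.erase u) ≤ g D := by
  induction D using Finset.strongInduction with
  | H D ih =>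
    have e1 : ∑ u ∈ D ∩ C, FQ.bk C g (D.erase u) = ∑ u ∈ D ∩ C, g (D.erase u)
        + ∑ u ∈ D ∩ C, ∑ w ∈ (D.erase u) \ C, FQ.bk C g ((D.erase u).erase w) := by
      rw [← Finset.sum_add_distrib]
      exact Finset.sum_congr rfl (fun u _ => bk_rec C g (D.erase u))
    have e2 : ∑ u ∈ D ∩ C, ∑ w ∈ (D.erase u) \ C, FQ.bk C g ((D.erase u).erase w)
        = ∑ w ∈ D \ C, ∑ u ∈ (D.erase w) ∩ C, FQ.bk C g ((D.erase w).erase u) := by
      rw [Finset.sum_comm' (t' := D \ C) (s' := fun w => (D.erase w) ∩ C)]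
      · refine Finset.sum_congr rfl (fun w _ => Finset.sum_congr rfl (fun u _ => ?_))
        rw [Finset.erase_right_comm]
      · intro u w
        simp only [Finset.mem_sdiff, Finset.mem_inter, Finset.mem_erase, ne_eq]
        constructor
        · rintro ⟨⟨h1, h2⟩, ⟨h3, h4⟩, h5⟩
          exact ⟨⟨⟨fun h => h3 h.symm, h1⟩, h2⟩, h4, h5⟩
        · rintro ⟨⟨⟨h1, h2⟩, h3⟩, h4, h5⟩
          exact ⟨⟨h2, h3⟩, ⟨fun h => h1 h.symm, h4⟩, h5⟩
    have e3 : ∑ w ∈ D \ C, ∑ u ∈ (D.erase w) ∩ C, FQ.bk C g ((D.erase w).erase u)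
        ≤ ∑ w ∈ D \ C, g (D.erase w) :=
      sum_le_sum fun w hw => ih _ (erase_ssubset (mem_sdiff.mp hw).1)
    have e4 := hg.2 D
    rw [← Finset.sum_inter_add_sum_sdiff D C] at e4
    rw [e1, e2]
    linarith

end Pool.Agent.Lib.MP_56e41f_co.FQ
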