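import Pool.Agent.Lib.MP_56e41f_co.FQ.Defs
import Pool.Agent.Lib.MP_56e41f_co.FQ.DDef
import Pool.Agent.Lib.MP_56e41f_co.FQ.LA

/-!
# The block process card by card

`blk_rec`: one block, card by card. `pv_eq_pf`: the block process of a list of labels in a dense
host is the card process `pf`.
-/

open Finset

namespace Pool.Agent.Lib.MP_56e41f_co.FQ

open Pool.Agent.Lib.MP_56e41f_co.LD

/-- one block as a weighted sum over the dummies -/
theorem blk_bk {V : Type*} [Fintype V] [DecidableEq V] (N F : Finset V)
    (Ψ : V → Finset V → ℝ) :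
    (F.card.factorial : ℝ) * blk N F Ψ
      = bk N (fun D => ((D.card - 1).factorial : ℝ) * ∑ u ∈ D ∩ N, Ψ u (D.erase u)) F := by
  unfold blk bk
  rw [Finset.mul_sum]
  refine Finset.sum_congr rfl fun S hS => ?_
  rw [mem_powerset] at hS
  have h1 : (F \ S) ∩ N = F ∩ N := by
    ext x
    simp only [mem_inter, mem_sdiff]
    constructor
    · rintro ⟨⟨h2, _⟩, h3⟩
      exact ⟨h2, h3⟩
    · rintro ⟨h2, h3⟩
      exact ⟨⟨h2, fun h4 => (mem_sdiff.mp (hS h4)).2 h3⟩, h3⟩
  have h2 : (F \ S).card = F.card - S.card :=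
    card_sdiff_of_subset (hS.trans sdiff_subset)
  have h3 : (F.card.factorial : ℝ) ≠ 0 := by exact_mod_cast Nat.factorial_ne_zero _
  beta_reduce
  rw [h1, h2]
  unfold wt
  field_simp

/-- one block, card by card -/
theorem blk_rec {V : Type*} [Fintype V] [DecidableEq V] (N F : Finset V)
    (Ψ : V → Finset V → ℝ) :
    (F.card : ℝ) * blk N F Ψ
      = ∑ u ∈ F ∩ N, Ψ u (F.erase u) + ∑ c ∈ F \ N, blk N (F.erase c) Ψ := by
  rcases F.eq_empty_or_nonempty with rfl | hF
  · simp
  obtain ⟨m, hm⟩ : ∃ m, F.card = m + 1 := ⟨F.card - 1, by have := card_pos.mpr hF; omega⟩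
  have h0 : (m.factorial : ℝ) ≠ 0 := by exact_mod_cast Nat.factorial_ne_zero _
  have h1 := blk_bk N F Ψ
  rw [bk_rec, hm, Nat.add_sub_cancel] at h1
  have h2 : ∀ c ∈ F \ N, bk N (fun D => ((D.card - 1).factorial : ℝ)
      * ∑ u ∈ D ∩ N, Ψ u (D.erase u)) (F.erase c) = (m.factorial : ℝ) * blk N (F.erase c) Ψ := by
    intro c hc
    rw [← blk_bk, card_erase_of_mem (mem_sdiff.mp hc).1, hm, Nat.add_sub_cancel]
  rw [sum_congr rfl h2, ← mul_sum, ← mul_add, Nat.factorial_succ] at h1
  rw [hm]
  have h3 : (m.factorial : ℝ) * (((m + 1 : ℕ) : ℝ) * blk N F Ψ)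
      = (m.factorial : ℝ) * (∑ u ∈ F ∩ N, Ψ u (F.erase u) + ∑ c ∈ F \ N, blk N (F.erase c) Ψ) := by
    rw [← h1]
    push_cast
    ring
  exact mul_left_cancel₀ h0 h3

open Classical in
/-- the allowed places of the children of `a` at `v` in a dense host -/
noncomputable def NX {V : Type} [Fintype V] [DecidableEq V] (G : SimpleGraph V)
    (X : Finset (V × Bool)) (s : Bool) (a : Lab) (v : V) : Finset V :=
  if a = [] then univ.filter (fun u => (u, s) ∈ X) else nb G X (v, sd s (a.length - 1))

theorem NX_eq {V : Type} [Fintype V] [DecidableEq V] (G : SimpleGraph V)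
    (X : Finset (V × Bool)) (s : Bool) (φ : Lab → V) (i : ℕ) (a : Lab) :
    NX G X s a (φ a) = nbl G X s φ (i :: a) := by
  unfold NX nbl pos
  simp only [List.tail_cons]

/-- the block process in a dense host is the card process -/
theorem pv_eq_pf {V : Type} [Fintype V] [DecidableEq V] (G : SimpleGraph V)
    (X : Finset (V × Bool)) (s : Bool) {m : ℕ} (hm : 1 ≤ m) :
    ∀ (ls : List Lab), [] ∉ ls → ∀ (φ : Lab → V) (F : Finset V),
      pv (NX G X s) m ls φ F = pf G X s m F.card ls φ F
  | [], _, φ, F => by
    rw [pv]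
    cases F.card <;> rw [pf]
  | [] :: l, h, _, _ => absurd List.mem_cons_self h
  | (i :: a) :: l, h, φ, F => by
    have hl : [] ∉ l := fun h1 => h (List.mem_cons_of_mem _ h1)
    have ih := pv_eq_pf G X s hm l hl
    rw [pv]
    unfold pl
    rw [NX_eq G X s φ i a]
    set Nb := nbl G X s φ (i :: a) with hNb
    -- induction on the number of cards
    have key : ∀ (n : ℕ) (F : Finset V), F.card = n → m ≤ (F ∩ Nb).card →
        blk Nb F (fun u F' => pv (NX G X s) m l (Function.update φ (i :: a) u) F')
          = pf G X s m n ((i :: a) :: l) φ F := by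
      intro n
      induction n with
      | zero =>
        intro F hF hmF
        exfalso
        have h1 := card_le_card (inter_subset_left : F ∩ Nb ⊆ F)
        omega
      | succ n ihn =>
        intro F hF hmF
        have h1 : ¬ (Nb ∩ F).card < m := by
          rw [inter_comm]
          omega
        rw [pf, ← hNb, if_neg h1]
        have h2 : (F.card : ℝ) ≠ 0 := by
          rw [hF]
          positivity
        rw [eq_div_iff h2, mul_comm, blk_rec, inter_comm]
        congr 1
        · refine sum_congr rfl fun u hu => ?_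
          rw [ih, card_erase_of_mem (mem_inter.mp hu).2, hF, Nat.add_sub_cancel]
        · refine sum_congr rfl fun c hc => ?_
          rw [mem_sdiff] at hc
          refine ihn (F.erase c) ?_ ?_
          · rw [card_erase_of_mem hc.1, hF, Nat.add_sub_cancel]
          · have h3 : F.erase c ∩ Nb = F ∩ Nb := by
              rw [erase_inter, erase_eq_of_notMem]
              exact fun h4 => hc.2 (mem_inter.mp h4).2
            rw [h3]
            exact hmF
    by_cases hmF : m ≤ (F ∩ Nb).card
    · rw [if_pos hmF]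
      exact key F.card F rfl hmF
    · rw [if_neg hmF]
      have h1 : (Nb ∩ F).card < m := by
        rw [inter_comm]
        omega
      cases hF : F.card with
      | zero => rw [pf]
      | succ n => rw [pf, ← hNb, if_pos h1]

end Pool.Agent.Lib.MP_56e41f_co.FQ
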