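import Pool.Agent.Lib.MP_56e41f_co.FQ.DDef

/-!
# Parameters of the dense case
-/

open Finset

namespace Pool.Agent.Lib.MP_56e41f_co.FQ

open Pool.Agent.Lib.MP_56e41f_co.LD

/-- the parameters -/
noncomputable def mkQ (c mu m C : ℝ) (L : ℕ) : Pm where
  κ := c / 16
  x := c / 64 / (1 + 3 * C * m)
  lam := c / 32
  th := c / 32 / (16 * C * (1 + m)) ^ 2
  B := 0
  xl := c / 16
  hb := 4
  mu := mu
  xi := c / 16
  L := L

/-- `6 x ≤ xl` and `x ≤ 1 / 3` because `1 + 3 C m ≥ 4`; `dri`: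
`1 - (1 - x) (1 + xl) + 6 C x m ≤ - xl + 2 x (1 + 3 C m) = - xl / 2`. -/
theorem mkQ_ok (V : Type) [Fintype V] {c mu m C : ℝ} {L : ℕ} (hc : 0 < c) (hc1 : c < 1)
    (hm : 1 ≤ m) (hC : 1 ≤ C) (hV : 0 < Fintype.card V) (hd : (Fintype.card V : ℝ) ≤ C * mu)
    (hmu : 48 ≤ c * mu) (hL : 1 ≤ L) : Okp V (mkQ c mu m C L) m C := by
  have hmu0 : 0 < mu := by
    by_contra h
    have h1 : c * mu ≤ 0 := mul_nonpos_of_nonneg_of_nonpos hc.le (not_lt.1 h)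
    linarith
  obtain ⟨R, hR⟩ : ∃ R : ℝ, R = 1 + 3 * C * m := ⟨_, rfl⟩
  have hR4 : 4 ≤ R := by
    rw [hR]
    nlinarith [mul_le_mul hC hm zero_le_one (by linarith)]
  have hR0 : 0 < R := by linarith
  obtain ⟨Q, hQ⟩ : ∃ Q : ℝ, Q = 16 * C * (1 + m) := ⟨_, rfl⟩
  have hQ32 : 32 ≤ Q := by
    rw [hQ]
    nlinarith [mul_le_mul hC hm zero_le_one (by linarith)]
  have hQ0 : 0 < Q := by linarith
  have hx0 : 0 < c / 64 / R := by positivity
  have hxR : c / 64 / R * R = c / 64 := div_mul_cancel₀ _ hR0.ne'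
  have hx4 : c / 64 / R * 4 ≤ c / 64 :=
    (mul_le_mul_of_nonneg_left hR4 hx0.le).trans_eq hxR
  have hth0 : 0 < c / 32 / Q ^ 2 := by positivity
  have hthQ : c / 32 / Q ^ 2 * Q ^ 2 = c / 32 := div_mul_cancel₀ _ (by positivity)
  have hQ1 : Q ≤ Q ^ 2 := by nlinarith
  have hthQ1 : c / 32 / Q ^ 2 * Q ≤ c / 32 :=
    (mul_le_mul_of_nonneg_left hQ1 hth0.le).trans_eq hthQ
  have hth1 : c / 32 / Q ^ 2 * 1 ≤ c / 32 / Q ^ 2 * Q :=
    mul_le_mul_of_nonneg_left (by linarith) hth0.le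
  have hmu48 : 48 ≤ mu := by
    have h1 : c * mu ≤ 1 * mu := mul_le_mul_of_nonneg_right hc1.le hmu0.le
    linarith
  refine ⟨⟨hmu0, ?_, ?_, ?_, ?_, ?_, ?_, ?_, ?_, ?_, ?_, ?_, ?_, ?_, ?_, ?_, hL⟩, hV, ?_, ?_, hC,
    rfl, hd, ?_, ?_, ?_⟩
  · show 0 < c / 16
    positivity
  · show c / 16 ≤ 1 / 2
    linarith
  · show 0 < c / 64 / (1 + 3 * C * m)
    rw [← hR]
    exact hx0
  · show c / 64 / (1 + 3 * C * m) ≤ 1 / 3
    rw [← hR]
    linarith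
  · show (0 : ℝ) ≤ (1 - c / 16) * (1 - c / 64 / (1 + 3 * C * m))
    rw [← hR]
    exact mul_nonneg (by linarith) (by linarith)
  · show 0 < c / 32
    positivity
  · show c / 32 ≤ c / 16 / 2
    linarith
  · show 0 < c / 32 / (16 * C * (1 + m)) ^ 2
    rw [← hQ]
    exact hth0
  · show c / 16 ≤ 1
    linarith
  · show 6 * (c / 64 / (1 + 3 * C * m)) ≤ c / 16
    rw [← hR]
    linarith
  · show (0 : ℝ) < 4
    norm_num
  · show 2 * (c / 32 / (16 * C * (1 + m)) ^ 2) * (4 / mu) ≤ 1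
    rw [← hQ]
    have h1 : 4 / mu ≤ 1 := by
      rw [div_le_one hmu0]
      linarith
    have h2 : 2 * (c / 32 / Q ^ 2) * (4 / mu) ≤ 2 * (c / 32 / Q ^ 2) * 1 :=
      mul_le_mul_of_nonneg_left h1 (by linarith)
    linarith
  · show 3 ≤ c / 16 * mu
    linarith
  · show 0 < c / 16
    positivity
  · show c / 16 ≤ 1
    linarith
  · show 0 < c / 16
    positivity
  · show 0 ≤ m
    linarith
  · show 1 - (1 - c / 64 / (1 + 3 * C * m)) * (1 + c / 16)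
      + 2 * (C * (3 * (c / 64 / (1 + 3 * C * m)) * m)) ≤ - (c / 16 / 2)
    rw [← hR]
    have h1 : c / 64 / R * (c / 16) ≤ c / 64 / R * 1 :=
      mul_le_mul_of_nonneg_left (by linarith) hx0.le
    have h2 : 2 * (C * (3 * (c / 64 / R) * m)) = 2 * (c / 64 / R) * (R - 1) := by
      rw [hR]
      ring
    rw [h2]
    nlinarith [hxR, h1]
  · show c / 32 / (16 * C * (1 + m)) ^ 2 * (16 * C * (1 + m)) ≤ 1
    rw [← hQ]
    linarith
  · show c / 32 / (16 * C * (1 + m)) ^ 2 * (16 * C * (1 + m)) ^ 2 ≤ c / 16 / 2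
    rw [← hQ, hthQ]
    linarith

end Pool.Agent.Lib.MP_56e41f_co.FQ
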