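import Pool.Agent.Lib.MP_56e41f_co.FQ.DNa

/-!
# Properties of the list of labels
-/

open Finset

namespace Pool.Agent.Lib.MP_56e41f_co.FQ

open Pool.Agent.Lib.MP_56e41f_co.LD

variable {t Δ : ℕ}

/-- `nl_init`, `Str_run`, `tch_closed` -/
theorem nl_okl (T : TD t Δ) (B w : ℕ) (b : Finset Lab) (n : ℕ) :
    Okl B (nl T B w b n (init t)) := by
  have hS : Str T B (run T B w b n (init t)) := Str_run T B w b n
  have hmem : ∀ c : Lab, c ∈ nl T B w b n (init t) → c ∈ (run T B w b n (init t)).tch := by
    intro c hc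
    rw [nl_init] at hc
    exact List.mem_reverse.1 hc
  have hnd : (nl T B w b n (init t)).Nodup := by
    rw [nl_init]
    exact List.nodup_reverse.2 hS.nodup
  refine ⟨hnd, fun h => hS.nonnil (hmem _ h), fun j a h ha => hS.slotB j a (hmem _ h) ha, ?_⟩
  rw [List.pairwise_iff_forall_sublist]
  intro a c hac heq
  obtain ⟨r1, r2, h1, h2, h3⟩ := List.cons_sublist_iff.1 hac
  have hc : c ∈ r2 := List.singleton_sublist.1 h3
  obtain ⟨p, q, h4⟩ := List.append_of_mem h2
  have h5 : nl T B w b n (init t) = p ++ a :: (q ++ r2) := by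
    rw [h1, h4]
    simp
  have h6 : (run T B w b n (init t)).tch = (q ++ r2).reverse ++ a :: p.reverse := by
    have h7 := nl_init T B w b n
    rw [h5] at h7
    have h8 := congrArg List.reverse h7
    rw [List.reverse_reverse] at h8
    rw [← h8]
    simp
  have hcn : c ∈ nl T B w b n (init t) := by
    rw [h5]
    simp [hc]
  rcases tch_closed T B w b n _ _ _ h6 with h9 | h9
  · rw [heq] at h9
    rw [h9] at hcn
    exact hS.nonnil (hmem _ hcn)
  · rw [heq] at h9
    have h10 : c ∈ p := List.mem_reverse.1 h9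
    rw [h5] at hnd
    have h11 := (List.nodup_append.1 hnd).2.2 c h10 c (by simp [hc])
    exact h11 rfl

theorem nl_closed (T : TD t Δ) (B w : ℕ) (b : Finset Lab) (n : ℕ) :
    ∀ c ∈ nl T B w b n (init t), c.tail = [] ∨ c.tail ∈ nl T B w b n (init t) := by
  intro c hc
  have hc' : c ∈ (run T B w b n (init t)).tch := by
    rw [nl_init] at hc
    exact List.mem_reverse.1 hc
  obtain ⟨l1, l2, h⟩ := List.append_of_mem hc'
  rcases tch_closed T B w b n l1 l2 c h with h1 | h1
  · exact Or.inl h1
  · right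
    rw [nl_init, List.mem_reverse, h]
    simp [h1]

end Pool.Agent.Lib.MP_56e41f_co.FQ
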