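import Pool.Agent.Lib.MP_56e41f_co.FQ.DNa

/-!
# Sums over the labels used by the machine
-/

open Finset

namespace Pool.Agent.Lib.MP_56e41f_co.FQ

open Pool.Agent.Lib.MP_56e41f_co.LD

variable {t Δ : ℕ}

open Classical in
/-- In a state with the structural invariants: the labels of embedded vertices are distinct, have
length `dep + 1`, and all other labels are `dead`. -/
theorem str_sum {T : TD t Δ} {B : ℕ} {s : St t} (h : Str T B s) {f : ℕ → ℝ} {M : ℝ}
    (hf : ∀ k, 0 ≤ f k ∧ f k ≤ M) :
    ∑ c ∈ s.tch.toFinset, f c.length ≤ ∑ i : Fin t, f (T.dep i + 1) + (s.dead : ℝ) * M := by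
  have hM : 0 ≤ M := (hf 0).1.trans (hf 0).2
  let I : Finset (Fin t) := univ.filter (fun i => (s.f i).isSome)
  let g : Fin t → Lab := fun i => match s.f i with
    | some x => x.lab
    | none => []
  have hg : ∀ i x, s.f i = some x → g i = x.lab := by
    intro i x hx
    simp only [g, hx]
  have hI : ∀ i ∈ I, ∃ x, s.f i = some x := by
    intro i hi
    exact Option.isSome_iff_exists.1 (mem_filter.1 hi).2
  have hinj : Set.InjOn g I := by
    intro i hi j hj hij
    obtain ⟨x, hx⟩ := hI i hi
    obtain ⟨y, hy⟩ := hI j hj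
    rw [hg i x hx, hg j y hy] at hij
    exact h.inj i j x y hx hy hij
  have hsub : I.image g ⊆ s.tch.toFinset := by
    intro c hc
    obtain ⟨i, hi, rfl⟩ := mem_image.1 hc
    obtain ⟨x, hx⟩ := hI i hi
    rw [hg i x hx]
    exact List.mem_toFinset.2 (h.lab i x hx).1
  have h1 : ∑ c ∈ I.image g, f c.length ≤ ∑ i : Fin t, f (T.dep i + 1) := by
    rw [sum_image hinj]
    refine le_trans (le_of_eq (sum_congr rfl fun i hi => ?_))
      (sum_le_sum_of_subset_of_nonneg (subset_univ I) (fun i _ _ => (hf _).1))
    obtain ⟨x, hx⟩ := hI i hi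
    rw [hg i x hx, (h.lab i x hx).2.1]
  have h2 : ∑ c ∈ s.tch.toFinset \ I.image g, f c.length ≤ (s.dead : ℝ) * M := by
    have hc : (s.tch.toFinset \ I.image g).card = s.dead := by
      rw [card_sdiff_of_subset hsub, card_image_of_injOn hinj, List.toFinset_card_of_nodup h.nodup]
      rfl
    calc ∑ c ∈ s.tch.toFinset \ I.image g, f c.length
        ≤ (s.tch.toFinset \ I.image g).card • M := sum_le_card_nsmul _ _ _ (fun c _ => (hf _).2)
      _ = (s.dead : ℝ) * M := by rw [hc, nsmul_eq_mul]
  rw [← sum_sdiff hsub]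
  linarith

open Classical in
/-- Induction on `n`: a step which adds a label leaves `dead ≤ w` (`act_root`, `act_ask`), so
`str_sum` can be used for the new state; the other steps do not change the labels. -/
theorem run_sum (T : TD t Δ) (B w : ℕ) (b : Finset Lab) (n : ℕ) {f : ℕ → ℝ} {M : ℝ}
    (hf : ∀ k, 0 ≤ f k ∧ f k ≤ M) :
    ∑ c ∈ (run T B w b n (init t)).tch.toFinset, f c.length ≤
      ∑ i : Fin t, f (T.dep i + 1) + (w : ℝ) * M := by
  have hM : 0 ≤ M := (hf 0).1.trans (hf 0).2
  have key : ∀ s' : St t, Str T B s' → s'.dead ≤ w →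
      ∑ c ∈ s'.tch.toFinset, f c.length ≤ ∑ i : Fin t, f (T.dep i + 1) + (w : ℝ) * M := by
    intro s' h1 h2
    refine (str_sum h1 hf).trans ?_
    have : (s'.dead : ℝ) * M ≤ (w : ℝ) * M :=
      mul_le_mul_of_nonneg_right (by exact_mod_cast h2) hM
    linarith
  induction n with
  | zero =>
    have h0 : 0 ≤ ∑ i : Fin t, f (T.dep i + 1) := sum_nonneg fun i _ => (hf _).1
    have h1 : 0 ≤ (w : ℝ) * M := mul_nonneg (Nat.cast_nonneg _) hM
    simp only [run, init, List.toFinset_nil, sum_empty]
    linarith
  | succ n ih =>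
    have hS := Str_run T B w b (n + 1)
    rw [run_succ'] at hS ⊢
    unfold step at hS ⊢
    cases ha : act T B w (run T B w b n (init t)) with
    | stop => exact ih
    | root v =>
      obtain ⟨hn, hd, -⟩ := act_root T B w ha
      rw [ha] at hS
      refine key (placeRoot (run T B w b n (init t)) v) hS ?_
      have h1 := alive_placeRoot (run T B w b n (init t)) v (nxt_eq_some hn).1
      have h2 : (placeRoot (run T B w b n (init t)) v).tch.length =
        (run T B w b n (init t)).tch.length + 1 := rfl
      unfold St.dead at hd ⊢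
      omega
    | ask v u x =>
      obtain ⟨hn, hd, hv, hu, hux, -⟩ := act_ask T B w ha
      rw [ha] at hS
      by_cases hF : x.asks :: x.lab ∈ b
      · simp only [if_pos hF] at hS ⊢
        refine key (succSt T (run T B w b n (init t)) v u x) hS ?_
        have hne : u ≠ v := by
          intro he
          have h3 := T.par_lt v hv
          rw [← hu, he] at h3
          exact lt_irrefl _ h3
        have h1 := alive_succSt T (run T B w b n (init t)) v u x (nxt_eq_some hn).1 hux hne
        have h2 : (succSt T (run T B w b n (init t)) v u x).tch.length =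
          (run T B w b n (init t)).tch.length + 1 := rfl
        unfold St.dead at hd ⊢
        omega
      · simp only [if_neg hF]
        exact ih
    | rem u => exact ih

open Classical in
theorem nl_sum (T : TD t Δ) (B w : ℕ) (b : Finset Lab) (n : ℕ) {f : ℕ → ℝ} {M : ℝ}
    (hf : ∀ k, 0 ≤ f k ∧ f k ≤ M) :
    ∑ c ∈ (nl T B w b n (init t)).toFinset, f c.length ≤
      ∑ i : Fin t, f (T.dep i + 1) + (w : ℝ) * M := by
  rw [nl_init, List.toFinset_reverse]
  exact run_sum T B w b n hf

end Pool.Agent.Lib.MP_56e41f_co.FQ
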