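import Pool.Agent.Lib.MP_56e41f_co.FQ.DDef
import Pool.Agent.Lib.MP_56e41f_co.LD.GrB

/-!
# Nearest placed ancestors
-/

open Finset

namespace Pool.Agent.Lib.MP_56e41f_co.FQ

open Pool.Agent.Lib.MP_56e41f_co.LD

variable {V : Type} [Fintype V] [DecidableEq V]

theorem Okl.cons {B : ℕ} {a : Lab} {rest : List Lab} (h : Okl B (a :: rest)) :
    Okl B rest ∧ a ∉ rest ∧ a.tail ∉ rest ∧ a.tail ≠ a ∧ a ≠ [] := by
  have hne : a ≠ [] := fun h' => h.nn (h' ▸ List.mem_cons_self)
  have hp := List.pairwise_cons.1 h.pf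
  refine ⟨⟨(List.nodup_cons.1 h.nd).2, fun h' => h.nn (List.mem_cons_of_mem _ h'),
    fun j b hb => h.sl j b (List.mem_cons_of_mem _ hb), hp.2⟩, (List.nodup_cons.1 h.nd).1,
    fun h' => hp.1 _ h' rfl, ?_, hne⟩
  intro h'
  have h1 := congrArg List.length h'
  rw [List.length_tail] at h1
  have h2 := List.length_pos_of_ne_nil hne
  omega

private theorem dpa_self {a : Lab} {rest : List Lab} (_h1 : a ∉ rest) (h2 : a.tail ∉ rest)
    (h3 : a.tail ≠ a) (h4 : a ≠ []) :
    anc (a :: rest) a = a.tail ∧ dis (a :: rest) a = 0 := by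
  cases a with
  | nil => exact absurd rfl h4
  | cons x b =>
    have hb : b ∉ (x :: b) :: rest := fun h' => by
      rcases List.mem_cons.1 h' with h5 | h5
      · exact h3 h5
      · exact h2 h5
    simp only [anc, dis, if_neg hb]
    exact ⟨rfl, trivial⟩

/-- Induction on `b`. -/
theorem anc_cons {B : ℕ} {a : Lab} {rest : List Lab} (h : Okl B (a :: rest)) (b : Lab) :
    (anc rest b = a ∧ anc (a :: rest) b = a.tail ∧ dis (a :: rest) b = dis rest b + 1) ∨
    (anc rest b ≠ a ∧ anc (a :: rest) b = anc rest b ∧ dis (a :: rest) b = dis rest b) := by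
  obtain ⟨-, h1, h2, h3, h4⟩ := h.cons
  induction b with
  | nil => exact Or.inr ⟨fun h' => h4 h'.symm, rfl, rfl⟩
  | cons x b ih =>
    by_cases hb : b ∈ rest
    · have hb' : b ∈ a :: rest := List.mem_cons_of_mem _ hb
      simp only [anc, dis, if_pos hb, if_pos hb']
      rcases ih with ⟨i1, i2, i3⟩ | ⟨i1, i2, i3⟩
      · exact Or.inl ⟨i1, i2, by rw [i3]⟩
      · exact Or.inr ⟨i1, i2, by rw [i3]⟩
    · by_cases hba : b = a
      · have hs := dpa_self h1 h2 h3 h4
        left
        rw [hba]
        have hm : a ∈ a :: rest := List.mem_cons_self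
        simp only [anc, dis, if_neg h1, if_pos hm]
        refine ⟨trivial, hs.1, ?_⟩
        rw [hs.2]
      · have hb' : b ∉ a :: rest := fun h' => by
          rcases List.mem_cons.1 h' with h5 | h5
          · exact hba h5
          · exact hb h5
        right
        simp only [anc, dis, if_neg hb, if_neg hb']
        exact ⟨hba, trivial, trivial⟩

theorem anc_self {B : ℕ} {a : Lab} {rest : List Lab} (h : Okl B (a :: rest)) :
    anc (a :: rest) a = a.tail ∧ dis (a :: rest) a = 0 := by
  obtain ⟨-, h1, h2, h3, h4⟩ := h.cons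
  exact dpa_self h1 h2 h3 h4

/-- the nearest placed ancestor is placed; lengths -/
theorem anc_spec {B : ℕ} {rest : List Lab} (h : Okl B rest) {b : Lab} (hb : b ∈ rest) :
    anc rest b ∉ rest ∧ b.length = (anc rest b).length + dis rest b + 1 := by
  induction b with
  | nil => exact absurd hb h.nn
  | cons x b ih =>
    by_cases hb' : b ∈ rest
    · obtain ⟨i1, i2⟩ := ih hb'
      simp only [anc, dis, if_pos hb']
      refine ⟨i1, ?_⟩
      rw [List.length_cons]
      omega
    · simp only [anc, dis, if_neg hb']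
      refine ⟨hb', ?_⟩
      rw [List.length_cons]

/-- if the parents of all labels are in `rest`, then no label has a placed ancestor -/
theorem anc_start {B : ℕ} {rest : List Lab} (h : Okl B rest)
    (h0 : ∀ b ∈ rest, b.tail = [] ∨ b.tail ∈ rest) : ∀ b ∈ rest, anc rest b = [] := by
  intro b
  induction b with
  | nil => exact fun _ => rfl
  | cons x b ih =>
    intro hb
    by_cases hb' : b ∈ rest
    · simp only [anc, if_pos hb']
      exact ih hb'
    · simp only [anc, if_neg hb']
      rcases h0 _ hb with h1 | h1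
      · exact h1
      · exact absurd h1 hb'

end Pool.Agent.Lib.MP_56e41f_co.FQ
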