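import Pool.Agent.Lib.MP_56e41f_co.FQ.DDef
import Pool.Agent.Lib.MP_56e41f_co.FQ.DPa
import Pool.Agent.Lib.MP_56e41f_co.LD.GrB

/-!
# Change of the potential
-/

open Finset

namespace Pool.Agent.Lib.MP_56e41f_co.FQ

open Pool.Agent.Lib.MP_56e41f_co.LD

variable {V : Type} [Fintype V] [DecidableEq V]

theorem hh_nonneg {G : SimpleGraph V} {X : Finset (V × Bool)} {P : Pm} (hO : P.Ok) (hH : Hs G X P)
    (s : Bool) (rest : List Lab) (φ : Lab → V) (b : Lab) : 0 ≤ hh G X P s rest φ b := by
  unfold hh
  split_ifs
  · exact div_nonneg hO.hb0.le hO.mu0.le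
  · exact (Cst_bd hO hH _).1
  · exact Gr_nonneg G X _ _

theorem RR_nonneg {G : SimpleGraph V} {X : Finset (V × Bool)} {P : Pm} (hO : P.Ok) (hH : Hs G X P)
    (s : Bool) (rest : List Lab) (φ : Lab → V) : 0 ≤ RR G X P s rest φ :=
  sum_nonneg fun b _ => hh_nonneg hO hH s rest φ b

private theorem dpc_term {G : SimpleGraph V} {X : Finset (V × Bool)} {P : Pm} {s : Bool}
    {B : ℕ} {a : Lab} {rest : List Lab} (h : Okl B (a :: rest)) (ha : a.tail ≠ []) (φ : Lab → V)
    (u : V) (b : Lab) :
    hh G X P s rest (Function.update φ a u) b = hh G X P s (a :: rest) φ b +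
      (if anc rest b = a then dl G X P s rest (pos s φ a.tail) u b else 0) := by
  obtain ⟨hr, -, -, -, hane⟩ := h.cons
  rcases anc_cons h b with ⟨h1, h2, h3⟩ | ⟨h1, h2, h3⟩
  · have hbt : b.tail ≠ [] := by
      intro hb
      cases b with
      | nil =>
        rw [show anc rest [] = [] from rfl] at h1
        exact hane h1.symm
      | cons j c =>
        rw [List.tail_cons] at hb
        subst hb
        rw [show anc rest [j] = if ([] : Lab) ∈ rest then anc rest [] else [] from rfl,
          if_neg hr.nn] at h1
        exact hane h1.symm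
    have hpos : pos s (Function.update φ a u) a = (u, !(pos s φ a.tail).2) := by
      have hl : a.length - 1 = (a.tail.length - 1) + 1 := by
        have h4 : 0 < a.tail.length := List.length_pos_iff.2 ha
        rw [List.length_tail] at h4 ⊢
        omega
      have h5 : sd s (a.length - 1) = !(sd s (a.tail.length - 1)) := by
        rw [hl, sd_succ]
      change (Function.update φ a u a, sd s (a.length - 1)) = (u, !(sd s (a.tail.length - 1)))
      rw [Function.update_self, h5]
    unfold hh dl
    rw [if_neg hbt, if_neg hbt, if_pos h1, h1, h2, h3]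
    rw [hpos]
    by_cases c1 : dis rest b < P.L
    · have c1' : ¬ (a = [] ∨ P.L ≤ dis rest b) := by
        rintro (h6 | h6)
        · exact hane h6
        · omega
      rw [if_neg c1', if_pos c1]
      by_cases c2 : dis rest b + 1 < P.L
      · have c2' : ¬ (a.tail = [] ∨ P.L ≤ dis rest b + 1) := by
          rintro (h6 | h6)
          · exact ha h6
          · omega
        rw [if_neg c2', if_pos c2]
        ring
      · have c2' : a.tail = [] ∨ P.L ≤ dis rest b + 1 := Or.inr (by omega)
        rw [if_pos c2', if_neg c2]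
        ring
    · have c1' : a = [] ∨ P.L ≤ dis rest b := Or.inr (by omega)
      have c2 : ¬ dis rest b + 1 < P.L := by omega
      have c2' : a.tail = [] ∨ P.L ≤ dis rest b + 1 := Or.inr (by omega)
      rw [if_pos c1', if_neg c1, if_pos c2', if_neg c2]
      ring
  · have hpos : pos s (Function.update φ a u) (anc rest b) = pos s φ (anc rest b) := by
      change (Function.update φ a u (anc rest b), sd s ((anc rest b).length - 1)) =
        (φ (anc rest b), sd s ((anc rest b).length - 1))
      rw [Function.update_of_ne h1]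
    unfold hh
    rw [if_neg h1, h2, h3, hpos, add_zero]

/-- `anc_cons`, `anc_self`; the image of `a` is `(u, !y.2)`, since
`a.length - 1 = (a.tail.length - 1) + 1`. -/
theorem RR_step {G : SimpleGraph V} {X : Finset (V × Bool)} {P : Pm} (hO : P.Ok) {s : Bool}
    {B : ℕ} {a : Lab} {rest : List Lab} (h : Okl B (a :: rest)) (ha : a.tail ≠ []) (φ : Lab → V)
    (u : V) :
    RR G X P s rest (Function.update φ a u) =
      RR G X P s (a :: rest) φ + dR G X P s rest a (pos s φ a.tail) u := by
  obtain ⟨hr, har, -, -, hane⟩ := h.cons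
  have hL := hO.L1
  have h1 : RR G X P s (a :: rest) φ =
      hh G X P s (a :: rest) φ a + ∑ b ∈ rest.toFinset, hh G X P s (a :: rest) φ b := by
    unfold RR
    rw [List.toFinset_cons, sum_insert (fun hm => har (List.mem_toFinset.1 hm))]
  have h2 : hh G X P s (a :: rest) φ a = Gr G X 0 (pos s φ a.tail) := by
    obtain ⟨h3, h4⟩ := anc_self h
    unfold hh
    rw [if_neg ha, h3, h4, if_neg]
    rintro (h5 | h5)
    · exact ha h5
    · omega
  have h3 : RR G X P s rest (Function.update φ a u) =
      ∑ b ∈ rest.toFinset, hh G X P s (a :: rest) φ b +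
      ∑ b ∈ rest.toFinset.filter (fun b => anc rest b = a),
        dl G X P s rest (pos s φ a.tail) u b := by
    unfold RR
    rw [sum_filter, ← sum_add_distrib]
    exact sum_congr rfl fun b _ => dpc_term h ha φ u b
  rw [h3, h1, h2]
  unfold dR
  ring

end Pool.Agent.Lib.MP_56e41f_co.FQ
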