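import Pool.Agent.Lib.MP_56e41f_co.FQ.DPa
import Pool.Agent.Lib.MP_56e41f_co.FQ.DPc
import Pool.Agent.Lib.MP_56e41f_co.FQ.DNb
import Pool.Agent.Lib.MP_56e41f_co.FQ.DNc

/-!
# The budget
-/

open Finset

namespace Pool.Agent.Lib.MP_56e41f_co.FQ

open Pool.Agent.Lib.MP_56e41f_co.LD

variable {V : Type} [Fintype V] [DecidableEq V] {t Δ : ℕ}

open Classical in
/-- cost of a label of length `k`, if nothing is placed -/
noncomputable def fb (G : SimpleGraph V) (X : Finset (V × Bool)) (P : Pm) (s : Bool) (k : ℕ) : ℝ :=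
  if k = 1 then 4 / P.mu
  else Cst G X P (sd s (k - 2)) + (if k ≤ P.L + 1 then 1 / P.mu else 0)

theorem fb_bd {G : SimpleGraph V} {X : Finset (V × Bool)} {P : Pm} (hO : P.Ok) (hH : Hs G X P)
    (s : Bool) (k : ℕ) : 0 ≤ fb G X P s k ∧ fb G X P s k ≤ 4 / P.mu := by
  have hmu := hO.mu0
  have h1 : 0 ≤ 1 / P.mu := by positivity
  have h4 : 0 ≤ 4 / P.mu := by positivity
  have hC := Cst_bd hO hH (sd s (k - 2))
  have e4 : 4 / P.mu = 4 * (1 / P.mu) := by ring
  have e2 : 2 / P.mu = 2 * (1 / P.mu) := by ring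
  unfold fb
  split_ifs with h2 h3
  · exact ⟨h4, le_rfl⟩
  · refine ⟨add_nonneg hC.1 h1, ?_⟩
    have := hC.2
    rw [e4]
    linarith
  · refine ⟨add_nonneg hC.1 le_rfl, ?_⟩
    have := hC.2
    rw [e4]
    linarith

/-- `anc_start`: no label has a placed ancestor. -/
theorem RX_init {G : SimpleGraph V} {X : Finset (V × Bool)} {P : Pm} (hO : P.Ok) (hb : P.hb = 4)
    (s : Bool) {B : ℕ} {rest : List Lab} (h : Okl B rest)
    (h0 : ∀ b ∈ rest, b.tail = [] ∨ b.tail ∈ rest) (φ : Lab → V) :
    RX G X P s rest φ = ∑ b ∈ rest.toFinset, fb G X P s b.length := by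
  classical
  have hb0 : P.hb = 4 := hb
  have hex : exl P rest = ∑ b ∈ rest.toFinset,
      if (b.tail ≠ [] ∧ anc rest b = [] ∧ b.length ≤ P.L + 1) then 1 / P.mu else 0 := by
    rw [← Finset.sum_filter, Finset.sum_const, nsmul_eq_mul, mul_one_div]
    unfold exl
    congr 2
  rw [RX, RR, hex, ← Finset.sum_add_distrib]
  refine Finset.sum_congr rfl fun b hb => ?_
  have hb' : b ∈ rest := List.mem_toFinset.1 hb
  have hanc := anc_start h h0 b hb'
  have hne : b ≠ [] := fun e => h.nn (e ▸ hb')
  have hlen : 0 < b.length := List.length_pos_of_ne_nil hne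
  unfold hh fb
  by_cases ht : b.tail = []
  · have hl : b.length = 1 := by
      have h1 := congrArg List.length ht
      rw [List.length_tail, List.length_nil] at h1
      omega
    rw [if_pos ht, if_pos hl, if_neg (fun h => h.1 ht), hb0, add_zero]
  · have hl : b.length ≠ 1 := by
      intro h1
      apply ht
      apply List.eq_nil_of_length_eq_zero
      rw [List.length_tail, h1]
    rw [if_neg ht, if_pos (Or.inl hanc), if_neg hl]
    congr 1
    by_cases hL : b.length ≤ P.L + 1
    · rw [if_pos hL, if_pos ⟨ht, hanc, hL⟩]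
    · rw [if_neg hL, if_neg (fun h => hL h.2.2)]

open Classical in
/-- `RX_init`, `nl_sum`; for the vertex `0` the term is `4 / mu`, and `TD.desc_card` with `u = 0`
counts the vertices of depth at most `L`. -/
theorem RX_nl {G : SimpleGraph V} {X : Finset (V × Bool)} {P : Pm} (hO : P.Ok) (hb : P.hb = 4)
    (hH : Hs G X P) (s : Bool) (T : TD t Δ) (B w : ℕ) (b : Finset Lab) (n : ℕ) (φ : Lab → V) :
    RX G X P s (nl T B w b n (init t)) φ ≤
      ∑ i ∈ univ.filter (fun i : Fin t => i.val ≠ 0), Cst G X P (sd s (T.dep i - 1))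
        + (((Δ : ℝ) + 1) ^ P.L + 4 * w + 4) / P.mu := by
  have hmu := hO.mu0
  rw [RX_init hO hb s (nl_okl T B w b n) (nl_closed T B w b n) φ]
  refine (nl_sum T B w b n (f := fb G X P s) (M := 4 / P.mu)
    (fun k => fb_bd hO hH s k)).trans ?_
  have hsplit := Finset.sum_filter_add_sum_filter_not (univ : Finset (Fin t))
    (fun i : Fin t => i.val ≠ 0) (fun i => fb G X P s (T.dep i + 1))
  rw [← hsplit]
  have h0 : ∑ i ∈ univ.filter (fun i : Fin t => ¬ i.val ≠ 0), fb G X P s (T.dep i + 1)
      ≤ 4 / P.mu := by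
    have h1 : (univ.filter (fun i : Fin t => ¬ i.val ≠ 0)).card ≤ 1 := by
      rw [Finset.card_le_one]
      intro i hi j hj
      have h2 := (Finset.mem_filter.1 hi).2
      have h3 := (Finset.mem_filter.1 hj).2
      exact Fin.ext (by omega)
    calc _ ≤ ∑ i ∈ univ.filter (fun i : Fin t => ¬ i.val ≠ 0), 4 / P.mu :=
          Finset.sum_le_sum fun i _ => (fb_bd hO hH s _).2
      _ = ((univ.filter (fun i : Fin t => ¬ i.val ≠ 0)).card : ℝ) * (4 / P.mu) := by
          rw [Finset.sum_const, nsmul_eq_mul]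
      _ ≤ 1 * (4 / P.mu) := by
          refine mul_le_mul_of_nonneg_right ?_ (by positivity)
          exact_mod_cast h1
      _ = 4 / P.mu := one_mul _
  have hterm : ∀ i ∈ univ.filter (fun i : Fin t => i.val ≠ 0), fb G X P s (T.dep i + 1) =
      Cst G X P (sd s (T.dep i - 1)) + (if T.dep i ≤ P.L then 1 / P.mu else 0) := by
    intro i hi
    have hi0 := (Finset.mem_filter.1 hi).2
    have hd : T.dep i ≠ 0 := fun h => hi0 ((T.dep_zero i).1 h)
    unfold fb
    rw [if_neg (by omega)]
    have e1 : T.dep i + 1 - 2 = T.dep i - 1 := by omega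
    rw [e1]
    congr 1
    by_cases hL : T.dep i ≤ P.L
    · rw [if_pos hL, if_pos (by omega)]
    · rw [if_neg hL, if_neg (by omega)]
  have h2 : ∑ i ∈ univ.filter (fun i : Fin t => i.val ≠ 0),
      (if T.dep i ≤ P.L then 1 / P.mu else 0) ≤ ((Δ : ℝ) + 1) ^ P.L * (1 / P.mu) := by
    rw [← Finset.sum_filter, Finset.sum_const, nsmul_eq_mul]
    refine mul_le_mul_of_nonneg_right ?_ (by positivity)
    rcases Nat.eq_zero_or_pos t with ht | ht
    · subst ht
      have : (Finset.filter (fun i : Fin 0 => T.dep i ≤ P.L)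
          (univ.filter (fun i : Fin 0 => i.val ≠ 0))).card = 0 := by
        rw [Finset.card_eq_zero]
        ext i
        exact i.elim0
      rw [this, Nat.cast_zero]
      positivity
    · have hdesc : ∀ (n : ℕ) (z : Fin t), T.dep z = n → T.desc ⟨0, ht⟩ z := by
        intro n
        induction n with
        | zero =>
          intro z hz
          have h3 := (T.dep_zero z).1 hz
          have h4 : z = ⟨0, ht⟩ := Fin.ext h3
          rw [h4]
          exact T.desc_refl _
        | succ n ih =>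
          intro z hz
          have h3 : z.val ≠ 0 := fun h => by
            have := (T.dep_zero z).2 h
            omega
          have h4 := T.dep_par z h3
          exact T.desc_of_par (ih (T.par z) (by omega))
      have hd0 : T.dep ⟨0, ht⟩ = 0 := (T.dep_zero _).2 rfl
      have h5 := T.desc_card ⟨0, ht⟩ P.L
      have h6 : (Finset.filter (fun i : Fin t => T.dep i ≤ P.L)
          (univ.filter (fun i : Fin t => i.val ≠ 0))).card ≤ (Δ + 1) ^ P.L := by
        refine le_trans (Finset.card_le_card fun i hi => ?_) h5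
        rw [Finset.mem_filter] at hi ⊢
        exact ⟨mem_univ _, hdesc _ i rfl, by rw [hd0]; omega⟩
      exact_mod_cast h6
  rw [Finset.sum_congr rfl hterm, Finset.sum_add_distrib]
  have e : (((Δ : ℝ) + 1) ^ P.L + 4 * w + 4) / P.mu =
      ((Δ : ℝ) + 1) ^ P.L * (1 / P.mu) + 4 / P.mu + (w : ℝ) * (4 / P.mu) := by ring
  rw [e]
  linarith

end Pool.Agent.Lib.MP_56e41f_co.FQ
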