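import Pool.Agent.Lib.MP_56e41f_co.FQ.DDef

/-!
# The mode of the binomial distribution
-/

open Finset

namespace Pool.Agent.Lib.MP_56e41f_co.FQ

open Pool.Agent.Lib.MP_56e41f_co.LD

variable {V : Type} [Fintype V] [DecidableEq V]

/-- the weights as natural numbers -/
private def dtbA (N j k : ℕ) : ℕ := N.choose k * j ^ k * (N - j) ^ (N - k)

private theorem dtbA_succ {N j k : ℕ} (hk : k < N) :
    dtbA N j (k + 1) * ((k + 1) * (N - j)) = dtbA N j k * ((N - k) * j) := by
  unfold dtbA
  have h1 : N.choose (k + 1) * (k + 1) = N.choose k * (N - k) := Nat.choose_succ_right_eq N k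
  have h2 : N - k = (N - (k + 1)) + 1 := by omega
  calc N.choose (k + 1) * j ^ (k + 1) * (N - j) ^ (N - (k + 1)) * ((k + 1) * (N - j)) =
        (N.choose (k + 1) * (k + 1)) * j ^ (k + 1) * ((N - j) ^ (N - (k + 1)) * (N - j)) := by ring
    _ = (N.choose k * (N - k)) * j ^ (k + 1) * (N - j) ^ (N - k) := by
        rw [h1, ← pow_succ, ← h2]
    _ = N.choose k * j ^ k * (N - j) ^ (N - k) * ((N - k) * j) := by ring

private theorem dtbA_le {N j k : ℕ} (hj : j ≤ N) (hk : k ≤ N) : dtbA N j k ≤ dtbA N j j := by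
  rcases Nat.eq_or_lt_of_le hj with rfl | hjN
  · rcases Nat.eq_or_lt_of_le hk with rfl | hkj
    · exact le_refl _
    · have : dtbA j j k = 0 := by
        unfold dtbA
        rw [Nat.sub_self, zero_pow (by omega), mul_zero]
      rw [this]
      exact Nat.zero_le _
  · have up : ∀ m, m < j → dtbA N j m ≤ dtbA N j (m + 1) := by
      intro m hm
      have h1 := dtbA_succ (N := N) (j := j) (k := m) (by omega)
      have h2 : (m + 1) * (N - j) ≤ (N - m) * j := by
        have e1 : (N - m) * j = (N - j) * j + (j - m) * j := by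
          rw [← Nat.add_mul]; congr 1; omega
        have e2 : (m + 1) * (N - j) ≤ j * (N - j) := Nat.mul_le_mul_right _ hm
        rw [e1, mul_comm (N - j) j]
        omega
      have h3 : 0 < (m + 1) * (N - j) := Nat.mul_pos (Nat.succ_pos _) (by omega)
      refine Nat.le_of_mul_le_mul_right ?_ h3
      rw [h1]
      exact Nat.mul_le_mul_left _ h2
    have down : ∀ m, j ≤ m → m < N → dtbA N j (m + 1) ≤ dtbA N j m := by
      intro m hm hmN
      have h1 := dtbA_succ (N := N) (j := j) (k := m) hmN
      have h2 : (N - m) * j ≤ (m + 1) * (N - j) :=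
        (Nat.mul_le_mul (Nat.sub_le_sub_left hm N) (by omega : j ≤ m + 1)).trans_eq
          (mul_comm _ _)
      have h3 : 0 < (m + 1) * (N - j) := Nat.mul_pos (Nat.succ_pos _) (by omega)
      refine Nat.le_of_mul_le_mul_right ?_ h3
      rw [h1]
      exact Nat.mul_le_mul_left _ h2
    rcases le_total k j with hkj | hkj
    · have key : ∀ d, d ≤ j → dtbA N j (j - d) ≤ dtbA N j j := by
        intro d
        induction d with
        | zero => intro _; exact le_refl _
        | succ d ih =>
          intro hd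
          have h1 := up (j - (d + 1)) (by omega)
          have h2 : j - (d + 1) + 1 = j - d := by omega
          rw [h2] at h1
          exact h1.trans (ih (by omega))
      have h1 := key (j - k) (by omega)
      have h2 : j - (j - k) = k := by omega
      rwa [h2] at h1
    · have key : ∀ d, j + d ≤ N → dtbA N j (j + d) ≤ dtbA N j j := by
        intro d
        induction d with
        | zero => intro _; exact le_refl _
        | succ d ih =>
          intro hd
          exact (down (j + d) (by omega) (by omega)).trans (ih (by omega))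
      have h1 := key (k - j) (by omega)
      have h2 : j + (k - j) = k := by omega
      rwa [h2] at h1

/-- The weights `C (N, k) p ^ k (1 - p) ^ (N - k)`, `p = j / N`, increase up to `k = j` and decrease
afterwards; their sum is `1`. -/
theorem binom_mode (N j : ℕ) (hN : 0 < N) (hj : j ≤ N) :
    1 ≤ ((N : ℝ) + 1) * ((N.choose j : ℕ) : ℝ) * ((j : ℝ) / N) ^ j * (1 - (j : ℝ) / N) ^ (N - j) := by
  have hsum : ∑ k ∈ range (N + 1), dtbA N j k = N ^ N := by
    have h1 := add_pow j (N - j) N
    have h2 : j + (N - j) = N := by omega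
    rw [h2] at h1
    rw [h1]
    refine Finset.sum_congr rfl fun k _ => ?_
    unfold dtbA
    rw [Nat.cast_id]
    ring
  have hle : N ^ N ≤ (N + 1) * dtbA N j j := by
    rw [← hsum]
    refine (Finset.sum_le_card_nsmul _ _ (dtbA N j j) fun k hk => ?_).trans ?_
    · exact dtbA_le hj (by have := Finset.mem_range.mp hk; omega)
    · rw [Finset.card_range, smul_eq_mul]
  have hle' : ((N : ℝ)) ^ N ≤ ((N : ℝ) + 1) * (dtbA N j j : ℝ) := by exact_mod_cast hle
  have hN' : (0 : ℝ) < (N : ℝ) := by exact_mod_cast hN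
  have hcast : ((N - j : ℕ) : ℝ) = (N : ℝ) - j := Nat.cast_sub hj
  have e1 : ((N : ℝ) + 1) * ((N.choose j : ℕ) : ℝ) * ((j : ℝ) / N) ^ j *
      (1 - (j : ℝ) / N) ^ (N - j) = ((N : ℝ) + 1) * (dtbA N j j : ℝ) / (N : ℝ) ^ N := by
    have h1 : (1 - (j : ℝ) / N) = ((N : ℝ) - j) / N := by field_simp
    unfold dtbA
    push_cast
    rw [h1, hcast, div_pow, div_pow]
    have h2 : (N : ℝ) ^ N = (N : ℝ) ^ j * (N : ℝ) ^ (N - j) := by
      rw [← pow_add]; congr 1; omega
    rw [h2]
    field_simp
  rw [e1, le_div_iff₀ (by positivity), one_mul]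
  exact hle'

open Classical in
/-- `1 / C (N, j) ≤ (N + 1) p ^ j (1 - p) ^ (N - j)`, so the sum is bounded by binomial random
subsets. -/
theorem sum_le_pr (Q : Finset V → Prop) (hV : 0 < Fintype.card V) :
    ∑ F ∈ (univ : Finset V).powerset.filter Q,
        1 / (((Fintype.card V).choose F.card : ℕ) : ℝ) ≤
      ((Fintype.card V : ℝ) + 1) * ∑ j ∈ range (Fintype.card V + 1),
        pr ((j : ℝ) / Fintype.card V) (univ : Finset V) (fun F => F.card = j ∧ Q F) := by
  obtain ⟨n, hn⟩ : ∃ n, n = Fintype.card V := ⟨_, rfl⟩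
  rw [← hn] at hV ⊢
  have hn' : (0 : ℝ) < (n : ℝ) := by exact_mod_cast hV
  have hle1 : ∀ F : Finset V, F.card ≤ n := fun F => by rw [hn]; exact F.card_le_univ
  have hterm : ∀ (F : Finset V) (j : ℕ), j ≤ n → 0 ≤ ((n : ℝ) + 1) *
      (((j : ℝ) / n) ^ F.card * (1 - (j : ℝ) / n) ^ ((univ : Finset V).card - F.card) *
        ind (F.card = j ∧ Q F)) := by
    intro F j hj
    have h1 : (j : ℝ) / n ≤ 1 := by
      rw [div_le_one hn']
      exact_mod_cast hj
    have h2 : 0 ≤ 1 - (j : ℝ) / n := by linarith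
    have h3 := ind_nonneg (F.card = j ∧ Q F)
    positivity
  have h1 : ((n : ℝ) + 1) * ∑ j ∈ range (n + 1),
        pr ((j : ℝ) / n) (univ : Finset V) (fun F => F.card = j ∧ Q F) =
      ∑ F ∈ (univ : Finset V).powerset, ∑ j ∈ range (n + 1), ((n : ℝ) + 1) *
      (((j : ℝ) / n) ^ F.card * (1 - (j : ℝ) / n) ^ ((univ : Finset V).card - F.card) *
        ind (F.card = j ∧ Q F)) := by
    unfold pr ex
    rw [Finset.mul_sum, Finset.sum_comm]
    refine Finset.sum_congr rfl fun j _ => ?_
    rw [Finset.mul_sum]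
  rw [h1]
  refine (Finset.sum_le_sum (g := fun F => ∑ j ∈ range (n + 1), ((n : ℝ) + 1) *
      (((j : ℝ) / n) ^ F.card * (1 - (j : ℝ) / n) ^ ((univ : Finset V).card - F.card) *
        ind (F.card = j ∧ Q F))) fun F hF => ?_).trans
    (Finset.sum_le_sum_of_subset_of_nonneg (Finset.filter_subset _ _) fun F _ _ =>
      Finset.sum_nonneg fun j hj => hterm F j (by
        have := Finset.mem_range.mp hj
        omega))
  have hQ : Q F := (Finset.mem_filter.mp hF).2
  refine le_trans ?_ (Finset.single_le_sum (f := fun j : ℕ => ((n : ℝ) + 1) *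
      (((j : ℝ) / n) ^ F.card * (1 - (j : ℝ) / n) ^ ((univ : Finset V).card - F.card) *
        ind (F.card = j ∧ Q F))) (fun j hj => hterm F j (by
        have := Finset.mem_range.mp hj
        omega)) (Finset.mem_range.mpr (Nat.lt_succ_of_le (hle1 F))))
  have h2 := binom_mode n F.card hV (hle1 F)
  have h3 : (0 : ℝ) < ((n.choose F.card : ℕ) : ℝ) := by
    exact_mod_cast Nat.choose_pos (hle1 F)
  rw [div_le_iff₀ h3]
  refine h2.trans_eq ?_
  beta_reduce
  rw [ind_true ⟨rfl, hQ⟩, Finset.card_univ, ← hn]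
  ring

end Pool.Agent.Lib.MP_56e41f_co.FQ
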