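import Pool.Agent.Lib.MP_56e41f_co.FQ.DDef

/-!
# Deviations of sums over binomial random sets
-/

open Finset

namespace Pool.Agent.Lib.MP_56e41f_co.FQ

open Pool.Agent.Lib.MP_56e41f_co.LD

variable {V : Type} [Fintype V] [DecidableEq V]

private theorem dtc_exp_le {y : ℝ} (hy : |y| ≤ 1) : Real.exp y ≤ 1 + y + y ^ 2 := by
  have h := Real.abs_exp_sub_one_sub_id_le hy
  have h2 := (abs_le.mp h).2
  linarith

private theorem dtc_one (p : ℝ) (h0 : 0 ≤ p) (h1 : p ≤ 1) {x : ℝ} (hx : |x| ≤ 1) :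
    p * Real.exp ((1 - p) * x) + (1 - p) * Real.exp (-(p * x)) ≤ Real.exp (x ^ 2) := by
  have hq : 0 ≤ 1 - p := by linarith
  have ha : |(1 - p) * x| ≤ 1 := by
    rw [abs_mul, abs_of_nonneg hq]
    calc (1 - p) * |x| ≤ 1 * 1 :=
          mul_le_mul (by linarith) hx (abs_nonneg _) (by norm_num)
      _ = 1 := by norm_num
  have hb : |-(p * x)| ≤ 1 := by
    rw [abs_neg, abs_mul, abs_of_nonneg h0]
    calc p * |x| ≤ 1 * 1 := mul_le_mul h1 hx (abs_nonneg _) (by norm_num)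
      _ = 1 := by norm_num
  have e1 := mul_le_mul_of_nonneg_left (dtc_exp_le ha) h0
  have e2 := mul_le_mul_of_nonneg_left (dtc_exp_le hb) hq
  have e3 : p * (1 + (1 - p) * x + ((1 - p) * x) ^ 2) + (1 - p) * (1 + -(p * x) + (-(p * x)) ^ 2)
      = 1 + p * (1 - p) * x ^ 2 := by ring
  have e4 : p * (1 - p) * x ^ 2 ≤ x ^ 2 := by
    have hp1 : p * (1 - p) ≤ 1 := by nlinarith
    calc p * (1 - p) * x ^ 2 ≤ 1 * x ^ 2 := mul_le_mul_of_nonneg_right hp1 (sq_nonneg _)
      _ = x ^ 2 := one_mul _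
  have e5 := Real.add_one_le_exp (x ^ 2)
  linarith

omit [Fintype V] in
private theorem dtc_ind (p : ℝ) (h0 : 0 ≤ p) (h1 : p ≤ 1) (A : Finset V) (f : V → ℝ)
    (hf : ∀ u ∈ A, 0 ≤ f u ∧ f u ≤ 1) {lam : ℝ} (hl : |lam| ≤ 1) (E : Finset V) :
    ex p E (fun F => Real.exp (lam * (∑ u ∈ A ∩ F, f u - p * ∑ u ∈ A ∩ E, f u)))
      ≤ Real.exp (lam ^ 2 * (A ∩ E).card) := by
  have hq : 0 ≤ 1 - p := by linarith
  induction E using Finset.induction_on with
  | empty =>
    rw [ex_empty]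
    simp
  | insert e E he ih =>
    rw [ex_insert p E e he]
    by_cases heA : e ∈ A
    · have hI : A ∩ insert e E = insert e (A ∩ E) := Finset.inter_insert_of_mem heA
      have heI : e ∉ A ∩ E := fun h => he (Finset.mem_inter.mp h).2
      set S : ℝ := ∑ u ∈ A ∩ E, f u with hS
      have hS' : ∑ u ∈ A ∩ insert e E, f u = f e + S := by
        rw [hI, Finset.sum_insert heI]
      have hcard : ((A ∩ insert e E).card : ℝ) = (A ∩ E).card + 1 := by
        rw [hI, Finset.card_insert_of_notMem heI]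
        push_cast
        ring
      rw [hS', hcard]
      have g1 : ex p E (fun F => Real.exp (lam * (∑ u ∈ A ∩ insert e F, f u - p * (f e + S))))
          = Real.exp ((1 - p) * (lam * f e)) *
            ex p E (fun F => Real.exp (lam * (∑ u ∈ A ∩ F, f u - p * S))) := by
        rw [← ex_mul_left]
        refine ex_congr p E (fun F hF => ?_)
        have heF : e ∉ A ∩ F := fun h => he (hF (Finset.mem_inter.mp h).2)
        rw [Finset.inter_insert_of_mem heA, Finset.sum_insert heF, ← Real.exp_add]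
        congr 1
        ring
      have g2 : ex p E (fun F => Real.exp (lam * (∑ u ∈ A ∩ F, f u - p * (f e + S))))
          = Real.exp (-(p * (lam * f e))) *
            ex p E (fun F => Real.exp (lam * (∑ u ∈ A ∩ F, f u - p * S))) := by
        rw [← ex_mul_left]
        refine ex_congr p E (fun F hF => ?_)
        rw [← Real.exp_add]
        congr 1
        ring
      rw [g1, g2]
      have hfe := hf e heA
      have hx : |lam * f e| ≤ 1 := by
        rw [abs_mul, abs_of_nonneg hfe.1]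
        calc |lam| * f e ≤ 1 * 1 := mul_le_mul hl hfe.2 hfe.1 (by norm_num)
          _ = 1 := by norm_num
      have k1 := dtc_one p h0 h1 hx
      have k2 : Real.exp ((lam * f e) ^ 2) ≤ Real.exp (lam ^ 2) := by
        refine Real.exp_le_exp.mpr ?_
        rw [mul_pow]
        have : f e ^ 2 ≤ 1 := by nlinarith [hfe.1, hfe.2]
        calc lam ^ 2 * f e ^ 2 ≤ lam ^ 2 * 1 := mul_le_mul_of_nonneg_left this (sq_nonneg _)
          _ = lam ^ 2 := mul_one _
      have k3 : 0 ≤ ex p E (fun F => Real.exp (lam * (∑ u ∈ A ∩ F, f u - p * S))) :=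
        ex_nonneg h0 h1 E (fun F _ => (Real.exp_pos _).le)
      calc p * (Real.exp ((1 - p) * (lam * f e)) *
              ex p E (fun F => Real.exp (lam * (∑ u ∈ A ∩ F, f u - p * S))))
            + (1 - p) * (Real.exp (-(p * (lam * f e))) *
              ex p E (fun F => Real.exp (lam * (∑ u ∈ A ∩ F, f u - p * S))))
          = (p * Real.exp ((1 - p) * (lam * f e)) + (1 - p) * Real.exp (-(p * (lam * f e)))) *
              ex p E (fun F => Real.exp (lam * (∑ u ∈ A ∩ F, f u - p * S))) := by ring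
        _ ≤ Real.exp (lam ^ 2) * Real.exp (lam ^ 2 * (A ∩ E).card) :=
            mul_le_mul (k1.trans k2) ih k3 (Real.exp_pos _).le
        _ = Real.exp (lam ^ 2 * ((A ∩ E).card + 1)) := by
            rw [← Real.exp_add]
            congr 1
            ring
    · have hI : A ∩ insert e E = A ∩ E := Finset.inter_insert_of_notMem heA
      rw [hI]
      have g1 : ex p E (fun F => Real.exp (lam * (∑ u ∈ A ∩ insert e F, f u
            - p * ∑ u ∈ A ∩ E, f u)))
          = ex p E (fun F => Real.exp (lam * (∑ u ∈ A ∩ F, f u - p * ∑ u ∈ A ∩ E, f u))) := by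
        refine ex_congr p E (fun F hF => ?_)
        rw [Finset.inter_insert_of_notMem heA]
      rw [g1]
      have : p * ex p E (fun F => Real.exp (lam * (∑ u ∈ A ∩ F, f u - p * ∑ u ∈ A ∩ E, f u)))
          + (1 - p) * ex p E (fun F => Real.exp (lam * (∑ u ∈ A ∩ F, f u - p * ∑ u ∈ A ∩ E, f u)))
          = ex p E (fun F => Real.exp (lam * (∑ u ∈ A ∩ F, f u - p * ∑ u ∈ A ∩ E, f u))) := by
        ring
      rw [this]
      exact ih

/-- `ex p E (exp (lam ∑ u ∈ F ∩ A, f u)) = ∏ (1 + p (exp (lam f u) - 1)) ≤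
exp (p lam ∑ f + lam ^ 2 |A|)` for `|lam| ≤ 1`, `0 ≤ f ≤ 1`. -/
theorem ex_dev (p : ℝ) (h0 : 0 ≤ p) (h1 : p ≤ 1) (A : Finset V) (f : V → ℝ)
    (hf : ∀ u ∈ A, 0 ≤ f u ∧ f u ≤ 1) {lam : ℝ} (hl : |lam| ≤ 1) :
    ex p (univ : Finset V) (fun F => Real.exp (lam * (∑ u ∈ A ∩ F, f u - p * ∑ u ∈ A, f u)))
      ≤ Real.exp (lam ^ 2 * A.card) := by
  have h := dtc_ind p h0 h1 A f hf hl (univ : Finset V)
  rw [Finset.inter_univ] at h
  exact h

private theorem dtc_side (p : ℝ) (h0 : 0 ≤ p) (h1 : p ≤ 1) (A : Finset V) (D : Finset V → ℝ)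
    {τ : ℝ} (lam : ℝ) (s : ℝ) (hs : s * lam = τ / 2)
    (hls : lam ^ 2 = τ ^ 2 / 4)
    (hb : ex p (univ : Finset V) (fun F => Real.exp (lam * D F)) ≤ Real.exp (lam ^ 2 * A.card))
    (hsn : 0 ≤ τ) (hss : s ^ 2 = 1) :
    pr p (univ : Finset V) (fun F => τ * (A.card : ℝ) < s * D F)
      ≤ Real.exp (- (τ ^ 2 / 4 * A.card)) := by
  have hlam : lam = s * (τ / 2) := by
    rw [← hs]
    have : s * (s * lam) = s ^ 2 * lam := by ring
    rw [this, hss, one_mul]
  unfold pr
  calc ex p (univ : Finset V) (fun F => ind (τ * (A.card : ℝ) < s * D F))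
      ≤ ex p (univ : Finset V)
          (fun F => Real.exp (-(τ ^ 2 / 2 * A.card)) * Real.exp (lam * D F)) := by
        refine ex_mono h0 h1 _ (fun F _ => ?_)
        rw [← Real.exp_add]
        by_cases h : τ * (A.card : ℝ) < s * D F
        · rw [ind_true h]
          refine Real.one_le_exp ?_
          rw [hlam]
          have : 0 ≤ τ / 2 * (s * D F - τ * (A.card : ℝ)) :=
            mul_nonneg (by linarith) (by linarith)
          nlinarith
        · rw [ind_false h]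
          exact (Real.exp_pos _).le
    _ = Real.exp (-(τ ^ 2 / 2 * A.card)) *
          ex p (univ : Finset V) (fun F => Real.exp (lam * D F)) := ex_mul_left _ _ _ _
    _ ≤ Real.exp (-(τ ^ 2 / 2 * A.card)) * Real.exp (lam ^ 2 * A.card) :=
        mul_le_mul_of_nonneg_left hb (Real.exp_pos _).le
    _ = Real.exp (- (τ ^ 2 / 4 * A.card)) := by
        rw [← Real.exp_add, hls]
        congr 1
        ring

/-- Markov, for both signs, `lam = τ / 2`. -/
theorem pr_dev (p : ℝ) (h0 : 0 ≤ p) (h1 : p ≤ 1) (A : Finset V) (f : V → ℝ)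
    (hf : ∀ u ∈ A, 0 ≤ f u ∧ f u ≤ 1) {τ : ℝ} (h2 : 0 ≤ τ) (h3 : τ ≤ 1) :
    pr p (univ : Finset V) (fun F => τ * (A.card : ℝ) < |∑ u ∈ A ∩ F, f u - p * ∑ u ∈ A, f u|)
      ≤ 2 * Real.exp (- (τ ^ 2 / 4 * A.card)) := by
  have hp : |τ / 2| ≤ 1 := by
    rw [abs_of_nonneg (by linarith)]
    linarith
  have hm : |-(τ / 2)| ≤ 1 := by
    rw [abs_neg]
    exact hp
  have a1 := dtc_side p h0 h1 A (fun F => ∑ u ∈ A ∩ F, f u - p * ∑ u ∈ A, f u) (τ := τ)
    (τ / 2) 1 (by ring) (by ring) (ex_dev p h0 h1 A f hf hp) h2 (by norm_num)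
  have a2 := dtc_side p h0 h1 A (fun F => ∑ u ∈ A ∩ F, f u - p * ∑ u ∈ A, f u) (τ := τ)
    (-(τ / 2)) (-1) (by ring) (by ring) (ex_dev p h0 h1 A f hf hm) h2 (by norm_num)
  have a3 : pr p (univ : Finset V)
      (fun F => τ * (A.card : ℝ) < |∑ u ∈ A ∩ F, f u - p * ∑ u ∈ A, f u|)
      ≤ pr p (univ : Finset V)
        (fun F => τ * (A.card : ℝ) < 1 * (∑ u ∈ A ∩ F, f u - p * ∑ u ∈ A, f u)
          ∨ τ * (A.card : ℝ) < (-1) * (∑ u ∈ A ∩ F, f u - p * ∑ u ∈ A, f u)) := by
    refine pr_mono h0 h1 _ (fun F _ h => ?_)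
    rcases lt_abs.mp h with h | h
    · left
      linarith
    · right
      linarith
  have a4 := pr_or_le h0 h1 (univ : Finset V)
    (fun F => τ * (A.card : ℝ) < 1 * (∑ u ∈ A ∩ F, f u - p * ∑ u ∈ A, f u))
    (fun F => τ * (A.card : ℝ) < (-1) * (∑ u ∈ A ∩ F, f u - p * ∑ u ∈ A, f u))
  linarith

end Pool.Agent.Lib.MP_56e41f_co.FQ
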