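import Pool.Agent.Lib.MP_56e41f_co.FQ.DDef
import Pool.Agent.Lib.MP_56e41f_co.FQ.DTb
import Pool.Agent.Lib.MP_56e41f_co.FQ.DTc
import Pool.Agent.Lib.MP_56e41f_co.LD.GrB

/-!
# The deck is typical
-/

open Finset

namespace Pool.Agent.Lib.MP_56e41f_co.FQ

open Pool.Agent.Lib.MP_56e41f_co.LD

variable {V : Type} [Fintype V] [DecidableEq V]

private theorem TF_event {G : SimpleGraph V} {X : Finset (V × Bool)} {P : Pm} (hO : P.Ok)
    {p : ℝ} {F : Finset V} (hp : fr F = p) (hκ : P.κ ≤ fr F) (hT : ¬ Typ G X P F (fr F)) :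
    ∃ z ∈ X ×ˢ range (P.L + 1), P.κ * P.x * ((nb G X z.1).card : ℝ) <
      |∑ u ∈ nb G X z.1 ∩ F, fk G X P z.2 (u, !z.1.2)
        - p * ∑ u ∈ nb G X z.1, fk G X P z.2 (u, !z.1.2)| := by
  by_contra hno
  refine hT ⟨hκ, fun x hx k hk => ?_⟩
  have h1 : |∑ u ∈ nb G X x ∩ F, fk G X P k (u, !x.2)
        - p * ∑ u ∈ nb G X x, fk G X P k (u, !x.2)| ≤ P.κ * P.x * ((nb G X x).card : ℝ) := by
    by_contra h2
    exact hno ⟨(x, k), mem_product.2 ⟨hx, mem_range.2 (Nat.lt_succ_of_le hk)⟩, not_le.1 h2⟩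
  have hk0 := hO.k0
  have hx0 := hO.x0
  have hf0 : 0 < fr F := hk0.trans_le hκ
  have e1 : Ys G X P k x univ = ∑ u ∈ nb G X x, fk G X P k (u, !x.2) := by
    unfold Ys
    rw [inter_univ]
  have e2 : Ys G X P k x F / fr F - Ys G X P k x univ =
      (∑ u ∈ nb G X x ∩ F, fk G X P k (u, !x.2)
        - p * ∑ u ∈ nb G X x, fk G X P k (u, !x.2)) / fr F := by
    rw [e1, ← hp, sub_div, mul_div_cancel_left₀ _ hf0.ne']
    rfl
  rw [e2, abs_div, abs_of_pos hf0, div_le_iff₀ hf0]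
  refine h1.trans ?_
  have hc : (0 : ℝ) ≤ ((nb G X x).card : ℝ) := Nat.cast_nonneg _
  have hd : dg G X x = ((nb G X x).card : ℝ) := rfl
  rw [hd]
  have h3 : P.κ * (P.x * ((nb G X x).card : ℝ)) ≤ fr F * (P.x * ((nb G X x).card : ℝ)) :=
    mul_le_mul_of_nonneg_right hκ (mul_nonneg hx0.le hc)
  linarith [mul_assoc P.κ P.x ((nb G X x).card : ℝ)]

private theorem TF_key {G : SimpleGraph V} {X : Finset (V × Bool)} {P : Pm} (hO : P.Ok)
    (hH : Hs G X P) (hV : 0 < Fintype.card V) {j : ℕ} (hj : j ≤ Fintype.card V) :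
    pr ((j : ℝ) / Fintype.card V) (univ : Finset V)
        (fun F => F.card = j ∧ (P.κ ≤ fr F ∧ ¬ Typ G X P F (fr F))) ≤
      (2 * Fintype.card V) * (P.L + 1) *
        (2 * Real.exp (- ((P.κ * P.x) ^ 2 / 4 * P.mu))) := by
  have hn : (0 : ℝ) < (Fintype.card V : ℝ) := by exact_mod_cast hV
  have h0 : 0 ≤ (j : ℝ) / Fintype.card V := div_nonneg (Nat.cast_nonneg _) hn.le
  have h1 : (j : ℝ) / Fintype.card V ≤ 1 := by
    rw [div_le_one hn]
    exact_mod_cast hj
  have hτ0 : 0 ≤ P.κ * P.x := mul_nonneg hO.k0.le hO.x0.le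
  have hτ1 : P.κ * P.x ≤ 1 := by
    have := mul_le_mul hO.k1 hO.x1 hO.x0.le (by norm_num : (0 : ℝ) ≤ 1 / 2)
    linarith
  have hM : 0 ≤ 2 * Real.exp (- ((P.κ * P.x) ^ 2 / 4 * P.mu)) := by positivity
  calc pr ((j : ℝ) / Fintype.card V) (univ : Finset V)
        (fun F => F.card = j ∧ (P.κ ≤ fr F ∧ ¬ Typ G X P F (fr F)))
      ≤ pr ((j : ℝ) / Fintype.card V) (univ : Finset V)
        (fun F => ∃ z ∈ X ×ˢ range (P.L + 1), P.κ * P.x * ((nb G X z.1).card : ℝ) <
          |∑ u ∈ nb G X z.1 ∩ F, fk G X P z.2 (u, !z.1.2)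
            - (j : ℝ) / Fintype.card V * ∑ u ∈ nb G X z.1, fk G X P z.2 (u, !z.1.2)|) := by
        refine pr_mono h0 h1 _ fun F _ hF => ?_
        refine TF_event hO ?_ hF.2.1 hF.2.2
        unfold fr
        rw [hF.1]
    _ ≤ ∑ z ∈ X ×ˢ range (P.L + 1), pr ((j : ℝ) / Fintype.card V) (univ : Finset V)
        (fun F => P.κ * P.x * ((nb G X z.1).card : ℝ) <
          |∑ u ∈ nb G X z.1 ∩ F, fk G X P z.2 (u, !z.1.2)
            - (j : ℝ) / Fintype.card V * ∑ u ∈ nb G X z.1, fk G X P z.2 (u, !z.1.2)|) := by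
        unfold pr
        rw [← ex_sum]
        exact ex_mono h0 h1 _ fun F _ => ind_exists_le _ _
    _ ≤ ∑ _z ∈ X ×ˢ range (P.L + 1),
        (2 * Real.exp (- ((P.κ * P.x) ^ 2 / 4 * P.mu))) := by
        refine sum_le_sum fun z hz => ?_
        have hzX := (mem_product.1 hz).1
        refine (pr_dev ((j : ℝ) / Fintype.card V) h0 h1 (nb G X z.1)
          (fun u => fk G X P z.2 (u, !z.1.2)) (fun u hu => ⟨fk_nonneg hO _ _,
            fk_le hO hH _ ((mem_nb G X z.1 u).1 hu).2⟩) hτ0 hτ1).trans ?_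
        refine mul_le_mul_of_nonneg_left (Real.exp_le_exp.2 (neg_le_neg ?_)) (by norm_num)
        refine mul_le_mul_of_nonneg_left (hH.deg z.1 hzX) ?_
        positivity
    _ = ((X.card : ℝ) * (P.L + 1)) * (2 * Real.exp (- ((P.κ * P.x) ^ 2 / 4 * P.mu))) := by
        rw [sum_const, card_product, card_range, nsmul_eq_mul]
        push_cast
        ring
    _ ≤ (2 * Fintype.card V) * (P.L + 1) *
        (2 * Real.exp (- ((P.κ * P.x) ^ 2 / 4 * P.mu))) := by
        refine mul_le_mul_of_nonneg_right ?_ hM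
        refine mul_le_mul_of_nonneg_right ?_ (by positivity)
        have h2 : X.card ≤ Fintype.card V * 2 := by
          have := card_le_univ X
          rwa [Fintype.card_prod, Fintype.card_bool] at this
        have h3 : (X.card : ℝ) ≤ (Fintype.card V : ℝ) * 2 := by exact_mod_cast h2
        linarith

/-- `sum_le_pr`, union bound over `j`, `x ∈ X` (at most `2 n`), `k ≤ L`, and `pr_dev` with
`p = fr F = j / n ≥ κ`, `τ = κ x`, `A = nb G X x`, `f u = fk G X P k (u, !x.2)`. -/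
theorem TF_start {G : SimpleGraph V} {X : Finset (V × Bool)} {P : Pm} (hO : P.Ok) (hH : Hs G X P)
    (hV : 0 < Fintype.card V) :
    TF G X P univ ≤ ((Fintype.card V : ℝ) + 1) ^ 2 * (2 * Fintype.card V) * (P.L + 1) *
      (2 * Real.exp (- ((P.κ * P.x) ^ 2 / 4 * P.mu))) := by
  have h1 := sum_le_pr (V := V) (fun F => P.κ ≤ fr F ∧ ¬ Typ G X P F (fr F)) hV
  have h2 : TF G X P univ ≤ ((Fintype.card V : ℝ) + 1) * ∑ j ∈ range (Fintype.card V + 1),
        pr ((j : ℝ) / Fintype.card V) (univ : Finset V)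
          (fun F => F.card = j ∧ (P.κ ≤ fr F ∧ ¬ Typ G X P F (fr F))) := by
    unfold TF
    rw [card_univ]
    refine le_trans (le_of_eq (sum_congr ?_ fun _ _ => rfl)) h1
    ext F
    simp only [mem_filter]
  have h3 : (0 : ℝ) ≤ (Fintype.card V : ℝ) + 1 := by positivity
  refine h2.trans ?_
  calc _ ≤ ((Fintype.card V : ℝ) + 1) * ∑ _j ∈ range (Fintype.card V + 1),
        ((2 * Fintype.card V) * (P.L + 1) *
          (2 * Real.exp (- ((P.κ * P.x) ^ 2 / 4 * P.mu)))) := by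
        refine mul_le_mul_of_nonneg_left (sum_le_sum fun j hj => ?_) h3
        exact TF_key hO hH hV (Nat.lt_succ_iff.1 (mem_range.1 hj))
    _ = _ := by
        rw [sum_const, card_range, nsmul_eq_mul]
        push_cast
        ring

end Pool.Agent.Lib.MP_56e41f_co.FQ
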