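import Pool.Agent.Lib.MP_56e41f_co.FQ.DPg
import Pool.Agent.Lib.MP_56e41f_co.FQ.DTd
import Pool.Agent.Lib.MP_56e41f_co.FQ.DSa
import Pool.Agent.Lib.MP_56e41f_co.FQ.DFa

/-!
# The dense case for one host
-/

open Finset

namespace Pool.Agent.Lib.MP_56e41f_co.FQ

open Pool.Agent.Lib.MP_56e41f_co.LD

variable {V : Type} [Fintype V] [DecidableEq V] {t Δ : ℕ}

/-- The potential at the start: `RX_nl` and
`t (1 + 2 xi) / (2 mu) ≤ (1 - c) (1 + c / 8) ^ 2 ≤ 1 - c + c / 4 + c / 64`,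
`4 w / mu ≤ 4 (c / 200) (9 / 4) = 9 c / 200`. -/
theorem RX_le {G : SimpleGraph V} {X : Finset (V × Bool)} {c d mu m C : ℝ} {L : ℕ} (hc : 0 < c)
    (hc1 : c < 1) (hd : 0 < d) (hmu : d ≤ 2 * (1 + c / 8) * mu)
    (hp : Okp V (mkQ c mu m C L) m C) (hH : Hs G X (mkQ c mu m C L)) {s : Bool} (T : TD t Δ)
    (hs : ∑ i ∈ univ.filter (fun i : Fin t => i.val ≠ 0),
      Cst G X (mkQ c mu m C L) (sd s (T.dep i - 1)) ≤ (t : ℝ) * ((1 + 2 * (c / 16)) / (2 * mu)))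
    (ht : (t : ℝ) ≤ (1 - c) * d) {w : ℕ} (hw : (w : ℝ) ≤ c / 200 * d)
    (hΔ : ((Δ : ℝ) + 1) ^ L + 4 ≤ c / 50 * mu) (B : ℕ) (b : Finset Lab) (n : ℕ) (φ : Lab → V) :
    RX G X (mkQ c mu m C L) s (nl T B w b n (init t)) φ ≤ 1 - c / 2 := by
  have hmu0 : 0 < mu := hp.ok.mu0
  have h1 := RX_nl hp.ok rfl hH s T B w b n φ
  have h2 : ((Δ : ℝ) + 1) ^ (mkQ c mu m C L).L = ((Δ : ℝ) + 1) ^ L := rfl
  have h3 : (mkQ c mu m C L).mu = mu := rfl
  rw [h2, h3] at h1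
  have h4 : (t : ℝ) * ((1 + 2 * (c / 16)) / (2 * mu)) ≤ (1 - c) * (1 + c / 8) ^ 2 := by
    rw [← mul_div_assoc, div_le_iff₀ (by positivity)]
    have h5 : (t : ℝ) * (1 + 2 * (c / 16)) ≤ ((1 - c) * d) * (1 + 2 * (c / 16)) :=
      mul_le_mul_of_nonneg_right ht (by positivity)
    have h6 : ((1 - c) * (1 + c / 8)) * d ≤ ((1 - c) * (1 + c / 8)) * (2 * (1 + c / 8) * mu) :=
      mul_le_mul_of_nonneg_left hmu (mul_nonneg (by linarith) (by positivity))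
    nlinarith [h5, h6]
  have h7 : (((Δ : ℝ) + 1) ^ L + 4 * w + 4) / mu ≤ c / 50 + 9 * c / 200 := by
    rw [div_le_iff₀ hmu0]
    have h8 : (4 : ℝ) * w ≤ c / 50 * d := by linarith
    have h9 : c / 50 * d ≤ c / 50 * (2 * (1 + c / 8) * mu) :=
      mul_le_mul_of_nonneg_left hmu (by positivity)
    have h10 : c * (c * mu) ≤ 1 * (c * mu) := mul_le_mul_of_nonneg_right hc1.le (by positivity)
    nlinarith [h8, h9, h10, hΔ]
  have h11 : (1 - c) * (1 + c / 8) ^ 2 + (c / 50 + 9 * c / 200) ≤ 1 - c / 2 := by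
    have h12 : 0 ≤ c ^ 2 := by positivity
    have h13 : 0 ≤ c ^ 3 := by positivity
    nlinarith [h12, h13]
  linarith

/-- `pf_le` for `F = univ`: `PP ≤ exp (th n ((1 + c / 16) (1 - c / 2) - 1 + c / 16)) ≤
exp (- th n c / 4)`, and `TF_start`. -/
theorem pf_bound {G : SimpleGraph V} {X : Finset (V × Bool)} {c mu m C : ℝ} {L : ℕ} (hc : 0 < c)
    (hc1 : c < 1) (hp : Okp V (mkQ c mu m C L) m C) (hH : Hs G X (mkQ c mu m C L))
    (hX : X.Nonempty) {s : Bool} {B : ℕ} (hm : (L : ℝ) * (B : ℝ) ^ L ≤ m) {m1 : ℕ}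
    (hm1 : (m1 : ℝ) ≤ c / 27 * mu) (φ : Lab → V) {rest : List Lab} (h : Okl B rest)
    (h0 : ∀ b ∈ rest, b.tail = [] ∨ b.tail ∈ rest)
    (hR : RX G X (mkQ c mu m C L) s rest φ ≤ 1 - c / 2) :
    pf G X s m1 (Fintype.card V) rest φ univ ≤
      Real.exp (- ((mkQ c mu m C L).th * (Fintype.card V : ℝ) * (c / 4))) +
      ((Fintype.card V : ℝ) + 1) ^ 2 * (2 * Fintype.card V) * ((L : ℝ) + 1) *
      (2 * Real.exp (- (((c / 16) * (mkQ c mu m C L).x) ^ 2 / 4 * mu))) := by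
  have hmu0 : 0 < mu := hp.ok.mu0
  have hx1 := hp.ok.x1
  have hk : (mkQ c mu m C L).κ = c / 16 := rfl
  have hm1' : (m1 : ℝ) ≤ (mkQ c mu m C L).κ * (1 - (mkQ c mu m C L).x) * (mkQ c mu m C L).mu := by
    rw [hk]
    have h3 : (mkQ c mu m C L).mu = mu := rfl
    rw [h3]
    have h4 : c / 16 * mu * (2 / 3) ≤ c / 16 * mu * (1 - (mkQ c mu m C L).x) :=
      mul_le_mul_of_nonneg_left (by linarith) (by positivity)
    have h5 : 0 < c * mu := by positivity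
    nlinarith [h4, h5, hm1]
  have h1 := pf_le hp hH hX hm hm1' (Fintype.card V) rest φ univ card_univ h
    (fun b hb hbt hbn => ((h0 b hb).elim (fun e => absurd e hbn) fun e => absurd e hbt))
    (s := s)
  refine h1.trans (add_le_add ?_ (TF_start hp.ok hH hp.V0))
  unfold PP
  rw [Real.exp_le_exp, card_univ, hk]
  have hxl : (mkQ c mu m C L).xl = c / 16 := rfl
  rw [hxl]
  have hn : (0 : ℝ) < (Fintype.card V : ℝ) := by exact_mod_cast hp.V0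
  have h2 : (Fintype.card V : ℝ) * (1 + c / 16) * RX G X (mkQ c mu m C L) s rest φ
      - ((Fintype.card V : ℝ) - c / 16 * (Fintype.card V : ℝ)) ≤
      - ((Fintype.card V : ℝ) * (c / 4)) := by
    have h3 : (Fintype.card V : ℝ) * (1 + c / 16) * RX G X (mkQ c mu m C L) s rest φ ≤
        (Fintype.card V : ℝ) * (1 + c / 16) * (1 - c / 2) :=
      mul_le_mul_of_nonneg_left hR (by positivity)
    have h4 : 0 ≤ (Fintype.card V : ℝ) * c := by positivity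
    have h5 : 0 ≤ (Fintype.card V : ℝ) * c ^ 2 := by positivity
    nlinarith [h3, h4, h5]
  have h6 := mul_le_mul_of_nonneg_left h2 hp.ok.th0.le
  refine h6.trans (le_of_eq ?_)
  ring

end Pool.Agent.Lib.MP_56e41f_co.FQ
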