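import Mathlib

/-!
# Asymptotics of the dense case
-/

open Finset

namespace Pool.Agent.Lib.MP_56e41f_co.FQ



/-- powers of the logarithm are small -/
theorem log_pow_le (k : ℕ) {A a : ℝ} (hA : 0 ≤ A) (ha : 0 < a) : ∃ n0 : ℕ, ∀ n : ℕ, n0 ≤ n →
    A * Real.log n ^ k ≤ a * (n : ℝ) ^ (1 / 8 : ℝ) := by
  have h1 := isLittleO_log_rpow_rpow_atTop (s := (1 / 8 : ℝ)) (k : ℝ) (by norm_num)
  have hc : 0 < a / (A + 1) := by positivity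
  have h2 := (h1.def hc)
  have h3 := tendsto_natCast_atTop_atTop (R := ℝ) |>.eventually h2
  obtain ⟨n0, hn0⟩ := Filter.eventually_atTop.1 h3
  refine ⟨max n0 1, fun n hn => ?_⟩
  have h4 := hn0 n (le_trans (le_max_left _ _) hn)
  have h5 : (1 : ℝ) ≤ n := by exact_mod_cast le_trans (le_max_right _ _) hn
  have h6 : 0 ≤ Real.log n := Real.log_nonneg h5
  have h7 : 0 ≤ (n : ℝ) ^ (1 / 8 : ℝ) := Real.rpow_nonneg (by linarith) _
  rw [Real.rpow_natCast, Real.norm_of_nonneg (pow_nonneg h6 k), Real.norm_of_nonneg h7] at h4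
  calc A * Real.log n ^ k ≤ A * (a / (A + 1) * (n : ℝ) ^ (1 / 8 : ℝ)) :=
        mul_le_mul_of_nonneg_left h4 hA
    _ = A / (A + 1) * (a * (n : ℝ) ^ (1 / 8 : ℝ)) := by ring
    _ ≤ 1 * (a * (n : ℝ) ^ (1 / 8 : ℝ)) := by
        refine mul_le_mul_of_nonneg_right ?_ (mul_nonneg ha.le h7)
        rw [div_le_one (by linarith)]
        linarith
    _ = a * (n : ℝ) ^ (1 / 8 : ℝ) := one_mul _

/-- with `m = L (3 Δ) ^ L + 1` -/
theorem asyP (L : ℕ) {c C : ℝ} (hc : 0 < c) (hC : 1 ≤ C) : ∃ n0 : ℕ, ∀ n : ℕ, n0 ≤ n →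
    ∀ Δ : ℕ, (Δ : ℝ) ≤ Real.log n ^ 10 →
      (1 + ((L : ℝ) * (3 * (Δ : ℝ)) ^ L + 1)) ^ 2 ≤ √(n : ℝ) ∧
      ((Δ : ℝ) + 1) ^ L + 4 ≤ c / 50 * ((n : ℝ) / C) ∧ 48 ≤ c * ((n : ℝ) / C) := by
  have hC0 : 0 < C := by linarith
  obtain ⟨n1, h1⟩ := log_pow_le (10 * L) (A := 2 + (L : ℝ) * 3 ^ L) (a := 1) (by positivity)
    one_pos
  obtain ⟨n2, h2⟩ := log_pow_le (10 * L) (A := 2 ^ L + 4) (a := c / (50 * C)) (by positivity)
    (by positivity)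
  obtain ⟨n3, h3⟩ := exists_nat_ge (48 * C / c)
  refine ⟨max (max n1 n2) (max n3 3), fun n hn Δ hΔ => ?_⟩
  have hn1 : n1 ≤ n := le_trans (le_trans (le_max_left _ _) (le_max_left _ _)) hn
  have hn2 : n2 ≤ n := le_trans (le_trans (le_max_right _ _) (le_max_left _ _)) hn
  have hn3 : n3 ≤ n := le_trans (le_trans (le_max_left _ _) (le_max_right _ _)) hn
  have hn4 : 3 ≤ n := le_trans (le_trans (le_max_right _ _) (le_max_right _ _)) hn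
  have hnR : (3 : ℝ) ≤ n := by exact_mod_cast hn4
  have hl : 1 ≤ Real.log n := by
    rw [Real.le_log_iff_exp_le (by linarith)]
    exact (Real.exp_one_lt_d9.le.trans (by norm_num)).trans hnR
  have hl10 : 1 ≤ Real.log n ^ 10 := one_le_pow₀ hl
  have hlL : 1 ≤ Real.log n ^ (10 * L) := one_le_pow₀ hl
  have hD0 : (0 : ℝ) ≤ Δ := Nat.cast_nonneg _
  have h8 : (n : ℝ) ^ (1 / 8 : ℝ) ≤ n := by
    calc (n : ℝ) ^ (1 / 8 : ℝ) ≤ (n : ℝ) ^ (1 : ℝ) :=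
          Real.rpow_le_rpow_of_exponent_le (by linarith) (by norm_num)
      _ = n := Real.rpow_one _
  refine ⟨?_, ?_, ?_⟩
  · have e1 : (3 * (Δ : ℝ)) ^ L ≤ 3 ^ L * Real.log n ^ (10 * L) := by
      rw [pow_mul, ← mul_pow]
      exact pow_le_pow_left₀ (by positivity) (mul_le_mul_of_nonneg_left hΔ (by norm_num)) L
    have e2 : 1 + ((L : ℝ) * (3 * (Δ : ℝ)) ^ L + 1) ≤ (n : ℝ) ^ (1 / 8 : ℝ) := by
      have e3 := h1 n hn1
      have e4 : (L : ℝ) * (3 * (Δ : ℝ)) ^ L ≤ (L : ℝ) * (3 ^ L * Real.log n ^ (10 * L)) :=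
        mul_le_mul_of_nonneg_left e1 (Nat.cast_nonneg _)
      linarith
    have e5 : (0 : ℝ) ≤ 1 + ((L : ℝ) * (3 * (Δ : ℝ)) ^ L + 1) := by positivity
    refine (pow_le_pow_left₀ e5 e2 2).trans ?_
    rw [← Real.rpow_natCast, ← Real.rpow_mul (by linarith), Real.sqrt_eq_rpow]
    exact Real.rpow_le_rpow_of_exponent_le (by linarith) (by norm_num)
  · have e1 : ((Δ : ℝ) + 1) ^ L ≤ 2 ^ L * Real.log n ^ (10 * L) := by
      rw [pow_mul, ← mul_pow]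
      exact pow_le_pow_left₀ (by positivity) (by linarith) L
    have e3 := h2 n hn2
    have e4 : c / (50 * C) * (n : ℝ) ^ (1 / 8 : ℝ) ≤ c / (50 * C) * n :=
      mul_le_mul_of_nonneg_left h8 (by positivity)
    have e5 : c / (50 * C) * (n : ℝ) = c / 50 * ((n : ℝ) / C) := by
      field_simp
    linarith
  · have e1 : 48 * C / c ≤ n := h3.trans (by exact_mod_cast hn3)
    rw [div_le_iff₀ hc] at e1
    rw [← mul_div_assoc, le_div_iff₀ hC0]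
    linarith

theorem asyE (L : ℕ) {a ε : ℝ} (ha : 0 < a) (hε : 0 < ε) : ∃ n0 : ℕ, ∀ n : ℕ, n0 ≤ n →
    Real.exp (- (a * √(n : ℝ))) + ((n : ℝ) + 1) ^ 2 * (2 * n) * ((L : ℝ) + 1) *
      (2 * Real.exp (- (a * √(n : ℝ)))) ≤ ε := by
  have h1 := Real.tendsto_pow_mul_exp_neg_atTop_nhds_zero 6
  have hδ : 0 < ε * a ^ 6 / (17 * ((L : ℝ) + 1)) := by positivity
  have h2 := h1.eventually (gt_mem_nhds hδ)
  have h3 : Filter.Tendsto (fun n : ℕ => a * √(n : ℝ)) Filter.atTop Filter.atTop :=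
    Filter.Tendsto.const_mul_atTop ha
      (Real.tendsto_sqrt_atTop.comp tendsto_natCast_atTop_atTop)
  obtain ⟨n0, hn0⟩ := Filter.eventually_atTop.1 (h3.eventually h2)
  refine ⟨max n0 1, fun n hn => ?_⟩
  have h4 := hn0 n (le_trans (le_max_left _ _) hn)
  have h5 : (1 : ℝ) ≤ n := by exact_mod_cast le_trans (le_max_right _ _) hn
  obtain ⟨E, hE⟩ : ∃ E, E = Real.exp (- (a * √(n : ℝ))) := ⟨_, rfl⟩
  have hE0 : 0 < E := by rw [hE]; exact Real.exp_pos _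
  have h6 : (a * √(n : ℝ)) ^ 6 = a ^ 6 * (n : ℝ) ^ 3 := by
    rw [mul_pow]
    have : √(n : ℝ) ^ 6 = (√(n : ℝ) ^ 2) ^ 3 := by ring
    rw [this, Real.sq_sqrt (by linarith)]
  rw [h6, ← hE, lt_div_iff₀ (by positivity)] at h4
  rw [← hE]
  have h7 : (n : ℝ) ^ 3 * E * (17 * ((L : ℝ) + 1)) ≤ ε := by
    have h8 : a ^ 6 * ((n : ℝ) ^ 3 * E * (17 * ((L : ℝ) + 1))) ≤ a ^ 6 * ε := by
      have h9 : a ^ 6 * ((n : ℝ) ^ 3 * E * (17 * ((L : ℝ) + 1))) =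
        a ^ 6 * (n : ℝ) ^ 3 * E * (17 * ((L : ℝ) + 1)) := by ring
      rw [h9, mul_comm (a ^ 6) ε]
      exact h4.le
    exact le_of_mul_le_mul_left h8 (by positivity)
  refine le_trans ?_ h7
  have hL0 : (0 : ℝ) ≤ L := Nat.cast_nonneg _
  have h9 : (1 : ℝ) ≤ (n : ℝ) ^ 3 * ((L : ℝ) + 1) := by
    have h10 : (1 : ℝ) ≤ (n : ℝ) ^ 3 := one_le_pow₀ h5
    nlinarith
  have h11 : ((n : ℝ) + 1) ^ 2 * (2 * n) ≤ 8 * (n : ℝ) ^ 3 := by
    have h12 : ((n : ℝ) + 1) ^ 2 ≤ 4 * (n : ℝ) ^ 2 := by nlinarith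
    have h13 := mul_le_mul_of_nonneg_right h12 (show (0 : ℝ) ≤ 2 * n by linarith)
    calc ((n : ℝ) + 1) ^ 2 * (2 * n) ≤ 4 * (n : ℝ) ^ 2 * (2 * n) := h13
      _ = 8 * (n : ℝ) ^ 3 := by ring
  have h14 : ((n : ℝ) + 1) ^ 2 * (2 * n) * ((L : ℝ) + 1) * (2 * E) ≤
      8 * (n : ℝ) ^ 3 * ((L : ℝ) + 1) * (2 * E) :=
    mul_le_mul_of_nonneg_right (mul_le_mul_of_nonneg_right h11 (by linarith)) (by linarith)
  have h15 : E ≤ (n : ℝ) ^ 3 * ((L : ℝ) + 1) * E := by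
    calc E = 1 * E := (one_mul _).symm
      _ ≤ _ := mul_le_mul_of_nonneg_right h9 hE0.le
  calc E + ((n : ℝ) + 1) ^ 2 * (2 * n) * ((L : ℝ) + 1) * (2 * E)
      ≤ (n : ℝ) ^ 3 * ((L : ℝ) + 1) * E + 8 * (n : ℝ) ^ 3 * ((L : ℝ) + 1) * (2 * E) :=
        add_le_add h15 h14
    _ = (n : ℝ) ^ 3 * E * (17 * ((L : ℝ) + 1)) := by ring

end Pool.Agent.Lib.MP_56e41f_co.FQ
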