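import Pool.Agent.Lib.MP_56e41f_co.LD.XDef
import Pool.Agent.Lib.MP_56e41f_co.LD.XMax

/-!
# A dense set with constant conductance, in a dense graph
-/

open Finset

namespace Pool.Agent.Lib.MP_56e41f_co.FQ

open Pool.Agent.Lib.MP_56e41f_co.LD

variable {Y : Type} [Fintype Y] [DecidableEq Y]

omit [DecidableEq Y] [Fintype Y] in
private lemma dHa_E2_nonneg (H : SimpleGraph Y) (X : Finset Y) : 0 ≤ E2 H X :=
  Finset.sum_nonneg fun _ _ => Nat.cast_nonneg _

/-- As `LD.exists_max`, with another weight. Let `N = |Y|`, `s0 = (2 / 9) E2 univ / N`,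
`w m = 1 + c / 8 * min 1 (1 - log (m / s0) / Λ)`, a decreasing function with
`1 ≤ w m ≤ 1 + c / 8` for `1 ≤ m ≤ N`; take a nonempty `X` maximising `(E2 X / |X|) * w |X|`,
`ν = E2 X / |X| ≥ (8 / 9) E2 univ / N = 4 s0`. For `|Z| < s0`: `E2 Z ≤ |Z| ^ 2 ≤ |Z| ν / 4`,
`ct = vol - E2 Z ≥ |Z| (ν / 2 - ν / 4)`. For `|Z| ≥ s0` the proof of `LD.exists_max` works with
`w z - w m ≥ (c / 8) (log 2 / Λ)`. -/
theorem exists_maxD (H : SimpleGraph Y) (hN : 1 ≤ Fintype.card Y) {c Λ : ℝ} (hc : 0 < c)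
    (hc1 : c ≤ 1) (hΛ : 1 ≤ Λ) (hE : 0 < E2 H univ)
    (hL : Real.log (9 / 2 * (Fintype.card Y : ℝ) ^ 2 / E2 H univ) ≤ Λ) :
    ∃ X : Finset Y, X.Nonempty ∧
      E2 H univ / (Fintype.card Y : ℝ) ≤ (1 + c / 8) * (E2 H X / (X.card : ℝ)) ∧
      (∀ x ∈ X, E2 H X / (X.card : ℝ) / 2 ≤ dgr H X x) ∧
      (∀ Z ⊆ X, E2 H Z ≤ E2 H X / (X.card : ℝ) * (Z.card : ℝ)) ∧
      (∀ Z ⊆ X, 2 * (Z.card : ℝ) ≤ (X.card : ℝ) →
        c / (16 * Λ) * (E2 H X / (X.card : ℝ) / 2) * (Z.card : ℝ) ≤ ct H X Z) := by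
  have hNr : (1 : ℝ) ≤ (Fintype.card Y : ℝ) := by exact_mod_cast hN
  have hN0 : (0 : ℝ) < (Fintype.card Y : ℝ) := by linarith
  have hΛ0 : 0 < Λ := by linarith
  obtain ⟨s0, hs0⟩ : ∃ s0 : ℝ, s0 = 2 / 9 * E2 H univ / (Fintype.card Y : ℝ) := ⟨_, rfl⟩
  have hs0p : 0 < s0 := by
    rw [hs0]
    positivity
  obtain ⟨w, hw⟩ : ∃ w : ℕ → ℝ, ∀ m, w m = 1 + c / 8 * min 1 (1 - Real.log ((m : ℝ) / s0) / Λ) :=
    ⟨_, fun _ => rfl⟩
  have w_anti : ∀ z m : ℕ, 1 ≤ z → z ≤ m → w m ≤ w z := by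
    intro z m hz hzm
    have hzr : (0 : ℝ) < (z : ℝ) := by exact_mod_cast hz
    have hzmr : (z : ℝ) ≤ (m : ℝ) := by exact_mod_cast hzm
    have h1 : Real.log ((z : ℝ) / s0) ≤ Real.log ((m : ℝ) / s0) :=
      Real.log_le_log (div_pos hzr hs0p) (div_le_div_of_nonneg_right hzmr hs0p.le)
    have h2 : Real.log ((z : ℝ) / s0) / Λ ≤ Real.log ((m : ℝ) / s0) / Λ :=
      div_le_div_of_nonneg_right h1 hΛ0.le
    have h3 : min 1 (1 - Real.log ((m : ℝ) / s0) / Λ) ≤ min 1 (1 - Real.log ((z : ℝ) / s0) / Λ) :=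
      min_le_min_left _ (by linarith)
    rw [hw, hw]
    have h4 := mul_le_mul_of_nonneg_left h3 (by linarith : (0 : ℝ) ≤ c / 8)
    linarith
  have wN : 1 ≤ w (Fintype.card Y) := by
    have h1 : (Fintype.card Y : ℝ) / s0 = 9 / 2 * (Fintype.card Y : ℝ) ^ 2 / E2 H univ := by
      rw [hs0]
      field_simp
    rw [hw, h1]
    have h2 : Real.log (9 / 2 * (Fintype.card Y : ℝ) ^ 2 / E2 H univ) / Λ ≤ 1 := by
      rw [div_le_one hΛ0]
      exact hL
    have h3 : (0 : ℝ) ≤ min 1 (1 - Real.log (9 / 2 * (Fintype.card Y : ℝ) ^ 2 / E2 H univ) / Λ) :=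
      le_min zero_le_one (by linarith)
    have h4 := mul_nonneg (by linarith : (0 : ℝ) ≤ c / 8) h3
    linarith
  have w_ge : ∀ m : ℕ, 1 ≤ m → m ≤ Fintype.card Y → 1 ≤ w m := by
    intro m hm hmN
    exact wN.trans (w_anti m _ hm hmN)
  have w_le : ∀ m : ℕ, w m ≤ 1 + c / 8 := by
    intro m
    rw [hw]
    have h1 := mul_le_mul_of_nonneg_left (min_le_left 1 (1 - Real.log ((m : ℝ) / s0) / Λ))
      (by linarith : (0 : ℝ) ≤ c / 8)
    linarith
  have hYne : (univ : Finset Y).Nonempty := by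
    rw [← Finset.card_pos, Finset.card_univ]
    omega
  obtain ⟨X, hXm, hmax⟩ := Finset.exists_max_image
    ((univ : Finset (Finset Y)).filter fun X => X.Nonempty)
    (fun X => E2 H X / (X.card : ℝ) * w X.card)
    ⟨univ, Finset.mem_filter.2 ⟨Finset.mem_univ _, hYne⟩⟩
  have hX : X.Nonempty := (Finset.mem_filter.1 hXm).2
  have hmax' : ∀ Z : Finset Y, Z.Nonempty →
      E2 H Z / (Z.card : ℝ) * w Z.card ≤ E2 H X / (X.card : ℝ) * w X.card := fun Z hZ =>
    hmax Z (Finset.mem_filter.2 ⟨Finset.mem_univ _, hZ⟩)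
  have hm1 : 1 ≤ X.card := Finset.card_pos.2 hX
  have hmN : X.card ≤ Fintype.card Y := Finset.card_le_univ X
  have hmr : (0 : ℝ) < (X.card : ℝ) := by exact_mod_cast hm1
  obtain ⟨d, hd⟩ : ∃ d : ℝ, d = E2 H X / (X.card : ℝ) := ⟨_, rfl⟩
  rw [← hd] at hmax'
  have hd0 : 0 ≤ d := by
    rw [hd]
    exact div_nonneg (dHa_E2_nonneg H X) hmr.le
  have hEX : E2 H X = d * (X.card : ℝ) := by
    rw [hd, div_mul_cancel₀ _ hmr.ne']
  -- comparison with `univ`
  have h1st : E2 H univ / (Fintype.card Y : ℝ) ≤ (1 + c / 8) * d := by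
    have h1 := hmax' univ hYne
    rw [Finset.card_univ] at h1
    have h0 : 0 ≤ E2 H univ / (Fintype.card Y : ℝ) := div_nonneg hE.le hN0.le
    have h2 := mul_le_mul_of_nonneg_left wN h0
    have h3 := mul_le_mul_of_nonneg_left (w_le X.card) hd0
    linarith
  have hds : 4 * s0 ≤ d := by
    have h0 : 4 * s0 = 8 / 9 * (E2 H univ / (Fintype.card Y : ℝ)) := by
      rw [hs0]
      ring
    have h1 : (1 + c / 8) * d ≤ 9 / 8 * d := mul_le_mul_of_nonneg_right (by linarith) hd0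
    rw [h0]
    linarith
  -- subsets
  have hsub : ∀ Z ⊆ X, Z.Nonempty → E2 H Z * w Z.card ≤ d * (Z.card : ℝ) * w X.card := by
    intro Z _ hZn
    have hz : (0 : ℝ) < (Z.card : ℝ) := by exact_mod_cast Finset.card_pos.2 hZn
    have h1 := hmax' Z hZn
    have h2 := mul_le_mul_of_nonneg_right h1 hz.le
    rw [mul_right_comm, div_mul_cancel₀ _ hz.ne'] at h2
    linarith
  have h3 : ∀ Z ⊆ X, E2 H Z ≤ d * (Z.card : ℝ) := by
    intro Z hZ
    rcases Z.eq_empty_or_nonempty with rfl | hZn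
    · have e0 : E2 H (∅ : Finset Y) = 0 := Finset.sum_empty
      rw [e0, Finset.card_empty, Nat.cast_zero, mul_zero]
    · have h1 := hsub Z hZ hZn
      have hz1 : 1 ≤ Z.card := Finset.card_pos.2 hZn
      have hzm : Z.card ≤ X.card := Finset.card_le_card hZ
      have h2 := w_anti _ _ hz1 hzm
      have h4 := w_ge _ hz1 (hzm.trans hmN)
      have h5 : d * (Z.card : ℝ) * w X.card ≤ d * (Z.card : ℝ) * w Z.card :=
        mul_le_mul_of_nonneg_left h2 (mul_nonneg hd0 (Nat.cast_nonneg _))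
      exact le_of_mul_le_mul_right (h1.trans h5) (by linarith)
  have h2nd : ∀ x ∈ X, d / 2 ≤ dgr H X x := by
    intro x hx
    have h1 := h3 (X.erase x) (Finset.erase_subset x X)
    rw [E2_erase H X x hx, Finset.card_erase_of_mem hx, Nat.cast_sub hm1, Nat.cast_one, hEX] at h1
    nlinarith [h1]
  refine ⟨X, hX, ?_⟩
  rw [← hd]
  refine ⟨h1st, h2nd, h3, ?_⟩
  intro Z hZ hZ2
  rcases Z.eq_empty_or_nonempty with rfl | hZn
  · simp [ct]
  have hz1 : 1 ≤ Z.card := Finset.card_pos.2 hZn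
  have hz : (1 : ℝ) ≤ (Z.card : ℝ) := by exact_mod_cast hz1
  have hzm : Z.card ≤ X.card := Finset.card_le_card hZ
  have hdz : 0 ≤ d * (Z.card : ℝ) := mul_nonneg hd0 (by linarith)
  rcases lt_or_ge (Z.card : ℝ) s0 with hlt | hge
  · -- small sets
    have h1 : ∀ x ∈ Z, d / 4 ≤ ((nbr H X x \ Z).card : ℝ) := by
      intro x hx
      have e1 := h2nd x (hZ hx)
      have e2 : (nbr H X x).card - Z.card ≤ (nbr H X x \ Z).card :=
        Finset.le_card_sdiff Z (nbr H X x)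
      have e3 : (nbr H X x).card ≤ (nbr H X x \ Z).card + Z.card := by omega
      have e4 : ((nbr H X x).card : ℝ) ≤ ((nbr H X x \ Z).card : ℝ) + (Z.card : ℝ) := by
        exact_mod_cast e3
      unfold dgr at e1
      linarith
    have h2 : (Z.card : ℝ) * (d / 4) ≤ ct H X Z := by
      unfold ct
      rw [← nsmul_eq_mul]
      exact Finset.card_nsmul_le_sum Z _ _ h1
    have h4 : c / (16 * Λ) ≤ 1 / 16 := by
      rw [div_le_div_iff₀ (by positivity) (by norm_num)]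
      nlinarith
    have h5 : c / (16 * Λ) * (d * (Z.card : ℝ)) ≤ 1 / 16 * (d * (Z.card : ℝ)) :=
      mul_le_mul_of_nonneg_right h4 hdz
    have e : c / (16 * Λ) * (d / 2) * (Z.card : ℝ) = c / (16 * Λ) * (d * (Z.card : ℝ)) / 2 := by
      ring
    rw [e]
    linarith
  · have h1 := hsub Z hZ hZn
    have h2 := h3 (X \ Z) Finset.sdiff_subset
    have h4 := E2_split H X Z hZ
    rw [Finset.card_sdiff_of_subset hZ, Nat.cast_sub hzm] at h2
    have hw1 := w_ge _ hz1 (hzm.trans hmN)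
    have hw2 := w_le Z.card
    have hzp : (0 : ℝ) < (Z.card : ℝ) / s0 := div_pos (by linarith) hs0p
    -- the gap of the weights
    have hgap : c / 8 * (Real.log 2 / Λ) ≤ w Z.card - w X.card := by
      have e1 : Real.log 2 + Real.log ((Z.card : ℝ) / s0) ≤ Real.log ((X.card : ℝ) / s0) := by
        rw [← Real.log_mul two_ne_zero hzp.ne']
        refine Real.log_le_log (by linarith) ?_
        rw [← mul_div_assoc]
        exact div_le_div_of_nonneg_right hZ2 hs0p.le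
      have e2 : Real.log 2 / Λ ≤
          Real.log ((X.card : ℝ) / s0) / Λ - Real.log ((Z.card : ℝ) / s0) / Λ := by
        rw [← sub_div]
        exact div_le_div_of_nonneg_right (by linarith) hΛ0.le
      have e3 : 0 ≤ Real.log ((Z.card : ℝ) / s0) / Λ := by
        apply div_nonneg _ hΛ0.le
        apply Real.log_nonneg
        rw [le_div_iff₀ hs0p]
        linarith
      have e4 : min 1 (1 - Real.log ((Z.card : ℝ) / s0) / Λ) =
          1 - Real.log ((Z.card : ℝ) / s0) / Λ := min_eq_right (by linarith)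
      have e5 : min 1 (1 - Real.log ((X.card : ℝ) / s0) / Λ) ≤
          1 - Real.log ((X.card : ℝ) / s0) / Λ := min_le_right _ _
      have e6 : Real.log 2 / Λ ≤ min 1 (1 - Real.log ((Z.card : ℝ) / s0) / Λ) -
          min 1 (1 - Real.log ((X.card : ℝ) / s0) / Λ) := by
        rw [e4]
        linarith
      have e7 := mul_le_mul_of_nonneg_left e6 (by linarith : (0 : ℝ) ≤ c / 8)
      rw [hw, hw]
      linarith
    have hlog : (9 : ℝ) / 16 ≤ Real.log 2 := by
      have := Real.log_two_gt_d9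
      linarith
    have hgap2 : c / (16 * Λ) * w Z.card ≤ w Z.card - w X.card := by
      refine le_trans ?_ hgap
      have e1 : c / (16 * Λ) * w Z.card ≤ c / (16 * Λ) * (9 / 8) :=
        mul_le_mul_of_nonneg_left (by linarith) (by positivity)
      have e2 : c / (16 * Λ) * (9 / 8) = c / 8 * (9 / 16 / Λ) := by
        field_simp
      have e3 : c / 8 * (9 / 16 / Λ) ≤ c / 8 * (Real.log 2 / Λ) :=
        mul_le_mul_of_nonneg_left (div_le_div_of_nonneg_right hlog hΛ0.le) (by linarith)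
      linarith
    -- the cut
    have h5 : d * (Z.card : ℝ) * (c / (16 * Λ) * w Z.card) ≤
        d * (Z.card : ℝ) * (w Z.card - w X.card) := mul_le_mul_of_nonneg_left hgap2 hdz
    have h6 : 2 * ct H X Z ≥ d * (Z.card : ℝ) - E2 H Z := by
      rw [hEX] at h4
      linarith
    have h7 : d * (Z.card : ℝ) * (c / (16 * Λ)) * w Z.card ≤
        (d * (Z.card : ℝ) - E2 H Z) * w Z.card := by
      have e1 : (d * (Z.card : ℝ) - E2 H Z) * w Z.card =
          d * (Z.card : ℝ) * w Z.card - E2 H Z * w Z.card := by ring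
      rw [e1]
      linarith
    have h8 := le_of_mul_le_mul_right h7 (by linarith)
    have e : c / (16 * Λ) * (d / 2) * (Z.card : ℝ) =
        d * (Z.card : ℝ) * (c / (16 * Λ)) / 2 := by ring
    rw [e]
    linarith

end Pool.Agent.Lib.MP_56e41f_co.FQ
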