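import Pool.Agent.Lib.MP_56e41f_co.LD.XDef
import Pool.Agent.Lib.MP_56e41f_co.LD.XMix

/-!
# Pointwise mixing after one more step
-/

open Finset

namespace Pool.Agent.Lib.MP_56e41f_co.FQ

open Pool.Agent.Lib.MP_56e41f_co.LD

variable {Y : Type} [Fintype Y] [DecidableEq Y]

private theorem xmd_const (H : SimpleGraph Y) (X : Finset Y)
    (hpos : ∀ x ∈ X, 0 < dgr H X x) (f : Y → ℝ) (C : ℝ) (k : ℕ) :
    ∀ x ∈ X, (Pq H X)^[k] f x = C + (Pq H X)^[k] (fun z => f z - C) x := by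
  induction k with
  | zero => intro x _; simp
  | succ k ih =>
    intro x hx
    rw [Function.iterate_succ_apply', Function.iterate_succ_apply']
    have hd : dgr H X x ≠ 0 := (hpos x hx).ne'
    unfold Pq at ih ⊢
    have e : ∑ y ∈ nbr H X x, ((fun f x => (∑ y ∈ nbr H X x, f y) / dgr H X x)^[k] f y) =
        ∑ y ∈ nbr H X x,
          (C + ((fun f x => (∑ y ∈ nbr H X x, f y) / dgr H X x)^[k] (fun z => f z - C) y)) := by
      refine sum_congr rfl fun y hy => ih y ?_
      simp only [nbr, mem_filter] at hy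
      exact hy.1
    rw [e, sum_add_distrib, sum_const, nsmul_eq_mul, add_div]
    congr 1
    change dgr H X x * C / dgr H X x = C
    rw [mul_div_assoc, mul_div_cancel₀ _ hd]

private theorem xmd_not (k : ℕ) (b : Bool) : not^[k] (not^[k] b) = b := by
  induction k generalizing b with
  | zero => rfl
  | succ k ih =>
    rw [Function.iterate_succ_apply, Function.iterate_succ_apply']
    rw [Bool.not_not, ih]

private theorem xmd_step (H : SimpleGraph Y) (X : Finset Y) (col : Y → Bool)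
    (hcol : ∀ x y, H.Adj x y → col y = !(col x)) {mu : ℝ} (hmu : 0 < mu)
    (hdeg : ∀ x ∈ X, mu ≤ dgr H X x) (v : Y → ℝ) (x : Y) (hx : x ∈ X) :
    (Pq H X v x) ^ 2 ≤ nm H X col (!(col x)) v / mu ^ 2 := by
  have hd : 0 < dgr H X x := lt_of_lt_of_le hmu (hdeg x hx)
  have h1 : (∑ y ∈ nbr H X x, v y) ^ 2 ≤ dgr H X x * ∑ y ∈ nbr H X x, v y ^ 2 :=
    sq_sum_le_card_mul_sum_sq
  have h2 : mu * ∑ y ∈ nbr H X x, v y ^ 2 ≤ nm H X col (!(col x)) v := by
    unfold nm
    rw [mul_sum]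
    have h3 : ∑ y ∈ nbr H X x, mu * v y ^ 2 ≤ ∑ y ∈ nbr H X x, dgr H X y * v y ^ 2 := by
      refine sum_le_sum fun y hy => ?_
      simp only [nbr, mem_filter] at hy
      exact mul_le_mul_of_nonneg_right (hdeg y hy.1) (sq_nonneg _)
    refine h3.trans (sum_le_sum_of_subset_of_nonneg ?_ fun y _ _ =>
      mul_nonneg (Nat.cast_nonneg _) (sq_nonneg _))
    intro y hy
    simp only [nbr, mem_filter] at hy
    exact mem_filter.2 ⟨hy.1, hcol x y hy.2⟩
  have hN : 0 ≤ nm H X col (!(col x)) v :=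
    sum_nonneg fun z _ => mul_nonneg (Nat.cast_nonneg _) (sq_nonneg _)
  unfold Pq
  rw [div_pow, div_le_div_iff₀ (by positivity) (by positivity)]
  calc (∑ y ∈ nbr H X x, v y) ^ 2 * mu ^ 2
      ≤ (dgr H X x * ∑ y ∈ nbr H X x, v y ^ 2) * mu ^ 2 :=
        mul_le_mul_of_nonneg_right h1 (by positivity)
    _ = (mu * ∑ y ∈ nbr H X x, v y ^ 2) * (dgr H X x * mu) := by ring
    _ ≤ nm H X col (!(col x)) v * (dgr H X x * mu) :=
        mul_le_mul_of_nonneg_right h2 (by positivity)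
    _ ≤ nm H X col (!(col x)) v * dgr H X x ^ 2 := by
        refine mul_le_mul_of_nonneg_left ?_ hN
        rw [pow_two]
        exact mul_le_mul_of_nonneg_left (hdeg x hx) hd.le

/-- As `LD.mixing`: with `u = f - mean`, `|Pq v x| ≤ (∑ y ∈ nbr x, |v y|) / dgr x ≤
√(∑ dgr y (v y) ^ 2) √(∑ 1 / dgr y) / dgr x ≤ √(nm v) / mu` for `v = Pq^k u`. -/
theorem mixingD (H : SimpleGraph Y) (X : Finset Y) (col : Y → Bool)
    (hcol : ∀ x y, H.Adj x y → col y = !(col x)) {mu : ℝ} (hmu : 0 < mu)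
    (hdeg : ∀ x ∈ X, mu ≤ dgr H X x) {φ : ℝ} (hφ : 0 ≤ φ) (hφ1 : φ ≤ 1)
    (hc : ∀ Z ⊆ X, φ * min (vol H X Z) (vol H X (X \ Z)) ≤ ct H X Z) (f : Y → ℝ) (k : ℕ)
    (x : Y) (hx : x ∈ X) :
    (Pq H X)^[k + 1] f x ≤
      (∑ z ∈ X.filter (fun z => col z = not^[k + 1] (col x)), dgr H X z * f z) /
        (∑ z ∈ X.filter (fun z => col z = not^[k + 1] (col x)), dgr H X z)
      + (1 - φ ^ 2 / 2) ^ k * (√(nm H X col (not^[k + 1] (col x)) f) / mu) := by
  have hpos : ∀ x ∈ X, 0 < dgr H X x := fun y hy => lt_of_lt_of_le hmu (hdeg y hy)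
  set b := not^[k + 1] (col x) with hb
  set S := ∑ z ∈ X.filter (fun z => col z = b), dgr H X z * f z with hS
  set T := ∑ z ∈ X.filter (fun z => col z = b), dgr H X z with hT
  have hT0 : 0 ≤ T := sum_nonneg fun z _ => Nat.cast_nonneg _
  have hST : S / T * T = S := by
    rcases hT0.eq_or_lt with h | h
    · have hz : ∀ z ∈ X.filter (fun z => col z = b), dgr H X z = 0 :=
        (sum_eq_zero_iff_of_nonneg (fun z _ => Nat.cast_nonneg _)).1 (hT ▸ h.symm)
      have : S = 0 := by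
        rw [hS]
        refine sum_eq_zero fun z hz' => ?_
        rw [hz z hz', zero_mul]
      rw [this, ← h]; ring
    · rw [div_mul_cancel₀ _ h.ne']
  set u : Y → ℝ := fun z => f z - S / T with hu
  have hu0 : ∑ z ∈ X.filter (fun z => col z = b), dgr H X z * u z = 0 := by
    have e : ∑ z ∈ X.filter (fun z => col z = b), dgr H X z * u z = S - S / T * T := by
      rw [hS, hT, mul_sum, ← sum_sub_distrib]
      refine sum_congr rfl fun z _ => ?_
      rw [hu]; ring
    rw [e, hST, sub_self]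
  have hun : nm H X col b u ≤ nm H X col b f := by
    have e : nm H X col b u = nm H X col b f - 2 * (S / T) * S + (S / T) ^ 2 * T := by
      unfold nm
      rw [hS, hT, mul_sum, mul_sum, ← sum_sub_distrib, ← sum_add_distrib]
      refine sum_congr rfl fun z _ => ?_
      rw [hu]; ring
    have e2 : (S / T) ^ 2 * T = (S / T) * S := by
      rw [pow_two, mul_assoc, hST]
    have e3 : 0 ≤ (S / T) * S := by
      rw [← e2]; exact mul_nonneg (sq_nonneg _) hT0
    rw [e, e2]; linarith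
  have hit := contract_iter H X col hcol hpos hφ hφ1 hc b u hu0 k
  have hcx : not^[k] b = !(col x) := by
    rw [hb, Function.iterate_succ_apply, xmd_not]
  rw [hcx] at hit
  have hc0 : (0 : ℝ) ≤ 1 - φ ^ 2 / 2 := by nlinarith
  have hone := xmd_step H X col hcol hmu hdeg ((Pq H X)^[k] u) x hx
  have hnn : 0 ≤ nm H X col b f :=
    sum_nonneg fun z _ => mul_nonneg (Nat.cast_nonneg _) (sq_nonneg _)
  have hsq : ((Pq H X)^[k + 1] u x) ^ 2 ≤
      ((1 - φ ^ 2 / 2) ^ k * (√(nm H X col b f) / mu)) ^ 2 := by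
    rw [Function.iterate_succ_apply', mul_pow, div_pow, Real.sq_sqrt hnn, ← pow_mul,
      mul_comm k 2, pow_mul, ← mul_div_assoc]
    refine hone.trans (div_le_div_of_nonneg_right (hit.trans ?_) (by positivity))
    exact mul_le_mul_of_nonneg_left hun (pow_nonneg (sq_nonneg _) k)
  have hle : (Pq H X)^[k + 1] u x ≤ (1 - φ ^ 2 / 2) ^ k * (√(nm H X col b f) / mu) :=
    (abs_le_of_sq_le_sq' hsq (mul_nonneg (pow_nonneg hc0 k)
      (div_nonneg (Real.sqrt_nonneg _) hmu.le))).2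
  have e := xmd_const H X hpos f (S / T) (k + 1) x hx
  rw [e]
  linarith

end Pool.Agent.Lib.MP_56e41f_co.FQ
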