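import Pool.Agent.Lib.MP_56e41f_co.LD.Dbl
import Pool.Agent.Lib.MP_56e41f_co.FQ.DHb

/-!
# Mixing in constant time
-/

open Finset

namespace Pool.Agent.Lib.MP_56e41f_co.FQ

open Pool.Agent.Lib.MP_56e41f_co.LD

variable {V : Type} [Fintype V] [DecidableEq V]

/-- As `LD.mix_host`, with `mixingD` and `nm f ≤ |X| / mu`. -/
theorem mix_hostD (G : SimpleGraph V) (X : Finset (V × Bool)) {mu xi φ : ℝ} {L : ℕ}
    (hmu : 0 < mu) (hdeg : ∀ x ∈ X, mu ≤ dg G X x) (hφ : 0 < φ) (hφ1 : φ ≤ 1)
    (hc : ∀ Z ⊆ X, φ * min (vol (DC G) X Z) (vol (DC G) X (X \ Z)) ≤ ct (DC G) X Z)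
    (hxi : 0 < xi)
    (hL : 1 + 2 / φ ^ 2 * (Real.log ((X.card : ℝ) / mu) / 2 + Real.log (1 / xi)) ≤ L)
    (x : V × Bool) (hx : x ∈ X) :
    Gr G X L x ≤ sz X (sd x.2 L) / mm G X + xi / mu := by
  have hdp : ∀ y ∈ X, 0 < dg G X y := fun y hy => hmu.trans_le (hdeg y hy)
  have hcard : (1 : ℝ) ≤ (X.card : ℝ) := by
    exact_mod_cast Finset.card_pos.2 ⟨x, hx⟩
  have hcp : (0 : ℝ) < (X.card : ℝ) := by linarith
  have hq : 0 < (X.card : ℝ) / mu := by positivity
  have hφp : 0 < φ ^ 2 := by positivity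
  have hmc : mu ≤ (X.card : ℝ) := by
    refine (hdeg x hx).trans ?_
    have h1 : (nb G X x).card ≤ X.card := by
      refine Finset.card_le_card_of_injOn (fun u => (u, !x.2)) (fun u hu => ?_)
        (fun a _ b _ hab => congrArg Prod.fst hab)
      have hu' : u ∈ nb G X x := hu
      simp only [nb, mem_filter] at hu'
      exact hu'.2.2
    rw [dg]
    exact_mod_cast h1
  have hlog : 0 ≤ Real.log ((X.card : ℝ) / mu) := Real.log_nonneg ((one_le_div hmu).2 hmc)
  rcases Nat.eq_zero_or_pos L with hL0 | hLp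
  · subst hL0
    have h1 : Real.log (1 / xi) < 0 := by
      by_contra hcon
      rw [not_lt] at hcon
      have h2 : 0 ≤ 2 / φ ^ 2 * (Real.log ((X.card : ℝ) / mu) / 2 + Real.log (1 / xi)) := by
        positivity
      rw [Nat.cast_zero] at hL
      linarith
    have h2 : 1 ≤ xi := by
      by_contra hcon
      rw [not_le] at hcon
      exact absurd (Real.log_nonneg ((one_le_div hxi).2 hcon.le)) (not_le.2 h1)
    have h3 : 0 ≤ sz X (sd x.2 0) / mm G X := by
      rw [sz, mm]
      exact div_nonneg (Nat.cast_nonneg _) (Finset.sum_nonneg fun z _ => Nat.cast_nonneg _)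
    have h4 : Gr G X 0 x ≤ xi / mu := by
      change 1 / dg G X x ≤ xi / mu
      exact (one_div_le_one_div_of_le hmu (hdeg x hx)).trans
        (div_le_div_of_nonneg_right h2 hmu.le)
    linarith
  · obtain ⟨k, rfl⟩ : ∃ k, L = k + 1 := ⟨L - 1, by omega⟩
    have h0 := mixingD (DC G) X Prod.snd (fun _ _ h => h.2) hmu
      (fun y hy => by rw [dgr_DC]; exact hdeg y hy) hφ.le hφ1 hc (fun y => 1 / dg G X y) k x hx
    have hP : Pq (DC G) X = Pw G X := funext fun f => Pq_DC G X f
    rw [hP] at h0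
    simp only [dgr_DC] at h0
    have hb : not^[k + 1] x.2 = sd x.2 (k + 1) := rfl
    rw [hb] at h0
    have e1 : ∑ z ∈ X.filter (fun z => z.2 = sd x.2 (k + 1)), dg G X z * (1 / dg G X z) =
        sz X (sd x.2 (k + 1)) := by
      rw [sz, Finset.card_eq_sum_ones, Nat.cast_sum]
      refine Finset.sum_congr rfl fun z hz => ?_
      have hz' := hdp z (Finset.mem_filter.1 hz).1
      rw [mul_one_div, div_self hz'.ne', Nat.cast_one]
    have e2 := mm_side G X (sd x.2 (k + 1))
    rw [e1, e2] at h0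
    have e3 : nm (DC G) X Prod.snd (sd x.2 (k + 1)) (fun y => 1 / dg G X y) ≤
        (X.card : ℝ) / mu := by
      rw [nm]
      calc ∑ z ∈ X.filter (fun z => z.2 = sd x.2 (k + 1)), dgr (DC G) X z * (1 / dg G X z) ^ 2
          ≤ ∑ z ∈ X.filter (fun z => z.2 = sd x.2 (k + 1)), 1 / mu := by
            refine Finset.sum_le_sum fun z hz => ?_
            have hzX := (Finset.mem_filter.1 hz).1
            have hz' := hdp z hzX
            rw [dgr_DC]
            have h1 : dg G X z * (1 / dg G X z) ^ 2 = 1 / dg G X z := by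
              field_simp
            rw [h1]
            exact one_div_le_one_div_of_le hmu (hdeg z hzX)
        _ ≤ (X.card : ℝ) / mu := by
            rw [Finset.sum_const, nsmul_eq_mul, mul_one_div]
            gcongr
            exact Finset.filter_subset _ _
    have e4 : √(nm (DC G) X Prod.snd (sd x.2 (k + 1)) (fun y => 1 / dg G X y)) / mu ≤
        √((X.card : ℝ) / mu) / mu :=
      div_le_div_of_nonneg_right (Real.sqrt_le_sqrt e3) hmu.le
    have e5 : (1 - φ ^ 2 / 2) ^ k ≤ xi / √((X.card : ℝ) / mu) := by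
      have hφ2 : φ ^ 2 ≤ 1 := by nlinarith
      have h1 : (1 - φ ^ 2 / 2) ^ k ≤ Real.exp (-(φ ^ 2 / 2)) ^ k := by
        refine pow_le_pow_left₀ (by linarith) ?_ k
        have := Real.add_one_le_exp (-(φ ^ 2 / 2))
        linarith
      refine h1.trans ?_
      rw [← Real.exp_nat_mul]
      have h2 : Real.log ((X.card : ℝ) / mu) / 2 + Real.log (1 / xi) ≤ φ ^ 2 / 2 * k := by
        have h3 : φ ^ 2 / 2 * (2 / φ ^ 2 *
            (Real.log ((X.card : ℝ) / mu) / 2 + Real.log (1 / xi))) =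
            Real.log ((X.card : ℝ) / mu) / 2 + Real.log (1 / xi) := by
          field_simp
        rw [← h3]
        refine mul_le_mul_of_nonneg_left ?_ (by positivity)
        push_cast at hL
        linarith
      have h4 : xi / √((X.card : ℝ) / mu) =
          Real.exp (-(Real.log ((X.card : ℝ) / mu) / 2 + Real.log (1 / xi))) := by
        rw [Real.log_div one_ne_zero hxi.ne', Real.log_one, zero_sub, neg_add, neg_neg,
          Real.exp_add, Real.exp_log hxi, Real.exp_neg, ← Real.log_sqrt hq.le,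
          Real.exp_log (Real.sqrt_pos.2 hq), mul_comm, ← div_eq_mul_inv]
      rw [h4]
      refine Real.exp_le_exp.2 ?_
      linarith
    have hsp : 0 < √((X.card : ℝ) / mu) := Real.sqrt_pos.2 hq
    have e6 : (1 - φ ^ 2 / 2) ^ k *
        (√(nm (DC G) X Prod.snd (sd x.2 (k + 1)) (fun y => 1 / dg G X y)) / mu) ≤ xi / mu := by
      calc (1 - φ ^ 2 / 2) ^ k *
          (√(nm (DC G) X Prod.snd (sd x.2 (k + 1)) (fun y => 1 / dg G X y)) / mu)
          ≤ xi / √((X.card : ℝ) / mu) * (√((X.card : ℝ) / mu) / mu) :=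
            mul_le_mul e5 e4 (div_nonneg (Real.sqrt_nonneg _) hmu.le) (by positivity)
        _ = xi / mu := by field_simp
    exact h0.trans (by linarith)

end Pool.Agent.Lib.MP_56e41f_co.FQ
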