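import Pool.Agent.Lib.MP_56e41f_co.LD.Dbl
import Pool.Agent.Lib.MP_56e41f_co.FQ.DHa
import Pool.Agent.Lib.MP_56e41f_co.FQ.DHc

/-!
# The host in a dense graph
-/

open Finset

namespace Pool.Agent.Lib.MP_56e41f_co.FQ

open Pool.Agent.Lib.MP_56e41f_co.LD

variable {V : Type} [Fintype V] [DecidableEq V]

/-- As `LD.exists_host`: `exists_maxD` with `Λ = 1 + log (9 C0)` (`N = 2 n`,
`9 / 2 N ^ 2 / E2 ≤ 9 n / d ≤ 9 C0`), `conduct` with `η = c / (16 Λ)`, `mix_hostD` with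
`φ = η / 3`, `|X| / mu ≤ 2 n / mu ≤ 9 / 2 n / d`. -/
theorem exists_hostD {c : ℝ} (hc : 0 < c) (hc1 : c ≤ 1) (G : SimpleGraph V)
    (E : Finset (Sym2 V)) (hE : ∀ u v, s(u, v) ∈ E ↔ G.Adj u v) {d xi C0 : ℝ} (hd : 0 < d)
    (hn : 1 ≤ Fintype.card V) (hdE : d / 2 * Fintype.card V ≤ E.card) (hC0 : 1 ≤ C0)
    (hnd : (Fintype.card V : ℝ) ≤ C0 * d) (hxi : 0 < xi) (hxi1 : xi ≤ 1) {L : ℕ}
    (hL : 1 + 2 / (c / (48 * (1 + Real.log (9 * C0)))) ^ 2 *
      (Real.log (9 * C0) / 2 + Real.log (1 / xi)) ≤ L) :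
    ∃ (X : Finset (V × Bool)) (mu : ℝ), X.Nonempty ∧ d ≤ 2 * (1 + c / 8) * mu ∧
      (∀ x ∈ X, mu ≤ dg G X x) ∧ mm G X = mu * X.card ∧
      (∀ x ∈ X, Gr G X L x ≤ sz X (sd x.2 L) / mm G X + xi / mu) := by
  have hcard : Fintype.card (V × Bool) = 2 * Fintype.card V := by
    rw [Fintype.card_prod, Fintype.card_bool, mul_comm]
  have hcardR : ((Fintype.card (V × Bool) : ℕ) : ℝ) = 2 * (Fintype.card V : ℝ) := by
    rw [hcard]; push_cast; ring
  have hN : 1 ≤ Fintype.card (V × Bool) := by omega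
  have hnR : (1 : ℝ) ≤ (Fintype.card V : ℝ) := by exact_mod_cast hn
  have hnpos : (0 : ℝ) < (Fintype.card V : ℝ) := lt_of_lt_of_le one_pos hnR
  have hlog9 : 0 ≤ Real.log (9 * C0) := Real.log_nonneg (by linarith)
  have hΛ : (1 : ℝ) ≤ 1 + Real.log (9 * C0) := by linarith
  have hEpos : (0 : ℝ) < (E.card : ℝ) := lt_of_lt_of_le (by positivity) hdE
  have hE2 : 0 < E2 (DC G) univ := by
    rw [E2_DC_univ G E hE]
    positivity
  have hLog : Real.log (9 / 2 * (Fintype.card (V × Bool) : ℝ) ^ 2 / E2 (DC G) univ) ≤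
      1 + Real.log (9 * C0) := by
    have h0 : 0 < 9 / 2 * (Fintype.card (V × Bool) : ℝ) ^ 2 / E2 (DC G) univ := by
      rw [hcardR]
      positivity
    have h1 : 9 / 2 * (Fintype.card (V × Bool) : ℝ) ^ 2 / E2 (DC G) univ ≤ 9 * C0 := by
      rw [div_le_iff₀ hE2, hcardR, E2_DC_univ G E hE]
      nlinarith [mul_le_mul_of_nonneg_right hnd hnpos.le, mul_le_mul_of_nonneg_left hdE
        (show (0 : ℝ) ≤ C0 by linarith)]
    exact (Real.log_le_log h0 h1).trans (by linarith)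
  obtain ⟨X, hXne, h1, h2, h3, h4⟩ := exists_maxD (DC G) hN hc hc1 hΛ hE2 hLog
  have hXpos : (0 : ℝ) < (X.card : ℝ) := by exact_mod_cast hXne.card_pos
  rw [hcardR, E2_DC_univ G E hE] at h1
  have hν : d ≤ (1 + c / 8) * (E2 (DC G) X / (X.card : ℝ)) := by
    refine le_trans ?_ h1
    rw [le_div_iff₀ (by linarith)]
    linarith
  have hνpos : 0 < E2 (DC G) X / (X.card : ℝ) := by
    by_contra hcon
    have h0 : (1 + c / 8) * (E2 (DC G) X / (X.card : ℝ)) ≤ 0 :=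
      mul_nonpos_of_nonneg_of_nonpos (by linarith) (not_lt.1 hcon)
    linarith
  have hηpos : 0 < c / (16 * (1 + Real.log (9 * C0))) :=
    div_pos hc (by linarith)
  have hη1 : c / (16 * (1 + Real.log (9 * C0))) ≤ 1 := by
    rw [div_le_one (by linarith)]
    linarith
  have hcon := conduct (DC G) X hνpos.le hηpos hη1 h3 h4
  have hφ : c / (16 * (1 + Real.log (9 * C0))) / 3 =
      c / (48 * (1 + Real.log (9 * C0))) := by
    rw [div_div]
    congr 1
    ring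
  have hmm : mm G X = E2 (DC G) X / (X.card : ℝ) / 2 * (X.card : ℝ) := by
    have h5 := E2_DC G X
    have h6 : E2 (DC G) X / (X.card : ℝ) / 2 * (X.card : ℝ) = E2 (DC G) X / 2 := by
      field_simp
    rw [h6, h5]
    ring
  have hdeg : ∀ x ∈ X, E2 (DC G) X / (X.card : ℝ) / 2 ≤ dg G X x := by
    intro x hx
    have := h2 x hx
    rwa [dgr_DC] at this
  refine ⟨X, E2 (DC G) X / (X.card : ℝ) / 2, hXne, ?_, hdeg, hmm, ?_⟩
  · linarith
  · intro x hx
    refine mix_hostD G X (half_pos hνpos) hdeg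
      (φ := c / (16 * (1 + Real.log (9 * C0))) / 3)
      (by positivity) (by linarith) hcon hxi ?_ x hx
    rw [hφ]
    refine le_trans ?_ hL
    have hmu : d * (4 / 9) ≤ E2 (DC G) X / (X.card : ℝ) / 2 := by
      have h7 : (1 + c / 8) * (E2 (DC G) X / (X.card : ℝ)) ≤
          9 / 8 * (E2 (DC G) X / (X.card : ℝ)) :=
        mul_le_mul_of_nonneg_right (by linarith) hνpos.le
      linarith
    have hXn : (X.card : ℝ) ≤ 2 * (Fintype.card V : ℝ) := by
      rw [← hcardR]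
      exact_mod_cast Finset.card_le_univ X
    have hratio : (X.card : ℝ) / (E2 (DC G) X / (X.card : ℝ) / 2) ≤ 9 * C0 := by
      rw [div_le_iff₀ (half_pos hνpos)]
      have h8 : 9 * C0 * (d * (4 / 9)) ≤ 9 * C0 * (E2 (DC G) X / (X.card : ℝ) / 2) :=
        mul_le_mul_of_nonneg_left hmu (by linarith)
      nlinarith
    have hlogX : Real.log ((X.card : ℝ) / (E2 (DC G) X / (X.card : ℝ) / 2)) ≤
        Real.log (9 * C0) :=
      Real.log_le_log (div_pos hXpos (half_pos hνpos)) hratio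
    have h9 : 2 / (c / (48 * (1 + Real.log (9 * C0)))) ^ 2 *
        (Real.log ((X.card : ℝ) / (E2 (DC G) X / (X.card : ℝ) / 2)) / 2 + Real.log (1 / xi)) ≤
        2 / (c / (48 * (1 + Real.log (9 * C0)))) ^ 2 *
        (Real.log (9 * C0) / 2 + Real.log (1 / xi)) :=
      mul_le_mul_of_nonneg_left (by linarith) (by positivity)
    linarith

end Pool.Agent.Lib.MP_56e41f_co.FQ
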