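import Pool.Agent.Lib.MP_56e41f_co.LD.StaA
import Pool.Agent.Lib.MP_56e41f_co.LD.GrB

/-!
# The better side
-/

open Finset

namespace Pool.Agent.Lib.MP_56e41f_co.FQ

open Pool.Agent.Lib.MP_56e41f_co.LD

variable {V : Type} [Fintype V] [DecidableEq V] {t Δ : ℕ}

private theorem dsb_not (k : ℕ) : sd true k = !(sd false k) := by
  induction k with
  | zero => rfl
  | succ k ih => rw [sd_succ, sd_succ, ih]

private theorem dsb_add {G : SimpleGraph V} {X : Finset (V × Bool)} {P : Pm} (hO : P.Ok)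
    (hX : X.Nonempty) (hH : Hs G X P) (k : ℕ) :
    Cst G X P (sd true k) + Cst G X P (sd false k) = (1 + 2 * P.xi) / P.mu := by
  have hmu := hO.mu0
  have hXc : (0 : ℝ) < (X.card : ℝ) := by exact_mod_cast hX.card_pos
  have h1 : sz X (sd false k) + sz X (sd true k) = (X.card : ℝ) := by
    rw [dsb_not]; exact sz_add X _
  have h2 : sz X (sd true k) = (X.card : ℝ) - sz X (sd false k) := by linarith
  unfold Cst
  rw [hH.sum, h2]
  field_simp
  ring

/-- Average over `s`: `Cst true + Cst false = (1 + 2 xi) / mu` (`sz_add`, `Hs.sum`). -/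
theorem side_exists {G : SimpleGraph V} {X : Finset (V × Bool)} {P : Pm} (hO : P.Ok)
    (hX : X.Nonempty) (hH : Hs G X P) (T : TD t Δ) :
    ∃ s : Bool, ∑ i ∈ univ.filter (fun i : Fin t => i.val ≠ 0), Cst G X P (sd s (T.dep i - 1)) ≤
      (t : ℝ) * ((1 + 2 * P.xi) / (2 * P.mu)) := by
  have hmu := hO.mu0
  have hxi := hO.xi0
  by_contra hcon
  push Not at hcon
  have ht := hcon true
  have hf := hcon false
  have hsum : ∑ i ∈ univ.filter (fun i : Fin t => i.val ≠ 0), Cst G X P (sd true (T.dep i - 1)) +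
      ∑ i ∈ univ.filter (fun i : Fin t => i.val ≠ 0), Cst G X P (sd false (T.dep i - 1)) =
      ((univ.filter (fun i : Fin t => i.val ≠ 0)).card : ℝ) * ((1 + 2 * P.xi) / P.mu) := by
    rw [← Finset.sum_add_distrib, Finset.sum_congr rfl fun i _ => dsb_add hO hX hH (T.dep i - 1),
      Finset.sum_const, nsmul_eq_mul]
  have hc : ((univ.filter (fun i : Fin t => i.val ≠ 0)).card : ℝ) ≤ (t : ℝ) := by
    have h := card_filter_le (univ : Finset (Fin t)) (fun i => i.val ≠ 0)
    rw [card_univ, Fintype.card_fin] at h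
    exact_mod_cast h
  have hle := mul_le_mul_of_nonneg_right hc
    (div_nonneg (by linarith : (0 : ℝ) ≤ 1 + 2 * P.xi) hmu.le)
  have heq : (t : ℝ) * ((1 + 2 * P.xi) / P.mu) =
      (t : ℝ) * ((1 + 2 * P.xi) / (2 * P.mu)) + (t : ℝ) * ((1 + 2 * P.xi) / (2 * P.mu)) := by
    field_simp
    ring
  linarith

end Pool.Agent.Lib.MP_56e41f_co.FQ
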