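import Pool.Agent.Lib.MP_56e41f_co.FQ.DFb
import Pool.Agent.Lib.MP_56e41f_co.FQ.DFc
import Pool.Agent.Lib.MP_56e41f_co.FQ.DHd
import Pool.Agent.Lib.MP_56e41f_co.FQ.DSb
import Pool.Agent.Lib.MP_56e41f_co.FQ.DB

/-!
# The dense case
-/

open Finset

namespace Pool.Agent.Lib.MP_56e41f_co.FQ

open Pool.Agent.Lib.MP_56e41f_co.LD

/-- lower bound of the first exponent -/
private theorem dfd_one {c C m n : ℝ} (hc : 0 < c) (hc1 : c < 1) (hC : 1 ≤ C) (hm : 1 ≤ m)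
    (hn : 0 < n) (h : (1 + m) ^ 2 ≤ √n) :
    c ^ 4 / (37748736 * C ^ 3) * √n ≤ c / 32 / (16 * C * (1 + m)) ^ 2 * n * (c / 4) := by
  have hs : 0 < √n := Real.sqrt_pos.2 hn
  have hss : √n * √n = n := Real.mul_self_sqrt hn.le
  have hm1 : 0 < 1 + m := by linarith
  have hC0 : 0 < C := by linarith
  have e : c / 32 / (16 * C * (1 + m)) ^ 2 * n * (c / 4) =
      c ^ 2 * n / (32768 * C ^ 2 * (1 + m) ^ 2) := by
    field_simp
    ring
  rw [e, div_mul_eq_mul_div, div_le_div_iff₀ (by positivity) (by positivity)]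
  have h1 : c ^ 4 ≤ c ^ 2 := pow_le_pow_of_le_one hc.le hc1.le (by norm_num)
  have h2 : √n * (1 + m) ^ 2 ≤ n := by
    calc √n * (1 + m) ^ 2 ≤ √n * √n := mul_le_mul_of_nonneg_left h hs.le
      _ = n := hss
  have h3 : C ^ 2 ≤ C ^ 3 := pow_le_pow_right₀ hC (by norm_num)
  calc c ^ 4 * √n * (32768 * C ^ 2 * (1 + m) ^ 2)
      = (c ^ 4 * (32768 * C ^ 2)) * (√n * (1 + m) ^ 2) := by ring
    _ ≤ (c ^ 2 * (32768 * C ^ 3)) * n := by
        refine mul_le_mul ?_ h2 (by positivity) (by positivity)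
        exact mul_le_mul h1 (by linarith) (by positivity) (by positivity)
    _ ≤ c ^ 2 * n * (37748736 * C ^ 3) := by
        have : 0 ≤ c ^ 2 * n * C ^ 3 := by positivity
        nlinarith

/-- lower bound of the second exponent -/
private theorem dfd_two {c C m n mu : ℝ} (hc : 0 < c) (hC : 1 ≤ C) (hm : 1 ≤ m)
    (hn : 0 < n) (h : (1 + m) ^ 2 ≤ √n) (hmu : n ≤ C * mu) :
    c ^ 4 / (37748736 * C ^ 3) * √n ≤ ((c / 16) * (c / 64 / (1 + 3 * C * m))) ^ 2 / 4 * mu := by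
  have hs : 0 < √n := Real.sqrt_pos.2 hn
  have hss : √n * √n = n := Real.mul_self_sqrt hn.le
  have hC0 : 0 < C := by linarith
  have hm0 : 0 < m := by linarith
  have hmu0 : 0 < mu := by
    by_contra hh
    push Not at hh
    have : C * mu ≤ 0 := mul_nonpos_of_nonneg_of_nonpos hC0.le hh
    linarith
  have hD : 0 < 1 + 3 * C * m := by positivity
  have e : ((c / 16) * (c / 64 / (1 + 3 * C * m))) ^ 2 / 4 * mu =
      c ^ 4 * mu / (4194304 * (1 + 3 * C * m) ^ 2) := by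
    field_simp
    ring
  rw [e, div_mul_eq_mul_div, div_le_div_iff₀ (by positivity) (by positivity)]
  have h1 : 1 + 3 * C * m ≤ 3 * C * (1 + m) := by nlinarith
  have h2 : (1 + 3 * C * m) ^ 2 ≤ 9 * C ^ 2 * √n := by
    calc (1 + 3 * C * m) ^ 2 ≤ (3 * C * (1 + m)) ^ 2 := pow_le_pow_left₀ hD.le h1 2
      _ = 9 * C ^ 2 * (1 + m) ^ 2 := by ring
      _ ≤ 9 * C ^ 2 * √n := mul_le_mul_of_nonneg_left h (by positivity)
  calc c ^ 4 * √n * (4194304 * (1 + 3 * C * m) ^ 2)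
      ≤ c ^ 4 * √n * (4194304 * (9 * C ^ 2 * √n)) := by
        refine mul_le_mul_of_nonneg_left ?_ (by positivity)
        linarith
    _ = c ^ 4 * (37748736 * C ^ 2) * (√n * √n) := by ring
    _ = c ^ 4 * (37748736 * C ^ 2) * n := by rw [hss]
    _ ≤ c ^ 4 * (37748736 * C ^ 2) * (C * mu) := mul_le_mul_of_nonneg_left hmu (by positivity)
    _ = c ^ 4 * mu * (37748736 * C ^ 3) := by ring

/-- Assembly. `κ1 = c / 61`, `δ = c / 200`. For `C0`, `ε`: `L` from `exists_hostD` with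
`xi = c / 16`, `C = 3 C0` (`n ≤ C0 d ≤ C0 (9 / 4) mu`), `m = L (3 Δ) ^ L + 1`; the host `X`, `mu`
with `P = mkQ c mu m C L`, the side from `side_exists`, `N = NX G X s`, `pv_eq_pf`, `RX_le`,
`pf_bound`; `th (c / 4) n ≥ a √n` and `(c / 16 x) ^ 2 / 4 mu ≥ a √n` with
`a = a (c, C)` by `asyP`, then `asyE`. -/
theorem dense_pv (c : ℝ) (hc : 0 < c) (hc1 : c < 1) : ∃ κ1 δ : ℝ, 0 < κ1 ∧ 0 < δ ∧
    ∀ C0 : ℝ, 1 ≤ C0 → ∀ ε : ℝ, 0 < ε → ∃ n0 : ℕ, ∀ (V : Type) [Fintype V] [DecidableEq V]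
      (t Δ : ℕ) (T : TD t Δ) (G : SimpleGraph V) (E : Finset (Sym2 V)) (d : ℝ) (w m1 : ℕ),
      n0 ≤ Fintype.card V → (∀ u v, s(u, v) ∈ E ↔ G.Adj u v) → 0 < d →
      d / 2 * Fintype.card V ≤ E.card → (Fintype.card V : ℝ) ≤ C0 * d → (t : ℝ) ≤ (1 - c) * d →
      (Δ : ℝ) ≤ Real.log (Fintype.card V) ^ 10 → (w : ℝ) ≤ δ * d → 1 ≤ m1 →
      (m1 : ℝ) ≤ κ1 * d →
      ∃ N : Lab → V → Finset V, (∀ a v u, a ≠ [] → u ∈ N a v → s(v, u) ∈ E) ∧
        ∀ (b : Finset Lab) (n : ℕ) (φ : Lab → V),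
          pv N m1 (nl T (3 * Δ) w b n (init t)) φ univ ≤ ε := by
  refine ⟨c / 61, c / 200, by positivity, by positivity, ?_⟩
  intro C0 hC0 ε hε
  have hC : (1 : ℝ) ≤ 3 * C0 := by linarith
  obtain ⟨L, hL⟩ := exists_nat_ge (1 + (1 + 2 / (c / (48 * (1 + Real.log (9 * C0)))) ^ 2 *
      (Real.log (9 * C0) / 2 + Real.log (1 / (c / 16)))))
  have hlog9 : 0 ≤ Real.log (9 * C0) := Real.log_nonneg (by linarith)
  have hlogx : 0 ≤ Real.log (1 / (c / 16)) := by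
    refine Real.log_nonneg ?_
    rw [le_div_iff₀ (by positivity)]
    linarith
  have hE0 : 0 ≤ 2 / (c / (48 * (1 + Real.log (9 * C0)))) ^ 2 *
      (Real.log (9 * C0) / 2 + Real.log (1 / (c / 16))) := by positivity
  have hL1 : 1 ≤ L := by
    have : (1 : ℝ) ≤ (L : ℝ) := by linarith
    exact_mod_cast this
  obtain ⟨nP, hnP⟩ := asyP L hc hC
  obtain ⟨nE, hnE⟩ := asyE L (a := c ^ 4 / (37748736 * (3 * C0) ^ 3)) (by positivity) hε
  refine ⟨max (max nP nE) 1, ?_⟩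
  intro V _ _ t Δ T G E d w m1 hn0 hE hd hdE hnd ht hΔ hw hm1 hm1k
  have hn1 : 1 ≤ Fintype.card V := le_trans (le_max_right _ _) hn0
  have hnP' : nP ≤ Fintype.card V :=
    le_trans (le_trans (le_max_left _ _) (le_max_left _ _)) hn0
  have hnE' : nE ≤ Fintype.card V :=
    le_trans (le_trans (le_max_right _ _) (le_max_left _ _)) hn0
  have hnR : (0 : ℝ) < (Fintype.card V : ℝ) := by exact_mod_cast hn1
  obtain ⟨hA1, hA2, hA3⟩ := hnP (Fintype.card V) hnP' Δ hΔ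
  obtain ⟨X, mu, hX, hdmu, hdeg, hmm, hmix⟩ := exists_hostD hc hc1.le G E hE hd hn1 hdE hC0 hnd
    (xi := c / 16) (by positivity) (by linarith) (L := L) (by linarith)
  have hmu0 : 0 < mu := by
    by_contra hh
    push Not at hh
    have : 2 * (1 + c / 8) * mu ≤ 0 := mul_nonpos_of_nonneg_of_nonpos (by positivity) hh
    linarith
  have hd94 : d ≤ 9 / 4 * mu := by nlinarith
  have hnC : (Fintype.card V : ℝ) ≤ 3 * C0 * mu := by
    calc (Fintype.card V : ℝ) ≤ C0 * d := hnd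
      _ ≤ C0 * (9 / 4 * mu) := mul_le_mul_of_nonneg_left hd94 (by linarith)
      _ ≤ 3 * C0 * mu := by nlinarith [mul_pos (show (0 : ℝ) < C0 by linarith) hmu0]
  have hnCd : (Fintype.card V : ℝ) / (3 * C0) ≤ mu := by
    rw [div_le_iff₀ (by linarith)]
    linarith
  set m : ℝ := (L : ℝ) * (3 * (Δ : ℝ)) ^ L + 1 with hmdef
  have hm : 1 ≤ m := by
    rw [hmdef]
    have : 0 ≤ (L : ℝ) * (3 * (Δ : ℝ)) ^ L := by positivity
    linarith
  have h48 : 48 ≤ c * mu := hA3.trans (mul_le_mul_of_nonneg_left hnCd hc.le)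
  have hΔ' : ((Δ : ℝ) + 1) ^ L + 4 ≤ c / 50 * mu :=
    hA2.trans (mul_le_mul_of_nonneg_left hnCd (by positivity))
  have hp : Okp V (mkQ c mu m (3 * C0) L) m (3 * C0) :=
    mkQ_ok V hc hc1 hm hC hn1 hnC h48 hL1
  have hH : Hs G X (mkQ c mu m (3 * C0) L) := ⟨hdeg, hmm, hmix⟩
  obtain ⟨s, hs⟩ := side_exists hp.ok hX hH T
  refine ⟨NX G X s, ?_, ?_⟩
  · intro a v u ha hu
    unfold NX at hu
    rw [if_neg ha] at hu
    simp only [nb, mem_filter] at hu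
    exact (hE v u).2 hu.2.1
  · intro b n φ
    have hokl := nl_okl T (3 * Δ) w b n
    rw [pv_eq_pf G X s hm1 _ hokl.nn φ univ, card_univ]
    have hR := RX_le hc hc1 hd hdmu hp hH T hs ht hw hΔ' (3 * Δ) b n φ
    have hm3 : (L : ℝ) * ((3 * Δ : ℕ) : ℝ) ^ L ≤ m := by
      rw [hmdef]
      push_cast
      linarith
    have hm1' : (m1 : ℝ) ≤ c / 27 * mu := by
      calc (m1 : ℝ) ≤ c / 61 * d := hm1k
        _ ≤ c / 61 * (9 / 4 * mu) := mul_le_mul_of_nonneg_left hd94 (by positivity)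
        _ ≤ c / 27 * mu := by nlinarith [mul_pos hc hmu0]
    have hb := pf_bound hc hc1 hp hH hX hm3 hm1' φ hokl (nl_closed T (3 * Δ) w b n) hR
    refine hb.trans (le_trans ?_ (hnE (Fintype.card V) hnE'))
    have e1 := dfd_one hc hc1 hC hm hnR hA1
    have e2 := dfd_two hc hC hm hnR hA1 hnC
    have f1 : Real.exp (- ((mkQ c mu m (3 * C0) L).th * (Fintype.card V : ℝ) * (c / 4))) ≤
        Real.exp (- (c ^ 4 / (37748736 * (3 * C0) ^ 3) * √(Fintype.card V : ℝ))) :=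
      Real.exp_le_exp.2 (neg_le_neg e1)
    have f2 : Real.exp (- (((c / 16) * (mkQ c mu m (3 * C0) L).x) ^ 2 / 4 * mu)) ≤
        Real.exp (- (c ^ 4 / (37748736 * (3 * C0) ^ 3) * √(Fintype.card V : ℝ))) :=
      Real.exp_le_exp.2 (neg_le_neg e2)
    refine add_le_add f1 (mul_le_mul_of_nonneg_left ?_ (by positivity))
    linarith

end Pool.Agent.Lib.MP_56e41f_co.FQ
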