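import Pool.Agent.Lib.MP_56e41f_co.FQ.QvA

/-!
# The card process for given bits
-/

open Finset

namespace Pool.Agent.Lib.MP_56e41f_co.FQ

variable {V : Type*} [Fintype V] [DecidableEq V] {t Δ : ℕ}

private theorem qda_pl_nonneg (N : Lab → V → Finset V) (m : ℕ) (a : Lab) (i : ℕ) (φ : Lab → V)
    (F : Finset V) {Θ : (Lab → V) → Finset V → ℝ} (h : ∀ φ' F', 0 ≤ Θ φ' F') :
    0 ≤ pl N m a i φ F Θ := by
  rw [pl]
  split_ifs
  · exact blk_nonneg fun u _ S _ => h _ _
  · exact zero_le_one

private theorem qda_pl_le (N : Lab → V → Finset V) (m : ℕ) (hm : 1 ≤ m) (a : Lab) (i : ℕ)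
    (φ : Lab → V) (F : Finset V) {c : ℝ} (hc : 0 ≤ c) {Θ Θ' : (Lab → V) → Finset V → ℝ}
    (h : ∀ φ' F', Θ φ' F' ≤ c + Θ' φ' F') :
    pl N m a i φ F Θ ≤ c + pl N m a i φ F Θ' := by
  rw [pl, pl]
  split_ifs with h1
  · have hne : (F ∩ N a (φ a)).Nonempty := Finset.card_pos.1 (by omega)
    calc blk (N a (φ a)) F (fun u F' => Θ (Function.update φ (i :: a) u) F')
        ≤ blk (N a (φ a)) F (fun u F' => c + Θ' (Function.update φ (i :: a) u) F') :=
          blk_mono fun u _ S _ => h _ _
      _ = c + blk (N a (φ a)) F (fun u F' => Θ' (Function.update φ (i :: a) u) F') := by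
          rw [blk_add, blk_const hne]
  · linarith

theorem pv_nonneg (N : Lab → V → Finset V) (m : ℕ) (l : List Lab) (φ : Lab → V)
    (F : Finset V) : 0 ≤ pv N m l φ F := by
  induction l generalizing φ F with
  | nil => rw [pv]
  | cons a l ih =>
    cases a with
    | nil =>
      rw [pv]
      exact zero_le_one
    | cons i a =>
      rw [pv]
      exact qda_pl_nonneg N m a i φ F fun φ' F' => ih φ' F'

/-- Induction on `n` along `run` (`valeq_run_stop` at a final state); `pl` is monotone and
`pl (c + Θ) ≤ c + pl Θ` for a constant `0 ≤ c ≤ 1` (`1 ≤ m`). -/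
theorem Qd_le_pv (T : TD t Δ) (B w : ℕ) (b : Finset Lab) (N : Lab → V → Finset V) (m : ℕ)
    (hm : 1 ≤ m) (n : ℕ) (s : St t) (φ : Lab → V) (F : Finset V) :
    Qd T B w b N m n s φ F ≤
      ind ((run T B w b n s).nxt ≠ none) + pv N m (nl T B w b n s) φ F := by
  induction n generalizing s φ F with
  | zero =>
    rw [Qd, run, nl, pv, add_zero]
  | succ n ih =>
    rw [Qd, nl, run, step]
    cases hact : act T B w s with
    | stop =>
      dsimp only
      rw [valeq_run_stop T B w b hact, pv, add_zero]
    | root v =>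
      dsimp only
      rw [pv]
      exact qda_pl_le N m hm [] s.roots φ F (ind_nonneg _) fun φ' F' => ih _ _ _
    | ask v u x =>
      dsimp only
      by_cases hb : x.asks :: x.lab ∈ b
      · rw [if_pos hb, if_pos hb, if_pos hb, pv]
        exact qda_pl_le N m hm x.lab x.asks φ F (ind_nonneg _) fun φ' F' => ih _ _ _
      · rw [if_neg hb, if_neg hb, if_neg hb]
        exact ih _ _ _
    | rem u =>
      dsimp only
      exact ih _ _ _

/-- `nl` are the labels added to `tch` by the run -/
theorem nl_tch (T : TD t Δ) (B w : ℕ) (b : Finset Lab) (n : ℕ) (s : St t) :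
    (run T B w b n s).tch = (nl T B w b n s).reverse ++ s.tch := by
  induction n generalizing s with
  | zero =>
    rw [run, nl, List.reverse_nil, List.nil_append]
  | succ n ih =>
    rw [nl, run, step]
    cases hact : act T B w s with
    | stop =>
      dsimp only
      rw [valeq_run_stop T B w b hact, List.reverse_nil, List.nil_append]
    | root v =>
      dsimp only
      rw [ih, List.reverse_cons, List.append_assoc]
      rfl
    | ask v u x =>
      dsimp only
      by_cases hb : x.asks :: x.lab ∈ b
      · rw [if_pos hb, if_pos hb, ih, List.reverse_cons, List.append_assoc]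
        rfl
      · rw [if_neg hb, if_neg hb, ih]
        rfl
    | rem u =>
      dsimp only
      rw [ih]
      rfl

end Pool.Agent.Lib.MP_56e41f_co.FQ
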