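import Pool.Agent.Lib.MP_56e41f_co.FQ.QvA

/-!
# `Qv` is the expectation of `Qd`
-/

open Finset

namespace Pool.Agent.Lib.MP_56e41f_co.FQ

variable {V : Type*} [Fintype V] [DecidableEq V] {t Δ : ℕ}

private theorem qvb_ins (T : TD t Δ) (B w : ℕ) (N : Lab → V → Finset V) (m n : ℕ)
    (e : Lab) (s : St t) (hs : Str T B s) (hc : e ∈ consumed s) (b : Finset Lab)
    (φ : Lab → V) (F : Finset V) :
    Qd T B w (insert e b) N m n s φ F = Qd T B w b N m n s φ F := by
  have h1 := Qd_dep T B w N m n s hs φ F (insert e b) b (by
    intro y hy
    have hne : y ≠ e := fun hh => hy (hh ▸ hc)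
    simp [hne])
  exact h1

/-- as `val_eq`, with `pl_ex` and `Qd_dep` -/
theorem Qv_eq (T : TD t Δ) (B w R Λ : ℕ) (hR : B ≤ R) (hR' : t + w + 1 ≤ R) (hΛ : t + 1 ≤ Λ)
    (q : ℝ) (N : Lab → V → Finset V) (m : ℕ) (n : ℕ) (s : St t) (h : Str T B s)
    (hl : s.tch.length ≤ t + w) (φ : Lab → V) (F : Finset V) :
    Qv T B w q N m n s φ F = ex (1 - q) (labs R Λ) (fun b => Qd T B w b N m n s φ F) := by
  induction n generalizing s φ F with
  | zero =>
    rw [Qv]
    exact (ex_const _ _ _).symm
  | succ n ih =>
    rw [Qv]
    cases hact : act T B w s with
    | stop =>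
      simp only
      have h1 : ∀ b ⊆ labs R Λ, Qd T B w b N m (n + 1) s φ F = ind (s.nxt ≠ none) := by
        intro b _
        rw [Qd, hact]
      rw [ex_congr _ _ h1, ex_const]
    | root v =>
      simp only
      obtain ⟨h1, h2, h3⟩ := act_root T B w hact
      obtain ⟨h4, -⟩ := nxt_eq_some h1
      have h5 := valeq_alive_lt h4
      have h6 := h.alive_le
      have h7 : s.tch.length = s.dead + s.alive := by
        rw [St.dead]; omega
      have h8 : (fun (φ' : Lab → V) (F' : Finset V) =>
          Qv T B w q N m n (placeRoot s v) φ' F') =
          (fun (φ' : Lab → V) (F' : Finset V) =>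
            ex (1 - q) (labs R Λ) (fun b => Qd T B w b N m n (placeRoot s v) φ' F')) := by
        funext φ' F'
        exact ih (placeRoot s v) (Str_root T B w s v h hact) (by
          simp only [placeRoot, List.length_cons]; omega) φ' F'
      rw [h8, pl_ex N m [] s.roots φ F (1 - q) (labs R Λ)
        (fun b φ' F' => Qd T B w b N m n (placeRoot s v) φ' F')]
      apply ex_congr
      intro b _
      rw [Qd, hact]
    | rem u =>
      simp only
      rw [ih (remSt T s u) (Str_rem T B w s u h hact) hl]
      apply ex_congr
      intro b _
      rw [Qd, hact]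
    | ask v u x =>
      simp only
      obtain ⟨h1, h2, h3, h4, h5, h6⟩ := act_ask T B w hact
      obtain ⟨h7, -⟩ := nxt_eq_some h1
      have h8 := valeq_alive_lt h7
      have h9 := h.alive_le
      have h10 : s.tch.length = s.dead + s.alive := by
        rw [St.dead]; omega
      have hlab := h.lab u x h5
      have hS := Str_succ T B w s v u x h hact
      have hFl := Str_fail T B w s v u x h hact
      have he : x.asks :: x.lab ∈ labs R Λ := by
        rw [valeq_mem_labs]
        constructor
        · have := h.len x.lab hlab.1
          simp only [List.length_cons]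
          omega
        · intro i hi
          rcases List.mem_cons.1 hi with h11 | h11
          · omega
          · exact valeq_tch_entries T B h hR (by omega) x.lab hlab.1 i h11
      have h11 : (fun (φ' : Lab → V) (F' : Finset V) =>
          Qv T B w q N m n (succSt T s v u x) φ' F') =
          (fun (φ' : Lab → V) (F' : Finset V) =>
            ex (1 - q) (labs R Λ) (fun b => Qd T B w b N m n (succSt T s v u x) φ' F')) := by
        funext φ' F'
        exact ih (succSt T s v u x) hS (by
          simp only [succSt, List.length_cons]; omega) φ' F'
      rw [h11, pl_ex N m x.lab x.asks φ F (1 - q) (labs R Λ)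
        (fun b φ' F' => Qd T B w b N m n (succSt T s v u x) φ' F'),
        ih (failSt s u x) hFl hl]
      -- the bit is consumed
      have hc1 : x.asks :: x.lab ∈ consumed (succSt T s v u x) := by
        refine ⟨x.asks, x.lab, rfl, ?_, ?_⟩
        · exact List.mem_cons_of_mem _ hlab.1
        · intro i y hi hy
          have := hS.slot i y x.asks hi (by rw [hy]; exact List.mem_cons_self)
          exact this
      have hc2 : x.asks :: x.lab ∈ consumed (failSt s u x) := by
        refine ⟨x.asks, x.lab, rfl, hlab.1, ?_⟩
        intro i y hi hy
        by_cases hiu : i = u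
        · subst hiu
          simp only [failSt, Function.update_self, Option.some.injEq] at hi
          rw [← hi]
          exact Nat.lt_succ_self _
        · simp only [failSt, Function.update_of_ne hiu] at hi
          exact absurd (h.inj i u y x hi h5 hy) hiu
      have e1 := valeq_ex_erase_dep (1 - q) (labs R Λ) (x.asks :: x.lab) he
        (fun b => pl N m x.lab x.asks φ F
          (fun φ' F' => Qd T B w b N m n (succSt T s v u x) φ' F'))
        (by
          intro b
          have h12 : (fun (φ' : Lab → V) (F' : Finset V) =>
              Qd T B w (insert (x.asks :: x.lab) b) N m n (succSt T s v u x) φ' F') =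
              (fun (φ' : Lab → V) (F' : Finset V) =>
                Qd T B w b N m n (succSt T s v u x) φ' F') := by
            funext φ' F'
            exact qvb_ins T B w N m n _ _ hS hc1 b φ' F'
          rw [h12])
      have e2 := valeq_ex_erase_dep (1 - q) (labs R Λ) (x.asks :: x.lab) he
        (fun b => Qd T B w b N m n (failSt s u x) φ F)
        (fun b => qvb_ins T B w N m n _ _ hFl hc2 b φ F)
      rw [ex_erase (1 - q) (labs R Λ) (x.asks :: x.lab) he
        (fun b => Qd T B w b N m (n + 1) s φ F), sub_sub_cancel]
      congr 1
      · congr 1
        rw [← e1.1]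
        apply ex_congr
        intro b _
        rw [Qd, hact]
        simp
      · congr 1
        rw [← e2.2]
        apply ex_congr
        intro b hb
        have hnot : x.asks :: x.lab ∉ b := fun hh => by
          have := hb hh
          simp at this
        rw [Qd, hact]
        simp only
        rw [if_neg hnot]

end Pool.Agent.Lib.MP_56e41f_co.FQ
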