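import Pool.Agent.Lib.MP_56e41f_co.FQ.PMain
import Pool.Agent.Lib.MP_56e41f_co.FQ.QvB
import Pool.Agent.Lib.MP_56e41f_co.FQ.QdA

/-!
# The frame with all cards, for the lists of labels used by the machine
-/

open Finset

namespace Pool.Agent.Lib.MP_56e41f_co.FQ

variable {V : Type*} [Fintype V] [DecidableEq V] {t Δ : ℕ}

/-- As `Qv_forest`. -/
theorem Qv_forest_nl (T : TD t Δ) (B w : ℕ) {q : ℝ} (hq0 : 0 ≤ q) (hq1 : q ≤ 1)
    (N : Lab → V → Finset V) (m : ℕ) (hm : 1 ≤ m) (n : ℕ) (φ : Lab → V) (F : Finset V) (C : ℝ)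
    (hC : ∀ b : Finset Lab, pv N m (nl T B w b n (init t)) φ F ≤ C) :
    Qv T B w q N m n (init t) φ F ≤ val T B w q n (init t) + C := by
  have hS := Str_init T B
  have hl : (init t).tch.length ≤ t + w := by simp [init]
  rw [Qv_eq T B w (B + t + w + 1) (t + 1) (by omega) (by omega) le_rfl q N m n (init t) hS hl,
    val_eq T B w (B + t + w + 1) (t + 1) (by omega) (by omega) le_rfl q n (init t) hS hl]
  calc ex (1 - q) (labs (B + t + w + 1) (t + 1)) (fun b => Qd T B w b N m n (init t) φ F)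
      ≤ ex (1 - q) (labs (B + t + w + 1) (t + 1))
          (fun b => ind ((run T B w b n (init t)).nxt ≠ none) + C) := by
        refine ex_mono (by linarith) (by linarith) _ fun b _ => ?_
        exact (Qd_le_pv T B w b N m hm n (init t) φ F).trans (by linarith [hC b])
    _ = _ := by rw [ex_add, ex_const]; rfl

/-- As `frame_forest`. -/
theorem frame_forest_nl (T : TD t Δ) (B w : ℕ) {r : ℝ} (hr0 : 0 ≤ r) (hr1 : r ≤ 1)
    (E : Finset (Sym2 V)) (N : Lab → V → Finset V)
    (hN : ∀ a v, a ≠ [] → ∀ z ∈ N a v, s(v, z) ∈ E) (m : ℕ) (hm : 1 ≤ m) (n : ℕ) (φ : Lab → V)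
    (C : ℝ) (hC : ∀ b : Finset Lab, pv N m (nl T B w b n (init t)) φ univ ≤ C) :
    ex r (E ×ˢ range B) (fun W => ind (¬ Emb2 T W)) ≤
      val T B w ((1 - r) ^ m) n (init t) + C := by
  have h1 : Conc2 (init t) T φ univ ∅ ∅ := by
    refine ⟨?_, ?_, ?_, ?_, ?_⟩
    · intro i x i' x' h
      simp [init] at h
    · intro i x h
      simp [init] at h
    · intro i x y _ h
      simp [init] at h
    · intro z _ z' _ j
      exact Finset.notMem_empty _
    · intro i x h
      simp [init] at h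
  have h2 := perc_starts T B w hr0 hr1 E N hN m hm (n * m) 1 zero_le_one
    (fun E' _ _ => pr_le_one hr0 hr1 _ _) n le_rfl (init t) (Str_init T B)
    ({()} : Finset Unit) (fun _ => 1) (fun _ _ => zero_le_one) (fun _ => φ) (fun _ => univ)
    (fun _ _ => h1)
  have h3 : 0 ≤ (1 - r) ^ m := pow_nonneg (by linarith) m
  have h4 : (1 - r) ^ m ≤ 1 := pow_le_one₀ (by linarith) (by linarith)
  have h5 := Qv_forest_nl T B w h3 h4 N m hm n φ univ C hC
  simp only [Finset.sum_singleton, one_mul] at h2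
  exact h2.trans h5

end Pool.Agent.Lib.MP_56e41f_co.FQ
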