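import Pool.Agent.Lib.MP_56e41f_co.FQ.DFd
import Pool.Agent.Lib.MP_56e41f_co.FQ.QvN
import Pool.Agent.Lib.MP_56e41f_co.FQ.Lay
import Pool.Agent.Lib.MP_56e41f_co.CoreLim

/-!
# The dense case
-/

open Finset

namespace Pool.Agent.Lib.MP_56e41f_co.FQ

open Pool.Agent.Lib.MP_56e41f_co.LD

/-- Dense hosts (`n ≤ C0 d`) and `Δ ≤ (log n) ^ 10`. -/
theorem dense_case (c : ℝ) (hc : 0 < c) (hc1 : c < 1) : ∃ K0 : ℝ, 1 ≤ K0 ∧ ∀ K : ℝ, K0 ≤ K →
    ∀ C0 : ℝ, 1 ≤ C0 → ∀ ε : ℝ, 0 < ε → ∃ n0 : ℕ, ∀ (V : Type) [Fintype V] [DecidableEq V]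
      (t Δ : ℕ) (T : TD t Δ) (G : SimpleGraph V) (E : Finset (Sym2 V)) (d p : ℝ),
      n0 ≤ Fintype.card V → 1 ≤ Δ → (∀ u v, s(u, v) ∈ E ↔ G.Adj u v) → 0 < d →
      d / 2 * Fintype.card V ≤ E.card → (Fintype.card V : ℝ) ≤ C0 * d →
      (Δ : ℝ) ≤ Real.log (Fintype.card V) ^ 10 → K * Δ / d ≤ p → p ≤ 1 →
      (t : ℝ) ≤ (1 - c) * d → pr p E (fun F => ¬ Emb T F) ≤ ε := by
  obtain ⟨κ1, δ, hκ, hδ, hdense⟩ := dense_pv c hc hc1
  -- a smaller constant for the machine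
  obtain ⟨c', hc'0, hc'c, hc'δ⟩ : ∃ c' : ℝ, 0 < c' ∧ c' ≤ c ∧ c' / 8 ≤ δ :=
    ⟨min c (8 * δ), lt_min hc (by linarith), min_le_left _ _, by
      have := min_le_right c (8 * δ); linarith⟩
  have hc'1 : c' < 1 := by linarith
  obtain ⟨q0, hq0, hcore⟩ := core_lim c' hc'0 hc'1
  obtain ⟨K1, hK1⟩ : ∃ K1 : ℝ, Real.exp (-(K1 * κ1 / 6)) ≤ q0 ∧ 1 ≤ K1 := by
    refine ⟨max 1 (6 * (-Real.log q0) / κ1), ?_, le_max_left _ _⟩
    rw [← Real.le_log_iff_exp_le hq0]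
    have h1 : 6 * (-Real.log q0) / κ1 ≤ max 1 (6 * (-Real.log q0) / κ1) := le_max_right _ _
    rw [div_le_iff₀ hκ] at h1
    linarith
  refine ⟨K1, hK1.2, fun K hK C0 hC0 ε hε => ?_⟩
  obtain ⟨d0, hd0, hval⟩ := hcore (ε / 2) (by linarith)
  obtain ⟨n1, hn1⟩ := hdense C0 hC0 (ε / 2) (by linarith)
  -- `d ≥ n / C0` is large
  obtain ⟨n2, hn2⟩ := exists_nat_ge (C0 * (d0 + 2 / κ1 + 16 / c' + 1))
  refine ⟨max n1 n2, ?_⟩
  intro V _ _ t Δ T G E d p hn hΔ hE hd hdE hnd hΔn hp hp1 ht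
  have hnn1 : n1 ≤ Fintype.card V := (le_max_left _ _).trans hn
  have hnn2 : (n2 : ℝ) ≤ (Fintype.card V : ℝ) := by
    exact_mod_cast (le_max_right _ _).trans hn
  have hdl : d0 + 2 / κ1 + 16 / c' + 1 ≤ d := by
    have h1 : C0 * (d0 + 2 / κ1 + 16 / c' + 1) ≤ C0 * d := by linarith
    exact le_of_mul_le_mul_left h1 (by linarith)
  have hk2 : 0 < 2 / κ1 := by positivity
  have hc16 : 0 < 16 / c' := by positivity
  have hdd0 : d0 ≤ d := by linarith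
  have hdk : 2 / κ1 ≤ d := by linarith
  have hdc : 16 / c' ≤ d := by linarith
  have hκd : 2 ≤ κ1 * d := by
    rw [div_le_iff₀ hκ] at hdk
    linarith
  have hcd : 16 ≤ c' * d := by
    rw [div_le_iff₀ hc'0] at hdc
    linarith
  -- parameters
  obtain ⟨m1, hm1⟩ : ∃ m1 : ℕ, m1 = ⌊κ1 * d⌋₊ := ⟨_, rfl⟩
  obtain ⟨w, hw⟩ : ∃ w : ℕ, w = ⌊c' * d / 8⌋₊ := ⟨_, rfl⟩
  have hm1a : (m1 : ℝ) ≤ κ1 * d := by
    rw [hm1]; exact Nat.floor_le (by linarith)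
  have hm1b : κ1 * d / 2 ≤ (m1 : ℝ) := by
    have h1 := Nat.sub_one_lt_floor (κ1 * d)
    rw [hm1]
    linarith
  have hm1c : 1 ≤ m1 := by
    have h1 : (1 : ℝ) ≤ (m1 : ℝ) := by linarith
    exact_mod_cast h1
  have hwa : (w : ℝ) ≤ c' * d / 8 := by
    rw [hw]; exact Nat.floor_le (by positivity)
  have hwb : c' * d / 16 ≤ (w : ℝ) := by
    have h1 := Nat.sub_one_lt_floor (c' * d / 8)
    rw [hw]
    linarith
  have hwδ : (w : ℝ) ≤ δ * d := by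
    have h1 : c' / 8 * d ≤ δ * d := mul_le_mul_of_nonneg_right hc'δ hd.le
    linarith
  obtain ⟨N, hN, hpv⟩ := hn1 V t Δ T G E d w m1 hnn1 hE hd hdE hnd ht hΔn hwδ hm1c hm1a
  have hΔr : (1 : ℝ) ≤ (Δ : ℝ) := by exact_mod_cast hΔ
  have hK0 : 0 < K := by linarith [hK1.2]
  have hp0 : 0 ≤ p := le_trans (by positivity) hp
  obtain ⟨r, hr⟩ : ∃ r : ℝ, r = p / (3 * Δ) := ⟨_, rfl⟩
  have hr0 : 0 ≤ r := by rw [hr]; positivity
  have hr1 : r ≤ 1 := by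
    rw [hr, div_le_one (by positivity)]
    linarith
  have hlay : 1 - (1 - r) ^ (3 * Δ) ≤ p := by
    have h1 := one_add_mul_le_pow (show (-2 : ℝ) ≤ -r by linarith) (3 * Δ)
    have h2 : ((3 * Δ : ℕ) : ℝ) * r = p := by
      rw [hr]
      push_cast
      field_simp
    have h3 : 1 + -r = 1 - r := by ring
    rw [h3] at h1
    linarith
  have hq : (1 - r) ^ m1 ≤ q0 := by
    refine le_trans ?_ hK1.1
    have h1 : 1 - r ≤ Real.exp (-r) := by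
      have := Real.add_one_le_exp (-r)
      linarith
    calc (1 - r) ^ m1 ≤ Real.exp (-r) ^ m1 := pow_le_pow_left₀ (by linarith) h1 _
      _ = Real.exp (-(r * m1)) := by
          rw [← Real.exp_nat_mul]
          congr 1
          ring
      _ ≤ Real.exp (-(K1 * κ1 / 6)) := by
          refine Real.exp_le_exp.2 (neg_le_neg ?_)
          have h2 : K / (3 * d) ≤ r := by
            rw [hr, le_div_iff₀ (by positivity)]
            calc K / (3 * d) * (3 * Δ) = K * Δ / d := by field_simp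
              _ ≤ p := hp
          calc K1 * κ1 / 6 ≤ K * κ1 / 6 := by
                have := mul_le_mul_of_nonneg_right hK hκ.le
                linarith
            _ = K / (3 * d) * (κ1 * d / 2) := by field_simp; norm_num
            _ ≤ r * m1 := mul_le_mul h2 hm1b (by positivity) hr0
  have hq00 : 0 ≤ (1 - r) ^ m1 := pow_nonneg (by linarith) _
  have hv := hval t Δ w T d ((1 - r) ^ m1) hdd0 hΔ (ht.trans (by nlinarith)) hwb hwa hq00 hq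
    ((3 * Δ + 2) * (t + w + 1)) le_rfl
  rcases isEmpty_or_nonempty V with hV | ⟨⟨v0⟩⟩
  · exfalso
    rw [Fintype.card_eq_zero] at hnn2
    have h1 : (0 : ℝ) < C0 * (d0 + 2 / κ1 + 16 / c' + 1) := by positivity
    have h2 : (n2 : ℝ) ≤ 0 := by exact_mod_cast hnn2
    linarith
  have hfr := frame_forest_nl T (3 * Δ) w hr0 hr1 E N (fun a v ha z hz => hN a v z ha hz) m1 hm1c
    ((3 * Δ + 2) * (t + w + 1)) (fun _ => v0) (ε / 2) (fun b => hpv b _ _)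
  have hle := lay_emb T hr0 hr1 hp1 (3 * Δ) hlay E
  linarith

end Pool.Agent.Lib.MP_56e41f_co.FQ
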