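import Pool.Agent.Lib.MP_56e41f_co.FQ.Defs
import Pool.Agent.Lib.MP_56e41f_co.StrRun
import Pool.Agent.Lib.MP_56e41f_co.FQ.DDef

/-!
# The list of the labels used by the machine
-/

open Finset

namespace Pool.Agent.Lib.MP_56e41f_co.FQ

open Pool.Agent.Lib.MP_56e41f_co.LD

variable {t Δ : ℕ}

/-- Induction on `n` (cases of `act`). -/
theorem dn_tch (T : TD t Δ) (B w : ℕ) (b : Finset Lab) (n : ℕ) (s : St t) :
    (run T B w b n s).tch = (nl T B w b n s).reverse ++ s.tch := by
  induction n generalizing s with
  | zero => simp [run, nl]
  | succ n ih =>
    have h1 : run T B w b (n + 1) s = run T B w b n (step T B w b s) := rfl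
    rw [h1]
    cases ha : act T B w s with
    | stop =>
      have h2 : ∀ k, (run T B w b k s) = s := by
        intro k
        induction k with
        | zero => rfl
        | succ k ihk =>
          have h3 : run T B w b (k + 1) s = run T B w b k (step T B w b s) := rfl
          have h4 : step T B w b s = s := by simp only [step, ha]
          rw [h3, h4, ihk]
      have h4 : step T B w b s = s := by simp only [step, ha]
      rw [h4, h2 n]
      simp only [nl, ha, List.reverse_nil, List.nil_append]
    | root v =>
      have h4 : step T B w b s = placeRoot s v := by simp only [step, ha]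
      rw [h4, ih]
      simp only [nl, ha, placeRoot, List.reverse_cons, List.append_assoc, List.cons_append,
        List.nil_append]
    | ask v u x =>
      by_cases hF : x.asks :: x.lab ∈ b
      · have h4 : step T B w b s = succSt T s v u x := by simp only [step, ha, if_pos hF]
        rw [h4, ih]
        simp only [nl, ha, if_pos hF, succSt, List.reverse_cons, List.append_assoc,
          List.cons_append, List.nil_append]
      · have h4 : step T B w b s = failSt s u x := by simp only [step, ha, if_neg hF]
        rw [h4, ih]
        simp only [nl, ha, if_neg hF, failSt]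
    | rem u =>
      have h4 : step T B w b s = remSt T s u := by simp only [step, ha]
      rw [h4, ih]
      simp only [nl, ha, remSt]

theorem nl_init (T : TD t Δ) (B w : ℕ) (b : Finset Lab) (n : ℕ) :
    nl T B w b n (init t) = (run T B w b n (init t)).tch.reverse := by
  rw [dn_tch]
  simp [init]

private theorem tc_cons {l : List Lab} {d : Lab} (hd : d.tail = [] ∨ d.tail ∈ l)
    (h : ∀ l1 l2 c, l = l1 ++ c :: l2 → c.tail = [] ∨ c.tail ∈ l2) (l1 l2 : List Lab) (c : Lab)
    (he : d :: l = l1 ++ c :: l2) : c.tail = [] ∨ c.tail ∈ l2 := by
  cases l1 with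
  | nil =>
    rw [List.nil_append] at he
    obtain ⟨rfl, rfl⟩ := List.cons.inj he
    exact hd
  | cons e l1 =>
    rw [List.cons_append] at he
    exact h l1 l2 c (List.cons.inj he).2

/-- every used label is a root or its parent was used before -/
theorem tch_closed (T : TD t Δ) (B w : ℕ) (b : Finset Lab) (n : ℕ) (l1 l2 : List Lab) (c : Lab)
    (h : (run T B w b n (init t)).tch = l1 ++ c :: l2) : c.tail = [] ∨ c.tail ∈ l2 := by
  induction n generalizing l1 l2 c with
  | zero =>
    have h0 : (run T B w b 0 (init t)).tch = [] := rfl
    rw [h0] at h
    simp at h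
  | succ n ih =>
    rw [run_succ'] at h
    have hS := Str_run T B w b n
    have ih' : ∀ l1 l2 c, (run T B w b n (init t)).tch = l1 ++ c :: l2 →
        c.tail = [] ∨ c.tail ∈ l2 := fun l1 l2 c h => ih l1 l2 c h
    generalize run T B w b n (init t) = s at h hS ih'
    cases ha : act T B w s with
    | stop =>
      have h4 : step T B w b s = s := by simp only [step, ha]
      rw [h4] at h
      exact ih' _ _ _ h
    | root v =>
      have h4 : step T B w b s = placeRoot s v := by simp only [step, ha]
      rw [h4] at h
      exact tc_cons (l := s.tch) (d := [s.roots]) (Or.inl rfl) ih' l1 l2 c h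
    | ask v u x =>
      by_cases hF : x.asks :: x.lab ∈ b
      · have h4 : step T B w b s = succSt T s v u x := by simp only [step, ha, if_pos hF]
        rw [h4] at h
        obtain ⟨-, -, -, -, hux, -⟩ := act_ask T B w ha
        exact tc_cons (l := s.tch) (d := x.asks :: x.lab) (Or.inr (hS.lab _ _ hux).1) ih'
          l1 l2 c h
      · have h4 : step T B w b s = failSt s u x := by simp only [step, ha, if_neg hF]
        rw [h4] at h
        exact ih' _ _ _ h
    | rem u =>
      have h4 : step T B w b s = remSt T s u := by simp only [step, ha]
      rw [h4] at h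
      exact ih' _ _ _ h

end Pool.Agent.Lib.MP_56e41f_co.FQ
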