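import Pool.Agent.Lib.MP_56e41f_co.FQ.DDef

/-!
# The number of labels below a label
-/

open Finset

namespace Pool.Agent.Lib.MP_56e41f_co.FQ

open Pool.Agent.Lib.MP_56e41f_co.LD

variable {V : Type} [Fintype V] [DecidableEq V]

open Classical in
/-- Induction on `r`: `b = j :: c` with `j < B`, and `c = a` or `c ∈ rest`, `anc rest c = a`,
`dis rest c = r - 1`. -/
theorem card_anc {B : ℕ} {rest : List Lab} (h : Okl B rest) {a : Lab} (ha : a ≠ []) (r : ℕ) :
    (rest.toFinset.filter (fun b => anc rest b = a ∧ dis rest b = r)).card ≤ B ^ (r + 1) := by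
  induction r with
  | zero =>
    have hs : rest.toFinset.filter (fun b => anc rest b = a ∧ dis rest b = 0) ⊆
        (range B).image (fun j => j :: a) := by
      intro b hb
      rw [mem_filter, List.mem_toFinset] at hb
      obtain ⟨h1, h2, h3⟩ := hb
      cases b with
      | nil => exact absurd h1 h.nn
      | cons j c =>
        by_cases hc : c ∈ rest
        · simp only [dis, if_pos hc] at h3
          exact absurd h3 (Nat.succ_ne_zero _)
        · simp only [anc, if_neg hc] at h2
          rw [mem_image]
          exact ⟨j, mem_range.2 (h.sl j c h1 (h2 ▸ ha)), by rw [h2]⟩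
    calc _ ≤ ((range B).image (fun j => j :: a)).card := card_le_card hs
      _ ≤ (range B).card := card_image_le
      _ = B ^ (0 + 1) := by rw [card_range, zero_add, pow_one]
  | succ r ih =>
    have hs : rest.toFinset.filter (fun b => anc rest b = a ∧ dis rest b = r + 1) ⊆
        ((range B) ×ˢ (rest.toFinset.filter (fun b => anc rest b = a ∧ dis rest b = r))).image
          (fun q => q.1 :: q.2) := by
      intro b hb
      rw [mem_filter, List.mem_toFinset] at hb
      obtain ⟨h1, h2, h3⟩ := hb
      cases b with
      | nil => exact absurd h1 h.nn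
      | cons j c =>
        by_cases hc : c ∈ rest
        · simp only [dis, if_pos hc] at h3
          simp only [anc, if_pos hc] at h2
          have hne : c ≠ [] := fun h' => h.nn (h' ▸ hc)
          rw [mem_image]
          refine ⟨(j, c), mem_product.2 ⟨mem_range.2 (h.sl j c h1 hne), ?_⟩, rfl⟩
          rw [mem_filter, List.mem_toFinset]
          exact ⟨hc, h2, Nat.succ_injective h3⟩
        · simp only [dis, if_neg hc] at h3
          exact absurd h3.symm (Nat.succ_ne_zero _)
    calc _ ≤ (((range B) ×ˢ (rest.toFinset.filter
            (fun b => anc rest b = a ∧ dis rest b = r))).image (fun q => q.1 :: q.2)).card :=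
          card_le_card hs
      _ ≤ ((range B) ×ˢ (rest.toFinset.filter
            (fun b => anc rest b = a ∧ dis rest b = r))).card := card_image_le
      _ ≤ B * B ^ (r + 1) := by
          rw [card_product, card_range]
          exact Nat.mul_le_mul_left B ih
      _ = B ^ (r + 1 + 1) := by rw [pow_succ' B (r + 1)]

open Classical in
/-- `∑ r < L, B ^ (r + 1) ≤ L B ^ L` for `B ≥ 1` (and the set is empty for `B = 0`). -/
theorem card_anc_lt {B : ℕ} {rest : List Lab} (h : Okl B rest) {a : Lab} (ha : a ≠ []) (L : ℕ) :
    (rest.toFinset.filter (fun b => anc rest b = a ∧ dis rest b < L)).card ≤ L * B ^ L := by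
  have hs : rest.toFinset.filter (fun b => anc rest b = a ∧ dis rest b < L) ⊆
      (range L).biUnion (fun r => rest.toFinset.filter (fun b => anc rest b = a ∧ dis rest b = r)) := by
    intro b hb
    rw [mem_filter] at hb
    rw [mem_biUnion]
    exact ⟨dis rest b, mem_range.2 hb.2.2, mem_filter.2 ⟨hb.1, hb.2.1, rfl⟩⟩
  have hp : ∀ r ∈ range L, B ^ (r + 1) ≤ B ^ L := by
    intro r hr
    have hr' := mem_range.1 hr
    rcases Nat.eq_zero_or_pos B with h0 | h0
    · rw [h0, zero_pow (Nat.succ_ne_zero r)]
      exact Nat.zero_le _
    · exact Nat.pow_le_pow_right h0 hr'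
  calc _ ≤ ((range L).biUnion (fun r =>
          rest.toFinset.filter (fun b => anc rest b = a ∧ dis rest b = r))).card := card_le_card hs
    _ ≤ ∑ r ∈ range L,
          (rest.toFinset.filter (fun b => anc rest b = a ∧ dis rest b = r)).card := card_biUnion_le
    _ ≤ ∑ r ∈ range L, B ^ L := sum_le_sum fun r hr => (card_anc h ha r).trans (hp r hr)
    _ = L * B ^ L := by rw [sum_const, card_range, smul_eq_mul]

end Pool.Agent.Lib.MP_56e41f_co.FQ
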