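import Pool.Agent.Lib.MP_56e41f_co.FQ.DDef
import Pool.Agent.Lib.MP_56e41f_co.FQ.DPa
import Pool.Agent.Lib.MP_56e41f_co.LD.GrB

/-!
# Averages of the change of the potential
-/

open Finset

namespace Pool.Agent.Lib.MP_56e41f_co.FQ

open Pool.Agent.Lib.MP_56e41f_co.LD

variable {V : Type} [Fintype V] [DecidableEq V]

/-- One label `b`: for `dis < L`, `∑ Gr (dis) = Ys (dis + 1) / mu ≤
fr F (dg Gr (dis + 1) y + x dg / mu)`, `|nb ∩ F| ≥ fr F (1 - x) dg`, `Gr (dis + 1) y ≤ h`,
`h ≤ 2 / mu` with `h` the old cost of `b` (`Hs.mix` for `dis + 1 = L`, with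
`b.length - 2 = (a.length - 2) + L`); for `dis ≥ L` the change is `0`. -/
theorem dl_avg {G : SimpleGraph V} {X : Finset (V × Bool)} {P : Pm} (hO : P.Ok) (hH : Hs G X P)
    {s : Bool} {B : ℕ} {a : Lab} {rest : List Lab} (h : Okl B (a :: rest)) (ha : a.tail ≠ [])
    {y : V × Bool} (hy : y ∈ X) (hs : y.2 = sd s (a.length - 2)) {F : Finset V}
    (hF : Typ G X P F (fr F)) {b : Lab} (hb : b ∈ rest) (hba : anc rest b = a) :
    ∑ u ∈ nb G X y ∩ F, dl G X P s rest y u b ≤
      if dis rest b < P.L then fr F * (3 * P.x * (dg G X y / P.mu)) else 0 := by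
  have hα : 0 < fr F := lt_of_lt_of_le hO.k0 hF.al
  have hmu := hO.mu0
  have hd := dg_pos hO hH hy
  by_cases hr : dis rest b < P.L
  · rw [if_pos hr]
    obtain ⟨r, hrr⟩ : ∃ r, r = dis rest b := ⟨_, rfl⟩
    obtain ⟨h', hh'⟩ : ∃ h' : ℝ, h' = (if dis rest b + 1 < P.L then Gr G X (dis rest b + 1) y
      else Cst G X P (sd s (b.length - 2))) := ⟨_, rfl⟩
    have hg0 : 0 ≤ Gr G X (r + 1) y := Gr_nonneg G X (r + 1) y
    have hgh : Gr G X (r + 1) y ≤ h' ∧ h' ≤ 2 / P.mu := by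
      rw [hh', ← hrr]
      split_ifs with h1
      · refine ⟨le_rfl, (Gr_le hO hH (r + 1) hy).trans ?_⟩
        exact div_le_div_of_nonneg_right (by norm_num) hmu.le
      · refine ⟨?_, (Cst_bd hO hH _).2⟩
        have hL : r + 1 = P.L := by omega
        have h2 := hH.mix y hy
        have h3 := (anc_spec h.cons.1 hb).2
        rw [hba, ← hrr] at h3
        have h4 : 2 ≤ a.length := by
          rcases a with _ | ⟨j, c⟩
          · exact absurd rfl ha
          · rcases c with _ | ⟨k, c⟩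
            · exact absurd rfl ha
            · simp only [List.length_cons]
              omega
        have h5 : sd y.2 P.L = sd s (b.length - 2) := by
          rw [hs, sd_add, ← hL]
          congr 1
          omega
        rw [hL, ← h5]
        exact h2
    have hY := hF.Y y hy (r + 1) (by omega)
    have e1 : Ys G X P (r + 1) y F = P.mu * ∑ u ∈ nb G X y ∩ F, Gr G X r (u, !y.2) := by
      unfold Ys
      rw [Finset.mul_sum]
      refine Finset.sum_congr rfl fun u _ => ?_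
      unfold fk
      rw [if_neg (Nat.succ_ne_zero r), Nat.add_sub_cancel]
    rw [Ys_succ_univ hO hH r hy, e1] at hY
    have hC : fr F * (1 - P.x) * dg G X y ≤ ((nb G X y ∩ F).card : ℝ) := by
      have h1 := hF.Y y hy 0 (Nat.zero_le _)
      rw [Ys_zero, Ys_zero_univ] at h1
      have h2 := (abs_le.1 h1).1
      have h3 : (1 - P.x) * dg G X y ≤ ((nb G X y ∩ F).card : ℝ) / fr F := by linarith
      rw [le_div_iff₀ hα] at h3
      linarith
    have e2 : ∑ u ∈ nb G X y ∩ F, dl G X P s rest y u b =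
        ∑ u ∈ nb G X y ∩ F, Gr G X r (u, !y.2) - ((nb G X y ∩ F).card : ℝ) * h' := by
      rw [← nsmul_eq_mul, ← Finset.sum_const, ← Finset.sum_sub_distrib]
      refine Finset.sum_congr rfl fun u _ => ?_
      unfold dl
      rw [if_pos hr, hh', hrr]
    rw [e2]
    obtain ⟨S, hS⟩ : ∃ S, S = ∑ u ∈ nb G X y ∩ F, Gr G X r (u, !y.2) := ⟨_, rfl⟩
    obtain ⟨g, hg⟩ : ∃ g, g = Gr G X (r + 1) y := ⟨_, rfl⟩
    obtain ⟨d, hdd⟩ : ∃ d, d = dg G X y := ⟨_, rfl⟩
    obtain ⟨c, hc⟩ : ∃ c : ℝ, c = ((nb G X y ∩ F).card : ℝ) := ⟨_, rfl⟩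
    obtain ⟨α, hαα⟩ : ∃ α, α = fr F := ⟨_, rfl⟩
    rw [← hS, ← hg, ← hdd, ← hαα] at hY
    rw [← hg] at hgh hg0
    rw [← hαα, ← hdd, ← hc] at hC
    rw [← hdd] at hd
    rw [← hαα] at hα
    rw [← hS, ← hc, ← hαα, ← hdd]
    clear hS hg hdd hc hαα e1 e2 hh'
    have hx0 := hO.x0
    have h1 := (abs_le.1 hY).2
    have h2 : P.mu * S / α ≤ P.mu * d * g + P.x * d := by linarith
    rw [div_le_iff₀ hα] at h2
    have h3 : S ≤ α * d * (g + P.x / P.mu) := by
      have e3 : α * d * (g + P.x / P.mu) = (P.mu * d * g + P.x * d) * α / P.mu := by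
        field_simp
      rw [e3, le_div_iff₀ hmu]
      linarith
    have h4 : α * (1 - P.x) * d * h' ≤ c * h' :=
      mul_le_mul_of_nonneg_right hC (hg0.trans hgh.1)
    have h5 : α * d * (g + P.x / P.mu) - α * (1 - P.x) * d * h' =
        α * d * ((g - h') + P.x * h' + P.x / P.mu) := by ring
    have h6 : α * (3 * P.x * (d / P.mu)) = α * d * (P.x * (2 / P.mu) + P.x / P.mu) := by
      field_simp
      ring
    have h7 : (g - h') + P.x * h' + P.x / P.mu ≤ P.x * (2 / P.mu) + P.x / P.mu := by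
      have h8 := mul_le_mul_of_nonneg_left hgh.2 hx0.le
      linarith [hgh.1]
    have h9 := mul_le_mul_of_nonneg_left h7 (mul_pos hα hd).le
    rw [h6]
    linarith
  · rw [if_neg hr]
    refine le_of_eq (Finset.sum_eq_zero fun u _ => ?_)
    unfold dl
    rw [if_neg hr, if_neg (by omega), sub_self]

end Pool.Agent.Lib.MP_56e41f_co.FQ
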