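import Pool.Agent.Lib.MP_56e41f_co.FQ.DDef
import Pool.Agent.Lib.MP_56e41f_co.FQ.DPa
import Pool.Agent.Lib.MP_56e41f_co.FQ.DPb
import Pool.Agent.Lib.MP_56e41f_co.LD.GrB

/-!
# Bound for the change of the potential
-/

open Finset

namespace Pool.Agent.Lib.MP_56e41f_co.FQ

open Pool.Agent.Lib.MP_56e41f_co.LD

variable {V : Type} [Fintype V] [DecidableEq V]

open Classical in
private theorem dpe_zero (G : SimpleGraph V) (X : Finset (V × Bool)) (P : Pm) (s : Bool)
    (rest : List Lab) (y : V × Bool) (u : V) {b : Lab} (h : ¬ dis rest b < P.L) :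
    dl G X P s rest y u b = 0 := by
  have h2 : ¬ dis rest b + 1 < P.L := by omega
  unfold dl
  rw [if_neg h, if_neg h2, sub_self]

private theorem dpe_abs {G : SimpleGraph V} {X : Finset (V × Bool)} {P : Pm} (hO : P.Ok)
    (hH : Hs G X P) (s : Bool) (rest : List Lab) {y : V × Bool} (hy : y ∈ X) {u : V}
    (hu : u ∈ nb G X y) (b : Lab) : |dl G X P s rest y u b| ≤ 2 / P.mu := by
  have hmu := hO.mu0
  have h12 : 1 / P.mu ≤ 2 / P.mu := div_le_div_of_nonneg_right (by norm_num) hmu.le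
  have hC := Cst_bd hO hH (sd s (b.length - 2))
  have g1 := Gr_nonneg G X (dis rest b) (u, !y.2)
  have g2 := Gr_nonneg G X (dis rest b + 1) y
  have g3 := (Gr_le hO hH (dis rest b) ((mem_nb G X y u).1 hu).2).trans h12
  have g4 := (Gr_le hO hH (dis rest b + 1) hy).trans h12
  unfold dl
  rw [abs_le]
  constructor <;> split_ifs <;> linarith [hC.1, hC.2]

/-- `|dl| ≤ 2 / mu` and `dl = 0` for `dis ≥ L`. -/
theorem dR_abs {G : SimpleGraph V} {X : Finset (V × Bool)} {P : Pm} {m C : ℝ} (hp : Okp V P m C)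
    (hH : Hs G X P) {s : Bool} {B : ℕ} {a : Lab} {rest : List Lab} (h : Okl B (a :: rest))
    (ha : a.tail ≠ []) (hm : (P.L : ℝ) * (B : ℝ) ^ P.L ≤ m) {y : V × Bool} (hy : y ∈ X) {u : V}
    (hu : u ∈ nb G X y) :
    (Fintype.card V : ℝ) * |dR G X P s rest a y u| ≤ 4 * C * (1 + m) := by
  classical
  have hmu := hp.ok.mu0
  obtain ⟨hO, -, -, -, hne⟩ := h.cons
  have hsub : ∑ b ∈ rest.toFinset.filter (fun b => anc rest b = a), dl G X P s rest y u b
      = ∑ b ∈ rest.toFinset.filter (fun b => anc rest b = a ∧ dis rest b < P.L),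
          dl G X P s rest y u b := by
    symm
    refine sum_subset ?_ ?_
    · intro b hb
      rw [mem_filter] at hb ⊢
      exact ⟨hb.1, hb.2.1⟩
    · intro b hb hb'
      rw [mem_filter] at hb hb'
      exact dpe_zero G X P s rest y u fun h' => hb' ⟨hb.1, hb.2, h'⟩
  have hcard : ((rest.toFinset.filter (fun b => anc rest b = a ∧ dis rest b < P.L)).card : ℝ)
      ≤ m := by
    have h1 := card_anc_lt hO hne P.L
    have h2 : ((rest.toFinset.filter (fun b => anc rest b = a ∧ dis rest b < P.L)).card : ℝ)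
        ≤ ((P.L * B ^ P.L : ℕ) : ℝ) := Nat.cast_le.2 h1
    refine h2.trans (le_trans (le_of_eq ?_) hm)
    push_cast
    ring
  have hsum : |∑ b ∈ rest.toFinset.filter (fun b => anc rest b = a), dl G X P s rest y u b|
      ≤ m * (2 / P.mu) := by
    rw [hsub]
    refine (abs_sum_le_sum_abs _ _).trans ?_
    refine (sum_le_sum fun b _ => dpe_abs hp.ok hH s rest hy hu b).trans ?_
    rw [sum_const, nsmul_eq_mul]
    exact mul_le_mul_of_nonneg_right hcard (div_nonneg (by norm_num) hmu.le)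
  have hg0 := Gr_nonneg G X 0 y
  have hg1 := Gr_le hp.ok hH 0 hy
  have hdR : |dR G X P s rest a y u| ≤ (1 + 2 * m) / P.mu := by
    have h3 := abs_le.1 hsum
    have e1 : m * (2 / P.mu) = 2 * m / P.mu := by ring
    have e2 : (1 + 2 * m) / P.mu = 1 / P.mu + 2 * m / P.mu := add_div _ _ _
    rw [e1] at h3
    rw [e2]
    unfold dR
    rw [abs_le]
    constructor
    · linarith [h3.1]
    · have h4 : 0 ≤ 1 / P.mu := one_div_nonneg.2 hmu.le
      linarith [h3.2]
  have hm0 := hp.m0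
  have hC0 : 0 ≤ C := zero_le_one.trans hp.C1
  calc (Fintype.card V : ℝ) * |dR G X P s rest a y u|
      ≤ (C * P.mu) * ((1 + 2 * m) / P.mu) :=
        mul_le_mul hp.den hdR (abs_nonneg _) (mul_nonneg hC0 hmu.le)
    _ = C * (1 + 2 * m) := by
        field_simp
    _ ≤ 4 * C * (1 + m) := by nlinarith [mul_nonneg hC0 hm0]

end Pool.Agent.Lib.MP_56e41f_co.FQ
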