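import Pool.Agent.Lib.MP_56e41f_co.FQ.DDef
import Pool.Agent.Lib.MP_56e41f_co.FQ.DPb
import Pool.Agent.Lib.MP_56e41f_co.FQ.DPd
import Pool.Agent.Lib.MP_56e41f_co.LD.TypB

/-!
# Averages of the change of the potential
-/

open Finset

namespace Pool.Agent.Lib.MP_56e41f_co.FQ

open Pool.Agent.Lib.MP_56e41f_co.LD

variable {V : Type} [Fintype V] [DecidableEq V]

/-- Sum over `b` with `card_anc_lt` and `dl_avg`; `∑ Gr 0 y = |nb ∩ F| / dg y ≥ fr F (1 - x)`,
`fr F * |V| = |F|`, `dg y ≤ |V| ≤ C mu`. -/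
theorem dR_avg {G : SimpleGraph V} {X : Finset (V × Bool)} {P : Pm} {m C : ℝ} (hp : Okp V P m C)
    (hH : Hs G X P) {s : Bool} {B : ℕ} {a : Lab} {rest : List Lab} (h : Okl B (a :: rest))
    (ha : a.tail ≠ []) (hm : (P.L : ℝ) * (B : ℝ) ^ P.L ≤ m) {y : V × Bool} (hy : y ∈ X)
    (hs : y.2 = sd s (a.length - 2)) {F : Finset V} (hF : Typ G X P F (fr F)) :
    (Fintype.card V : ℝ) * ∑ u ∈ nb G X y ∩ F, dR G X P s rest a y u ≤
      (F.card : ℝ) * (- (1 - P.x) + C * (3 * P.x * m)) := by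
  classical
  have hO := hp.ok
  have hn : (0 : ℝ) < (Fintype.card V : ℝ) := by exact_mod_cast hp.V0
  have hd : 0 < dg G X y := dg_pos hO hH hy
  obtain ⟨hOk, -, -, -, ha0⟩ := h.cons
  have hfr : (Fintype.card V : ℝ) * fr F = (F.card : ℝ) := by
    unfold fr
    rw [mul_div_cancel₀ _ hn.ne']
  have hfr0 : 0 ≤ fr F := div_nonneg (Nat.cast_nonneg _) (Nat.cast_nonneg _)
  have hx0 : 0 ≤ P.x := hO.x0.le
  have hm0 : 0 ≤ m := hp.m0
  obtain ⟨c, hc⟩ : ∃ c, c = fr F * (3 * P.x * (dg G X y / P.mu)) := ⟨_, rfl⟩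
  have hc0 : 0 ≤ c := by
    rw [hc]
    exact mul_nonneg hfr0 (mul_nonneg (mul_nonneg (by norm_num) hx0) (div_nonneg hd.le hO.mu0.le))
  have h1 : ∑ u ∈ nb G X y ∩ F, dR G X P s rest a y u =
      -(((nb G X y ∩ F).card : ℝ) * Gr G X 0 y) +
        ∑ b ∈ rest.toFinset.filter (fun b => anc rest b = a),
          ∑ u ∈ nb G X y ∩ F, dl G X P s rest y u b := by
    unfold dR
    rw [Finset.sum_add_distrib, Finset.sum_const, nsmul_eq_mul, mul_neg]
    congr 1
    exact Finset.sum_comm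
  have h2 : ∑ b ∈ rest.toFinset.filter (fun b => anc rest b = a),
      ∑ u ∈ nb G X y ∩ F, dl G X P s rest y u b ≤
      ∑ b ∈ rest.toFinset.filter (fun b => anc rest b = a),
        (if dis rest b < P.L then c else 0) := by
    refine Finset.sum_le_sum fun b hb => ?_
    rw [Finset.mem_filter, List.mem_toFinset] at hb
    rw [hc]
    exact dl_avg hO hH h ha hy hs hF hb.1 hb.2
  have h3 : ∑ b ∈ rest.toFinset.filter (fun b => anc rest b = a),
      (if dis rest b < P.L then c else 0) =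
      ((rest.toFinset.filter (fun b => anc rest b = a ∧ dis rest b < P.L)).card : ℝ) * c := by
    rw [← Finset.sum_filter, Finset.filter_filter, Finset.sum_const, nsmul_eq_mul]
  have h4 : ((rest.toFinset.filter (fun b => anc rest b = a ∧ dis rest b < P.L)).card : ℝ) ≤
      m := by
    have h5 := card_anc_lt hOk ha0 P.L
    have h6 : ((rest.toFinset.filter (fun b => anc rest b = a ∧ dis rest b < P.L)).card : ℝ) ≤
        (P.L : ℝ) * (B : ℝ) ^ P.L := by exact_mod_cast h5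
    exact h6.trans hm
  have h5 : fr F * (1 - P.x) ≤ ((nb G X y ∩ F).card : ℝ) * Gr G X 0 y := by
    rw [Gr_zero, mul_one_div, le_div_iff₀ hd]
    exact typ_card hO hH hF hy
  have h6 : dg G X y / P.mu ≤ C := by
    rw [div_le_iff₀ hO.mu0]
    refine le_trans ?_ hp.den
    unfold dg
    exact_mod_cast Finset.card_le_univ _
  have h7 : (Fintype.card V : ℝ) * (m * c) ≤ (F.card : ℝ) * (C * (3 * P.x * m)) := by
    rw [hc, ← hfr]
    have h8 : 0 ≤ (Fintype.card V : ℝ) * fr F * (3 * P.x * m) := by positivity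
    calc (Fintype.card V : ℝ) * (m * (fr F * (3 * P.x * (dg G X y / P.mu)))) =
        ((Fintype.card V : ℝ) * fr F * (3 * P.x * m)) * (dg G X y / P.mu) := by ring
      _ ≤ ((Fintype.card V : ℝ) * fr F * (3 * P.x * m)) * C := mul_le_mul_of_nonneg_left h6 h8
      _ = _ := by ring
  have h8 : ∑ u ∈ nb G X y ∩ F, dR G X P s rest a y u ≤ -(fr F * (1 - P.x)) + m * c := by
    rw [h1]
    refine add_le_add (neg_le_neg h5) ?_
    rw [h3] at h2
    exact h2.trans (mul_le_mul_of_nonneg_right h4 hc0)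
  calc (Fintype.card V : ℝ) * ∑ u ∈ nb G X y ∩ F, dR G X P s rest a y u ≤
      (Fintype.card V : ℝ) * (-(fr F * (1 - P.x)) + m * c) := mul_le_mul_of_nonneg_left h8 hn.le
    _ = -((Fintype.card V : ℝ) * fr F * (1 - P.x)) + (Fintype.card V : ℝ) * (m * c) := by ring
    _ ≤ -((F.card : ℝ) * (1 - P.x)) + (F.card : ℝ) * (C * (3 * P.x * m)) := by
      rw [hfr]
      exact add_le_add le_rfl h7
    _ = _ := by ring

end Pool.Agent.Lib.MP_56e41f_co.FQ
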