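import Pool.Agent.Lib.MP_56e41f_co.FQ.DDef
import Pool.Agent.Lib.MP_56e41f_co.FQ.DPa
import Pool.Agent.Lib.MP_56e41f_co.FQ.DPb
import Pool.Agent.Lib.MP_56e41f_co.LD.GrB
import Pool.Agent.Lib.MP_56e41f_co.LD.TypB

/-!
# Placing a root
-/

open Finset

namespace Pool.Agent.Lib.MP_56e41f_co.FQ

open Pool.Agent.Lib.MP_56e41f_co.LD

variable {V : Type} [Fintype V] [DecidableEq V]

theorem dpr_card {P : Pm} {m C : ℝ} (_hp : Okp V P m C)
    {B : ℕ} {a : Lab} {rest : List Lab} (h : Okl B (a :: rest))
    (hm : (P.L : ℝ) * (B : ℝ) ^ P.L ≤ m) :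
    ((rest.toFinset.filter (fun b => anc rest b = a ∧ dis rest b < P.L)).card : ℝ) ≤ m := by
  classical
  have h1 := card_anc_lt h.cons.1 h.cons.2.2.2.2 P.L
  have h2 : ((rest.toFinset.filter (fun b => anc rest b = a ∧ dis rest b < P.L)).card : ℝ)
      ≤ ((P.L * B ^ P.L : ℕ) : ℝ) := by
    have h3 : rest.toFinset.filter (fun b => anc rest b = a ∧ dis rest b < P.L) =
      @Finset.filter Lab (fun b => anc rest b = a ∧ dis rest b < P.L)
        (fun _ => Classical.propDecidable _) rest.toFinset := by
      apply Finset.ext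
      intro b
      simp only [mem_filter]
    rw [h3]
    refine Nat.cast_le.2 (le_trans (le_of_eq ?_) h1)
    apply congrArg Finset.card
    apply Finset.ext
    intro b
    simp only [mem_filter, List.mem_toFinset]
  push_cast at h2
  linarith

theorem dpr_hh {G : SimpleGraph V} {X : Finset (V × Bool)} {P : Pm}
    {s : Bool} {B : ℕ} {a : Lab} {rest : List Lab} (h : Okl B (a :: rest))
    (ha : a.tail = []) (φ : Lab → V) (u : V) {b : Lab} (hb : b ∈ rest) :
    hh G X P s rest (Function.update φ a u) b - hh G X P s (a :: rest) φ b =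
      if anc rest b = a ∧ dis rest b < P.L then
        Gr G X (dis rest b) (u, s) - Cst G X P (sd s (b.length - 2)) else 0 := by
  obtain ⟨h0, h1, h2, h3, h4⟩ := h.cons
  have hla : a.length - 1 = 0 := by
    have := congrArg List.length ha
    rw [List.length_tail] at this
    exact this
  by_cases hbt : b.tail = []
  · have hna : anc rest b ≠ a := by
      intro h'
      have hsp := anc_spec h0 hb
      rw [h'] at hsp
      have e1 := congrArg List.length hbt
      rw [List.length_tail, List.length_nil] at e1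
      have e2 := List.length_pos_of_ne_nil h4
      omega
    rw [if_neg (fun h' => hna h'.1)]
    unfold hh
    rw [if_pos hbt, if_pos hbt, sub_self]
  · rcases anc_cons h b with ⟨i1, i2, i3⟩ | ⟨i1, i2, i3⟩
    · have e1 : hh G X P s (a :: rest) φ b = Cst G X P (sd s (b.length - 2)) := by
        unfold hh
        rw [if_neg hbt, if_pos (Or.inl (i2.trans ha))]
      rw [e1]
      unfold hh
      rw [if_neg hbt]
      by_cases hd : dis rest b < P.L
      · have e2 : ¬ (anc rest b = [] ∨ P.L ≤ dis rest b) := by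
          rintro (h' | h')
          · exact h4 (i1.symm.trans h')
          · exact absurd h' (not_le.2 hd)
        rw [if_neg e2, if_pos ⟨i1, hd⟩, i1]
        unfold pos
        rw [Function.update_self, hla, sd_zero]
      · rw [if_pos (Or.inr (not_lt.1 hd)), if_neg (fun h' => hd h'.2), sub_self]
    · rw [if_neg (fun h' => i1 h'.1)]
      unfold hh
      rw [i2, i3]
      unfold pos
      rw [Function.update_of_ne i1, sub_self]

theorem dpr_key {G : SimpleGraph V} {X : Finset (V × Bool)} {P : Pm} {m C : ℝ}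
    (_hp : Okp V P m C)
    {s : Bool} {B : ℕ} {a : Lab} {rest : List Lab} (h : Okl B (a :: rest))
    (ha : a.tail = []) (φ : Lab → V) {u : V} (_hu : (u, s) ∈ X) :
    RX G X P s rest (Function.update φ a u) - RX G X P s (a :: rest) φ =
      - (P.hb / P.mu) + ∑ b ∈ rest.toFinset.filter (fun b => anc rest b = a ∧ dis rest b < P.L),
        (Gr G X (dis rest b) (u, s) - Cst G X P (sd s (b.length - 2)) - 1 / P.mu) := by
  classical
  obtain ⟨h0, h1, h2, h3, h4⟩ := h.cons
  have hna : a ∉ rest.toFinset := fun h' => h1 (List.mem_toFinset.1 h')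
  have e1 : RR G X P s (a :: rest) φ = P.hb / P.mu + ∑ b ∈ rest.toFinset,
      hh G X P s (a :: rest) φ b := by
    unfold RR
    rw [List.toFinset_cons, sum_insert hna]
    have : hh G X P s (a :: rest) φ a = P.hb / P.mu := by
      unfold hh
      rw [if_pos ha]
    rw [this]
  have e2 : RR G X P s rest (Function.update φ a u) - ∑ b ∈ rest.toFinset,
      hh G X P s (a :: rest) φ b =
      ∑ b ∈ rest.toFinset.filter (fun b => anc rest b = a ∧ dis rest b < P.L),
        (Gr G X (dis rest b) (u, s) - Cst G X P (sd s (b.length - 2))) := by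
    unfold RR
    rw [← sum_sub_distrib, sum_filter]
    refine sum_congr rfl fun b hb => ?_
    rw [dpr_hh h ha φ u (List.mem_toFinset.1 hb)]
  have hsub : rest.toFinset.filter (fun b => b.tail ≠ [] ∧ anc rest b = [] ∧
      b.length ≤ P.L + 1) ⊆ (a :: rest).toFinset.filter (fun b => b.tail ≠ [] ∧
      anc (a :: rest) b = [] ∧ b.length ≤ P.L + 1) := by
    intro b hb
    rw [mem_filter] at hb ⊢
    obtain ⟨hb1, hb2, hb3, hb4⟩ := hb
    refine ⟨?_, hb2, ?_, hb4⟩
    · rw [List.mem_toFinset] at hb1 ⊢
      exact List.mem_cons_of_mem _ hb1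
    · rcases anc_cons h b with ⟨i1, i2, i3⟩ | ⟨i1, i2, i3⟩
      · exact i2.trans ha
      · exact i2.trans hb3
  have hdiff : (a :: rest).toFinset.filter (fun b => b.tail ≠ [] ∧
      anc (a :: rest) b = [] ∧ b.length ≤ P.L + 1) \
      rest.toFinset.filter (fun b => b.tail ≠ [] ∧ anc rest b = [] ∧ b.length ≤ P.L + 1) =
      rest.toFinset.filter (fun b => anc rest b = a ∧ dis rest b < P.L) := by
    apply Finset.ext
    intro b
    rw [mem_sdiff, mem_filter, mem_filter, mem_filter, List.mem_toFinset, List.mem_toFinset]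
    constructor
    · rintro ⟨⟨hb1, hb2, hb3, hb4⟩, hb5⟩
      have hbr : b ∈ rest := by
        rcases List.mem_cons.1 hb1 with h' | h'
        · exact absurd (h' ▸ ha) hb2
        · exact h'
      rcases anc_cons h b with ⟨i1, i2, i3⟩ | ⟨i1, i2, i3⟩
      · refine ⟨hbr, i1, ?_⟩
        have hsp := (anc_spec h0 hbr).2
        rw [i1] at hsp
        have e2 := List.length_pos_of_ne_nil h4
        omega
      · exact absurd ⟨hbr, hb2, i2.symm.trans hb3, hb4⟩ hb5
    · rintro ⟨hb1, hb2, hb3⟩
      have hsp := (anc_spec h0 hb1).2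
      rw [hb2] at hsp
      have e2 := List.length_pos_of_ne_nil h4
      have e3 : a.length - 1 = 0 := by
        have := congrArg List.length ha
        rw [List.length_tail] at this
        exact this
      refine ⟨⟨List.mem_cons_of_mem _ hb1, ?_, ?_, ?_⟩, ?_⟩
      · intro h'
        have e4 := congrArg List.length h'
        rw [List.length_tail, List.length_nil] at e4
        omega
      · rcases anc_cons h b with ⟨i1, i2, i3⟩ | ⟨i1, i2, i3⟩
        · exact i2.trans ha
        · exact absurd hb2 i1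
      · omega
      · rintro ⟨-, -, h', -⟩
        exact h4 (hb2.symm.trans h')
  have e3 : exl P rest - exl P (a :: rest) =
      ∑ b ∈ rest.toFinset.filter (fun b => anc rest b = a ∧ dis rest b < P.L),
        (- (1 / P.mu)) := by
    have hcard := card_sdiff_add_card_eq_card hsub
    rw [hdiff] at hcard
    have hcard' : ((rest.toFinset.filter (fun b => anc rest b = a ∧ dis rest b < P.L)).card : ℝ)
        + ((rest.toFinset.filter (fun b => b.tail ≠ [] ∧ anc rest b = [] ∧
          b.length ≤ P.L + 1)).card : ℝ) = (((a :: rest).toFinset.filter (fun b => b.tail ≠ [] ∧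
      anc (a :: rest) b = [] ∧ b.length ≤ P.L + 1)).card : ℝ) := by
      exact_mod_cast hcard
    unfold exl
    rw [sum_const, nsmul_eq_mul, ← sub_div]
    have e6 : ∀ x y z : ℝ, z + x = y → (x - y) / P.mu = z * (- (1 / P.mu)) := by
      intro x y z hz
      rw [← hz]
      ring
    refine Eq.trans ?_ (e6 _ _ _ hcard')
    rfl
  unfold RX
  rw [e1]
  have e4 : ∑ b ∈ rest.toFinset.filter (fun b => anc rest b = a ∧ dis rest b < P.L),
        (Gr G X (dis rest b) (u, s) - Cst G X P (sd s (b.length - 2)) - 1 / P.mu) =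
      ∑ b ∈ rest.toFinset.filter (fun b => anc rest b = a ∧ dis rest b < P.L),
        (Gr G X (dis rest b) (u, s) - Cst G X P (sd s (b.length - 2))) +
      ∑ b ∈ rest.toFinset.filter (fun b => anc rest b = a ∧ dis rest b < P.L),
        (- (1 / P.mu)) := by
    rw [← sum_add_distrib]
    exact sum_congr rfl fun b _ => by ring
  rw [e4, ← e2, ← e3]
  ring

/-- `anc_cons`, `anc_self`: the cost `hb / mu = 4 / mu` of `a` disappears; for the labels `b` with
`anc rest b = a` we have `b.length = dis + 2`, and for `dis < L` the cost changes from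
`Cst + 1 / mu` to `Gr ≤ 1 / mu`, for `dis ≥ L` it is `Cst` before and afterwards.
`card_anc_lt`, `Gr_le`, `Cst_bd`. -/
theorem RX_root {G : SimpleGraph V} {X : Finset (V × Bool)} {P : Pm} {m C : ℝ} (hp : Okp V P m C)
    (hH : Hs G X P) {s : Bool} {B : ℕ} {a : Lab} {rest : List Lab} (h : Okl B (a :: rest))
    (hm : (P.L : ℝ) * (B : ℝ) ^ P.L ≤ m) (ha : a.tail = []) (φ : Lab → V) {u : V}
    (hu : (u, s) ∈ X) :
    |RX G X P s rest (Function.update φ a u) - RX G X P s (a :: rest) φ| ≤ 4 * (1 + m) / P.mu ∧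
    RX G X P s rest (Function.update φ a u) ≤ RX G X P s (a :: rest) φ - 4 / P.mu := by
  have hmu : 0 < P.mu := hp.ok.mu0
  have key := dpr_key (G := G) hp h ha φ hu
  have hc := dpr_card hp h hm
  set S := rest.toFinset.filter (fun b => anc rest b = a ∧ dis rest b < P.L) with hS
  have hup : ∀ b ∈ S, Gr G X (dis rest b) (u, s) - Cst G X P (sd s (b.length - 2)) - 1 / P.mu
      ≤ 0 := by
    intro b _
    have h1 := Gr_le hp.ok hH (dis rest b) hu
    have h2 := (Cst_bd hp.ok hH (sd s (b.length - 2))).1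
    linarith
  have hlo : ∀ b ∈ S, - (3 / P.mu) ≤
      Gr G X (dis rest b) (u, s) - Cst G X P (sd s (b.length - 2)) - 1 / P.mu := by
    intro b _
    have h1 := Gr_nonneg G X (dis rest b) (u, s)
    have h2 := (Cst_bd hp.ok hH (sd s (b.length - 2))).2
    have h3 : 3 / P.mu = 2 / P.mu + 1 / P.mu := by
      rw [← add_div]
      norm_num
    linarith
  have hs1 := sum_nonpos hup
  have hs2 := sum_le_sum hlo
  rw [sum_const, nsmul_eq_mul] at hs2
  have h3 : 0 < 3 / P.mu := div_pos (by norm_num) hmu
  have h4 : 0 < 4 / P.mu := div_pos (by norm_num) hmu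
  have hs3 : (S.card : ℝ) * (3 / P.mu) ≤ m * (3 / P.mu) := mul_le_mul_of_nonneg_right hc h3.le
  have hs4 : 4 * (1 + m) / P.mu = 4 / P.mu + m * (3 / P.mu) + m / P.mu := by
    field_simp
    ring
  have hs5 : 0 ≤ m / P.mu := div_nonneg hp.m0 hmu.le
  have hb := hp.hb4
  rw [hb] at key
  constructor
  · rw [key, abs_le, hs4]
    constructor
    · linarith
    · linarith
  · linarith

/-- candidates for a root: `nbl` contains `nb G X y` for `y ∈ X` on the other side, and such a `y`
exists (a neighbour of an element of `X`) -/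
theorem root_avail {G : SimpleGraph V} {X : Finset (V × Bool)} {P : Pm} (hO : P.Ok)
    (hH : Hs G X P) (hX : X.Nonempty) (s : Bool) (φ : Lab → V) {a : Lab} (ha : a.tail = [])
    {F : Finset V} (hF : Typ G X P F (fr F)) :
    fr F * (1 - P.x) * P.mu ≤ ((nbl G X s φ a ∩ F).card : ℝ) := by
  classical
  have hy : ∃ y ∈ X, y.2 = !s := by
    obtain ⟨x, hx⟩ := hX
    by_cases hxs : x.2 = !s
    · exact ⟨x, hx, hxs⟩
    · have h1 : 0 < dg G X x := dg_pos hO hH hx
      have h2 : 0 < (nb G X x).card := by
        unfold dg at h1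
        exact_mod_cast h1
      obtain ⟨u, hu⟩ := Finset.card_pos.1 h2
      have h3 := ((mem_nb G X x u).1 hu).2
      have h4 : x.2 = s := by
        cases hx2 : x.2 <;> cases s <;> simp_all
      exact ⟨(u, !x.2), h3, by rw [h4]⟩
  obtain ⟨y, hyX, hys⟩ := hy
  have h1 := typ_card hO hH hF hyX
  have h2 := hH.deg y hyX
  have h3 : 0 ≤ fr F * (1 - P.x) := by
    refine mul_nonneg ?_ (by linarith [hO.x1])
    unfold fr
    exact div_nonneg (Nat.cast_nonneg _) (Nat.cast_nonneg _)
  have h4 : (nb G X y ∩ F).card ≤ (nbl G X s φ a ∩ F).card := by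
    refine card_le_card ?_
    refine inter_subset_inter ?_ (subset_refl _)
    intro u hu
    have h5 := ((mem_nb G X y u).1 hu).2
    rw [hys, Bool.not_not] at h5
    unfold nbl
    rw [if_pos ha]
    exact mem_filter.2 ⟨mem_univ _, h5⟩
  calc fr F * (1 - P.x) * P.mu ≤ fr F * (1 - P.x) * dg G X y := mul_le_mul_of_nonneg_left h2 h3
    _ ≤ ((nb G X y ∩ F).card : ℝ) := h1
    _ ≤ ((nbl G X s φ a ∩ F).card : ℝ) := by exact_mod_cast h4

end Pool.Agent.Lib.MP_56e41f_co.FQ
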