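import Pool.Agent.Lib.MP_56e41f_co.FQ.DDef

/-!
# Exponential inequality
-/

open Finset

namespace Pool.Agent.Lib.MP_56e41f_co.FQ

open Pool.Agent.Lib.MP_56e41f_co.LD

variable {V : Type} [Fintype V] [DecidableEq V]

/-- elementary: `exp z ≤ 1 + z + z ^ 2` for `|z| ≤ 1` -/
theorem exp_quad {z : ℝ} (hz : |z| ≤ 1) : Real.exp z ≤ 1 + z + z ^ 2 := by
  have h := Real.abs_exp_sub_one_sub_id_le hz
  have h2 := (abs_le.mp h).2
  linarith

/-- Abstract form of the drift computation: with `z u = th (1 + n (1 + xl) r u)`,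
`|z u| ≤ th * 16 C (1 + m) ≤ 1`, and `exp_quad`. -/
theorem sum_exp {A F : Finset V} {P : Pm} {m C : ℝ} (hp : Okp V P m C)
    (hA : A ⊆ F) (r : V → ℝ)
    (h1 : (Fintype.card V : ℝ) * ∑ u ∈ A, r u ≤ (F.card : ℝ) * (- (1 - P.x) + C * (3 * P.x * m)))
    (h2 : ∀ u ∈ A, (Fintype.card V : ℝ) * |r u| ≤ 4 * C * (1 + m)) :
    ∑ u ∈ A, Real.exp (P.th * (1 + (Fintype.card V : ℝ) * (1 + P.xl) * r u))
      + ((F \ A).card : ℝ) * Real.exp P.th ≤ (F.card : ℝ) := by
  set n : ℝ := (Fintype.card V : ℝ) with hn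
  have hn0 : 0 ≤ n := Nat.cast_nonneg _
  have hth := hp.ok.th0
  have hxl0 := hp.xl0
  have hxl1 := hp.ok.xl1
  have hx0 := hp.ok.x0
  have hm0 := hp.m0
  have hC1 := hp.C1
  have hK1 : 1 ≤ C * (1 + m) := by nlinarith
  have hth1 := hp.th1
  have hth2 := hp.th2
  have hdri := hp.dri
  set W : ℝ := 16 * C * (1 + m) with hW
  have hW1 : 16 ≤ W := by rw [hW]; nlinarith
  have hthW0 : 0 ≤ P.th * W := by positivity
  have hsq : (P.th * W) ^ 2 ≤ P.th * (P.xl / 2) := by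
    have h : (P.th * W) ^ 2 = P.th * (P.th * W ^ 2) := by ring
    rw [h]
    exact mul_le_mul_of_nonneg_left hth2 hth.le
  -- single term
  have hz : ∀ u ∈ A, |P.th * (1 + n * (1 + P.xl) * r u)| ≤ P.th * W := by
    intro u hu
    rw [abs_mul, abs_of_pos hth]
    refine mul_le_mul_of_nonneg_left ?_ hth.le
    have h3 : |1 + n * (1 + P.xl) * r u| ≤ 1 + (1 + P.xl) * (n * |r u|) := by
      refine (abs_add_le _ _).trans ?_
      rw [abs_one, abs_mul, abs_mul, abs_of_nonneg hn0, abs_of_pos (by linarith : 0 < 1 + P.xl)]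
      have : n * (1 + P.xl) * |r u| = (1 + P.xl) * (n * |r u|) := by ring
      rw [this]
    refine h3.trans ?_
    have h4 : 0 ≤ n * |r u| := mul_nonneg hn0 (abs_nonneg _)
    have h5 := h2 u hu
    have h6 : (1 + P.xl) * (n * |r u|) ≤ 2 * (4 * C * (1 + m)) :=
      mul_le_mul (by linarith) h5 h4 (by norm_num)
    rw [hW]
    nlinarith
  have hterm : ∀ u ∈ A, Real.exp (P.th * (1 + n * (1 + P.xl) * r u))
      ≤ (1 + P.th + P.th * (P.xl / 2)) + P.th * ((1 + P.xl) * n) * r u := by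
    intro u hu
    have h3 := hz u hu
    have h4 : |P.th * (1 + n * (1 + P.xl) * r u)| ≤ 1 := h3.trans hth1
    have h5 := exp_quad h4
    have h6 : (P.th * (1 + n * (1 + P.xl) * r u)) ^ 2 ≤ (P.th * W) ^ 2 := by
      rw [← sq_abs]
      exact pow_le_pow_left₀ (abs_nonneg _) h3 2
    have h7 : P.th * (1 + n * (1 + P.xl) * r u) = P.th + P.th * ((1 + P.xl) * n) * r u := by ring
    linarith
  have hexp : Real.exp P.th ≤ 1 + P.th + P.th * (P.xl / 2) := by
    have h3 : P.th ≤ P.th * W := by nlinarith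
    have h4 : |P.th| ≤ 1 := by
      rw [abs_of_pos hth]
      exact h3.trans hth1
    have h5 := exp_quad h4
    have h6 : P.th ^ 2 ≤ (P.th * W) ^ 2 := pow_le_pow_left₀ hth.le h3 2
    linarith
  have hsum : ∑ u ∈ A, Real.exp (P.th * (1 + n * (1 + P.xl) * r u))
      ≤ (A.card : ℝ) * (1 + P.th + P.th * (P.xl / 2))
        + P.th * ((1 + P.xl) * n) * ∑ u ∈ A, r u := by
    refine (Finset.sum_le_sum hterm).trans (le_of_eq ?_)
    rw [Finset.sum_add_distrib, Finset.sum_const, nsmul_eq_mul, ← Finset.mul_sum]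
  have hcard : (A.card : ℝ) + ((F \ A).card : ℝ) = (F.card : ℝ) := by
    have h := Finset.card_sdiff_add_card_eq_card hA
    have h' : ((F \ A).card : ℝ) + (A.card : ℝ) = (F.card : ℝ) := by exact_mod_cast h
    linarith
  have hFA : ((F \ A).card : ℝ) * Real.exp P.th
      ≤ ((F \ A).card : ℝ) * (1 + P.th + P.th * (P.xl / 2)) :=
    mul_le_mul_of_nonneg_left hexp (Nat.cast_nonneg _)
  have hF0 : 0 ≤ (F.card : ℝ) := Nat.cast_nonneg _
  have hlin : P.th * ((1 + P.xl) * n) * ∑ u ∈ A, r u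
      ≤ P.th * ((1 + P.xl) * ((F.card : ℝ) * (- (1 - P.x) + C * (3 * P.x * m)))) := by
    have h3 : P.th * ((1 + P.xl) * n) * ∑ u ∈ A, r u
        = P.th * ((1 + P.xl) * (n * ∑ u ∈ A, r u)) := by ring
    rw [h3]
    exact mul_le_mul_of_nonneg_left (mul_le_mul_of_nonneg_left h1 (by linarith)) hth.le
  have hdr : 1 + (1 + P.xl) * (- (1 - P.x) + C * (3 * P.x * m)) ≤ - (P.xl / 2) := by
    have h3 : 0 ≤ C * (3 * P.x * m) := by positivity
    nlinarith
  have hfin : P.th * (F.card : ℝ) * (1 + (1 + P.xl) * (- (1 - P.x) + C * (3 * P.x * m)))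
      ≤ P.th * (F.card : ℝ) * (- (P.xl / 2)) :=
    mul_le_mul_of_nonneg_left hdr (mul_nonneg hth.le hF0)
  have hexpand : (A.card : ℝ) * (1 + P.th + P.th * (P.xl / 2))
      + ((F \ A).card : ℝ) * (1 + P.th + P.th * (P.xl / 2))
      = (F.card : ℝ) * (1 + P.th + P.th * (P.xl / 2)) := by
    rw [← add_mul, hcard]
  nlinarith [hsum, hFA, hlin, hfin, hexpand]

end Pool.Agent.Lib.MP_56e41f_co.FQ
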