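import Pool.Agent.Lib.MP_56e41f_co.FQ.DDef
import Pool.Agent.Lib.MP_56e41f_co.FQ.DPa
import Pool.Agent.Lib.MP_56e41f_co.FQ.DPc
import Pool.Agent.Lib.MP_56e41f_co.LD.GrB

/-!
# The correction for the roots
-/

open Finset

namespace Pool.Agent.Lib.MP_56e41f_co.FQ

open Pool.Agent.Lib.MP_56e41f_co.LD

variable {V : Type} [Fintype V] [DecidableEq V]

theorem exl_nonneg {P : Pm} (hO : P.Ok) (rest : List Lab) : 0 ≤ exl P rest := by
  unfold exl
  exact div_nonneg (Nat.cast_nonneg _) hO.mu0.le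

/-- `anc_cons`, `anc_self` -/
theorem exl_step {P : Pm} {B : ℕ} {a : Lab} {rest : List Lab} (h : Okl B (a :: rest))
    (ha : a.tail ≠ []) : exl P rest = exl P (a :: rest) := by
  classical
  obtain ⟨-, har, -, -, hane⟩ := h.cons
  have hset : rest.toFinset.filter (fun b => b.tail ≠ [] ∧ anc rest b = [] ∧ b.length ≤ P.L + 1) =
      (a :: rest).toFinset.filter
        (fun b => b.tail ≠ [] ∧ anc (a :: rest) b = [] ∧ b.length ≤ P.L + 1) := by
    ext b
    have hiff : anc rest b = [] ↔ anc (a :: rest) b = [] := by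
      rcases anc_cons h b with ⟨h1, h2, -⟩ | ⟨-, h2, -⟩
      · rw [h1, h2]
        exact ⟨fun h3 => absurd h3 hane, fun h3 => absurd h3 ha⟩
      · rw [h2]
    simp only [mem_filter, List.mem_toFinset, List.mem_cons, hiff]
    constructor
    · rintro ⟨h1, h2⟩
      exact ⟨Or.inr h1, h2⟩
    · rintro ⟨h1 | h1, h2⟩
      · exfalso
        rw [h1, (anc_self h).1] at h2
        exact ha h2.2.1
      · exact ⟨h1, h2⟩
  unfold exl
  rw [hset]

theorem RX_nonneg {G : SimpleGraph V} {X : Finset (V × Bool)} {P : Pm} (hO : P.Ok) (hH : Hs G X P)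
    (s : Bool) (rest : List Lab) (φ : Lab → V) : 0 ≤ RX G X P s rest φ :=
  add_nonneg (RR_nonneg hO hH s rest φ) (exl_nonneg hO rest)

theorem RX_step {G : SimpleGraph V} {X : Finset (V × Bool)} {P : Pm} (hO : P.Ok) {s : Bool}
    {B : ℕ} {a : Lab} {rest : List Lab} (h : Okl B (a :: rest)) (ha : a.tail ≠ []) (φ : Lab → V)
    (u : V) :
    RX G X P s rest (Function.update φ a u) =
      RX G X P s (a :: rest) φ + dR G X P s rest a (pos s φ a.tail) u := by
  unfold RX
  rw [RR_step hO h ha, exl_step h ha]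
  ring

end Pool.Agent.Lib.MP_56e41f_co.FQ
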