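import Pool.Agent.Lib.MP_56e41f_co.FQ.DDef
import Pool.Agent.Lib.MP_56e41f_co.FQ.DPx
import Pool.Agent.Lib.MP_56e41f_co.FQ.DPi
import Pool.Agent.Lib.MP_56e41f_co.FQ.DPe
import Pool.Agent.Lib.MP_56e41f_co.FQ.DPs
import Pool.Agent.Lib.MP_56e41f_co.FQ.DPr

/-!
# One card
-/

open Finset

namespace Pool.Agent.Lib.MP_56e41f_co.FQ

open Pool.Agent.Lib.MP_56e41f_co.LD

variable {V : Type} [Fintype V] [DecidableEq V]

private theorem pp_aux {G : SimpleGraph V} {X : Finset (V × Bool)} {P : Pm} {m C : ℝ}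
    (hp : Okp V P m C) {s : Bool} {a : Lab} {rest : List Lab} {φ : Lab → V} {F N : Finset V}
    (r : V → ℝ)
    (hr : ∀ u ∈ N ∩ F, RX G X P s rest (Function.update φ a u) = RX G X P s (a :: rest) φ + r u)
    (h1 : (Fintype.card V : ℝ) * ∑ u ∈ N ∩ F, r u ≤
      (F.card : ℝ) * (- (1 - P.x) + C * (3 * P.x * m)))
    (h2 : ∀ u ∈ N ∩ F, (Fintype.card V : ℝ) * |r u| ≤ 4 * C * (1 + m)) :
    ∑ u ∈ N ∩ F, PP G X P s rest (Function.update φ a u) (F.erase u)
      + ∑ c ∈ F \ N, PP G X P s (a :: rest) φ (F.erase c)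
      ≤ (F.card : ℝ) * PP G X P s (a :: rest) φ F := by
  have hcard : ∀ u ∈ F, (((F.erase u).card : ℕ) : ℝ) = (F.card : ℝ) - 1 := by
    intro u hu
    have e := Finset.card_erase_add_one hu
    have e' : (((F.erase u).card : ℕ) : ℝ) + 1 = (F.card : ℝ) := by exact_mod_cast e
    linarith
  have e1 : ∀ u ∈ N ∩ F, PP G X P s rest (Function.update φ a u) (F.erase u) =
      PP G X P s (a :: rest) φ F *
        Real.exp (P.th * (1 + (Fintype.card V : ℝ) * (1 + P.xl) * r u)) := by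
    intro u hu
    unfold PP
    rw [← Real.exp_add, hr u hu, hcard u (Finset.mem_inter.mp hu).2]
    congr 1
    ring
  have e2 : ∀ c ∈ F \ N, PP G X P s (a :: rest) φ (F.erase c) =
      PP G X P s (a :: rest) φ F * Real.exp P.th := by
    intro c hc
    unfold PP
    rw [← Real.exp_add, hcard c (Finset.mem_sdiff.mp hc).1]
    congr 1
    ring
  have e3 : F \ (N ∩ F) = F \ N := by
    ext c
    simp only [Finset.mem_sdiff, Finset.mem_inter, not_and]
    exact ⟨fun h => ⟨h.1, fun hn => h.2 hn h.1⟩, fun h => ⟨h.1, fun hn => absurd hn h.2⟩⟩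
  have h3 := sum_exp hp (A := N ∩ F) (F := F) Finset.inter_subset_right r h1 h2
  rw [e3] at h3
  rw [Finset.sum_congr rfl e1, Finset.sum_congr rfl e2, ← Finset.mul_sum, Finset.sum_const,
    nsmul_eq_mul]
  have h4 : 0 ≤ PP G X P s (a :: rest) φ F := (Real.exp_pos _).le
  calc PP G X P s (a :: rest) φ F *
        ∑ u ∈ N ∩ F, Real.exp (P.th * (1 + (Fintype.card V : ℝ) * (1 + P.xl) * r u))
      + ((F \ N).card : ℝ) * (PP G X P s (a :: rest) φ F * Real.exp P.th)
      = PP G X P s (a :: rest) φ F *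
        (∑ u ∈ N ∩ F, Real.exp (P.th * (1 + (Fintype.card V : ℝ) * (1 + P.xl) * r u))
          + ((F \ N).card : ℝ) * Real.exp P.th) := by ring
    _ ≤ PP G X P s (a :: rest) φ F * (F.card : ℝ) := mul_le_mul_of_nonneg_left h3 h4
    _ = (F.card : ℝ) * PP G X P s (a :: rest) φ F := mul_comm _ _

/-- One card, `a` not a root: `PP rest (update φ a u) (F.erase u) = PP (a :: rest) φ F * exp (z u)`
with `RX_step`; `sum_exp` with `r = dR`, `A = nbl ∩ F`. -/
theorem PP_step {G : SimpleGraph V} {X : Finset (V × Bool)} {P : Pm} {m C : ℝ} (hp : Okp V P m C)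
    (hH : Hs G X P) {s : Bool} {B : ℕ} {a : Lab} {rest : List Lab} (h : Okl B (a :: rest))
    (ha : a.tail ≠ []) (hm : (P.L : ℝ) * (B : ℝ) ^ P.L ≤ m) {φ : Lab → V}
    (hy : pos s φ a.tail ∈ X) {F : Finset V} (hF : Typ G X P F (fr F)) :
    ∑ u ∈ nbl G X s φ a ∩ F, PP G X P s rest (Function.update φ a u) (F.erase u)
      + ∑ c ∈ F \ nbl G X s φ a, PP G X P s (a :: rest) φ (F.erase c)
      ≤ (F.card : ℝ) * PP G X P s (a :: rest) φ F := by
  have hn : nbl G X s φ a = nb G X (pos s φ a.tail) := by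
    unfold nbl
    rw [if_neg ha]
  rw [hn]
  refine pp_aux hp (fun u => dR G X P s rest a (pos s φ a.tail) u) ?_ ?_ ?_
  · intro u _
    exact RX_step hp.ok h ha φ u
  · refine dR_avg hp hH h ha hm hy ?_ hF
    change sd s (a.tail.length - 1) = sd s (a.length - 2)
    rw [List.length_tail]
    rfl
  · intro u hu
    exact dR_abs hp hH h ha hm hy (Finset.mem_inter.mp hu).1

/-- One card, `a` a root: `RX_root`, `root_avail`; `n ∑ r ≤ - |A| n 4 / mu ≤ - 2 |F|`. -/
theorem PP_root {G : SimpleGraph V} {X : Finset (V × Bool)} {P : Pm} {m C : ℝ} (hp : Okp V P m C)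
    (hH : Hs G X P) (hX : X.Nonempty) {s : Bool} {B : ℕ} {a : Lab} {rest : List Lab}
    (h : Okl B (a :: rest)) (ha : a.tail = []) (hm : (P.L : ℝ) * (B : ℝ) ^ P.L ≤ m)
    (φ : Lab → V) {F : Finset V} (hF : Typ G X P F (fr F)) :
    ∑ u ∈ nbl G X s φ a ∩ F, PP G X P s rest (Function.update φ a u) (F.erase u)
      + ∑ c ∈ F \ nbl G X s φ a, PP G X P s (a :: rest) φ (F.erase c)
      ≤ (F.card : ℝ) * PP G X P s (a :: rest) φ F := by
  classical
  have hmu := hp.ok.mu0
  have hV : (0 : ℝ) < (Fintype.card V : ℝ) := by exact_mod_cast hp.V0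
  have hm0 := hp.m0
  have hC := hp.C1
  have hx0 := hp.ok.x0
  have hx1 := hp.ok.x1
  have hmem : ∀ u ∈ nbl G X s φ a ∩ F, (u, s) ∈ X := by
    intro u hu
    have h1 := (Finset.mem_inter.mp hu).1
    unfold nbl at h1
    rw [if_pos ha] at h1
    exact (Finset.mem_filter.mp h1).2
  have hroot := fun (u : V) (hu : u ∈ nbl G X s φ a ∩ F) =>
    RX_root hp hH h hm ha φ (u := u) (hmem u hu)
  refine pp_aux hp (fun u => RX G X P s rest (Function.update φ a u) -
    RX G X P s (a :: rest) φ) (fun u _ => by ring) ?_ ?_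
  · have h1 : ∑ u ∈ nbl G X s φ a ∩ F, (RX G X P s rest (Function.update φ a u) -
        RX G X P s (a :: rest) φ) ≤ ∑ u ∈ nbl G X s φ a ∩ F, (- (4 / P.mu)) :=
      Finset.sum_le_sum fun u hu => by
        have h2 := (hroot u hu).2
        linarith
    rw [Finset.sum_const, nsmul_eq_mul] at h1
    have h2 := root_avail hp.ok hH hX s φ ha hF
    have h3 : fr F * (Fintype.card V : ℝ) = (F.card : ℝ) := by
      unfold fr
      exact div_mul_cancel₀ _ hV.ne'
    have hF0 : (0 : ℝ) ≤ (F.card : ℝ) := Nat.cast_nonneg _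
    calc (Fintype.card V : ℝ) * ∑ u ∈ nbl G X s φ a ∩ F,
          (RX G X P s rest (Function.update φ a u) - RX G X P s (a :: rest) φ)
        ≤ (Fintype.card V : ℝ) * (((nbl G X s φ a ∩ F).card : ℝ) * (- (4 / P.mu))) :=
          mul_le_mul_of_nonneg_left h1 hV.le
      _ = - ((Fintype.card V : ℝ) * (4 / P.mu) * ((nbl G X s φ a ∩ F).card : ℝ)) := by ring
      _ ≤ - ((Fintype.card V : ℝ) * (4 / P.mu) * (fr F * (1 - P.x) * P.mu)) :=
          neg_le_neg (mul_le_mul_of_nonneg_left h2 (by positivity))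
      _ = - (4 * (1 - P.x) * (fr F * (Fintype.card V : ℝ))) := by
          field_simp
      _ = - (4 * (1 - P.x) * (F.card : ℝ)) := by rw [h3]
      _ ≤ (F.card : ℝ) * (- (1 - P.x) + C * (3 * P.x * m)) := by
          have h4 : 0 ≤ C * (3 * P.x * m) := by positivity
          have h5 : 0 ≤ (F.card : ℝ) * (C * (3 * P.x * m)) := mul_nonneg hF0 h4
          have h6 : 0 ≤ (F.card : ℝ) * (1 - P.x) := mul_nonneg hF0 (by linarith)
          nlinarith
  · intro u hu
    have h1 := (hroot u hu).1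
    have h4 : (Fintype.card V : ℝ) / P.mu ≤ C := by
      rw [div_le_iff₀ hmu]
      exact hp.den
    calc (Fintype.card V : ℝ) *
          |RX G X P s rest (Function.update φ a u) - RX G X P s (a :: rest) φ|
        ≤ (Fintype.card V : ℝ) * (4 * (1 + m) / P.mu) :=
          mul_le_mul_of_nonneg_left h1 hV.le
      _ = (Fintype.card V : ℝ) / P.mu * (4 * (1 + m)) := by ring
      _ ≤ C * (4 * (1 + m)) := mul_le_mul_of_nonneg_right h4 (by positivity)
      _ = 4 * C * (1 + m) := by ring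

end Pool.Agent.Lib.MP_56e41f_co.FQ
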