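import Pool.Agent.Lib.MP_56e41f_co.FQ.DDef

/-!
# The number of later sets which are not typical
-/

open Finset

namespace Pool.Agent.Lib.MP_56e41f_co.FQ

open Pool.Agent.Lib.MP_56e41f_co.LD

variable {V : Type} [Fintype V] [DecidableEq V]

theorem TF_nonneg (G : SimpleGraph V) (X : Finset (V × Bool)) (P : Pm) (F : Finset V) :
    0 ≤ TF G X P F := by
  unfold TF
  exact Finset.sum_nonneg fun F' _ => one_div_nonneg.2 (Nat.cast_nonneg _)

/-- the term `F' = F` -/
theorem TF_one {G : SimpleGraph V} {X : Finset (V × Bool)} {P : Pm} {F : Finset V}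
    (h : P.κ ≤ fr F) (hF : ¬ Typ G X P F (fr F)) : 1 ≤ TF G X P F := by
  classical
  unfold TF
  have hmem : F ∈ F.powerset.filter (fun F' => P.κ ≤ fr F' ∧ ¬ Typ G X P F' (fr F')) :=
    Finset.mem_filter.2 ⟨Finset.mem_powerset_self F, h, hF⟩
  have h1 : (1 : ℝ) = 1 / ((F.card.choose F.card : ℕ) : ℝ) := by
    rw [Nat.choose_self, Nat.cast_one, div_one]
  calc (1 : ℝ) = 1 / ((F.card.choose F.card : ℕ) : ℝ) := h1
    _ ≤ _ := Finset.single_le_sum
      (f := fun F' : Finset V => 1 / ((F.card.choose F'.card : ℕ) : ℝ))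
      (fun F' _ => one_div_nonneg.2 (Nat.cast_nonneg _)) hmem

private theorem dta_num {k j : ℕ} (h : j ≤ k) :
    ((k - j : ℕ) : ℝ) * (1 / (((k - 1).choose j : ℕ) : ℝ)) ≤
      (k : ℝ) * (1 / ((k.choose j : ℕ) : ℝ)) := by
  rcases Nat.lt_or_ge j k with h1 | h1
  · obtain ⟨m, rfl⟩ : ∃ m, k = m + 1 := ⟨k - 1, by omega⟩
    have h2 : 0 < (m.choose j : ℝ) := by
      exact_mod_cast Nat.choose_pos (by omega)
    have h3 : 0 < ((m + 1).choose j : ℝ) := by
      exact_mod_cast Nat.choose_pos h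
    have h4 : (m + 1) * m.choose j = (m + 1).choose j * (m + 1 - j) := by
      rw [mul_comm]
      exact Nat.choose_mul_succ_eq m j
    have h5 : ((m + 1 : ℕ) : ℝ) * (m.choose j : ℝ) =
        ((m + 1).choose j : ℝ) * ((m + 1 - j : ℕ) : ℝ) := by
      exact_mod_cast h4
    rw [Nat.add_sub_cancel, mul_one_div, mul_one_div, div_le_div_iff₀ h2 h3, mul_comm, ← h5]
  · have h2 : k - j = 0 := by omega
    rw [h2, Nat.cast_zero, zero_mul]
    exact mul_nonneg (Nat.cast_nonneg _) (one_div_nonneg.2 (Nat.cast_nonneg _))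

omit [Fintype V] in
private theorem dta_step (p : Finset V → Prop) [DecidablePred p] (F : Finset V) :
    ∑ c ∈ F, ∑ F' ∈ (F.erase c).powerset.filter p,
        1 / (((F.erase c).card.choose F'.card : ℕ) : ℝ) ≤
      (F.card : ℝ) * ∑ F' ∈ F.powerset.filter p, 1 / ((F.card.choose F'.card : ℕ) : ℝ) := by
  have h1 : ∀ c ∈ F, ∑ F' ∈ (F.erase c).powerset.filter p,
        1 / (((F.erase c).card.choose F'.card : ℕ) : ℝ) =
      ∑ F' ∈ F.powerset.filter p, if c ∉ F' then
        1 / (((F.card - 1).choose F'.card : ℕ) : ℝ) else 0 := by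
    intro c hc
    rw [← Finset.sum_filter, Finset.card_erase_of_mem hc]
    refine Finset.sum_congr ?_ fun _ _ => rfl
    ext F'
    simp only [Finset.mem_filter, Finset.mem_powerset, Finset.subset_erase]
    tauto
  rw [Finset.sum_congr rfl h1, Finset.sum_comm, Finset.mul_sum]
  refine Finset.sum_le_sum fun F' hF' => ?_
  have hsub : F' ⊆ F := Finset.mem_powerset.1 (Finset.mem_filter.1 hF').1
  rw [← Finset.sum_filter, Finset.sum_const, nsmul_eq_mul]
  have h2 : F.filter (fun c => c ∉ F') = F \ F' := by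
    ext c
    simp only [Finset.mem_filter, Finset.mem_sdiff]
  rw [h2, Finset.card_sdiff_of_subset hsub]
  exact dta_num (Finset.card_le_card hsub)

/-- For `F' ⊂ F` with `j` elements, `|F| = k`: there are `k - j` elements `c ∈ F \ F'`, and
`(k - j) / C (k - 1, j) = k / C (k, j)`. -/
theorem TF_step (G : SimpleGraph V) (X : Finset (V × Bool)) (P : Pm) (F : Finset V) :
    ∑ c ∈ F, TF G X P (F.erase c) ≤ (F.card : ℝ) * TF G X P F := by
  classical
  unfold TF
  exact dta_step _ F

end Pool.Agent.Lib.MP_56e41f_co.FQ
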