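import Pool.Agent.Lib.MP_56e41f_co.FQ.DDef
import Pool.Agent.Lib.MP_56e41f_co.FQ.DPf
import Pool.Agent.Lib.MP_56e41f_co.FQ.DTa
import Pool.Agent.Lib.MP_56e41f_co.LD.TypB

/-!
# The card process
-/

open Finset

namespace Pool.Agent.Lib.MP_56e41f_co.FQ

open Pool.Agent.Lib.MP_56e41f_co.LD

variable {V : Type} [Fintype V] [DecidableEq V]

theorem pf_le_one (G : SimpleGraph V) (X : Finset (V × Bool)) (s : Bool) (m1 : ℕ) (n : ℕ)
    (rest : List Lab) (φ : Lab → V) (F : Finset V) : pf G X s m1 n rest φ F ≤ 1 := by
  induction n generalizing rest φ F with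
  | zero =>
    cases rest with
    | nil => rw [pf]; exact zero_le_one
    | cons a rest => rw [pf]
  | succ n ih =>
    cases rest with
    | nil => rw [pf]; exact zero_le_one
    | cons a rest =>
      rw [pf]
      split_ifs with h
      · exact le_rfl
      · have h1 : ∑ u ∈ nbl G X s φ a ∩ F, pf G X s m1 n rest (Function.update φ a u) (F.erase u)
            ≤ ((nbl G X s φ a ∩ F).card : ℝ) := by
          calc _ ≤ ∑ _u ∈ nbl G X s φ a ∩ F, (1 : ℝ) := Finset.sum_le_sum (fun u _ => ih _ _ _)
            _ = _ := by rw [Finset.sum_const, nsmul_eq_mul, mul_one]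
        have h2 : ∑ c ∈ F \ nbl G X s φ a, pf G X s m1 n (a :: rest) φ (F.erase c)
            ≤ ((F \ nbl G X s φ a).card : ℝ) := by
          calc _ ≤ ∑ _u ∈ F \ nbl G X s φ a, (1 : ℝ) := Finset.sum_le_sum (fun u _ => ih _ _ _)
            _ = _ := by rw [Finset.sum_const, nsmul_eq_mul, mul_one]
        have h3 : (((nbl G X s φ a ∩ F).card : ℕ) : ℝ) + ((F \ nbl G X s φ a).card : ℝ)
            = (F.card : ℝ) := by
          rw [Finset.inter_comm]
          exact_mod_cast Finset.card_inter_add_card_sdiff F (nbl G X s φ a)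
        refine div_le_one_of_le₀ ?_ (Nat.cast_nonneg _)
        linarith

theorem pf_nonneg (G : SimpleGraph V) (X : Finset (V × Bool)) (s : Bool) (m1 : ℕ) (n : ℕ)
    (rest : List Lab) (φ : Lab → V) (F : Finset V) : 0 ≤ pf G X s m1 n rest φ F := by
  induction n generalizing rest φ F with
  | zero =>
    cases rest with
    | nil => rw [pf]
    | cons a rest => rw [pf]; exact zero_le_one
  | succ n ih =>
    cases rest with
    | nil => rw [pf]
    | cons a rest =>
      rw [pf]
      split_ifs with h
      · exact zero_le_one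
      · exact div_nonneg (add_nonneg (Finset.sum_nonneg (fun u _ => ih _ _ _))
          (Finset.sum_nonneg (fun u _ => ih _ _ _))) (Nat.cast_nonneg _)

/-- Induction on `n = |F|`. `rest = []` is trivial. If `fr F < κ`, then `PP ≥ 1` (`RX ≥ 0`). If
`F` is not typical, then `TF ≥ 1`. Otherwise `|nbl ∩ F| ≥ κ (1 - x) mu ≥ m1`, and `PP_step`,
`PP_root`, `TF_step`. -/
theorem pf_le {G : SimpleGraph V} {X : Finset (V × Bool)} {P : Pm} {m C : ℝ} (hp : Okp V P m C)
    (hH : Hs G X P) (hX : X.Nonempty) {s : Bool} {B : ℕ}
    (hm : (P.L : ℝ) * (B : ℝ) ^ P.L ≤ m) {m1 : ℕ}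
    (hm1 : (m1 : ℝ) ≤ P.κ * (1 - P.x) * P.mu) (n : ℕ) (rest : List Lab) (φ : Lab → V)
    (F : Finset V) (hn : F.card = n) (h : Okl B rest)
    (hx : ∀ b ∈ rest, b.tail ∉ rest → b.tail ≠ [] → pos s φ b.tail ∈ X) :
    pf G X s m1 n rest φ F ≤ PP G X P s rest φ F + TF G X P F := by
  have hV0 : (0 : ℝ) < (Fintype.card V : ℝ) := by exact_mod_cast hp.V0
  have hPP0 : ∀ (rest : List Lab) (φ : Lab → V) (F : Finset V), 0 ≤ PP G X P s rest φ F :=
    fun rest φ F => (Real.exp_pos _).le
  have hsmall : ∀ (n : ℕ) (rest : List Lab) (φ : Lab → V) (F : Finset V), fr F < P.κ →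
      pf G X s m1 n rest φ F ≤ PP G X P s rest φ F + TF G X P F := by
    intro n rest φ F hF
    have h1 : 1 ≤ PP G X P s rest φ F := by
      unfold PP
      rw [Real.one_le_exp_iff]
      have hF' : (F.card : ℝ) < P.κ * (Fintype.card V : ℝ) := by
        unfold fr at hF
        rwa [div_lt_iff₀ hV0] at hF
      have hR := RX_nonneg hp.ok hH s rest φ
      have h2 : 0 ≤ (Fintype.card V : ℝ) * (1 + P.xl) * RX G X P s rest φ :=
        mul_nonneg (mul_nonneg hV0.le (by linarith [hp.xl0])) hR
      exact mul_nonneg hp.ok.th0.le (by linarith)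
    have h2 := pf_le_one G X s m1 n rest φ F
    have h3 := TF_nonneg G X P F
    linarith
  have huntyp : ∀ (n : ℕ) (rest : List Lab) (φ : Lab → V) (F : Finset V), P.κ ≤ fr F →
      ¬ Typ G X P F (fr F) → pf G X s m1 n rest φ F ≤ PP G X P s rest φ F + TF G X P F := by
    intro n rest φ F hF hT
    have h1 := TF_one hF hT
    have h2 := pf_le_one G X s m1 n rest φ F
    have h3 := hPP0 rest φ F
    linarith
  induction n generalizing rest φ F with
  | zero =>
    refine hsmall 0 rest φ F ?_
    unfold fr
    rw [hn, Nat.cast_zero, zero_div]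
    exact hp.ok.k0
  | succ n ih =>
    rcases lt_or_ge (fr F) P.κ with hκ | hκ
    · exact hsmall _ rest φ F hκ
    by_cases hT : Typ G X P F (fr F)
    swap
    · exact huntyp _ rest φ F hκ hT
    cases rest with
    | nil =>
      rw [pf]
      exact add_nonneg (hPP0 _ _ _) (TF_nonneg G X P F)
    | cons a rest =>
      obtain ⟨hr, har, hat, hane, hann⟩ := h.cons
      have hx1 : 0 < 1 - P.x := by linarith [hp.ok.x1]
      have hpos : a.tail ≠ [] → pos s φ a.tail ∈ X := by
        intro hta
        refine hx a List.mem_cons_self ?_ hta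
        rw [List.mem_cons, not_or]
        exact ⟨hane, hat⟩
      have hcard : (m1 : ℝ) ≤ ((nbl G X s φ a ∩ F).card : ℝ) := by
        by_cases hta : a.tail = []
        · refine le_trans hm1 (le_trans ?_ (root_avail hp.ok hH hX s φ hta hT))
          have h1 : P.κ * (1 - P.x) ≤ fr F * (1 - P.x) := mul_le_mul_of_nonneg_right hκ hx1.le
          exact mul_le_mul_of_nonneg_right h1 hp.ok.mu0.le
        · have h2 := typ_card hp.ok hH hT (hpos hta)
          have h3 : nbl G X s φ a = nb G X (pos s φ a.tail) := by
            unfold nbl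
            rw [if_neg hta]
          rw [h3]
          refine le_trans hm1 (le_trans ?_ h2)
          have h1 : P.κ * (1 - P.x) ≤ fr F * (1 - P.x) := mul_le_mul_of_nonneg_right hκ hx1.le
          exact mul_le_mul h1 (hH.deg _ (hpos hta)) hp.ok.mu0.le
            (le_trans (mul_nonneg hp.ok.k0.le hx1.le) h1)
      have hnc : ¬ (nbl G X s φ a ∩ F).card < m1 := by
        rw [not_lt]
        exact_mod_cast hcard
      rw [pf, if_neg hnc]
      have hFpos : (0 : ℝ) < (F.card : ℝ) := by
        rw [hn]
        positivity
      rw [div_le_iff₀ hFpos]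
      have hstep : ∑ u ∈ nbl G X s φ a ∩ F, PP G X P s rest (Function.update φ a u) (F.erase u)
          + ∑ c ∈ F \ nbl G X s φ a, PP G X P s (a :: rest) φ (F.erase c)
          ≤ (F.card : ℝ) * PP G X P s (a :: rest) φ F := by
        by_cases hta : a.tail = []
        · exact PP_root hp hH hX h hta hm φ hT
        · exact PP_step hp hH h hta hm (hpos hta) hT
      have hposu : ∀ u ∈ nbl G X s φ a, (u, sd s (a.length - 1)) ∈ X := by
        intro u hu
        by_cases hta : a.tail = []
        · have hlen : a.length - 1 = 0 := by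
            have h1 := congrArg List.length hta
            rw [List.length_tail, List.length_nil] at h1
            exact h1
          rw [hlen, sd_zero]
          unfold nbl at hu
          rw [if_pos hta] at hu
          exact (Finset.mem_filter.mp hu).2
        · unfold nbl at hu
          rw [if_neg hta, mem_nb] at hu
          have h1 : a.length - 1 = (a.tail.length - 1) + 1 := by
            have h2 : 0 < a.tail.length := List.length_pos_iff.mpr hta
            rw [List.length_tail] at h2 ⊢
            omega
          rw [h1, sd_succ]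
          exact hu.2
      have hA : ∀ u ∈ nbl G X s φ a ∩ F,
          pf G X s m1 n rest (Function.update φ a u) (F.erase u) ≤
          PP G X P s rest (Function.update φ a u) (F.erase u) + TF G X P (F.erase u) := by
        intro u hu
        rw [Finset.mem_inter] at hu
        refine ih rest _ _ ?_ hr ?_
        · rw [Finset.card_erase_of_mem hu.2, hn]
          rfl
        · intro b hb hbt hbn
          by_cases hba : b.tail = a
          · rw [hba]
            unfold pos
            rw [Function.update_self]
            exact hposu u hu.1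
          · have h1 := hx b (List.mem_cons_of_mem _ hb) (by
              rw [List.mem_cons, not_or]
              exact ⟨hba, hbt⟩) hbn
            unfold pos at h1 ⊢
            rw [Function.update_of_ne hba]
            exact h1
      have hB : ∀ c ∈ F \ nbl G X s φ a,
          pf G X s m1 n (a :: rest) φ (F.erase c) ≤
          PP G X P s (a :: rest) φ (F.erase c) + TF G X P (F.erase c) := by
        intro c hc
        rw [Finset.mem_sdiff] at hc
        refine ih (a :: rest) _ _ ?_ h hx
        rw [Finset.card_erase_of_mem hc.1, hn]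
        rfl
      have hAs := Finset.sum_le_sum hA
      have hBs := Finset.sum_le_sum hB
      rw [Finset.sum_add_distrib] at hAs hBs
      have hTF := TF_step G X P F
      have hsplit : ∑ u ∈ nbl G X s φ a ∩ F, TF G X P (F.erase u)
          + ∑ c ∈ F \ nbl G X s φ a, TF G X P (F.erase c) = ∑ c ∈ F, TF G X P (F.erase c) := by
        rw [Finset.inter_comm]
        exact Finset.sum_inter_add_sum_sdiff F (nbl G X s φ a) _
      nlinarith [hAs, hBs, hTF, hsplit, hstep]

end Pool.Agent.Lib.MP_56e41f_co.FQ
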