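import Pool.Agent.Lib.MP_56e41f_co.Ex

/-!
# Definitions for the full question (card process)

* `blk` : one search of the card process. The cards of `F` are turned in a uniformly random order
  until the first card `u` of `N` appears; `F'` are the remaining cards.
* `pn` : failure probability of the card process of a fixed rooted tree on `0, 1, 2, ...` with
  parent function `p`; the process is killed if fewer than `m` cards of the neighbourhood are left.
* `Qv` : failure probability of the machine (with fresh bits) together with the card process.
* `Qd` : the same for a given set of successful labels.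
* `Emb2` : copies of the tree in a layered random graph.
-/

open Finset

namespace Pool.Agent.Lib.MP_56e41f_co.FQ

variable {V : Type*} [Fintype V] [DecidableEq V] {t Δ : ℕ}

/-- weight of a set of `s` dummies before the first success, `f` cards -/
noncomputable def wt (s f : ℕ) : ℝ :=
  (s.factorial : ℝ) * ((f - s - 1).factorial : ℝ) / (f.factorial : ℝ)

/-- The cards of `F` are turned in a uniformly random order until the first card `u` of `N`
appears, `S` is the set of the cards turned before; `Ψ u F'` is evaluated at the set `F'` of the
remaining cards. If `F` has no card of `N` the value is `0`. -/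
noncomputable def blk (N F : Finset V) (Ψ : V → Finset V → ℝ) : ℝ :=
  ∑ S ∈ (F \ N).powerset, wt S.card F.card * ∑ u ∈ F ∩ N, Ψ u ((F \ S).erase u)

/-- Failure probability of the card process: the vertices `0, ..., k - 1` of the tree are placed
(at `x`), `r` further vertices have to be placed, the children of `i` have to be placed in
`N i (x i)`, `F` is the set of the remaining cards. The process is killed if fewer than `m` cards
of the neighbourhood are left. -/
noncomputable def pn (N : ℕ → V → Finset V) (p : ℕ → ℕ) (m : ℕ) :
    ℕ → ℕ → (ℕ → V) → Finset V → ℝ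
  | 0, _, _, _ => 0
  | r + 1, k, x, F =>
    if m ≤ (F ∩ N (p k) (x (p k))).card then
      blk (N (p k) (x (p k))) F (fun u F' => pn N p m r (k + 1) (Function.update x k u) F')
    else 1

/-- Placing the label `i :: a` by the card process. -/
noncomputable def pl (N : Lab → V → Finset V) (m : ℕ) (a : Lab) (i : ℕ) (φ : Lab → V)
    (F : Finset V) (Θ : (Lab → V) → Finset V → ℝ) : ℝ :=
  if m ≤ (F ∩ N a (φ a)).card then
    blk (N a (φ a)) F (fun u F' => Θ (Function.update φ (i :: a) u) F')
  else 1

/-- Failure probability of the card process which places the labels of a list. -/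
noncomputable def pv (N : Lab → V → Finset V) (m : ℕ) : List Lab → (Lab → V) → Finset V → ℝ
  | [], _, _ => 0
  | [] :: _, _, _ => 1
  | (i :: a) :: l, φ, F => pl N m a i φ F (fun φ' F' => pv N m l φ' F')

/-- Failure probability of the machine with fresh bits (success probability `1 - q`) together with
the card process. The images of the root are children of the empty label. -/
noncomputable def Qv (T : TD t Δ) (B w : ℕ) (q : ℝ) (N : Lab → V → Finset V) (m : ℕ) :
    ℕ → St t → (Lab → V) → Finset V → ℝ
  | 0, s, _, _ => ind (s.nxt ≠ none)
  | n + 1, s, φ, F =>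
    match act T B w s with
    | Act.stop => ind (s.nxt ≠ none)
    | Act.root v =>
        pl N m [] s.roots φ F (fun φ' F' => Qv T B w q N m n (placeRoot s v) φ' F')
    | Act.ask v u x =>
        (1 - q) * pl N m x.lab x.asks φ F
            (fun φ' F' => Qv T B w q N m n (succSt T s v u x) φ' F')
          + q * Qv T B w q N m n (failSt s u x) φ F
    | Act.rem u => Qv T B w q N m n (remSt T s u) φ F

/-- The same for a given set `b` of successful labels. -/
noncomputable def Qd (T : TD t Δ) (B w : ℕ) (b : Finset Lab) (N : Lab → V → Finset V) (m : ℕ) :
    ℕ → St t → (Lab → V) → Finset V → ℝ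
  | 0, s, _, _ => ind (s.nxt ≠ none)
  | n + 1, s, φ, F =>
    match act T B w s with
    | Act.stop => ind (s.nxt ≠ none)
    | Act.root v =>
        pl N m [] s.roots φ F (fun φ' F' => Qd T B w b N m n (placeRoot s v) φ' F')
    | Act.ask v u x =>
        if x.asks :: x.lab ∈ b then
          pl N m x.lab x.asks φ F
            (fun φ' F' => Qd T B w b N m n (succSt T s v u x) φ' F')
        else Qd T B w b N m n (failSt s u x) φ F
    | Act.rem u => Qd T B w b N m n (remSt T s u) φ F

/-- The labels used by the run of `n` steps from `s`, in order of use. -/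
noncomputable def nl (T : TD t Δ) (B w : ℕ) (b : Finset Lab) : ℕ → St t → List Lab
  | 0, _ => []
  | n + 1, s =>
    match act T B w s with
    | Act.stop => []
    | Act.root v => [s.roots] :: nl T B w b n (placeRoot s v)
    | Act.ask v u x =>
        if x.asks :: x.lab ∈ b then (x.asks :: x.lab) :: nl T B w b n (succSt T s v u x)
        else nl T B w b n (failSt s u x)
    | Act.rem u => nl T B w b n (remSt T s u)

/-- The layered random graph `W` (pairs of an edge and a layer) contains a copy of the tree. -/
def Emb2 (T : TD t Δ) (W : Finset (Sym2 V × ℕ)) : Prop :=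
  ∃ φ : Fin t → V, Function.Injective φ ∧ ∀ i, i.val ≠ 0 → ∃ j, (s(φ (T.par i), φ i), j) ∈ W

/-- A realisation of a state of the machine: `φ` are the positions of the labels, `F` the free
vertices, `Q` the exposed pairs, `A` the present pairs. -/
structure Conc2 (s : St t) (T : TD t Δ) (φ : Lab → V) (F : Finset V)
    (Q A : Finset (Sym2 V × ℕ)) : Prop where
  inj : ∀ i x i' x', s.f i = some x → s.f i' = some x' → φ x.lab = φ x'.lab → i = i'
  notF : ∀ i x, s.f i = some x → φ x.lab ∉ F
  edge : ∀ i x y, i.val ≠ 0 → s.f i = some x → s.f (T.par i) = some y →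
    ∃ j, (s(φ y.lab, φ x.lab), j) ∈ A
  fresh : ∀ z ∈ F, ∀ z' ∈ F, ∀ j, (s(z, z'), j) ∉ Q
  layer : ∀ i x, s.f i = some x → ∀ z ∈ F, ∀ j, x.asks ≤ j → (s(φ x.lab, z), j) ∉ Q

end Pool.Agent.Lib.MP_56e41f_co.FQ
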