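import Pool.Agent.Lib.MP_56e41f_co.FQ.LA

/-!
The location law: sums over injective homomorphisms of a label tree, with one block for every
search.  `FS N sk X R Ψ` : sum over the embeddings of the label tree `R` (most recent label first,
`sk a` is the label below which `a` is placed, the root label is not in `R`; one more leaf is
attached to the root) into `X`.
-/

set_option autoImplicit false

open Finset

namespace Pool.Agent.Lib.MP_56e41f_co.FQ

set_option linter.unusedSectionVars false

variable {V : Type*} [DecidableEq V] {ι : Type*} [DecidableEq ι]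

/-- blocks for all members of a list -/
noncomputable def ks (Cs : List (Finset V)) (g : Finset V → ℝ) : Finset V → ℝ :=
  Cs.foldr (fun C h => bk C h) g

theorem ks_nil (g : Finset V → ℝ) : ks [] g = g := rfl

theorem ks_cons (C : Finset V) (Cs : List (Finset V)) (g : Finset V → ℝ) :
    ks (C :: Cs) g = bk C (ks Cs g) := rfl

theorem ks_cons' (C : Finset V) (Cs : List (Finset V)) (g : Finset V → ℝ) :
    ks (C :: Cs) g = ks Cs (bk C g) := by
  induction Cs with
  | nil => rfl
  | cons B Cs ih => rw [ks_cons, ks_cons, ks_cons, ← ih, ks_cons, bk_comm]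

theorem SH.ks {g : Finset V → ℝ} (hg : SH g) (Cs : List (Finset V)) : SH (ks Cs g) := by
  induction Cs with
  | nil => exact hg
  | cons C Cs ih => exact ih.bk C

theorem ks_take (Cs : List (Finset V)) (A : Finset V) (g : V → Finset V → ℝ) (D : Finset V) :
    ks Cs (fun F => ∑ u ∈ F ∩ A, g u (F.erase u)) D = ∑ u ∈ D ∩ A, ks Cs (g u) (D.erase u) := by
  induction Cs generalizing D with
  | nil => rfl
  | cons C Cs ih =>
    have h : ks Cs (fun F => ∑ u ∈ F ∩ A, g u (F.erase u)) =
        fun F => ∑ u ∈ F ∩ A, ks Cs (g u) (F.erase u) := funext fun F => ih F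
    rw [ks_cons, h, bk_take]
    rfl

variable (N : V → Finset V) (sk : ι → ι)

/-- place the label `a` -/
noncomputable def Eo (a : ι) (Ψ : (ι → V) → Finset V → ℝ) : (ι → V) → Finset V → ℝ :=
  fun φ F => ∑ u ∈ F ∩ N (φ (sk a)), Ψ (Function.update φ a u) (F.erase u)

/-- sum over the embeddings of the labels in `R` (most recent first) into `X` -/
noncomputable def FS (X : Finset V) : List ι → ((ι → V) → Finset V → ℝ) → ℝ
  | [], Ψ => ∑ y ∈ X, ∑ z ∈ X ∩ N y, Ψ (fun _ => y) ((X.erase z).erase y)
  | a :: R, Ψ => FS X R (Eo N sk a Ψ)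

/-- one search (a block, then the card `u`) -/
noncomputable def Po (a : ι) (Ψ : (ι → V) → Finset V → ℝ) : (ι → V) → Finset V → ℝ :=
  fun φ F => ∑ u ∈ F ∩ N (φ (sk a)), bk (N (φ (sk a))) (Ψ (Function.update φ a u)) (F.erase u)

/-- sum over the runs of the process for the labels in `R` (most recent first) -/
noncomputable def FP (X : Finset V) : List ι → ((ι → V) → Finset V → ℝ) → ℝ
  | [], Ψ => ∑ y ∈ X, ∑ z ∈ X ∩ N y, Ψ (fun _ => y) ((X.erase z).erase y)
  | a :: R, Ψ => FP X R (Po N sk a Ψ)

/-- total cost of the remaining searches, `f y F` for a search at `y` with the cards `F` -/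
noncomputable def cst (f : V → Finset V → ℝ) : List ι → (ι → V) → Finset V → ℝ
  | [] => fun _ _ => 0
  | a :: ls => fun φ F => f (φ (sk a)) F + Po N sk a (cst f ls) φ F

/-- parents first, no repetitions; `ρ` is the root label -/
def WF (ρ : ι) : List ι → Prop
  | [] => True
  | a :: R => sk a ∈ ρ :: R ∧ a ∉ ρ :: R ∧ WF ρ R

theorem WF.mem {ρ : ι} : ∀ {R : List ι}, WF sk ρ R → ∀ b ∈ R, sk b ∈ ρ :: R
  | [], _, b, hb => absurd hb (by simp)
  | a :: R, h, b, hb => by
    rcases List.mem_cons.mp hb with rfl | hb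
    · rcases List.mem_cons.mp h.1 with h1 | h1
      · rw [h1]; exact List.mem_cons_self
      · exact List.mem_cons_of_mem _ (List.mem_cons_of_mem _ h1)
    · rcases List.mem_cons.mp (WF.mem h.2.2 b hb) with h1 | h1
      · rw [h1]; exact List.mem_cons_self
      · exact List.mem_cons_of_mem _ (List.mem_cons_of_mem _ h1)

theorem FS_mono' (X : Finset V) (R : List ι) {Ψ Ψ' : (ι → V) → Finset V → ℝ}
    (h : ∀ φ F, (∀ b, φ b ∈ X) → F ⊆ X → Ψ φ F ≤ Ψ' φ F) : FS N sk X R Ψ ≤ FS N sk X R Ψ' := by
  induction R generalizing Ψ Ψ' with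
  | nil =>
    exact sum_le_sum fun y hy => sum_le_sum fun z _ => h _ _ (fun _ => hy)
      ((erase_subset _ _).trans (erase_subset _ _))
  | cons a R ih =>
    refine ih fun φ F hφ hF => sum_le_sum fun u hu => h _ _ (fun b => ?_)
      ((erase_subset _ _).trans hF)
    by_cases hb : b = a
    · subst hb
      rw [Function.update_self]
      exact hF (mem_inter.mp hu).1
    · rw [Function.update_of_ne hb]
      exact hφ b

theorem FS_mono (X : Finset V) (R : List ι) {Ψ Ψ' : (ι → V) → Finset V → ℝ}
    (h : ∀ φ F, Ψ φ F ≤ Ψ' φ F) : FS N sk X R Ψ ≤ FS N sk X R Ψ' :=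
  FS_mono' N sk X R fun φ F _ _ => h φ F

theorem FS_congr (X : Finset V) (R : List ι) {Ψ Ψ' : (ι → V) → Finset V → ℝ}
    (h : ∀ φ F, Ψ φ F = Ψ' φ F) : FS N sk X R Ψ = FS N sk X R Ψ' := by
  have : Ψ = Ψ' := funext fun φ => funext fun F => h φ F
  rw [this]

theorem FS_sum {κ : Type*} (X : Finset V) (R : List ι) (s : Finset κ)
    (Ψ : κ → (ι → V) → Finset V → ℝ) :
    FS N sk X R (fun φ F => ∑ i ∈ s, Ψ i φ F) = ∑ i ∈ s, FS N sk X R (Ψ i) := by
  induction R generalizing Ψ with
  | nil =>
    simp only [FS]
    rw [sum_comm' (t' := X) (s' := fun _ => s) (by tauto)]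
    refine sum_congr rfl fun y _ => ?_
    rw [sum_comm]
  | cons a R ih =>
    simp only [FS]
    have h : Eo N sk a (fun φ F => ∑ i ∈ s, Ψ i φ F) = fun φ F => ∑ i ∈ s, Eo N sk a (Ψ i) φ F := by
      funext φ F
      simp only [Eo]
      rw [sum_comm]
    rw [h]
    exact ih _

theorem FS_zero (X : Finset V) (R : List ι) : FS N sk X R (fun _ _ => 0) = 0 := by
  have := FS_sum N sk X R (∅ : Finset ℕ) (fun _ _ _ => 0)
  simpa using this

theorem FS_out (X : Finset V) (R : List ι) (s : ι) (y : V) (hy : y ∉ X)
    (Ψ : (ι → V) → Finset V → ℝ) : FS N sk X R (fun φ F => if φ s = y then Ψ φ F else 0) = 0 := by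
  have h1 := FS_mono' N sk X R (Ψ := fun φ F => if φ s = y then Ψ φ F else 0)
    (Ψ' := fun _ _ => 0) (fun φ F hφ _ => by
      have hne : φ s ≠ y := fun h => hy (h ▸ hφ s)
      rw [if_neg hne])
  have h2 := FS_mono' N sk X R (Ψ := fun _ _ => 0)
    (Ψ' := fun φ F => if φ s = y then Ψ φ F else 0)
    (fun φ F hφ _ => by
      have hne : φ s ≠ y := fun h => hy (h ▸ hφ s)
      rw [if_neg hne])
  rw [FS_zero] at h1 h2
  exact le_antisymm h1 h2

/-- embeddings which avoid `w` -/
theorem FS_avoid (X : Finset V) (w : V) (hw : w ∈ X) (R : List ι)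
    (Θ : (ι → V) → Finset V → ℝ) :
    FS N sk X R (fun φ F => if w ∈ F then Θ φ (F.erase w) else 0) =
      FS N sk (X.erase w) R Θ := by
  induction R generalizing Θ with
  | nil =>
    simp only [FS]
    rw [← sum_erase_add X _ hw]
    have h1 : ∑ z ∈ X ∩ N w, (if w ∈ (X.erase z).erase w then
        Θ (fun _ => w) (((X.erase z).erase w).erase w) else 0) = 0 := by
      refine sum_eq_zero fun z _ => ?_
      rw [if_neg (notMem_erase _ _)]
    rw [h1, add_zero]
    refine sum_congr rfl fun y hy => ?_
    have hyw : y ≠ w := (mem_erase.mp hy).1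
    have h2 : (X.erase w) ∩ N y ⊆ X ∩ N y := inter_subset_inter_right (erase_subset _ _)
    rw [← sum_subset h2]
    · refine sum_congr rfl fun z hz => ?_
      have hz' := mem_inter.mp hz
      rw [if_pos (mem_erase.mpr ⟨hyw.symm, mem_erase.mpr ⟨(mem_erase.mp hz'.1).1.symm, hw⟩⟩)]
      congr 1
      rw [erase_right_comm (a := y) (b := w), erase_right_comm (a := z) (b := w)]
    · intro z hz hz2
      rw [if_neg]
      intro h3
      have h4 := (mem_erase.mp (mem_erase.mp h3).2).1
      exact hz2 (mem_inter.mpr ⟨mem_erase.mpr ⟨h4.symm, (mem_inter.mp hz).1⟩, (mem_inter.mp hz).2⟩)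
  | cons a R ih =>
    simp only [FS]
    rw [← ih]
    refine FS_congr N sk X R fun φ F => ?_
    simp only [Eo]
    by_cases hwF : w ∈ F
    · rw [if_pos hwF]
      have h2 : (F.erase w) ∩ N (φ (sk a)) ⊆ F ∩ N (φ (sk a)) :=
        inter_subset_inter_right (erase_subset _ _)
      rw [← sum_subset h2]
      · refine sum_congr rfl fun u hu => ?_
        have hu' := (mem_erase.mp (mem_inter.mp hu).1).1
        rw [if_pos (mem_erase.mpr ⟨hu'.symm, hwF⟩), erase_right_comm]
      · intro u hu hu2
        rw [if_neg]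
        intro h3
        have h4 := (mem_erase.mp h3).1
        exact hu2 (mem_inter.mpr ⟨mem_erase.mpr ⟨h4.symm, (mem_inter.mp hu).1⟩, (mem_inter.mp hu).2⟩)
    · rw [if_neg hwF]
      refine sum_eq_zero fun u _ => ?_
      rw [if_neg (fun h => hwF (mem_erase.mp h).2)]

/-- updating a new label is invisible for the seekers -/
theorem map_update {ρ : ι} {R : List ι} (h : WF sk ρ R) {a : ι} (ha : a ∉ ρ :: R) (φ : ι → V)
    (u : V) : R.map (fun b => N (Function.update φ a u (sk b))) = R.map (fun b => N (φ (sk b))) := by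
  refine List.map_congr_left fun b hb => ?_
  have h1 := WF.mem sk h b hb
  rw [Function.update_of_ne]
  rintro rfl
  exact ha h1

/-- ONE ROOT: sum over the embeddings with the image `w` of `s` fixed. -/
theorem one_root (hsym : ∀ u v, u ∈ N v ↔ v ∈ N u) (hirr : ∀ v, v ∉ N v) (ρ : ι) (R : List ι) :
    ∀ (_ : WF sk ρ R) (X : Finset V) (s : ι) (_ : s ∈ ρ :: R) (w : V) (_ : w ∈ X)
      (g : Finset V → ℝ) (_ : SH g),
    FS N sk X R (fun φ F => if φ s = w then ks (R.map (fun b => N (φ (sk b)))) (bk (N w) g) F
      else 0) ≤ g (X.erase w) := by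
  induction R with
  | nil =>
    intro _ X s hs w hw g hg
    simp only [FS, List.map_nil, ks_nil]
    have h1 : ∀ y ∈ X, (∑ z ∈ X ∩ N y, if y = w then bk (N w) g ((X.erase z).erase y) else 0) =
        if y = w then ∑ z ∈ X ∩ N w, bk (N w) g ((X.erase z).erase w) else 0 := by
      intro y _
      by_cases hy : y = w
      · subst hy
        simp
      · simp [hy]
    rw [sum_congr rfl h1, sum_ite_eq' X w, if_pos hw]
    have h2 : X ∩ N w = (X.erase w) ∩ N w := by
      ext x
      simp only [mem_inter, mem_erase]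
      constructor
      · rintro ⟨h3, h4⟩
        exact ⟨⟨fun h => hirr w (h ▸ h4), h3⟩, h4⟩
      · rintro ⟨h3, h4⟩
        exact ⟨h3.2, h4⟩
    rw [h2]
    refine le_trans (le_of_eq ?_) (hg.step (N w) (X.erase w))
    exact sum_congr rfl fun z _ => by rw [erase_right_comm]
  | cons a R ih =>
    intro hWF X s hs w hw g hg
    obtain ⟨hska, haR, hWF'⟩ := hWF
    have hane : sk a ≠ a := fun h => haR (h ▸ hska)
    by_cases hsa : s = a
    · subst hsa
      simp only [FS]
      set Θ : (ι → V) → Finset V → ℝ := fun φ F => ∑ y ∈ N w, if φ (sk s) = y then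
            ks (R.map (fun b => N (φ (sk b)))) (bk (N y) (bk (N w) g)) F else 0 with hΘ
      have e1 : ∀ φ F, Eo N sk s (fun φ F => if φ s = w then
          ks ((s :: R).map (fun b => N (φ (sk b)))) (bk (N w) g) F else 0) φ F =
          (fun φ F => if w ∈ F then Θ φ (F.erase w) else 0) φ F := by
        intro φ F
        simp only [Eo, Function.update_self, hΘ]
        have h1 : ∀ u ∈ F ∩ N (φ (sk s)), (if u = w then ks ((s :: R).map
            (fun b => N (Function.update φ s u (sk b)))) (bk (N w) g) (F.erase u) else 0) =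
            if u = w then ks (R.map (fun b => N (φ (sk b)))) (bk (N (φ (sk s))) (bk (N w) g))
              (F.erase w) else 0 := by
          intro u _
          by_cases hu : u = w
          · subst hu
            rw [if_pos rfl, if_pos rfl, List.map_cons, map_update N sk hWF' haR,
              Function.update_of_ne hane, ks_cons']
          · rw [if_neg hu, if_neg hu]
        rw [sum_congr rfl h1, sum_ite_eq' (F ∩ N (φ (sk s))) w]
        by_cases hwF : w ∈ F
        · by_cases hwN : w ∈ N (φ (sk s))
          · rw [if_pos (mem_inter.mpr ⟨hwF, hwN⟩), if_pos hwF, sum_ite_eq,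
              if_pos ((hsym _ _).mp hwN)]
          · rw [if_neg (fun h => hwN (mem_inter.mp h).2), if_pos hwF, sum_ite_eq,
              if_neg (fun h => hwN ((hsym _ _).mp h))]
        · rw [if_neg (fun h => hwF (mem_inter.mp h).1), if_neg hwF]
      refine le_trans (le_of_eq (FS_congr N sk X R e1)) ?_
      refine le_trans (le_of_eq (FS_avoid N sk X w hw R Θ)) ?_
      rw [hΘ, FS_sum]
      have hsplit : ∑ y ∈ N w, FS N sk (X.erase w) R (fun φ F => if φ (sk s) = y then
            ks (R.map (fun b => N (φ (sk b)))) (bk (N y) (bk (N w) g)) F else 0) ≤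
          ∑ y ∈ (X.erase w) ∩ N w, bk (N w) g ((X.erase w).erase y) := by
        have h3 : (X.erase w) ∩ N w ⊆ N w := inter_subset_right
        rw [← sum_subset h3]
        · refine sum_le_sum fun y hy => ?_
          exact ih hWF' (X.erase w) (sk s) hska y (mem_inter.mp hy).1 (bk (N w) g) (hg.bk (N w))
        · intro y hy hy2
          have hyX : y ∉ X.erase w := fun h => hy2 (mem_inter.mpr ⟨h, hy⟩)
          exact FS_out N sk (X.erase w) R (sk s) y hyX _
      exact hsplit.trans (hg.step (N w) (X.erase w))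
    · have hs' : s ∈ ρ :: R := by
        rcases List.mem_cons.mp hs with h | h
        · rw [h]; exact List.mem_cons_self
        · rcases List.mem_cons.mp h with h | h
          · exact absurd h hsa
          · exact List.mem_cons_of_mem _ h
      refine le_trans ?_ (ih hWF' X s hs' w hw g hg)
      simp only [FS]
      refine FS_mono N sk X R fun φ F => ?_
      simp only [Eo, Function.update_of_ne hsa]
      by_cases hφ : φ s = w
      · simp only [if_pos hφ]
        refine le_trans (le_of_eq ?_) (((hg.bk (N w)).ks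
          (R.map (fun b => N (φ (sk b))))).step (N (φ (sk a))) F)
        refine sum_congr rfl fun u _ => ?_
        rw [List.map_cons, map_update N sk hWF' haR, Function.update_of_ne hane, ks_cons]
      · simp only [if_neg hφ, sum_const_zero, le_refl]

end Pool.Agent.Lib.MP_56e41f_co.FQ
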