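import Pool.Agent.Lib.MP_56e41f_co.FQ.LB

/-!
The law of a search (two roots), and the process with blocks.
-/

set_option autoImplicit false

open Finset

namespace Pool.Agent.Lib.MP_56e41f_co.FQ

set_option linter.unusedSectionVars false

variable {V : Type*} [Fintype V] [DecidableEq V] {ι : Type*} [DecidableEq ι]
variable (N : V → Finset V) (sk : ι → ι)

/-- Whatever the label tree and the place of the label `v` in it: the payoff `f (image of v)` on the
rest is at most the sum over the darts. -/
theorem two_root (hsym : ∀ u v, u ∈ N v ↔ v ∈ N u) (hirr : ∀ v, v ∉ N v) (ρ : ι)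
    (f : V → Finset V → ℝ) (hf : ∀ y, SH (f y)) (R : List ι) :
    ∀ (_ : WF sk ρ R) (v : ι) (_ : v ∈ ρ :: R),
    FS N sk univ R (fun φ F => ks (R.map (fun b => N (φ (sk b)))) (f (φ v)) F) ≤
      ∑ y, ∑ z ∈ N y, f y ((univ.erase z).erase y) := by
  induction R with
  | nil =>
    intro _ v hv
    simp only [FS, List.map_nil, ks_nil, univ_inter, le_refl]
  | cons a R ih =>
    intro hWF v hv
    obtain ⟨hska, haR, hWF'⟩ := hWF
    have hane : sk a ≠ a := fun h => haR (h ▸ hska)
    by_cases hva : v = a
    · subst hva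
      simp only [FS]
      set Θ : V → (ι → V) → Finset V → ℝ := fun u φ F => ∑ y ∈ N u, if φ (sk v) = y then
            ks (R.map (fun b => N (φ (sk b)))) (bk (N y) (f u)) F else 0 with hΘ
      have e1 : ∀ φ F, Eo N sk v (fun φ F => ks ((v :: R).map (fun b => N (φ (sk b))))
          (f (φ v)) F) φ F =
          (fun φ F => ∑ u, (fun φ F => if u ∈ F then Θ u φ (F.erase u) else 0) φ F) φ F := by
        intro φ F
        simp only [Eo, Function.update_self, hΘ]
        rw [← sum_subset (subset_univ (F ∩ N (φ (sk v))))]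
        · refine sum_congr rfl fun u hu => ?_
          have hu' := mem_inter.mp hu
          rw [if_pos hu'.1, sum_ite_eq, if_pos ((hsym _ _).mp hu'.2), List.map_cons,
            map_update N sk hWF' haR, Function.update_of_ne hane, ks_cons']
        · intro u _ hu
          by_cases huF : u ∈ F
          · have huN : u ∉ N (φ (sk v)) := fun h => hu (mem_inter.mpr ⟨huF, h⟩)
            rw [if_pos huF, sum_ite_eq, if_neg (fun h => huN ((hsym _ _).mp h))]
          · rw [if_neg huF]
      refine le_trans (le_of_eq (FS_congr N sk univ R e1)) ?_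
      rw [FS_sum]
      refine sum_le_sum fun u _ => ?_
      refine le_trans (le_of_eq (FS_avoid N sk univ u (mem_univ u) R (Θ u))) ?_
      simp only [hΘ]
      rw [FS_sum]
      refine sum_le_sum fun y hy => ?_
      have hyu : y ≠ u := fun h => hirr u (h ▸ hy)
      refine le_trans (one_root N sk hsym hirr ρ R hWF' (univ.erase u) (sk v) hska y
        (mem_erase.mpr ⟨hyu, mem_univ y⟩) (f u) (hf u)) ?_
      rw [erase_right_comm]
    · have hv' : v ∈ ρ :: R := by
        rcases List.mem_cons.mp hv with h | h
        · rw [h]; exact List.mem_cons_self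
        · rcases List.mem_cons.mp h with h | h
          · exact absurd h hva
          · exact List.mem_cons_of_mem _ h
      refine le_trans ?_ (ih hWF' v hv')
      simp only [FS]
      refine FS_mono N sk univ R fun φ F => ?_
      simp only [Eo, Function.update_of_ne hva]
      refine le_trans (le_of_eq ?_) (((hf (φ v)).ks
          (R.map (fun b => N (φ (sk b))))).step (N (φ (sk a))) F)
      refine sum_congr rfl fun u _ => ?_
      rw [List.map_cons, map_update N sk hWF' haR, Function.update_of_ne hane, ks_cons]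

theorem FP_eq (ρ : ι) (X : Finset V) (R : List ι) : ∀ (_ : WF sk ρ R)
    (Ψ : (ι → V) → Finset V → ℝ),
    FP N sk X R Ψ = FS N sk X R (fun φ F => ks (R.map (fun b => N (φ (sk b)))) (Ψ φ) F) := by
  induction R with
  | nil => intro _ Ψ; rfl
  | cons a R ih =>
    intro hWF Ψ
    obtain ⟨hska, haR, hWF'⟩ := hWF
    have hane : sk a ≠ a := fun h => haR (h ▸ hska)
    simp only [FP, FS]
    rw [ih hWF']
    refine FS_congr N sk X R fun φ F => ?_
    have h1 := ks_take (R.map (fun b => N (φ (sk b)))) (N (φ (sk a)))
      (fun u => bk (N (φ (sk a))) (Ψ (Function.update φ a u))) F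
    have h2 : Po N sk a Ψ φ = fun F => ∑ u ∈ F ∩ N (φ (sk a)),
      bk (N (φ (sk a))) (Ψ (Function.update φ a u)) (F.erase u) := rfl
    rw [h2, h1]
    simp only [Eo]
    refine sum_congr rfl fun u _ => ?_
    rw [List.map_cons, map_update N sk hWF' haR, Function.update_of_ne hane, ks_cons']

theorem FP_mono (X : Finset V) (R : List ι) {Ψ Ψ' : (ι → V) → Finset V → ℝ}
    (h : ∀ φ F, Ψ φ F ≤ Ψ' φ F) : FP N sk X R Ψ ≤ FP N sk X R Ψ' := by
  induction R generalizing Ψ Ψ' with
  | nil => exact sum_le_sum fun y _ => sum_le_sum fun z _ => h _ _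
  | cons a R ih => exact ih fun φ F => sum_le_sum fun u _ => bk_mono _ _ fun S _ => h _ _

theorem FP_add (X : Finset V) (R : List ι) (Ψ Ψ' : (ι → V) → Finset V → ℝ) :
    FP N sk X R (fun φ F => Ψ φ F + Ψ' φ F) = FP N sk X R Ψ + FP N sk X R Ψ' := by
  induction R generalizing Ψ Ψ' with
  | nil => simp only [FP, sum_add_distrib]
  | cons a R ih =>
    simp only [FP]
    rw [← ih]
    congr 1
    funext φ F
    simp only [Po, bk, mul_add, sum_add_distrib]

theorem cst_nonneg (f : V → Finset V → ℝ) (hf : ∀ y F, 0 ≤ f y F) (ls : List ι) (φ : ι → V)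
    (F : Finset V) : 0 ≤ cst N sk f ls φ F := by
  induction ls generalizing φ F with
  | nil => exact le_refl _
  | cons a ls ih =>
    exact add_nonneg (hf _ _) (sum_nonneg fun u _ => bk_nonneg _ (fun D => ih _ _) _)

/-- the total cost of all searches of a label list -/
theorem cst_le (hsym : ∀ u v, u ∈ N v ↔ v ∈ N u) (hirr : ∀ v, v ∉ N v) (ρ : ι)
    (f : V → Finset V → ℝ) (hf : ∀ y, SH (f y)) (ls : List ι) :
    ∀ (R : List ι) (_ : WF sk ρ (ls.reverse ++ R)),
    FP N sk univ R (cst N sk f ls) ≤
      ls.length * ∑ y, ∑ z ∈ N y, f y ((univ.erase z).erase y) := by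
  induction ls with
  | nil =>
    intro R _
    have h : FP N sk univ R (cst N sk f []) = 0 := by
      have h1 := FP_add N sk univ R (fun _ _ => (0 : ℝ)) (fun _ _ => 0)
      have h2 : (fun (φ : ι → V) (F : Finset V) => (0 : ℝ) + 0) = fun _ _ => 0 := by
        funext φ F; simp
      rw [h2] at h1
      have h3 : FP N sk univ R (fun _ _ => (0 : ℝ)) = 0 := by linarith
      exact h3
    rw [h]
    simp
  | cons a ls ih =>
    intro R hWF
    have hWF2 : WF sk ρ (ls.reverse ++ (a :: R)) := by
      rw [List.reverse_cons, List.append_assoc] at hWF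
      exact hWF
    have hsuf : ∀ (L : List ι) (R : List ι), WF sk ρ (L ++ R) → WF sk ρ R := by
      intro L
      induction L with
      | nil => intro R h; exact h
      | cons b L ihL => intro R h; exact ihL R h.2.2
    have hWFa : WF sk ρ (a :: R) := hsuf _ _ hWF2
    have hWFR : WF sk ρ R := hWFa.2.2
    have e1 : FP N sk univ R (cst N sk f (a :: ls)) =
        FP N sk univ R (fun φ F => f (φ (sk a)) F) + FP N sk univ (a :: R) (cst N sk f ls) :=
      FP_add N sk univ R _ _
    have e2 : FP N sk univ R (fun φ F => f (φ (sk a)) F) ≤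
        ∑ y, ∑ z ∈ N y, f y ((univ.erase z).erase y) := by
      rw [FP_eq N sk ρ univ R hWFR]
      exact two_root N sk hsym hirr ρ f hf R hWFR (sk a) hWFa.1
    have e3 := ih (a :: R) hWF2
    rw [e1, List.length_cons]
    push_cast
    linarith

end Pool.Agent.Lib.MP_56e41f_co.FQ
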