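import Pool.Agent.Lib.MP_56e41f_co.FQ.LC

/-!
Two superharmonic weights: the time of a search, and an exponential bound for the event that the
last `f₀` cards contain few members of `C`.
-/

set_option autoImplicit false

open Finset

namespace Pool.Agent.Lib.MP_56e41f_co.FQ

variable {V : Type*} [DecidableEq V]

/-- `|F|!` -/
noncomputable def ff (F : Finset V) : ℝ := (F.card.factorial : ℝ)

/-- time of a search for a member of `C` -/
noncomputable def fT (C F : Finset V) : ℝ := ((F.card + 1).factorial : ℝ) / ((F ∩ C).card + 1)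

/-- bound for: few members of `C` among the last `f₀` cards -/
noncomputable def fB (f₀ m₁ : ℕ) (C F : Finset V) : ℝ :=
  if F.card < f₀ then 0 else
    (F.card.factorial : ℝ) * 2 ^ m₁ * (1 - (f₀ : ℝ) / (2 * F.card)) ^ (F ∩ C).card

theorem card_erase_inter {C F : Finset V} {u : V} (hu : u ∈ F ∩ C) :
    ((F.erase u) ∩ C).card + 1 = (F ∩ C).card := by
  rw [erase_inter, card_erase_add_one hu]

theorem card_erase_inter' {C F : Finset V} {u : V} (hu : u ∈ F \ C) :
    ((F.erase u) ∩ C).card = (F ∩ C).card := by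
  congr 1
  rw [erase_inter]
  exact erase_eq_of_notMem (fun h => (mem_sdiff.mp hu).2 (mem_inter.mp h).2)

/-- sums over the cards of a function of the two numbers -/
theorem sum_cards (C F : Finset V) (a : ℕ → ℕ → ℝ) :
    ∑ u ∈ F, a (F.erase u).card ((F.erase u) ∩ C).card =
      (F ∩ C).card * a (F.card - 1) ((F ∩ C).card - 1) +
        ((F.card : ℝ) - (F ∩ C).card) * a (F.card - 1) (F ∩ C).card := by
  rw [← Finset.sum_inter_add_sum_sdiff F C]
  congr 1
  · rw [sum_congr rfl (g := fun _ => a (F.card - 1) ((F ∩ C).card - 1)), sum_const, nsmul_eq_mul]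
    intro u hu
    have h1 := card_erase_inter hu
    rw [card_erase_of_mem (mem_inter.mp hu).1]
    congr 1
    omega
  · rw [sum_congr rfl (g := fun _ => a (F.card - 1) (F ∩ C).card), sum_const, nsmul_eq_mul]
    · congr 1
      have h := Finset.card_inter_add_card_sdiff F C
      have h2 : ((F ∩ C).card : ℝ) + ((F \ C).card : ℝ) = F.card := by exact_mod_cast h
      linarith
    · intro u hu
      rw [card_erase_of_mem (mem_sdiff.mp hu).1, card_erase_inter' hu]

theorem SH_fT (C : Finset V) : SH (fT C) := by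
  refine ⟨fun D => by unfold fT; positivity, fun D => ?_⟩
  have h := sum_cards C D (fun M h => ((M + 1).factorial : ℝ) / (h + 1))
  have hle : (D ∩ C).card ≤ D.card := card_le_card inter_subset_left
  unfold fT
  rw [h]
  rcases Nat.eq_zero_or_pos D.card with h0 | h0
  · have h1 : (D ∩ C).card = 0 := by omega
    rw [h0, h1]
    simp
  · obtain ⟨M, hM⟩ : ∃ M, D.card = M + 1 := ⟨D.card - 1, by omega⟩
    rw [hM, Nat.add_sub_cancel, Nat.factorial_succ (M + 1)]
    have hfac : (0 : ℝ) < ((M + 1).factorial : ℝ) := by positivity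
    rcases Nat.eq_zero_or_pos (D ∩ C).card with h1 | h1
    · rw [h1]
      push_cast
      have : (0 : ℝ) ≤ M := Nat.cast_nonneg M
      norm_num
      nlinarith
    · obtain ⟨m, hm⟩ : ∃ m, (D ∩ C).card = m + 1 := ⟨(D ∩ C).card - 1, by omega⟩
      rw [hm, Nat.add_sub_cancel]
      push_cast
      apply le_of_eq
      have h2 : (m : ℝ) + 1 ≠ 0 := by positivity
      have h3 : (m : ℝ) + 1 + 1 ≠ 0 := by positivity
      field_simp
      ring

theorem bern (α x : ℝ) (hα : 0 ≤ α) (hx : 0 ≤ x) (h : ℕ) :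
    α ^ (h + 1) + (h + 1) * α ^ h * x ≤ (α + x) ^ (h + 1) := by
  induction h with
  | zero => simp
  | succ h ih =>
    have h1 : (α + x) * (α ^ (h + 1) + (h + 1) * α ^ h * x) ≤ (α + x) ^ (h + 1 + 1) := by
      rw [pow_succ (α + x) (h + 1), mul_comm ((α + x) ^ (h + 1))]
      exact mul_le_mul_of_nonneg_left ih (by linarith)
    refine le_trans ?_ h1
    have h2 : 0 ≤ (h + 1) * α ^ h * x * x := by positivity
    push_cast
    calc α ^ (h + 1 + 1) + ((h : ℝ) + 1 + 1) * α ^ (h + 1) * x
        = (α + x) * (α ^ (h + 1) + (h + 1) * α ^ h * x) - (h + 1) * α ^ h * x * x := by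
          rw [pow_succ α (h + 1), pow_succ α h]; ring
      _ ≤ _ := by linarith

theorem SH_fB (f₀ m₁ : ℕ) (C : Finset V) : SH (fB f₀ m₁ C) := by
  have hbase : ∀ M : ℕ, f₀ ≤ M → (1 : ℝ) / 2 ≤ 1 - (f₀ : ℝ) / (2 * M) := by
    intro M hM
    have hMr : (f₀ : ℝ) ≤ M := by exact_mod_cast hM
    rcases Nat.eq_zero_or_pos M with h0 | h0
    · subst h0
      norm_num
    · have h1 : (0 : ℝ) < M := by exact_mod_cast h0
      have : (f₀ : ℝ) / (2 * M) ≤ 1 / 2 := by
        rw [div_le_div_iff₀ (by positivity) (by norm_num)]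
        linarith
      linarith
  refine ⟨fun D => ?_, fun D => ?_⟩
  · unfold fB
    split_ifs with h
    · exact le_refl _
    · have := hbase D.card (not_lt.mp h)
      have h2 : (0 : ℝ) ≤ 1 - (f₀ : ℝ) / (2 * D.card) := by linarith
      positivity
  · by_cases hD : D.card < f₀ + 1
    · have h1 : ∑ u ∈ D, fB f₀ m₁ C (D.erase u) = 0 := by
        refine sum_eq_zero fun u hu => ?_
        unfold fB
        rw [if_pos]
        have := card_pos.mpr ⟨u, hu⟩
        rw [card_erase_of_mem hu]
        omega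
      rw [h1]
      unfold fB
      split_ifs with h
      · exact le_refl _
      · have := hbase D.card (not_lt.mp h)
        have h2 : (0 : ℝ) ≤ 1 - (f₀ : ℝ) / (2 * D.card) := by linarith
        positivity
    · have hDf : f₀ < D.card := by omega
      have h := sum_cards C D (fun M h => if M < f₀ then 0 else
        (M.factorial : ℝ) * 2 ^ m₁ * (1 - (f₀ : ℝ) / (2 * M)) ^ h)
      unfold fB
      rw [h, if_neg (by omega), if_neg (by omega), if_neg (by omega)]
      obtain ⟨M, hM⟩ : ∃ M, D.card = M + 1 := ⟨D.card - 1, by omega⟩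
      have hle : (D ∩ C).card ≤ D.card := card_le_card inter_subset_left
      rw [hM, Nat.add_sub_cancel]
      set α : ℝ := 1 - (f₀ : ℝ) / (2 * M) with hα
      set β : ℝ := 1 - (f₀ : ℝ) / (2 * ((M + 1 : ℕ) : ℝ)) with hβ
      have hα0 : 0 ≤ α := by
        have := hbase M (by omega)
        linarith
      have hα1 : α ≤ 1 := by
        rw [hα]
        have : (0 : ℝ) ≤ (f₀ : ℝ) / (2 * M) := by positivity
        linarith
      have hM1 : (0 : ℝ) < (M : ℝ) + 1 := by positivity
      have hαβ : β = α + (1 - α) / (M + 1) := by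
        rw [hα, hβ]
        rcases Nat.eq_zero_or_pos M with h0 | h0
        · have hf0 : f₀ = 0 := by omega
          subst h0
          rw [hf0]
          simp
        · have h1 : (0 : ℝ) < M := by exact_mod_cast h0
          push_cast
          field_simp
          ring
      rw [Nat.factorial_succ]
      push_cast
      have hkey : ∀ h : ℕ, (h : ℝ) * α ^ (h - 1) + ((M : ℝ) + 1 - h) * α ^ h ≤
          ((M : ℝ) + 1) * β ^ h := by
        intro h
        rcases Nat.eq_zero_or_pos h with h0 | h0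
        · subst h0
          simp
        · obtain ⟨k, rfl⟩ : ∃ k, h = k + 1 := ⟨h - 1, by omega⟩
          have hb := bern α ((1 - α) / (M + 1)) hα0 (by
            have : 0 ≤ 1 - α := by linarith
            positivity) k
          rw [hαβ]
          have h2 := mul_le_mul_of_nonneg_left hb hM1.le
          refine le_trans (le_of_eq ?_) h2
          rw [Nat.add_sub_cancel, pow_succ]
          push_cast
          field_simp
          ring
      have h3 := hkey (D ∩ C).card
      have h4 : (0 : ℝ) ≤ (M.factorial : ℝ) * 2 ^ m₁ := by positivity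
      have h5 := mul_le_mul_of_nonneg_left h3 h4
      calc _ = (M.factorial : ℝ) * 2 ^ m₁ * (((D ∩ C).card : ℝ) * α ^ ((D ∩ C).card - 1) +
            ((M : ℝ) + 1 - (D ∩ C).card) * α ^ (D ∩ C).card) := by ring
        _ ≤ _ := h5
        _ = _ := by ring

theorem fB_ge (f₀ m₁ : ℕ) (C F : Finset V) (h1 : f₀ ≤ F.card) (h2 : (F ∩ C).card < m₁) :
    ff F ≤ fB f₀ m₁ C F := by
  unfold fB ff
  rw [if_neg (by omega)]
  have hb : (1 : ℝ) / 2 ≤ 1 - (f₀ : ℝ) / (2 * F.card) := by
    have hMr : (f₀ : ℝ) ≤ F.card := by exact_mod_cast h1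
    rcases Nat.eq_zero_or_pos F.card with h0 | h0
    · rw [h0]
      norm_num
    · have h3 : (0 : ℝ) < F.card := by exact_mod_cast h0
      have : (f₀ : ℝ) / (2 * F.card) ≤ 1 / 2 := by
        rw [div_le_div_iff₀ (by positivity) (by norm_num)]
        linarith
      linarith
  have h3 : ((1 : ℝ) / 2) ^ m₁ ≤ (1 - (f₀ : ℝ) / (2 * F.card)) ^ (F ∩ C).card := by
    calc ((1 : ℝ) / 2) ^ m₁ ≤ (1 / 2) ^ (F ∩ C).card :=
          pow_le_pow_of_le_one (by norm_num) (by norm_num) h2.le
      _ ≤ _ := pow_le_pow_left₀ (by norm_num) hb _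
  have h4 : (1 : ℝ) ≤ 2 ^ m₁ * (1 - (f₀ : ℝ) / (2 * F.card)) ^ (F ∩ C).card := by
    calc (1 : ℝ) = 2 ^ m₁ * (1 / 2) ^ m₁ := by rw [← mul_pow]; norm_num
      _ ≤ _ := mul_le_mul_of_nonneg_left h3 (by positivity)
  have h5 : (0 : ℝ) ≤ (F.card.factorial : ℝ) := by positivity
  nlinarith

end Pool.Agent.Lib.MP_56e41f_co.FQ
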