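import Pool.Agent.Lib.MP_56e41f_co.FQ.LE

/-!
The potential: the killed process of one label tree succeeds with positive probability.
-/

set_option autoImplicit false

open Finset

namespace Pool.Agent.Lib.MP_56e41f_co.FQ

set_option linter.unusedSectionVars false

variable {V : Type*} [DecidableEq V]

theorem take_rec (C : Finset V) (g : Finset V → ℝ) (D : Finset V) :
    ∑ u ∈ D ∩ C, bk C g (D.erase u) = ∑ u ∈ D ∩ C, g (D.erase u)
        + ∑ w ∈ D \ C, ∑ u ∈ (D.erase w) ∩ C, bk C g ((D.erase w).erase u) := by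
  have e1 : ∑ u ∈ D ∩ C, bk C g (D.erase u) = ∑ u ∈ D ∩ C, g (D.erase u)
      + ∑ u ∈ D ∩ C, ∑ w ∈ (D.erase u) \ C, bk C g ((D.erase u).erase w) := by
    rw [← Finset.sum_add_distrib]
    exact Finset.sum_congr rfl (fun u _ => bk_rec C g (D.erase u))
  rw [e1]
  congr 1
  rw [Finset.sum_comm' (t' := D \ C) (s' := fun w => (D.erase w) ∩ C)]
  · refine Finset.sum_congr rfl (fun w _ => Finset.sum_congr rfl (fun u _ => ?_))
    rw [Finset.erase_right_comm]
  · intro u w
    simp only [Finset.mem_sdiff, Finset.mem_inter, Finset.mem_erase, ne_eq]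
    constructor
    · rintro ⟨⟨h1, h2⟩, ⟨h3, h4⟩, h5⟩
      exact ⟨⟨⟨fun h => h3 h.symm, h1⟩, h2⟩, h4, h5⟩
    · rintro ⟨⟨⟨h1, h2⟩, h3⟩, h4, h5⟩
      exact ⟨⟨h2, h3⟩, ⟨fun h => h1 h.symm, h4⟩, h5⟩

/-- mass of a search -/
theorem take_ff (C : Finset V) (D : Finset V) (h : 0 < (D ∩ C).card) :
    ∑ u ∈ D ∩ C, bk C ff (D.erase u) = ff D := by
  induction D using Finset.strongInduction with
  | H D ih =>
    have hD : 0 < D.card := lt_of_lt_of_le h (card_le_card inter_subset_left)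
    obtain ⟨M, hM⟩ : ∃ M, D.card = M + 1 := ⟨D.card - 1, by omega⟩
    rw [take_rec]
    have h1 : ∀ u ∈ D ∩ C, ff (D.erase u) = (M.factorial : ℝ) := by
      intro u hu
      unfold ff
      rw [card_erase_of_mem (mem_inter.mp hu).1, hM, Nat.add_sub_cancel]
    have h2 : ∀ w ∈ D \ C, ∑ u ∈ (D.erase w) ∩ C, bk C ff ((D.erase w).erase u) =
        (M.factorial : ℝ) := by
      intro w hw
      rw [ih _ (erase_ssubset (mem_sdiff.mp hw).1) (by rw [card_erase_inter' hw]; exact h)]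
      unfold ff
      rw [card_erase_of_mem (mem_sdiff.mp hw).1, hM, Nat.add_sub_cancel]
    rw [sum_congr rfl h1, sum_congr rfl h2, sum_const, sum_const, nsmul_eq_mul, nsmul_eq_mul,
      ← add_mul]
    have h3 := Finset.card_inter_add_card_sdiff D C
    have h4 : ((D ∩ C).card : ℝ) + ((D \ C).card : ℝ) = (M : ℝ) + 1 := by
      rw [hM] at h3
      exact_mod_cast h3
    rw [h4]
    unfold ff
    rw [hM, Nat.factorial_succ]
    push_cast
    ring

/-- `(|F| + 1)!` -/
noncomputable def ff1 (F : Finset V) : ℝ := ((F.card + 1).factorial : ℝ)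

/-- time of a search -/
theorem take_ff1 (C : Finset V) (D : Finset V) :
    ∑ u ∈ D ∩ C, bk C ff1 (D.erase u) = ff1 D - fT C D := by
  have key : ∀ D : Finset V, ∑ u ∈ D ∩ C, bk C ff1 (D.erase u) =
      ((D.card + 1).factorial : ℝ) * (D ∩ C).card / ((D ∩ C).card + 1) := by
    intro D
    induction D using Finset.strongInduction with
    | H D ih =>
      rcases Nat.eq_zero_or_pos D.card with hD | hD
      · rw [card_eq_zero.mp hD]
        simp
      obtain ⟨M, hM⟩ : ∃ M, D.card = M + 1 := ⟨D.card - 1, by omega⟩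
      rw [take_rec]
      have h1 : ∀ u ∈ D ∩ C, ff1 (D.erase u) = ((M + 1).factorial : ℝ) := by
        intro u hu
        unfold ff1
        rw [card_erase_of_mem (mem_inter.mp hu).1, hM, Nat.add_sub_cancel]
      have h2 : ∀ w ∈ D \ C, ∑ u ∈ (D.erase w) ∩ C, bk C ff1 ((D.erase w).erase u) =
          ((M + 1).factorial : ℝ) * (D ∩ C).card / ((D ∩ C).card + 1) := by
        intro w hw
        rw [ih _ (erase_ssubset (mem_sdiff.mp hw).1), card_erase_inter' hw,
          card_erase_of_mem (mem_sdiff.mp hw).1, hM, Nat.add_sub_cancel]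
      rw [sum_congr rfl h1, sum_congr rfl h2, sum_const, sum_const, nsmul_eq_mul, nsmul_eq_mul]
      have h3 := Finset.card_inter_add_card_sdiff D C
      have h4 : ((D \ C).card : ℝ) = (M : ℝ) + 1 - ((D ∩ C).card : ℝ) := by
        rw [hM] at h3
        have : ((D ∩ C).card : ℝ) + ((D \ C).card : ℝ) = (M : ℝ) + 1 := by exact_mod_cast h3
        linarith
      rw [h4, hM, Nat.factorial_succ (M + 1)]
      have h5 : ((D ∩ C).card : ℝ) + 1 ≠ 0 := by positivity
      push_cast
      field_simp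
      ring
  rw [key D]
  unfold ff1 fT
  have h5 : ((D ∩ C).card : ℝ) + 1 ≠ 0 := by positivity
  field_simp
  ring

theorem bk_lin (C : Finset V) (g h : Finset V → ℝ) (a b : ℝ) (D : Finset V) :
    bk C (fun F => a * g F + b * h F) D = a * bk C g D + b * bk C h D := by
  unfold bk
  rw [mul_sum, mul_sum, ← sum_add_distrib]
  exact sum_congr rfl fun S _ => by ring

variable {ι : Type*} [DecidableEq ι] (N : V → Finset V) (sk : ι → ι)

/-- unnormalised success of the killed process -/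
noncomputable def Sv (m₁ : ℕ) : List ι → (ι → V) → Finset V → ℝ
  | [] => fun _ F => ff F
  | a :: ls => fun φ F => if (F ∩ N (φ (sk a))).card < m₁ then 0 else Po N sk a (Sv m₁ ls) φ F

/-- the cost of one search -/
noncomputable def fC (f₀ m₁ : ℕ) (M₀ : ℝ) (y : V) (F : Finset V) : ℝ :=
  fT (N y) F + M₀ * fB f₀ m₁ (N y) F

theorem SH_fC (f₀ m₁ : ℕ) (M₀ : ℝ) (hM : 0 ≤ M₀) (y : V) : SH (fC N f₀ m₁ M₀ y) := by
  have h1 := SH_fT (N y)
  have h2 := SH_fB f₀ m₁ (N y)
  refine ⟨fun D => add_nonneg (h1.1 D) (mul_nonneg hM (h2.1 D)), fun D => ?_⟩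
  unfold fC
  rw [sum_add_distrib, ← mul_sum]
  exact add_le_add (h1.2 D) (mul_le_mul_of_nonneg_left (h2.2 D) hM)

/-- the potential inequality -/
theorem pot [Fintype V] (f₀ m₁ : ℕ) (hm : 1 ≤ m₁) (M₀ : ℝ) (ls : List ι) (φ : ι → V) (F : Finset V)
    (hF : (F.card : ℝ) + 1 ≤ M₀) :
    ff F * ((F.card : ℝ) + 1 - f₀) ≤ M₀ * Sv N sk m₁ ls φ F + cst N sk (fC N f₀ m₁ M₀) ls φ F := by
  have hM₀ : 0 ≤ M₀ := by
    have : (0 : ℝ) ≤ F.card := Nat.cast_nonneg _
    linarith
  have hff : ∀ F : Finset V, 0 ≤ ff F := fun F => by unfold ff; positivity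
  have hfC : ∀ y F, 0 ≤ fC N f₀ m₁ M₀ y F := fun y F => (SH_fC N f₀ m₁ M₀ hM₀ y).1 F
  induction ls generalizing φ F with
  | nil =>
    simp only [Sv, cst]
    have h1 := hff F
    have h2 : (0 : ℝ) ≤ f₀ := Nat.cast_nonneg _
    nlinarith
  | cons a ls ih =>
    simp only [Sv, cst]
    set C := N (φ (sk a)) with hC
    have hcst : 0 ≤ Po N sk a (cst N sk (fC N f₀ m₁ M₀) ls) φ F :=
      sum_nonneg fun u _ => bk_nonneg _ (fun D => cst_nonneg N sk _ hfC ls _ _) _
    by_cases hty : (F ∩ C).card < m₁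
    · rw [if_pos hty]
      have h1 : ff F * ((F.card : ℝ) + 1 - f₀) ≤ M₀ * fB f₀ m₁ C F := by
        by_cases hf : F.card < f₀
        · have h2 : (F.card : ℝ) + 1 ≤ f₀ := by exact_mod_cast hf
          have h3 : ff F * ((F.card : ℝ) + 1 - f₀) ≤ 0 :=
            mul_nonpos_of_nonneg_of_nonpos (hff F) (by linarith)
          have h4 := (SH_fB f₀ m₁ C).1 F
          have h5 : 0 ≤ M₀ * fB f₀ m₁ C F := mul_nonneg hM₀ h4
          linarith
        · have h2 := fB_ge f₀ m₁ C F (not_lt.mp hf) hty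
          have h3 : (0 : ℝ) ≤ f₀ := Nat.cast_nonneg _
          calc ff F * ((F.card : ℝ) + 1 - f₀) ≤ ff F * M₀ :=
                mul_le_mul_of_nonneg_left (by linarith) (hff F)
            _ = M₀ * ff F := mul_comm _ _
            _ ≤ _ := mul_le_mul_of_nonneg_left h2 hM₀
      have h2 := (SH_fT C).1 F
      have h3 : fC N f₀ m₁ M₀ (φ (sk a)) F = fT C F + M₀ * fB f₀ m₁ C F := rfl
      rw [mul_zero, h3]
      linarith
    · rw [if_neg hty]
      have hpos : 0 < (F ∩ C).card := by omega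
      have e1 : ∑ u ∈ F ∩ C, bk C (fun F => ff F * ((F.card : ℝ) + 1 - f₀)) (F.erase u) =
          ff F * ((F.card : ℝ) + 1 - f₀) - fT C F := by
        have h1 : (fun F : Finset V => ff F * ((F.card : ℝ) + 1 - f₀)) =
            fun F => 1 * ff1 F + (-(f₀ : ℝ)) * ff F := by
          funext F
          unfold ff1 ff
          rw [Nat.factorial_succ]
          push_cast
          ring
        rw [h1, sum_congr rfl (fun u _ => bk_lin C ff1 ff 1 (-(f₀ : ℝ)) (F.erase u)),
          sum_add_distrib, ← mul_sum, ← mul_sum, take_ff1, take_ff C F hpos]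
        have h2 : ff F * ((F.card : ℝ) + 1 - f₀) = 1 * ff1 F + (-(f₀ : ℝ)) * ff F :=
          congrFun h1 F
        rw [h2]
        ring
      have e2 : ∑ u ∈ F ∩ C, bk C (fun F => ff F * ((F.card : ℝ) + 1 - f₀)) (F.erase u) ≤
          ∑ u ∈ F ∩ C, bk C (fun F' => M₀ * Sv N sk m₁ ls (Function.update φ a u) F' +
            1 * cst N sk (fC N f₀ m₁ M₀) ls (Function.update φ a u) F') (F.erase u) := by
        refine sum_le_sum fun u _ => bk_mono C _ fun S hS => ?_
        rw [one_mul]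
        refine ih _ S ?_
        have h3 : S.card ≤ F.card := card_le_card (hS.trans (erase_subset _ _))
        have h4 : (S.card : ℝ) ≤ F.card := by exact_mod_cast h3
        linarith
      rw [sum_congr rfl (fun u _ => bk_lin C _ _ M₀ 1 (F.erase u)), sum_add_distrib, ← mul_sum,
        ← mul_sum, one_mul] at e2
      have h5 : 0 ≤ M₀ * fB f₀ m₁ C F := mul_nonneg hM₀ ((SH_fB f₀ m₁ C).1 F)
      have h6 : fC N f₀ m₁ M₀ (φ (sk a)) F = fT C F + M₀ * fB f₀ m₁ C F := rfl
      have h7 : Po N sk a (Sv N sk m₁ ls) φ F =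
        ∑ u ∈ F ∩ C, bk C (Sv N sk m₁ ls (Function.update φ a u)) (F.erase u) := rfl
      have h8 : Po N sk a (cst N sk (fC N f₀ m₁ M₀) ls) φ F =
        ∑ u ∈ F ∩ C, bk C (cst N sk (fC N f₀ m₁ M₀) ls (Function.update φ a u)) (F.erase u) := rfl
      rw [h6, h7, h8]
      linarith

end Pool.Agent.Lib.MP_56e41f_co.FQ
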