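import Pool.Agent.Lib.MP_56e41f_co.FQ.LF

/-!
One label tree: averaged over the darts of the host, the card process fails with probability at
most `f₀ / (n - 1) + k / (average degree) + small`.
-/

set_option autoImplicit false

open Finset

namespace Pool.Agent.Lib.MP_56e41f_co.FQ

set_option linter.unusedSectionVars false

variable {V : Type*} [Fintype V] [DecidableEq V] {ι : Type*} [DecidableEq ι]

theorem law_one (N : V → Finset V) (sk : ι → ι) (hsym : ∀ u v, u ∈ N v ↔ v ∈ N u)
    (hirr : ∀ v, v ∉ N v) (ρ : ι) (ls : List ι) (hWF : WF sk ρ ls.reverse) (f₀ m₁ μ : ℕ)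
    (hm : 1 ≤ m₁) (hN : ∀ y, (N y).Nonempty → μ ≤ (N y).card)
    (hn : 3 ≤ Fintype.card V) (Pf : V → V → ℝ)
    (hPf : ∀ y, ∀ z ∈ N y, Sv N sk m₁ ls (fun _ => y) ((univ.erase z).erase y) =
      ff ((univ.erase z).erase y) * (1 - Pf y z)) :
    ∑ y, ∑ z ∈ N y, Pf y z ≤
      (∑ y, ((N y).card : ℝ)) * (f₀ / ((Fintype.card V : ℝ) - 1)) +
      ls.length * ((univ.filter (fun y => (N y).Nonempty)).card : ℝ) +
      ls.length * (∑ y, ((N y).card : ℝ)) *
        (2 ^ m₁ * Real.exp (-((f₀ : ℝ) * (μ - 1) / (2 * ((Fintype.card V : ℝ) - 2))))) := by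
  obtain ⟨n, hn'⟩ : ∃ n, Fintype.card V = n + 3 := ⟨Fintype.card V - 3, by omega⟩
  set δ : ℝ := 2 ^ m₁ * Real.exp (-((f₀ : ℝ) * (μ - 1) / (2 * ((Fintype.card V : ℝ) - 2)))) with hδ
  set D : ℝ := ∑ y, ((N y).card : ℝ) with hD
  set n' : ℝ := ((univ.filter (fun y => (N y).Nonempty)).card : ℝ) with hn''
  set M₀ : ℝ := (Fintype.card V : ℝ) - 1 with hM₀
  have hM₀' : M₀ = (n : ℝ) + 2 := by rw [hM₀, hn']; push_cast; ring
  have hcard : ∀ y, ∀ z ∈ N y, ((univ.erase z).erase y : Finset V).card = n + 1 := by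
    intro y z hz
    have hzy : z ≠ y := fun h => hirr y (h ▸ hz)
    rw [card_erase_of_mem (mem_erase.mpr ⟨hzy.symm, mem_univ _⟩), card_erase_of_mem (mem_univ _),
      card_univ, hn']
    rfl
  have hint : ∀ y, ∀ z ∈ N y, ((univ.erase z).erase y ∩ N y).card + 1 = (N y).card := by
    intro y z hz
    have h1 : (univ.erase z).erase y ∩ N y = (N y).erase z := by
      ext x
      simp only [mem_inter, mem_erase, mem_univ, and_true]
      constructor
      · rintro ⟨⟨h1, h2⟩, h3⟩
        exact ⟨h2, h3⟩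
      · rintro ⟨h1, h2⟩
        exact ⟨⟨fun h => hirr y (h ▸ h2), h1⟩, h2⟩
    rw [h1, card_erase_add_one hz]
  -- sum of the potential inequalities
  have hfacpos : (0 : ℝ) < ((n + 1).factorial : ℝ) := by positivity
  have hfac : ((n + 2).factorial : ℝ) = ((n : ℝ) + 2) * ((n + 1).factorial : ℝ) := by
    rw [Nat.factorial_succ (n + 1)]
    push_cast
    ring
  have hpot : ∀ y, ∀ z ∈ N y, ((n + 1).factorial : ℝ) * ((n : ℝ) + 2 - f₀) ≤
      M₀ * (((n + 1).factorial : ℝ) * (1 - Pf y z)) +
      cst N sk (fC N f₀ m₁ M₀) ls (fun _ => y) ((univ.erase z).erase y) := by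
    intro y z hz
    have h1 := hcard y z hz
    have h2 := pot N sk f₀ m₁ hm M₀ ls (fun _ => y) ((univ.erase z).erase y) (by
      rw [h1, hM₀']
      push_cast
      linarith)
    rw [hPf y z hz] at h2
    have h3 : ff ((univ.erase z).erase y : Finset V) = ((n + 1).factorial : ℝ) := by
      unfold ff
      rw [h1]
    rw [h3, h1] at h2
    push_cast at h2
    have h5 : (n : ℝ) + 1 + 1 - f₀ = (n : ℝ) + 2 - f₀ := by ring
    rw [h5] at h2
    exact h2
  have hM₀0 : 0 ≤ M₀ := by rw [hM₀']; positivity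
  have hcost := cst_le N sk hsym hirr ρ (fC N f₀ m₁ M₀) (SH_fC N f₀ m₁ M₀ hM₀0) ls []
    (by rw [List.append_nil]; exact hWF)
  have hFP : FP N sk univ [] (cst N sk (fC N f₀ m₁ M₀) ls) =
      ∑ y, ∑ z ∈ N y, cst N sk (fC N f₀ m₁ M₀) ls (fun _ => y) ((univ.erase z).erase y) := by
    simp only [FP, univ_inter]
  rw [hFP] at hcost
  -- the cost of one search
  have hone : ∑ y, ∑ z ∈ N y, fC N f₀ m₁ M₀ y ((univ.erase z).erase y) ≤
      ((n + 2).factorial : ℝ) * (n' + D * δ) := by
    have h1 : ∀ y, ∑ z ∈ N y, fC N f₀ m₁ M₀ y ((univ.erase z).erase y) ≤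
        ((n + 2).factorial : ℝ) * ((if (N y).Nonempty then 1 else 0) + (N y).card * δ) := by
      intro y
      have h2 : ∀ z ∈ N y, fC N f₀ m₁ M₀ y ((univ.erase z).erase y) ≤
          ((n + 2).factorial : ℝ) / (N y).card + ((n + 2).factorial : ℝ) * δ := by
        intro z hz
        have h3 := hcard y z hz
        have h4 := hint y z hz
        have h5 : ((((univ.erase z).erase y ∩ N y).card : ℝ)) = (N y).card - 1 := by
          have : ((((univ.erase z).erase y ∩ N y).card : ℝ)) + 1 = (N y).card := by exact_mod_cast h4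
          linarith
        have h6 : fT (N y) ((univ.erase z).erase y) = ((n + 2).factorial : ℝ) / (N y).card := by
          unfold fT
          rw [h3, h5]
          congr 1
          ring
        have h7 : fB f₀ m₁ (N y) ((univ.erase z).erase y) ≤ ((n + 1).factorial : ℝ) * δ := by
          unfold fB
          split_ifs with h8
          · positivity
          · rw [h3, mul_assoc]
            refine mul_le_mul_of_nonneg_left ?_ hfacpos.le
            rw [hδ]
            refine mul_le_mul_of_nonneg_left ?_ (by positivity)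
            have h8' : f₀ ≤ n + 1 := by omega
            have h9 : (f₀ : ℝ) ≤ (n : ℝ) + 1 := by exact_mod_cast h8'
            have hn1 : (0 : ℝ) < (n : ℝ) + 1 := by positivity
            have h10 : (0 : ℝ) ≤ 1 - (f₀ : ℝ) / (2 * ((n + 1 : ℕ) : ℝ)) := by
              push_cast
              have : (f₀ : ℝ) / (2 * ((n : ℝ) + 1)) ≤ 1 := by
                rw [div_le_one (by positivity)]
                linarith
              linarith
            have h11 : 1 - (f₀ : ℝ) / (2 * ((n + 1 : ℕ) : ℝ)) ≤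
                Real.exp (-((f₀ : ℝ) / (2 * ((n + 1 : ℕ) : ℝ)))) := Real.one_sub_le_exp_neg _
            have h12 : (μ : ℝ) - 1 ≤ (((univ.erase z).erase y ∩ N y).card : ℝ) := by
              rw [h5]
              have h13 : (μ : ℝ) ≤ (N y).card := by exact_mod_cast hN y ⟨z, hz⟩
              linarith
            calc (1 - (f₀ : ℝ) / (2 * ((n + 1 : ℕ) : ℝ))) ^ ((univ.erase z).erase y ∩ N y).card
                ≤ (Real.exp (-((f₀ : ℝ) / (2 * ((n + 1 : ℕ) : ℝ))))) ^
                  ((univ.erase z).erase y ∩ N y).card := pow_le_pow_left₀ h10 h11 _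
              _ = Real.exp (-((f₀ : ℝ) / (2 * ((n + 1 : ℕ) : ℝ)) *
                  (((univ.erase z).erase y ∩ N y).card : ℝ))) := by
                rw [← Real.exp_nat_mul]
                congr 1
                ring
              _ ≤ _ := by
                apply Real.exp_le_exp.mpr
                rw [neg_le_neg_iff]
                have e1 : (Fintype.card V : ℝ) - 2 = ((n + 1 : ℕ) : ℝ) := by
                  rw [hn']
                  push_cast
                  ring
                rw [e1]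
                have e2 : (f₀ : ℝ) * ((μ : ℝ) - 1) / (2 * ((n + 1 : ℕ) : ℝ)) =
                    (f₀ : ℝ) / (2 * ((n + 1 : ℕ) : ℝ)) * ((μ : ℝ) - 1) := by ring
                rw [e2]
                exact mul_le_mul_of_nonneg_left h12 (by positivity)
        have h14 : fC N f₀ m₁ M₀ y ((univ.erase z).erase y) =
            fT (N y) ((univ.erase z).erase y) + M₀ * fB f₀ m₁ (N y) ((univ.erase z).erase y) := rfl
        rw [h14, h6]
        have h15 := mul_le_mul_of_nonneg_left h7 hM₀0
        rw [hfac, hM₀']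
        rw [hM₀'] at h15
        linarith
      refine (sum_le_sum h2).trans ?_
      rw [sum_const, nsmul_eq_mul]
      by_cases hne : (N y).Nonempty
      · rw [if_pos hne]
        have h3 : ((N y).card : ℝ) ≠ 0 := by
          have := card_pos.mpr hne
          positivity
        apply le_of_eq
        field_simp
      · rw [if_neg hne, not_nonempty_iff_eq_empty.mp hne]
        simp
    refine (sum_le_sum fun y _ => h1 y).trans (le_of_eq ?_)
    rw [← mul_sum, sum_add_distrib, ← sum_mul, sum_boole]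
  have hsum : ∑ y, ∑ z ∈ N y, (((n + 1).factorial : ℝ) * ((n : ℝ) + 2 - f₀)) ≤
      ∑ y, ∑ z ∈ N y, (M₀ * (((n + 1).factorial : ℝ) *
        (1 - Pf y z)) +
      cst N sk (fC N f₀ m₁ M₀) ls (fun _ => y) ((univ.erase z).erase y)) :=
    sum_le_sum fun y _ => sum_le_sum fun z hz => hpot y z hz
  have hc : ∀ c : ℝ, ∑ y, ∑ _z ∈ N y, c = D * c := by
    intro c
    rw [hD, sum_mul]
    exact sum_congr rfl fun y _ => by rw [sum_const, nsmul_eq_mul]
  rw [hc] at hsum
  set P : ℝ := ∑ y, ∑ z ∈ N y, Pf y z with hP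
  have hR : ∑ y, ∑ z ∈ N y, (M₀ * (((n + 1).factorial : ℝ) *
        (1 - Pf y z)) +
      cst N sk (fC N f₀ m₁ M₀) ls (fun _ => y) ((univ.erase z).erase y)) =
      M₀ * ((n + 1).factorial : ℝ) * (D - P) +
      ∑ y, ∑ z ∈ N y, cst N sk (fC N f₀ m₁ M₀) ls (fun _ => y) ((univ.erase z).erase y) := by
    have h1 : D = ∑ y, ∑ _z ∈ N y, (1 : ℝ) := by rw [hc, mul_one]
    rw [hP, h1, ← sum_sub_distrib, mul_sum, ← sum_add_distrib]
    refine sum_congr rfl fun y _ => ?_
    rw [← sum_sub_distrib, mul_sum, ← sum_add_distrib]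
    exact sum_congr rfl fun z _ => by ring
  rw [hR] at hsum
  have hk : (0 : ℝ) ≤ ls.length := Nat.cast_nonneg _
  have hcost2 := hcost.trans (mul_le_mul_of_nonneg_left hone hk)
  rw [hfac] at hcost2
  -- divide
  have hM₀p : 0 < M₀ := by rw [hM₀']; positivity
  have h1 : D * (((n + 1).factorial : ℝ) * ((n : ℝ) + 2 - f₀)) ≤
      M₀ * ((n + 1).factorial : ℝ) * (D - P) +
        ls.length * (((n : ℝ) + 2) * ((n + 1).factorial : ℝ) * (n' + D * δ)) := by linarith
  have h2 : ((n + 1).factorial : ℝ) * (D * ((n : ℝ) + 2 - f₀)) ≤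
      ((n + 1).factorial : ℝ) * (M₀ * ((D - P) + ls.length * (n' + D * δ))) := by
    rw [hM₀'] at h1 ⊢
    linarith
  have h3 := le_of_mul_le_mul_left h2 hfacpos
  have h4 : P ≤ D * (f₀ / M₀) + ls.length * n' + ls.length * D * δ := by
    have h5 : M₀ * P ≤ M₀ * (D * (f₀ / M₀) + ls.length * n' + ls.length * D * δ) := by
      have h6 : M₀ * (D * (f₀ / M₀) + ls.length * n' + ls.length * D * δ) =
          D * f₀ + M₀ * (ls.length * (n' + D * δ)) := by
        field_simp
        ring
      rw [h6]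
      rw [hM₀'] at h3 ⊢
      linarith
    exact le_of_mul_le_mul_left h5 hM₀p
  exact h4

end Pool.Agent.Lib.MP_56e41f_co.FQ
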