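import Pool.Agent.Lib.MP_56e41f_co.FQ.LH
import Pool.Agent.Lib.MP_56e41f_co.FQ.Defs

/-!
The law for `pn`.
-/

set_option autoImplicit false

open Finset

namespace Pool.Agent.Lib.MP_56e41f_co.FQ

set_option linter.unusedSectionVars false

variable {V : Type*} [Fintype V] [DecidableEq V]

theorem ff_blk (C F : Finset V) (Θ : V → Finset V → ℝ) :
    ff F * blk C F Θ = ∑ u ∈ F ∩ C, bk C (fun F' => ff F' * Θ u F') (F.erase u) := by
  unfold blk bk
  have h1 : ∀ u ∈ F ∩ C, (F.erase u) \ C = F \ C := by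
    intro u hu
    ext x
    simp only [mem_sdiff, mem_erase]
    constructor
    · rintro ⟨⟨h1, h2⟩, h3⟩
      exact ⟨h2, h3⟩
    · rintro ⟨h1, h2⟩
      exact ⟨⟨fun h => h2 (h ▸ (mem_inter.mp hu).2), h1⟩, h2⟩
  rw [sum_congr rfl (g := fun u => ∑ S ∈ (F \ C).powerset, (S.card.factorial : ℝ) *
    (ff ((F \ S).erase u) * Θ u ((F \ S).erase u)))]
  · rw [sum_comm, mul_sum]
    refine sum_congr rfl fun S hS => ?_
    rw [mul_sum, mul_sum]
    refine sum_congr rfl fun u hu => ?_
    have hSF : S ⊆ F := (mem_powerset.mp hS).trans sdiff_subset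
    have huS : u ∉ S := fun h => (mem_sdiff.mp ((mem_powerset.mp hS) h)).2 (mem_inter.mp hu).2
    have hc : ((F \ S).erase u).card = F.card - S.card - 1 := by
      rw [card_erase_of_mem (mem_sdiff.mpr ⟨(mem_inter.mp hu).1, huS⟩), card_sdiff_of_subset hSF]
    unfold ff wt
    rw [hc]
    have h2 : ((F.card.factorial : ℕ) : ℝ) ≠ 0 := by positivity
    field_simp
  · intro u hu
    rw [h1 u hu]
    refine sum_congr rfl fun S hS => ?_
    have h3 : (F.erase u) \ S = (F \ S).erase u := erase_sdiff_comm _ _ _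
    simp only [h3]

theorem blk_one (C F : Finset V) (h : 0 < (F ∩ C).card) : blk C F (fun _ _ => 1) = 1 := by
  have h1 := ff_blk C F (fun _ _ => 1)
  simp only [mul_one] at h1
  have h2 := take_ff C F h
  have h3 : (fun F' : Finset V => ff F') = ff := rfl
  rw [h3, h2] at h1
  have h4 : ff F ≠ 0 := by unfold ff; positivity
  have h5 : ff F * blk C F (fun _ _ => 1) = ff F * 1 := by rw [h1, mul_one]
  exact mul_left_cancel₀ h4 h5

theorem blk_sub (C F : Finset V) (Θ Θ' : V → Finset V → ℝ) :
    blk C F (fun u F' => Θ u F' - Θ' u F') = blk C F Θ - blk C F Θ' := by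
  unfold blk
  rw [← sum_sub_distrib]
  refine sum_congr rfl fun S _ => ?_
  rw [← mul_sub, ← sum_sub_distrib]

theorem Sv_pn (N : V → Finset V) (p : ℕ → ℕ) (hp : ∀ k, 2 ≤ k → 1 ≤ p k) (m : ℕ) (hm : 1 ≤ m)
    (r : ℕ) : ∀ (k : ℕ) (_ : 2 ≤ k) (φ : ℕ → V) (F : Finset V),
    Sv N p m (List.range' k r) φ F =
      ff F * (1 - pn (fun i v => if i = 0 then ∅ else N v) p m r k φ F) := by
  induction r with
  | zero =>
    intro k _ φ F
    simp [Sv, pn]
  | succ r ih =>
    intro k hk φ F
    have h0 : p k ≠ 0 := by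
      have := hp k hk
      omega
    rw [List.range'_succ]
    simp only [Sv, pn, if_neg h0]
    by_cases hty : (F ∩ N (φ (p k))).card < m
    · rw [if_pos hty, if_neg (by omega)]
      ring
    · rw [if_neg hty, if_pos (by omega)]
      have h1 : Po N p k (Sv N p m (List.range' (k + 1) r)) φ F =
          ff F * blk (N (φ (p k))) F (fun u F' => 1 -
            pn (fun i v => if i = 0 then ∅ else N v) p m r (k + 1) (Function.update φ k u) F') := by
        rw [ff_blk]
        unfold Po
        refine sum_congr rfl fun u _ => ?_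
        congr 1
        funext F'
        exact ih (k + 1) (by omega) _ F'
      rw [h1, blk_sub, blk_one _ _ (by omega)]

theorem WF_range (p : ℕ → ℕ) (hp : ∀ k, 2 ≤ k → 1 ≤ p k ∧ p k < k) (r : ℕ) :
    WF p 1 (List.range' 2 r).reverse := by
  induction r with
  | zero => exact trivial
  | succ r ih =>
    have h1 : (List.range' 2 (r + 1)).reverse = (r + 2) :: (List.range' 2 r).reverse := by
      rw [List.range'_concat, List.reverse_append]
      simp [add_comm]
    rw [h1]
    refine ⟨?_, ?_, ih⟩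
    · obtain ⟨h2, h3⟩ := hp (r + 2) (by omega)
      rcases Nat.lt_or_ge 1 (p (r + 2)) with h4 | h4
      · refine List.mem_cons_of_mem _ ?_
        rw [List.mem_reverse, List.mem_range'_1]
        omega
      · have : p (r + 2) = 1 := by omega
        rw [this]
        exact List.mem_cons_self
    · intro h
      rcases List.mem_cons.mp h with h2 | h2
      · omega
      · rw [List.mem_reverse, List.mem_range'_1] at h2
        omega

theorem pn_congr (N : ℕ → V → Finset V) (p : ℕ → ℕ) (hp : ∀ k, 2 ≤ k → 1 ≤ p k ∧ p k < k) (m r : ℕ) :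
    ∀ (k : ℕ) (_ : 2 ≤ k) (x x' : ℕ → V) (_ : ∀ i, 1 ≤ i → i < k → x i = x' i) (F : Finset V),
    pn N p m r k x F = pn N p m r k x' F := by
  induction r with
  | zero => intro k _ x x' _ F; rfl
  | succ r ih =>
    intro k hk x x' hx F
    have h1 : x (p k) = x' (p k) := hx _ (hp k hk).1 (hp k hk).2
    simp only [pn, h1]
    have h2 : ∀ (u : V) (F' : Finset V), pn N p m r (k + 1) (Function.update x k u) F' =
        pn N p m r (k + 1) (Function.update x' k u) F' := by
      intro u F'
      refine ih (k + 1) (by omega) _ _ (fun i hi hik => ?_) F'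
      by_cases h : i = k
      · subst h
        simp
      · rw [Function.update_of_ne h, Function.update_of_ne h]
        exact hx i hi (by omega)
    simp only [h2]

/-- The law for the process of a fixed tree. -/
theorem law_pn (N : V → Finset V) (hsym : ∀ u v, u ∈ N v ↔ v ∈ N u) (hirr : ∀ v, v ∉ N v)
    (p : ℕ → ℕ) (hp : ∀ k, 2 ≤ k → 1 ≤ p k ∧ p k < k) (r f₀ m μ : ℕ) (hm : 1 ≤ m)
    (hN : ∀ y, (N y).Nonempty → μ ≤ (N y).card) (hn : 3 ≤ Fintype.card V)
    (x : V → V → ℕ → V) (hx : ∀ y, ∀ z ∈ N y, x y z 1 = y) :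
    ∑ y, ∑ z ∈ N y, pn (fun i v => if i = 0 then ∅ else N v) p m r 2 (x y z)
        ((univ.erase z).erase y) ≤
      (∑ y, ((N y).card : ℝ)) * (f₀ / ((Fintype.card V : ℝ) - 1)) +
      r * ((univ.filter (fun y => (N y).Nonempty)).card : ℝ) +
      r * (∑ y, ((N y).card : ℝ)) *
        (2 ^ m * Real.exp (-((f₀ : ℝ) * (μ - 1) / (2 * ((Fintype.card V : ℝ) - 2))))) := by
  have h := law_one N p hsym hirr 1 (List.range' 2 r) (WF_range p hp r) f₀ m μ hm hN hn
    (fun y z => pn (fun i v => if i = 0 then ∅ else N v) p m r 2 (x y z)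
        ((univ.erase z).erase y)) (by
      intro y z hz
      rw [Sv_pn N p (fun k hk => (hp k hk).1) m hm r 2 (le_refl _)]
      rw [pn_congr _ p hp m r 2 (le_refl _) (fun _ => y) (x y z) (by
        intro i hi hi2
        have : i = 1 := by omega
        rw [this, hx y z hz])])
  rw [List.length_range'] at h
  exact h

end Pool.Agent.Lib.MP_56e41f_co.FQ
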