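import Mathlib

/-!
The densest vertex set of a graph.
-/

set_option autoImplicit false

open Finset

namespace Pool.Agent.Lib.MP_56e41f_co.FQ

set_option linter.unusedSectionVars false

variable {V : Type*} [Fintype V] [DecidableEq V]

/-- neighbours inside `X` -/
def nx (E : Finset (Sym2 V)) (X : Finset V) (v : V) : Finset V :=
  if v ∈ X then X.filter (fun u => s(v, u) ∈ E) else ∅

theorem mem_nx (E : Finset (Sym2 V)) (X : Finset V) (v u : V) :
    u ∈ nx E X v ↔ v ∈ X ∧ u ∈ X ∧ s(v, u) ∈ E := by
  unfold nx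
  split_ifs with h
  · simp [h]
  · simp [h]

theorem nx_symm (E : Finset (Sym2 V)) (X : Finset V) (u v : V) :
    u ∈ nx E X v ↔ v ∈ nx E X u := by
  rw [mem_nx, mem_nx, Sym2.eq_swap]
  tauto

theorem nx_univ_sum (E : Finset (Sym2 V)) (hl : ∀ x, s(x, x) ∉ E) :
    ∑ v, (nx E univ v).card = 2 * E.card := by
  classical
  obtain ⟨G, hadj⟩ : ∃ G : SimpleGraph V, ∀ u v, G.Adj u v ↔ s(u, v) ∈ E := by
    refine ⟨SimpleGraph.fromEdgeSet (E : Set (Sym2 V)), fun u v => ?_⟩
    rw [SimpleGraph.fromEdgeSet_adj]
    constructor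
    · rintro ⟨h1, _⟩
      exact_mod_cast h1
    · intro h
      refine ⟨by exact_mod_cast h, ?_⟩
      rintro rfl
      exact hl _ h
  have h2 := G.sum_degrees_eq_twice_card_edges
  have h3 : 2 * E.card = ∑ v, G.degree v := by
    rw [h2]
    congr 2
    ext e
    induction e using Sym2.ind with
    | _ x y => rw [SimpleGraph.mem_edgeFinset, SimpleGraph.mem_edgeSet, hadj]
  rw [h3]
  refine sum_congr rfl fun v _ => ?_
  rw [← SimpleGraph.card_neighborFinset_eq_degree]
  congr 1
  ext u
  rw [mem_nx, SimpleGraph.mem_neighborFinset, hadj]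
  simp

/-- number of darts inside `X` -/
def dn (E : Finset (Sym2 V)) (X : Finset V) : ℕ := ∑ v, (nx E X v).card

theorem dn_erase (E : Finset (Sym2 V)) (hl : ∀ x, s(x, x) ∉ E) (X : Finset V) (w : V)
    (hw : w ∈ X) : dn E X = dn E (X.erase w) + 2 * (nx E X w).card := by
  unfold dn
  have h1 : ∀ v, v ≠ w → (nx E X v).card =
      (nx E (X.erase w) v).card + (if v ∈ nx E X w then 1 else 0) := by
    intro v hv
    by_cases h : v ∈ nx E X w
    · rw [if_pos h]
      have h2 : nx E X v = insert w (nx E (X.erase w) v) := by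
        ext u
        rw [mem_insert, mem_nx, mem_nx, mem_erase, mem_erase]
        rw [mem_nx] at h
        constructor
        · rintro ⟨h3, h4, h5⟩
          by_cases huw : u = w
          · exact Or.inl huw
          · exact Or.inr ⟨⟨hv, h3⟩, ⟨huw, h4⟩, h5⟩
        · rintro (rfl | h3)
          · exact ⟨h.2.1, hw, by rw [Sym2.eq_swap]; exact h.2.2⟩
          · exact ⟨h3.1.2, h3.2.1.2, h3.2.2⟩
      rw [h2, card_insert_of_notMem]
      rw [mem_nx]
      rintro ⟨_, h3, _⟩
      exact (mem_erase.mp h3).1 rfl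
    · rw [if_neg h]
      rw [add_zero]
      congr 1
      ext u
      rw [mem_nx, mem_nx, mem_erase, mem_erase]
      constructor
      · rintro ⟨h3, h4, h5⟩
        refine ⟨⟨hv, h3⟩, ⟨?_, h4⟩, h5⟩
        rintro rfl
        exact h ((mem_nx E X u v).mpr ⟨hw, h3, by rw [Sym2.eq_swap]; exact h5⟩)
      · rintro ⟨h3, h4, h5⟩
        exact ⟨h3.2, h4.2, h5⟩
  have h3 : nx E (X.erase w) w = ∅ := by
    unfold nx
    rw [if_neg (notMem_erase w X)]
  rw [← add_sum_erase univ _ (mem_univ w), ← add_sum_erase univ (fun v => (nx E (X.erase w) v).card)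
    (mem_univ w), h3, card_empty, zero_add, sum_congr rfl (fun v hv => h1 v (mem_erase.mp hv).1),
    sum_add_distrib, sum_boole]
  have h4 : (univ.erase w).filter (fun v => v ∈ nx E X w) = nx E X w := by
    ext v
    rw [mem_filter, mem_erase]
    constructor
    · rintro ⟨_, h⟩
      exact h
    · intro h
      refine ⟨⟨?_, mem_univ v⟩, h⟩
      rintro rfl
      rw [mem_nx] at h
      exact hl _ h.2.2
  rw [h4]
  simp only [Nat.cast_id]
  ring

/-- The densest vertex set: average degree at least `d`, all degrees at least half of it. -/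
theorem exists_dense (E : Finset (Sym2 V)) (hl : ∀ x, s(x, x) ∉ E) (d : ℝ) (hd : 0 < d)
    (hV : 0 < Fintype.card V) (hE : d * Fintype.card V ≤ 2 * E.card) :
    ∃ X : Finset V, 0 < dn E X ∧ d * X.card ≤ dn E X ∧
      ∀ v ∈ X, d / 2 ≤ ((nx E X v).card : ℝ) := by
  classical
  have huniv : (univ : Finset V) ∈ (univ : Finset (Finset V)).filter (fun X => X.Nonempty) := by
    rw [mem_filter]
    exact ⟨mem_univ _, by rw [← card_pos, card_univ]; exact hV⟩
  obtain ⟨X, hX, hmax⟩ := exists_max_image ((univ : Finset (Finset V)).filter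
    (fun X => X.Nonempty)) (fun X => (dn E X : ℝ) / X.card) ⟨_, huniv⟩
  rw [mem_filter] at hX
  have hXne := hX.2
  have hXc : (0 : ℝ) < X.card := by exact_mod_cast card_pos.mpr hXne
  have hnr : (0 : ℝ) < Fintype.card V := by exact_mod_cast hV
  have h1 : d ≤ (dn E X : ℝ) / X.card := by
    refine le_trans ?_ (hmax univ huniv)
    rw [card_univ, le_div_iff₀ hnr]
    have : dn E univ = 2 * E.card := nx_univ_sum E hl
    rw [this]
    push_cast
    exact hE
  have h2 : d * X.card ≤ dn E X := by rwa [le_div_iff₀ hXc] at h1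
  have hpos : (0 : ℝ) < dn E X := lt_of_lt_of_le (by positivity) h2
  refine ⟨X, by exact_mod_cast hpos, h2, ?_⟩
  intro v hv
  have h3 := dn_erase E hl X v hv
  have h3' : (dn E X : ℝ) = dn E (X.erase v) + 2 * (nx E X v).card := by exact_mod_cast h3
  have h4 : d ≤ 2 * ((nx E X v).card : ℝ) := by
    rcases (X.erase v).eq_empty_or_nonempty with h5 | h5
    · have h6 : dn E (X.erase v) = 0 := by
        rw [h5]
        unfold dn nx
        simp
      have h7 : nx E X v = ∅ := by
        rw [← subset_empty]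
        intro u hu
        rw [mem_nx] at hu
        by_cases huv : u = v
        · rw [huv] at hu
          exact absurd hu.2.2 (hl v)
        · have : u ∈ X.erase v := mem_erase.mpr ⟨huv, hu.2.1⟩
          rw [h5] at this
          exact this
      rw [h7, card_empty] at h3
      have h8 : dn E X = 0 := by omega
      rw [h8] at hpos
      simp at hpos
    · have h6 := hmax (X.erase v) (by rw [mem_filter]; exact ⟨mem_univ _, h5⟩)
      have h7 : (0 : ℝ) < (X.erase v).card := by exact_mod_cast card_pos.mpr h5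
      rw [div_le_div_iff₀ h7 hXc] at h6
      have h8 : ((X.erase v).card : ℝ) = X.card - 1 := by
        rw [card_erase_of_mem hv]
        have : 1 ≤ X.card := card_pos.mpr hXne
        push_cast [Nat.cast_sub this]
        ring
      rw [h8] at h6
      have h9 : (dn E X : ℝ) ≤ 2 * ((nx E X v).card : ℝ) * X.card := by nlinarith
      have h10 : d * X.card ≤ 2 * ((nx E X v).card : ℝ) * X.card := h2.trans h9
      exact le_of_mul_le_mul_right h10 hXc
  linarith

end Pool.Agent.Lib.MP_56e41f_co.FQ
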