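import Pool.Agent.Lib.MP_56e41f_co.FQ.LI
import Pool.Agent.Lib.MP_56e41f_co.FQ.LJ

/-!
Starts of an attempt: in every graph of average degree at least `d`, for a uniformly random dart
inside the densest vertex set, the card process of every tree with at most `(1 - c / 2) d` vertices
succeeds with probability at least `c / 4`.
-/

set_option autoImplicit false

open Finset

namespace Pool.Agent.Lib.MP_56e41f_co.FQ

theorem starts_exp (c d r : ℝ) (hc : 0 < c) (hd : 0 < d) (hrd : r ≤ d)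
    (h : 16 * 512 ^ 2 ≤ c ^ 3 * d) : r * Real.exp (-(c * d / 512)) ≤ c / 8 := by
  have hy0 : 0 < c * d / 512 := by positivity
  have h2 : (c * d / 512) ^ 2 / 2 ≤ Real.exp (c * d / 512) := by
    have := Real.quadratic_le_exp_of_nonneg hy0.le
    linarith
  have h3 : Real.exp (-(c * d / 512)) ≤ 2 / (c * d / 512) ^ 2 := by
    rw [Real.exp_neg, ← one_div, div_le_div_iff₀ (Real.exp_pos _) (by positivity)]
    linarith
  have h4 : d * (2 / (c * d / 512) ^ 2) = 2 * 512 ^ 2 / (c ^ 2 * d) := by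
    field_simp
  have h5 : 2 * 512 ^ 2 / (c ^ 2 * d) ≤ c / 8 := by
    rw [div_le_div_iff₀ (by positivity) (by norm_num)]
    have : c * (c ^ 2 * d) = c ^ 3 * d := by ring
    rw [this]
    linarith
  calc r * Real.exp (-(c * d / 512)) ≤ d * (2 / (c * d / 512) ^ 2) :=
        mul_le_mul hrd h3 (Real.exp_pos _).le hd.le
    _ ≤ c / 8 := by rw [h4]; exact h5

theorem starts (c : ℝ) (hc : 0 < c) (hc1 : c < 1) : ∃ d₀ : ℝ, 1 ≤ d₀ ∧
    ∀ (V : Type) [Fintype V] [DecidableEq V] (E : Finset (Sym2 V)) (d : ℝ) (m : ℕ),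
      (∀ x, s(x, x) ∉ E) → d₀ ≤ d → d * Fintype.card V ≤ 2 * E.card → 1 ≤ m →
      (m : ℝ) ≤ c / 512 * d → 0 < Fintype.card V →
      ∃ N : V → Finset V, (∀ v, ∀ u ∈ N v, s(v, u) ∈ E) ∧ (∀ u v, u ∈ N v ↔ v ∈ N u) ∧
        (∀ v, v ∉ N v) ∧ (0 : ℝ) < ∑ y, ((N y).card : ℝ) ∧
        ∀ (p : ℕ → ℕ), (∀ k, 2 ≤ k → 1 ≤ p k ∧ p k < k) → ∀ r : ℕ,
          (r : ℝ) + 2 ≤ (1 - c / 2) * d →
          ∀ x : V → V → ℕ → V, (∀ y, ∀ z ∈ N y, x y z 1 = y) →
          ∑ y, ∑ z ∈ N y, pn (fun i v => if i = 0 then ∅ else N v) p m r 2 (x y z)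
            ((univ.erase z).erase y) ≤ (1 - c / 4) * ∑ y, ((N y).card : ℝ) := by
  refine ⟨16 * 512 ^ 2 / c ^ 3, ?_, ?_⟩
  · rw [le_div_iff₀ (by positivity)]
    have : c ^ 3 ≤ 1 := pow_le_one₀ hc.le hc1.le
    linarith
  intro V _ _ E d m hl hd hE hm hmd hV
  have hc3 : c ^ 3 ≤ c := by nlinarith [sq_nonneg c, mul_pos hc hc]
  have hcd3 : 16 * 512 ^ 2 ≤ c ^ 3 * d := by
    rw [div_le_iff₀ (by positivity)] at hd
    linarith
  have hd1 : 0 < d := by
    by_contra h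
    push Not at h
    have : c ^ 3 * d ≤ 0 := mul_nonpos_of_nonneg_of_nonpos (by positivity) h
    linarith
  have hcd : 16 * 512 ^ 2 ≤ c * d := by
    have := mul_le_mul_of_nonneg_right hc3 hd1.le
    linarith
  have hd16 : 16 * 512 ^ 2 ≤ d := by nlinarith
  obtain ⟨X, hX1, hX2, hX3⟩ := exists_dense E hl d hd1 hV hE
  set N : V → Finset V := fun v => nx E X v with hN
  have hirr : ∀ v, v ∉ N v := by
    intro v h
    rw [hN, mem_nx] at h
    exact hl v h.2.2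
  have hsym : ∀ u v, u ∈ N v ↔ v ∈ N u := fun u v => nx_symm E X u v
  have hDe : (∑ y, ((N y).card : ℝ)) = (dn E X : ℝ) := by
    unfold dn
    push_cast
    rfl
  refine ⟨N, fun v u hu => ((mem_nx E X v u).mp hu).2.2, hsym, hirr, ?_, ?_⟩
  · rw [hDe]
    exact_mod_cast hX1
  intro p hp r hr x hx
  set D : ℝ := ∑ y, ((N y).card : ℝ) with hD
  have hDpos : 0 < D := by rw [hDe]; exact_mod_cast hX1
  set n : ℝ := (Fintype.card V : ℝ) with hn
  -- the degrees
  have hmin : ∀ y, (N y).Nonempty → ⌈d / 2⌉₊ ≤ (N y).card := by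
    intro y hy
    obtain ⟨u, hu⟩ := hy
    have hyX : y ∈ X := ((mem_nx E X y u).mp hu).1
    exact Nat.ceil_le.mpr (hX3 y hyX)
  have hn1 : d / 2 ≤ n := by
    obtain ⟨y, hy⟩ : ∃ y, (N y).Nonempty := by
      by_contra h
      push Not at h
      have : D = 0 := by
        rw [hD]
        exact sum_eq_zero fun y _ => by rw [h y]; simp
      linarith
    have h1 := hmin y hy
    have h2 : (N y).card ≤ Fintype.card V := card_le_univ _
    have h3 : d / 2 ≤ (⌈d / 2⌉₊ : ℝ) := Nat.le_ceil _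
    have h4 : (⌈d / 2⌉₊ : ℝ) ≤ Fintype.card V := by exact_mod_cast h1.trans h2
    linarith
  have hn3 : 3 ≤ Fintype.card V := by
    have : (3 : ℝ) ≤ Fintype.card V := by linarith
    exact_mod_cast this
  have hlaw := law_pn N hsym hirr p hp r ⌊c * n / 16⌋₊ m ⌈d / 2⌉₊ hm hmin hn3 x hx
  refine hlaw.trans ?_
  rw [← hD, ← hn]
  have hn' : ((univ.filter (fun y => (N y).Nonempty)).card : ℝ) ≤ X.card := by
    have : univ.filter (fun y => (N y).Nonempty) ⊆ X := by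
      intro y hy
      rw [mem_filter] at hy
      obtain ⟨u, hu⟩ := hy.2
      exact ((mem_nx E X y u).mp hu).1
    exact_mod_cast card_le_card this
  have hr0 : (0 : ℝ) ≤ r := Nat.cast_nonneg _
  have hn0 : 0 < n := by linarith
  -- first term
  have hf1 : (⌊c * n / 16⌋₊ : ℝ) ≤ c * n / 16 := Nat.floor_le (by positivity)
  have hf2 : c * n / 32 ≤ (⌊c * n / 16⌋₊ : ℝ) := by
    have h1 := Nat.lt_floor_add_one (c * n / 16)
    have h2 : 32 ≤ c * n := by
      have h3 : c * (d / 2) ≤ c * n := mul_le_mul_of_nonneg_left hn1 hc.le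
      linarith
    linarith
  have t1 : (⌊c * n / 16⌋₊ : ℝ) / (n - 1) ≤ c / 8 := by
    rw [div_le_iff₀ (by linarith)]
    have h2 : 2 ≤ n := by linarith
    nlinarith
  -- second term
  have t2 : (r : ℝ) * ((univ.filter (fun y => (N y).Nonempty)).card : ℝ) ≤ (1 - c / 2) * D := by
    have h1 : (r : ℝ) ≤ (1 - c / 2) * d := by linarith
    have h2 : (0 : ℝ) ≤ 1 - c / 2 := by linarith
    calc (r : ℝ) * ((univ.filter (fun y => (N y).Nonempty)).card : ℝ)
        ≤ (r : ℝ) * X.card := mul_le_mul_of_nonneg_left hn' hr0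
      _ ≤ ((1 - c / 2) * d) * X.card := mul_le_mul_of_nonneg_right h1 (by positivity)
      _ = (1 - c / 2) * (d * X.card) := by ring
      _ ≤ (1 - c / 2) * D := mul_le_mul_of_nonneg_left (by rw [hDe]; exact hX2) h2
  -- third term
  have hexp : c * d / 256 ≤ (⌊c * n / 16⌋₊ : ℝ) * ((⌈d / 2⌉₊ : ℝ) - 1) / (2 * (n - 2)) := by
    rw [le_div_iff₀ (by linarith)]
    have h1 : d / 4 ≤ (⌈d / 2⌉₊ : ℝ) - 1 := by
      have := Nat.le_ceil (d / 2)
      linarith
    calc c * d / 256 * (2 * (n - 2)) ≤ c * d / 256 * (2 * n) := by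
          refine mul_le_mul_of_nonneg_left (by linarith) (by positivity)
      _ = (c * n / 32) * (d / 4) := by ring
      _ ≤ (⌊c * n / 16⌋₊ : ℝ) * ((⌈d / 2⌉₊ : ℝ) - 1) :=
          mul_le_mul hf2 h1 (by positivity) (by positivity)
  have t3 : (2 : ℝ) ^ m * Real.exp (-((⌊c * n / 16⌋₊ : ℝ) * ((⌈d / 2⌉₊ : ℝ) - 1) /
      (2 * (n - 2)))) ≤ Real.exp (-(c * d / 512)) := by
    have h1 : (2 : ℝ) ^ m ≤ Real.exp m := by
      have h2 : (2 : ℝ) ≤ Real.exp 1 := by
        have := Real.add_one_le_exp (1 : ℝ)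
        linarith
      calc (2 : ℝ) ^ m ≤ (Real.exp 1) ^ m := pow_le_pow_left₀ (by norm_num) h2 m
        _ = Real.exp m := by rw [← Real.exp_nat_mul, mul_one]
    calc (2 : ℝ) ^ m * Real.exp (-((⌊c * n / 16⌋₊ : ℝ) * ((⌈d / 2⌉₊ : ℝ) - 1) /
          (2 * (n - 2)))) ≤ Real.exp (c * d / 512) * Real.exp (-(c * d / 256)) := by
          refine mul_le_mul (h1.trans (Real.exp_le_exp.mpr (by linarith)))
            (Real.exp_le_exp.mpr (by linarith)) (Real.exp_pos _).le (Real.exp_pos _).le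
      _ = _ := by
          rw [← Real.exp_add]
          congr 1
          ring
  have t4 : (r : ℝ) * Real.exp (-(c * d / 512)) ≤ c / 8 := by
    refine starts_exp c d r hc hd1 ?_ hcd3
    have h1 : (1 - c / 2) * d ≤ 1 * d := mul_le_mul_of_nonneg_right (by linarith) hd1.le
    linarith
  have t5 : (r : ℝ) * D * (2 ^ m * Real.exp (-((⌊c * n / 16⌋₊ : ℝ) * ((⌈d / 2⌉₊ : ℝ) - 1) /
      (2 * (n - 2))))) ≤ c / 8 * D := by
    calc (r : ℝ) * D * (2 ^ m * Real.exp (-((⌊c * n / 16⌋₊ : ℝ) * ((⌈d / 2⌉₊ : ℝ) - 1) /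
          (2 * (n - 2))))) ≤ (r : ℝ) * D * Real.exp (-(c * d / 512)) :=
          mul_le_mul_of_nonneg_left t3 (mul_nonneg hr0 hDpos.le)
      _ = ((r : ℝ) * Real.exp (-(c * d / 512))) * D := mul_right_comm _ _ _
      _ ≤ c / 8 * D := mul_le_mul_of_nonneg_right t4 hDpos.le
  have t6 : D * ((⌊c * n / 16⌋₊ : ℝ) / (n - 1)) ≤ D * (c / 8) :=
    mul_le_mul_of_nonneg_left t1 hDpos.le
  linarith

end Pool.Agent.Lib.MP_56e41f_co.FQ
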