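import Pool.Agent.Lib.MP_56e41f_co.FQ.PCoA

/-!
# Realisations of states: requests
-/

open Finset

namespace Pool.Agent.Lib.MP_56e41f_co.FQ

variable {V : Type*} [Fintype V] [DecidableEq V] {t Δ : ℕ}

/-- the pairs exposed by a request -/
def pq (φ : Lab → V) (x : Nd) (y : V) : Sym2 V × ℕ := (s(φ x.lab, y), x.asks)

private theorem pcob_succ_rec (T : TD t Δ) {s : St t} {v u : Fin t} {x : Nd}
    (hux : s.f u = some x) (i : Fin t) (x' : Nd) (h : (succSt T s v u x).f i = some x') :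
    (i = v ∧ x'.lab = x.asks :: x.lab ∧ x'.asks = 0) ∨
      (i ≠ v ∧ ∃ x0, s.f i = some x0 ∧ x'.lab = x0.lab ∧ x0.asks ≤ x'.asks ∧
        (i = u → x'.asks = x.asks + 1)) := by
  have h0 : (succSt T s v u x).f = Function.update
      (bump (T.dep v) (Function.update s.f u (some ⟨x.lab, x.asks + 1, x.lev⟩))) v
      (some ⟨x.asks :: x.lab, 0, T.dep v⟩) := rfl
  rw [h0] at h
  by_cases hi : i = v
  · subst hi
    left
    rw [Function.update_self] at h
    simp only [Option.some.injEq] at h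
    rw [← h]
    exact ⟨rfl, rfl, rfl⟩
  · right
    refine ⟨hi, ?_⟩
    rw [Function.update_of_ne hi] at h
    unfold bump at h
    by_cases hiu : i = u
    · subst hiu
      rw [Function.update_self] at h
      simp only [Option.map_some, Option.some.injEq] at h
      refine ⟨x, hux, ?_, ?_, ?_⟩
      · rw [← h]
      · rw [← h]; exact Nat.le_succ _
      · intro _; rw [← h]
    · rw [Function.update_of_ne hiu] at h
      cases hf : s.f i with
      | none => rw [hf] at h; simp at h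
      | some x0 =>
        rw [hf] at h
        simp only [Option.map_some, Option.some.injEq] at h
        exact ⟨x0, rfl, by rw [← h], by rw [← h], fun hh => absurd hh hiu⟩

private theorem pcob_fail_rec {s : St t} {u : Fin t} {x : Nd}
    (hux : s.f u = some x) (i : Fin t) (x' : Nd) (h : (failSt s u x).f i = some x') :
    ∃ x0, s.f i = some x0 ∧ x'.lab = x0.lab ∧ x0.asks ≤ x'.asks ∧
        (i = u → x'.asks = x.asks + 1) := by
  have h0 : (failSt s u x).f = Function.update s.f u (some ⟨x.lab, x.asks + 1, x.lev⟩) := rfl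
  rw [h0] at h
  by_cases hiu : i = u
  · subst hiu
    rw [Function.update_self] at h
    simp only [Option.some.injEq] at h
    refine ⟨x, hux, ?_, ?_, ?_⟩
    · rw [← h]
    · rw [← h]; exact Nat.le_succ _
    · intro _; rw [← h]
  · rw [Function.update_of_ne hiu] at h
    exact ⟨x', h, rfl, le_rfl, fun hh => absurd hh hiu⟩

private theorem pcob_pq {φ : Lab → V} {x : Nd} {R : Finset V} {a b : V} {j : ℕ}
    (h : (s(a, b), j) ∈ R.image (pq φ x)) : j = x.asks ∧ (φ x.lab = a ∨ φ x.lab = b) := by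
  rw [mem_image] at h
  obtain ⟨y, _, hy⟩ := h
  unfold pq at hy
  rw [Prod.mk.injEq, Sym2.eq_iff] at hy
  obtain ⟨hy, hj⟩ := hy
  refine ⟨hj.symm, ?_⟩
  rcases hy with ⟨h1, _⟩ | ⟨h1, _⟩
  · exact Or.inl h1
  · exact Or.inr h1

/-- the label `x.asks :: x.lab` is new (`Str.slot`) -/
theorem conc2_succ (T : TD t Δ) (B w : ℕ) {s : St t} {φ : Lab → V} {F : Finset V}
    {Q A : Finset (Sym2 V × ℕ)} (h : Conc2 s T φ F Q A) (hS : Str T B s) (v u : Fin t) (x : Nd)
    (ha : act T B w s = Act.ask v u x) (R : Finset V) (hR : R ⊆ F) (z : V) (hz : z ∈ F)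
    (F' : Finset V) (hF' : F' ⊆ F.erase z) :
    Conc2 (succSt T s v u x) T (Function.update φ (x.asks :: x.lab) z) F'
      (Q ∪ R.image (pq φ x)) (insert (pq φ x z) A) := by
  obtain ⟨hnx, hdw, hv0, hu, hux, hxB⟩ := act_ask T B w ha
  have hvn := (nxt_eq_some hnx).1
  have hF : ∀ y ∈ F', y ∈ F := fun y hy => mem_of_mem_erase (hF' hy)
  have hlab : ∀ i x0, s.f i = some x0 → x0.lab ≠ x.asks :: x.lab := by
    intro i x0 h0 hh
    have h1 := (hS.lab i x0 h0).1
    rw [hh] at h1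
    exact lt_irrefl _ (hS.slot u x x.asks hux h1)
  have hφ : ∀ i x0, s.f i = some x0 →
      Function.update φ (x.asks :: x.lab) z x0.lab = φ x0.lab := by
    intro i x0 h0
    rw [Function.update_of_ne (hlab i x0 h0)]
  have hxF : φ x.lab ∉ F := h.notF u x hux
  constructor
  · intro i x1 i' x1' h1 h1' hh
    rcases pcob_succ_rec T hux i x1 h1 with ⟨hi, hl, _⟩ | ⟨hi, x0, h0, hl, _, _⟩
    · rcases pcob_succ_rec T hux i' x1' h1' with ⟨hi', hl', _⟩ | ⟨hi', x0', h0', hl', _, _⟩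
      · rw [hi, hi']
      · exfalso
        rw [hl, hl', Function.update_self, hφ i' x0' h0'] at hh
        exact h.notF i' x0' h0' (hh ▸ hz)
    · rcases pcob_succ_rec T hux i' x1' h1' with ⟨hi', hl', _⟩ | ⟨hi', x0', h0', hl', _, _⟩
      · exfalso
        rw [hl, hl', Function.update_self, hφ i x0 h0] at hh
        exact h.notF i x0 h0 (hh.symm ▸ hz)
      · rw [hl, hl', hφ i x0 h0, hφ i' x0' h0'] at hh
        exact h.inj i x0 i' x0' h0 h0' hh
  · intro i x1 h1
    rcases pcob_succ_rec T hux i x1 h1 with ⟨hi, hl, _⟩ | ⟨hi, x0, h0, hl, _, _⟩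
    · rw [hl, Function.update_self]
      intro hh
      exact (mem_erase.1 (hF' hh)).1 rfl
    · rw [hl, hφ i x0 h0]
      exact fun hh => h.notF i x0 h0 (hF _ hh)
  · intro i x1 y1 hi0 h1 hy1
    rcases pcob_succ_rec T hux i x1 h1 with ⟨hi, hl, _⟩ | ⟨hi, x0, h0, hl, _, _⟩
    · subst hi
      rw [← hu] at hy1
      rcases pcob_succ_rec T hux u y1 hy1 with ⟨huv, _, _⟩ | ⟨_, y0, hy0, hly, _, _⟩
      · exfalso
        rw [huv, hvn] at hux
        cases hux
      · have hyx : y0 = x := by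
          rw [hux] at hy0
          exact (Option.some.inj hy0).symm
        refine ⟨x.asks, ?_⟩
        rw [hl, hly, hyx, Function.update_self, hφ u x hux]
        exact mem_insert_self _ _
    · obtain ⟨y, j, hy, _⟩ := hS.par i x0 h0 hi0
      rcases pcob_succ_rec T hux (T.par i) y1 hy1 with ⟨hpv, _, _⟩ | ⟨_, y0, hy0, hly, _, _⟩
      · exfalso
        rw [hpv, hvn] at hy
        cases hy
      · obtain ⟨j', hj'⟩ := h.edge i x0 y0 hi0 h0 hy0
        refine ⟨j', ?_⟩
        rw [hl, hly, hφ i x0 h0, hφ _ y0 hy0]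
        exact mem_insert_of_mem hj'
  · intro z1 hz1 z2 hz2 j hh
    rw [mem_union] at hh
    rcases hh with hh | hh
    · exact h.fresh z1 (hF _ hz1) z2 (hF _ hz2) j hh
    · rcases (pcob_pq hh).2 with h1 | h1
      · exact hxF (h1 ▸ hF _ hz1)
      · exact hxF (h1 ▸ hF _ hz2)
  · intro i x1 h1 z1 hz1 j hj hh
    rw [mem_union] at hh
    rcases pcob_succ_rec T hux i x1 h1 with ⟨hi, hl, _⟩ | ⟨hi, x0, h0, hl, hle, hiu⟩
    · rw [hl, Function.update_self] at hh
      rcases hh with hh | hh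
      · exact h.fresh z hz z1 (hF _ hz1) j hh
      · rcases (pcob_pq hh).2 with h2 | h2
        · exact hxF (h2 ▸ hz)
        · exact hxF (h2 ▸ hF _ hz1)
    · rw [hl, hφ i x0 h0] at hh
      rcases hh with hh | hh
      · exact h.layer i x0 h0 z1 (hF _ hz1) j (le_trans hle hj) hh
      · obtain ⟨h2, h3 | h3⟩ := pcob_pq hh
        · have := hiu (h.inj i x0 u x h0 hux h3.symm)
          omega
        · exact hxF (h3 ▸ hF _ hz1)

theorem conc2_fail (T : TD t Δ) (B w : ℕ) {s : St t} {φ : Lab → V} {F : Finset V}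
    {Q A : Finset (Sym2 V × ℕ)} (h : Conc2 s T φ F Q A) (hS : Str T B s) (v u : Fin t) (x : Nd)
    (ha : act T B w s = Act.ask v u x) (R : Finset V) (hR : R ⊆ F) :
    Conc2 (failSt s u x) T φ F (Q ∪ R.image (pq φ x)) A := by
  obtain ⟨hnx, hdw, hv0, hu, hux, hxB⟩ := act_ask T B w ha
  have hxF : φ x.lab ∉ F := h.notF u x hux
  constructor
  · intro i x1 i' x1' h1 h1' hh
    obtain ⟨x0, h0, hl, _, _⟩ := pcob_fail_rec hux i x1 h1
    obtain ⟨x0', h0', hl', _, _⟩ := pcob_fail_rec hux i' x1' h1'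
    rw [hl, hl'] at hh
    exact h.inj i x0 i' x0' h0 h0' hh
  · intro i x1 h1
    obtain ⟨x0, h0, hl, _, _⟩ := pcob_fail_rec hux i x1 h1
    rw [hl]
    exact h.notF i x0 h0
  · intro i x1 y1 hi0 h1 hy1
    obtain ⟨x0, h0, hl, _, _⟩ := pcob_fail_rec hux i x1 h1
    obtain ⟨y0, hy0, hly, _, _⟩ := pcob_fail_rec hux _ y1 hy1
    rw [hl, hly]
    exact h.edge i x0 y0 hi0 h0 hy0
  · intro z1 hz1 z2 hz2 j hh
    rw [mem_union] at hh
    rcases hh with hh | hh
    · exact h.fresh z1 hz1 z2 hz2 j hh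
    · rcases (pcob_pq hh).2 with h1 | h1
      · exact hxF (h1 ▸ hz1)
      · exact hxF (h1 ▸ hz2)
  · intro i x1 h1 z1 hz1 j hj hh
    rw [mem_union] at hh
    obtain ⟨x0, h0, hl, hle, hiu⟩ := pcob_fail_rec hux i x1 h1
    rw [hl] at hh
    rcases hh with hh | hh
    · exact h.layer i x0 h0 z1 hz1 j (le_trans hle hj) hh
    · obtain ⟨h2, h3 | h3⟩ := pcob_pq hh
      · have := hiu (h.inj i x0 u x h0 hux h3.symm)
        omega
      · exact hxF (h3 ▸ hz1)

end Pool.Agent.Lib.MP_56e41f_co.FQ
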