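import Pool.Agent.Lib.MP_56e41f_co.FQ.PStB
import Pool.Agent.Lib.MP_56e41f_co.FQ.PCoB
import Pool.Agent.Lib.MP_56e41f_co.FQ.BlkB

/-!
# The step of a request in the layered random graph
-/

open Finset

namespace Pool.Agent.Lib.MP_56e41f_co.FQ

variable {V : Type*} [Fintype V] [DecidableEq V] {t Δ : ℕ}

/-- value of the unexposed part -/
noncomputable def PF (T : TD t Δ) (p : ℝ) (E2 : Finset (Sym2 V × ℕ))
    (Q A : Finset (Sym2 V × ℕ)) : ℝ :=
  ex p (E2 \ Q) (fun W => ind (¬ Emb2 T (A ∪ W)))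

omit [Fintype V] [DecidableEq V] in
private theorem pAsk_emb_mono (T : TD t Δ) {W W' : Finset (Sym2 V × ℕ)} (h : W ⊆ W')
    (hE : Emb2 T W) : Emb2 T W' := by
  obtain ⟨φ, hφ, hW⟩ := hE
  refine ⟨φ, hφ, fun i hi => ?_⟩
  obtain ⟨j, hj⟩ := hW i hi
  exact ⟨j, h hj⟩

omit [Fintype V] [DecidableEq V] in
private theorem pAsk_pq_inj (φ : Lab → V) (x : Nd) : Function.Injective (pq φ x) := by
  intro y z hyz
  have h1 : s(φ x.lab, y) = s(φ x.lab, z) := congrArg Prod.fst hyz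
  rcases Sym2.eq_iff.mp h1 with h | h
  · exact h.2
  · rw [h.2, ← h.1]

omit [Fintype V] [DecidableEq V] in
private theorem pAsk_min (P : Finset (Finset V)) (hP : P.Nonempty) (f : Finset V → ℝ) :
    ∃ a : ℝ, (∀ S ∈ P, a ≤ f S) ∧ ∃ S ∈ P, a = f S := by
  obtain ⟨S, hS, hmin⟩ := Finset.exists_min_image P f hP
  exact ⟨f S, hmin, S, hS, rfl⟩

omit [Fintype V] in
private theorem pAsk_exists (N F : Finset V) (f : V → Finset V → ℝ) :
    ∃ a : V → ℝ, (∀ z, ∀ S ⊆ F \ N, a z ≤ f z ((F \ S).erase z)) ∧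
      ∀ z, ∃ S ⊆ F \ N, a z = f z ((F \ S).erase z) := by
  have h : ∀ z : V, ∃ a : ℝ, (∀ S ∈ (F \ N).powerset, a ≤ f z ((F \ S).erase z)) ∧
      ∃ S ∈ (F \ N).powerset, a = f z ((F \ S).erase z) := fun z =>
    pAsk_min (F \ N).powerset ⟨∅, Finset.empty_mem_powerset _⟩
      (fun S => f z ((F \ S).erase z))
  choose a ha1 ha2 using h
  refine ⟨a, fun z S hS => ha1 z S (Finset.mem_powerset.mpr hS), fun z => ?_⟩
  obtain ⟨S, hS, hS'⟩ := ha2 z
  exact ⟨S, Finset.mem_powerset.mp hS, hS'⟩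

/-- `exp_step` with `C` the pairs between the image of `u` and the free allowed vertices, layer
`x.asks`; then `mean_le_blk` with `a z` the minimum of `β * Ψ z ((F \ S).erase z)` over
`S ⊆ F \ N`. -/
theorem perc_ask (T : TD t Δ) (B w : ℕ) {p : ℝ} (h0 : 0 ≤ p) (h1 : p ≤ 1)
    (E : Finset (Sym2 V)) {s : St t} {φ : Lab → V} {F : Finset V}
    {Q A : Finset (Sym2 V × ℕ)} (h : Conc2 s T φ F Q A) (v u : Fin t) (x : Nd)
    (ha : act T B w s = Act.ask v u x) (N : Finset V)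
    (hN : ∀ z ∈ N, s(φ x.lab, z) ∈ E) (m : ℕ) (hm : 1 ≤ m) (hmF : m ≤ (F ∩ N).card)
    (β : ℝ) (hβ : 0 ≤ β) (Ψ : V → Finset V → ℝ) (b : ℝ)
    (hΨ : ∀ R ⊆ F ∩ N, R.card = m → ∀ z ∈ F ∩ N, ∀ F' ⊆ F.erase z,
      PF T p (E ×ˢ range B) (Q ∪ R.image (pq φ x)) (insert (pq φ x z) A) ≤ β * Ψ z F')
    (hb : ∀ R ⊆ F ∩ N, R.card = m →
      PF T p (E ×ˢ range B) (Q ∪ R.image (pq φ x)) A ≤ β * b) :
    PF T p (E ×ˢ range B) Q A ≤
      β * ((1 - (1 - p) ^ m) * blk N F Ψ + (1 - p) ^ m * b) := by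
  obtain ⟨hnx, hdead, hv0, hu, hux, hxB⟩ := act_ask T B w ha
  obtain ⟨a0, ha0, ha1⟩ := pAsk_exists N F Ψ
  have hinj := pAsk_pq_inj φ x
  have hne : (F ∩ N).Nonempty := by
    rw [← Finset.card_pos]
    omega
  have hCcard : ((F ∩ N).image (pq φ x)).card = (F ∩ N).card :=
    Finset.card_image_of_injective _ hinj
  have hCS : (F ∩ N).image (pq φ x) ⊆ (E ×ˢ range B) \ Q := by
    intro e he
    obtain ⟨z, hz, rfl⟩ := Finset.mem_image.mp he
    have hz2 := Finset.mem_inter.mp hz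
    rw [Finset.mem_sdiff]
    refine ⟨?_, h.layer u x hux z hz2.1 x.asks le_rfl⟩
    rw [Finset.mem_product]
    exact ⟨hN z hz2.2, Finset.mem_range.mpr hxB⟩
  have hg : ∀ W W' : Finset (Sym2 V × ℕ), W ⊆ W' →
      ind (¬ Emb2 T (A ∪ W')) ≤ ind (¬ Emb2 T (A ∪ W)) := by
    intro W W' hWW
    refine ind_mono (fun hn hE => hn ?_)
    exact pAsk_emb_mono T (Finset.union_subset_union_right hWW) hE
  have hpre : ∀ R ⊆ (F ∩ N).image (pq φ x), R.card = m →
      ∃ R0 ⊆ F ∩ N, R0.card = m ∧ R = R0.image (pq φ x) := by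
    intro R hR hRm
    obtain ⟨R0, hR0, hR0e⟩ := Finset.subset_image_iff.mp hR
    refine ⟨R0, ?_, ?_, hR0e.symm⟩
    · exact_mod_cast hR0
    · rw [← hRm, ← hR0e, Finset.card_image_of_injective _ hinj]
  have hsd : ∀ R : Finset (Sym2 V × ℕ), ((E ×ˢ range B) \ Q) \ R = (E ×ˢ range B) \ (Q ∪ R) :=
    fun R => sdiff_sdiff_left
  have key := exp_step h0 h1 ((E ×ˢ range B) \ Q) (fun W => ind (¬ Emb2 T (A ∪ W))) hg
    ((F ∩ N).image (pq φ x)) hCS m hm (by rw [hCcard]; exact hmF)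
    (fun e => if he : ∃ z ∈ F ∩ N, pq φ x z = e then β * a0 he.choose else 0) (β * b)
    (by
      intro R hR hRm e heR
      obtain ⟨R0, hR0, hR0m, rfl⟩ := hpre R hR hRm
      obtain ⟨z, hz, rfl⟩ := Finset.mem_image.mp heR
      have hzN : z ∈ F ∩ N := hR0 hz
      have hex : ∃ z' ∈ F ∩ N, pq φ x z' = pq φ x z := ⟨z, hzN, rfl⟩
      have hch : hex.choose = z := hinj hex.choose_spec.2
      rw [dif_pos hex, hch]
      obtain ⟨S, hS, hSe⟩ := ha1 z
      rw [hSe, hsd]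
      have hFS : (F \ S).erase z ⊆ F.erase z :=
        Finset.erase_subset_erase z Finset.sdiff_subset
      have := hΨ R0 hR0 hR0m z hzN _ hFS
      unfold PF at this
      refine le_trans (le_of_eq ?_) this
      refine ex_congr p _ (fun W _ => ?_)
      rw [Finset.union_insert, Finset.insert_union])
    (by
      intro R hR hRm
      obtain ⟨R0, hR0, hR0m, rfl⟩ := hpre R hR hRm
      rw [hsd]
      have := hb R0 hR0 hR0m
      unfold PF at this
      exact this)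
  have hsum : ∑ e ∈ (F ∩ N).image (pq φ x),
      (if he : ∃ z ∈ F ∩ N, pq φ x z = e then β * a0 he.choose else 0) =
      β * ∑ z ∈ F ∩ N, a0 z := by
    rw [Finset.sum_image (fun y _ z _ hyz => hinj hyz), Finset.mul_sum]
    refine Finset.sum_congr rfl (fun z hz => ?_)
    have hex : ∃ z' ∈ F ∩ N, pq φ x z' = pq φ x z := ⟨z, hz, rfl⟩
    have hch : hex.choose = z := hinj hex.choose_spec.2
    rw [dif_pos hex, hch]
  have hmean : (∑ u ∈ F ∩ N, a0 u) / ((F ∩ N).card : ℝ) ≤ blk N F Ψ :=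
    mean_le_blk hne a0 (fun z _ S hS => ha0 z S hS)
  have hcoef : 0 ≤ 1 - (1 - p) ^ m := by
    have := pow_le_one₀ (n := m) (by linarith : (0 : ℝ) ≤ 1 - p) (by linarith)
    linarith
  rw [hsum, hCcard] at key
  unfold PF
  refine le_trans key ?_
  have h2 : (1 - (1 - p) ^ m) * (β * (∑ z ∈ F ∩ N, a0 z) / ((F ∩ N).card : ℝ)) ≤
      (1 - (1 - p) ^ m) * (β * blk N F Ψ) := by
    refine mul_le_mul_of_nonneg_left ?_ hcoef
    rw [mul_div_assoc]
    exact mul_le_mul_of_nonneg_left hmean hβ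
  linarith

end Pool.Agent.Lib.MP_56e41f_co.FQ
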