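import Pool.Agent.Lib.MP_56e41f_co.FQ.Defs
import Pool.Agent.Lib.MP_56e41f_co.StrRun

/-!
# Realisations of states: end, root, removal
-/

open Finset

namespace Pool.Agent.Lib.MP_56e41f_co.FQ

variable {V : Type*} [Fintype V] [DecidableEq V] {t Δ : ℕ}

theorem conc2_emb (T : TD t Δ) {s : St t} {φ : Lab → V} {F : Finset V}
    {Q A : Finset (Sym2 V × ℕ)} (h : Conc2 s T φ F Q A) (hn : s.nxt = none)
    (W : Finset (Sym2 V × ℕ)) : Emb2 T (A ∪ W) := by
  have hx : ∀ i, ∃ x, s.f i = some x := fun i =>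
    Option.ne_none_iff_exists'.mp (nxt_eq_none hn i)
  choose x hx using hx
  refine ⟨fun i => φ (x i).lab, fun i i' hii => h.inj i (x i) i' (x i') (hx i) (hx i') hii,
    fun i hi => ?_⟩
  obtain ⟨j, hj⟩ := h.edge i (x i) (x (T.par i)) hi (hx i) (hx (T.par i))
  exact ⟨j, mem_union_left _ hj⟩

private theorem pcoa_rec (s : St t) (v : Fin t) (i : Fin t) (x' : Nd)
    (h : (placeRoot s v).f i = some x') :
    (i = v ∧ x'.lab = [s.roots] ∧ x'.asks = 0) ∨
      (i ≠ v ∧ ∃ x0, s.f i = some x0 ∧ x'.lab = x0.lab ∧ x'.asks = x0.asks) := by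
  have e : (placeRoot s v).f =
    Function.update (bump 0 s.f) v (some ⟨[s.roots], 0, 0⟩) := rfl
  rw [e] at h
  by_cases hi : i = v
  · subst hi
    left
    rw [Function.update_self] at h
    have h2 := Option.some.inj h
    rw [← h2]
    exact ⟨rfl, rfl, rfl⟩
  · right
    rw [Function.update_of_ne hi] at h
    unfold bump at h
    refine ⟨hi, ?_⟩
    cases hf : s.f i with
    | none => rw [hf] at h; simp at h
    | some x0 =>
      rw [hf] at h
      have h2 := Option.some.inj h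
      refine ⟨x0, rfl, ?_, ?_⟩
      · rw [← h2]
      · rw [← h2]

/-- the label `[s.roots]` is new (`Str.rootlab`) -/
theorem conc2_root (T : TD t Δ) (B w : ℕ) {s : St t} {φ : Lab → V} {F : Finset V}
    {Q A : Finset (Sym2 V × ℕ)} (h : Conc2 s T φ F Q A) (hS : Str T B s) (v : Fin t)
    (ha : act T B w s = Act.root v) (z : V) (hz : z ∈ F) (F' : Finset V)
    (hF' : F' ⊆ F.erase z) :
    Conc2 (placeRoot s v) T (Function.update φ [s.roots] z) F' Q A := by
  obtain ⟨hnx, -, hv0⟩ := act_root T B w ha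
  have hnone : s.f v = none := by
    unfold St.nxt at hnx
    have h1 := List.find?_some hnx
    exact Option.isNone_iff_eq_none.mp h1
  have hlab : ∀ i x, s.f i = some x → x.lab ≠ [s.roots] := by
    intro i x hx he
    have h1 := (hS.lab i x hx).1
    rw [he] at h1
    exact lt_irrefl _ (hS.rootlab _ h1)
  have hold : ∀ i x, s.f i = some x →
      Function.update φ [s.roots] z x.lab = φ x.lab := fun i x hx =>
    Function.update_of_ne (hlab i x hx) _ _
  have hnew : Function.update φ [s.roots] z [s.roots] = z := Function.update_self _ _ _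
  have hFF : ∀ u ∈ F', u ∈ F ∧ u ≠ z := fun u hu =>
    ⟨mem_of_mem_erase (hF' hu), ne_of_mem_erase (hF' hu)⟩
  refine ⟨?_, ?_, ?_, ?_, ?_⟩
  · intro i x i' x' hx hx' he
    rcases pcoa_rec s v i x hx with ⟨e1, l1, -⟩ | ⟨n1, x0, hx0, l1, -⟩
    · rcases pcoa_rec s v i' x' hx' with ⟨e2, l2, -⟩ | ⟨n2, x0', hx0', l2, -⟩
      · rw [e1, e2]
      · exfalso
        rw [l1, l2, hnew, hold i' x0' hx0'] at he
        exact h.notF i' x0' hx0' (he ▸ hz)
    · rcases pcoa_rec s v i' x' hx' with ⟨e2, l2, -⟩ | ⟨n2, x0', hx0', l2, -⟩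
      · exfalso
        rw [l1, l2, hnew, hold i x0 hx0] at he
        exact h.notF i x0 hx0 (he ▸ hz)
      · rw [l1, l2, hold i x0 hx0, hold i' x0' hx0'] at he
        exact h.inj i x0 i' x0' hx0 hx0' he
  · intro i x hx hF
    rcases pcoa_rec s v i x hx with ⟨e1, l1, -⟩ | ⟨n1, x0, hx0, l1, -⟩
    · rw [l1, hnew] at hF
      exact (hFF z hF).2 rfl
    · rw [l1, hold i x0 hx0] at hF
      exact h.notF i x0 hx0 (hFF _ hF).1
  · intro i x y hi hx hy
    rcases pcoa_rec s v i x hx with ⟨e1, l1, -⟩ | ⟨n1, x0, hx0, l1, -⟩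
    · exact absurd (e1 ▸ hv0) hi
    · rcases pcoa_rec s v (T.par i) y hy with ⟨e2, l2, -⟩ | ⟨n2, y0, hy0, l2, -⟩
      · exfalso
        obtain ⟨y1, j, hy1, -⟩ := hS.par i x0 hx0 hi
        rw [e2, hnone] at hy1
        exact absurd hy1 (by simp)
      · rw [l1, l2, hold i x0 hx0, hold (T.par i) y0 hy0]
        exact h.edge i x0 y0 hi hx0 hy0
  · intro a ha' b hb j
    exact h.fresh a (hFF a ha').1 b (hFF b hb).1 j
  · intro i x hx u hu j hj
    rcases pcoa_rec s v i x hx with ⟨e1, l1, -⟩ | ⟨n1, x0, hx0, l1, a1⟩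
    · rw [l1, hnew]
      exact h.fresh z hz u (hFF u hu).1 j
    · rw [l1, hold i x0 hx0]
      exact h.layer i x0 hx0 u (hFF u hu).1 j (a1 ▸ hj)

theorem conc2_rem (T : TD t Δ) {s : St t} {φ : Lab → V} {F : Finset V}
    {Q A : Finset (Sym2 V × ℕ)} (h : Conc2 s T φ F Q A) (u : Fin t) :
    Conc2 (remSt T s u) T φ F Q A := by
  have hrec : ∀ i x, (remSt T s u).f i = some x → s.f i = some x := by
    intro i x hx
    unfold remSt at hx
    simp only at hx
    split_ifs at hx
    exact hx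
  refine ⟨?_, ?_, ?_, h.fresh, ?_⟩
  · intro i x i' x' hx hx' he
    exact h.inj i x i' x' (hrec i x hx) (hrec i' x' hx') he
  · intro i x hx
    exact h.notF i x (hrec i x hx)
  · intro i x y hi hx hy
    exact h.edge i x y hi (hrec i x hx) (hrec (T.par i) y hy)
  · intro i x hx z hz j hj
    exact h.layer i x (hrec i x hx) z hz j hj

end Pool.Agent.Lib.MP_56e41f_co.FQ
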