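import Mathlib

/-!
# The card process of a list of labels

The cards of `F` are turned one after the other in random order; the first one in `nb φ a`
(`a` = first unplaced label) becomes the image of `a`; the process fails when `nb φ a ∩ F` has
fewer than `m1` elements.
-/

set_option autoImplicit false

open Finset

namespace Pool.Agent.Lib.MP_56e41f_co.FQ

variable {V : Type*} [DecidableEq V] {ι : Type*} [DecidableEq ι]

/-- Failure probability of the card process (fuel: the number of cards). -/
noncomputable def pg (nb : (ι → V) → ι → Finset V) (m1 : ℕ) :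
    ℕ → List ι → (ι → V) → Finset V → ℝ
  | _, [], _, _ => 0
  | 0, _ :: _, _, _ => 1
  | n + 1, a :: rest, φ, F =>
    if (nb φ a ∩ F).card < m1 then 1
    else (∑ u ∈ nb φ a ∩ F, pg nb m1 n rest (Function.update φ a u) (F.erase u)
      + ∑ c ∈ F \ nb φ a, pg nb m1 n (a :: rest) φ (F.erase c)) / (F.card : ℝ)

theorem pg_nil (nb : (ι → V) → ι → Finset V) (m1 n : ℕ) (φ : ι → V) (F : Finset V) :
    pg nb m1 n [] φ F = 0 := by
  cases n <;> rfl

end Pool.Agent.Lib.MP_56e41f_co.FQ
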