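import Pool.Agent.Lib.MP_56e41f_co.FQ.PStop

/-!
# The percolation frame
-/

open Finset

namespace Pool.Agent.Lib.MP_56e41f_co.FQ

variable {V : Type*} [Fintype V] [DecidableEq V] {t Δ : ℕ}

/-- Induction on `n`, cf. `couple_main`. Root: every `z ∈ F ∩ N [] _` may be taken (`conc2_root`,
`mean_le_blk` with the constant `PF / β`, or directly); killed: `perc_any`. -/
theorem perc_main (T : TD t Δ) (B w : ℕ) {p : ℝ} (h0 : 0 ≤ p) (h1 : p ≤ 1)
    (E : Finset (Sym2 V)) (N : Lab → V → Finset V)
    (hN : ∀ a v, a ≠ [] → ∀ z ∈ N a v, s(v, z) ∈ E) (m : ℕ) (hm : 1 ≤ m) (M : ℕ) (β : ℝ)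
    (hβ0 : 0 ≤ β)
    (hβ : ∀ E' ⊆ E, (E \ E').card ≤ M →
      ex p (E' ×ˢ range B) (fun W => ind (¬ Emb2 T W)) ≤ β)
    (n : ℕ) (s : St t) (φ : Lab → V) (F : Finset V) (Q A : Finset (Sym2 V × ℕ))
    (hS : Str T B s) (h : Conc2 s T φ F Q A) (hQ : Q.card + n * m ≤ M) :
    PF T p (E ×ˢ range B) Q A ≤ β * Qv T B w ((1 - p) ^ m) N m n s φ F := by
  classical
  have hq0 : 0 ≤ (1 - p) ^ m := pow_nonneg (by linarith) m
  have hq1 : (1 - p) ^ m ≤ 1 := pow_le_one₀ (by linarith) (by linarith)
  induction n generalizing s φ F Q A with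
  | zero =>
    rw [Qv]
    exact perc_stop T B h0 h1 E h M (by omega) β hβ0 hβ
  | succ n ih =>
    have hnm : (n + 1) * m = n * m + m := by ring
    rw [hnm] at hQ
    have hQM : Q.card ≤ M := by omega
    have hQn : Q.card + n * m ≤ M := by omega
    have hany : PF T p (E ×ˢ range B) Q A ≤ β := perc_any T B h0 h1 E Q A M hQM β hβ
    cases ha : act T B w s with
    | stop =>
      rw [Qv, ha]
      exact perc_stop T B h0 h1 E h M hQM β hβ0 hβ
    | root v =>
      rw [Qv, ha]
      show PF T p (E ×ˢ range B) Q A ≤ β * pl N m [] s.roots φ F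
        (fun φ' F' => Qv T B w ((1 - p) ^ m) N m n (placeRoot s v) φ' F')
      unfold pl
      by_cases hm' : m ≤ (F ∩ N [] (φ [])).card
      · rw [if_pos hm']
        rcases hβ0.eq_or_lt with hb | hb
        · rw [← hb, zero_mul]
          rw [← hb] at hany
          exact hany
        · have hne : (F ∩ N [] (φ [])).Nonempty := card_pos.1 (by omega)
          have hc : (0 : ℝ) < ((F ∩ N [] (φ [])).card : ℝ) := by
            exact_mod_cast card_pos.2 hne
          have key := mean_le_blk hne (fun _ => PF T p (E ×ˢ range B) Q A / β)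
            (Ψ := fun u F' => Qv T B w ((1 - p) ^ m) N m n (placeRoot s v)
              (Function.update φ [s.roots] u) F') (by
              intro u hu S hS'
              rw [div_le_iff₀ hb, mul_comm]
              exact ih _ _ _ _ _ (Str_root T B w s v hS ha)
                (conc2_root T B w h hS v ha u (mem_inter.1 hu).1 _
                  (erase_subset_erase _ sdiff_subset)) hQn)
          rw [sum_const, nsmul_eq_mul, mul_div_cancel_left₀ _ hc.ne', div_le_iff₀ hb,
            mul_comm] at key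
          exact key
      · rw [if_neg hm', mul_one]
        exact hany
    | ask v u x =>
      rw [Qv, ha]
      show PF T p (E ×ˢ range B) Q A ≤ β * ((1 - (1 - p) ^ m) * pl N m x.lab x.asks φ F
        (fun φ' F' => Qv T B w ((1 - p) ^ m) N m n (succSt T s v u x) φ' F')
          + (1 - p) ^ m * Qv T B w ((1 - p) ^ m) N m n (failSt s u x) φ F)
      unfold pl
      obtain ⟨-, -, -, -, hux, -⟩ := act_ask T B w ha
      have hlab : x.lab ≠ [] := fun h' => hS.nonnil (h' ▸ (hS.lab u x hux).1)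
      have hcard : ∀ R : Finset V, R.card = m → (Q ∪ R.image (pq φ x)).card + n * m ≤ M := by
        intro R hR
        have e1 := card_union_le Q (R.image (pq φ x))
        have e2 : (R.image (pq φ x)).card ≤ R.card := card_image_le
        omega
      by_cases hm' : m ≤ (F ∩ N x.lab (φ x.lab)).card
      · rw [if_pos hm']
        refine perc_ask T B w h0 h1 E h v u x ha (N x.lab (φ x.lab)) (hN x.lab (φ x.lab) hlab)
          m hm hm' β hβ0 (fun z F' => Qv T B w ((1 - p) ^ m) N m n (succSt T s v u x)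
            (Function.update φ (x.asks :: x.lab) z) F') _ ?_ ?_
        · intro R hR hRm z hz F' hF'
          exact ih _ _ _ _ _ (Str_succ T B w s v u x hS ha)
            (conc2_succ T B w h hS v u x ha R (hR.trans inter_subset_left) z
              (mem_inter.1 hz).1 F' hF') (hcard R hRm)
        · intro R hR hRm
          exact ih _ _ _ _ _ (Str_fail T B w s v u x hS ha)
            (conc2_fail T B w h hS v u x ha R (hR.trans inter_subset_left)) (hcard R hRm)
      · rw [if_neg hm']
        have h2 := conc2_fail T B w h hS v u x ha ∅ (empty_subset F)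
        rw [image_empty, union_empty] at h2
        have h3 := ih _ _ _ _ _ (Str_fail T B w s v u x hS ha) h2 hQn
        have h4 := mul_le_mul_of_nonneg_left hany (sub_nonneg.2 hq1)
        have h5 := mul_le_mul_of_nonneg_left h3 hq0
        calc PF T p (E ×ˢ range B) Q A
            = (1 - (1 - p) ^ m) * PF T p (E ×ˢ range B) Q A
              + (1 - p) ^ m * PF T p (E ×ˢ range B) Q A := by ring
          _ ≤ (1 - (1 - p) ^ m) * β + (1 - p) ^ m *
              (β * Qv T B w ((1 - p) ^ m) N m n (failSt s u x) φ F) := add_le_add h4 h5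
          _ = _ := by ring
    | rem u =>
      rw [Qv, ha]
      exact ih _ _ _ _ _ (Str_rem T B w s u hS ha) (conc2_rem T h u) hQn

/-- finitely many starts with weights -/
theorem perc_starts (T : TD t Δ) (B w : ℕ) {p : ℝ} (h0 : 0 ≤ p) (h1 : p ≤ 1)
    (E : Finset (Sym2 V)) (N : Lab → V → Finset V)
    (hN : ∀ a v, a ≠ [] → ∀ z ∈ N a v, s(v, z) ∈ E) (m : ℕ) (hm : 1 ≤ m) (M : ℕ) (β : ℝ)
    (hβ0 : 0 ≤ β)
    (hβ : ∀ E' ⊆ E, (E \ E').card ≤ M →
      ex p (E' ×ˢ range B) (fun W => ind (¬ Emb2 T W)) ≤ β)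
    (n : ℕ) (hnM : n * m ≤ M) (s : St t) (hS : Str T B s) {ι : Type*} (I : Finset ι)
    (ω : ι → ℝ) (hω : ∀ i ∈ I, 0 ≤ ω i) (φ : ι → Lab → V) (F : ι → Finset V)
    (h : ∀ i ∈ I, Conc2 s T (φ i) (F i) ∅ ∅) :
    (∑ i ∈ I, ω i) * ex p (E ×ˢ range B) (fun W => ind (¬ Emb2 T W)) ≤
      β * ∑ i ∈ I, ω i * Qv T B w ((1 - p) ^ m) N m n s (φ i) (F i) := by
  classical
  have e0 : ex p (E ×ˢ range B) (fun W => ind (¬ Emb2 T W)) =
      PF T p (E ×ˢ range B) ∅ ∅ := by
    unfold PF
    rw [sdiff_empty]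
    refine ex_congr p _ (fun W _ => ?_)
    rw [empty_union]
  rw [e0, sum_mul, mul_sum]
  refine sum_le_sum fun i hi => ?_
  have h2 := perc_main T B w h0 h1 E N hN m hm M β hβ0 hβ n s (φ i) (F i) ∅ ∅ hS (h i hi)
    (by rw [card_empty]; omega)
  calc ω i * PF T p (E ×ˢ range B) ∅ ∅
      ≤ ω i * (β * Qv T B w ((1 - p) ^ m) N m n s (φ i) (F i)) :=
        mul_le_mul_of_nonneg_left h2 (hω i hi)
    _ = _ := by ring

end Pool.Agent.Lib.MP_56e41f_co.FQ
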