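import Pool.Agent.Lib.MP_56e41f_co.Ex

/-!
# Exposing one layer
-/

open Finset

namespace Pool.Agent.Lib.MP_56e41f_co.FQ

variable {α : Type*} [DecidableEq α]

private theorem pst_main (W : ℕ → ℝ) (C : Finset α) (ψ : α → ℝ) :
    ∑ F ∈ C.powerset, W F.card * ∑ u ∈ F, ψ u =
      (∑ m ∈ range C.card, ((C.card - 1).choose m : ℝ) * W (m + 1)) * ∑ u ∈ C, ψ u := by
  have h1 : ∀ F ∈ C.powerset, W F.card * ∑ u ∈ F, ψ u =
      ∑ u ∈ C, if u ∈ F then W F.card * ψ u else 0 := by
    intro F hF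
    rw [← Finset.sum_filter, Finset.filter_mem_eq_inter,
      Finset.inter_eq_right.2 (Finset.mem_powerset.1 hF), Finset.mul_sum]
  rw [Finset.sum_congr rfl h1, Finset.sum_comm, Finset.mul_sum]
  refine Finset.sum_congr rfl fun u hu => ?_
  have h2 : ∑ F ∈ C.powerset, (if u ∈ F then W F.card * ψ u else 0) =
      ∑ F ∈ (insert u (C.erase u)).powerset, (if u ∈ F then W F.card * ψ u else 0) := by
    rw [Finset.insert_erase hu]
  rw [h2, Finset.sum_powerset_insert (Finset.notMem_erase u C)]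
  have h3 : ∑ F ∈ (C.erase u).powerset, (if u ∈ F then W F.card * ψ u else 0) = 0 := by
    refine Finset.sum_eq_zero fun F hF => ?_
    rw [if_neg fun h => Finset.notMem_erase u C (Finset.mem_powerset.1 hF h)]
  have h4 : ∑ F ∈ (C.erase u).powerset,
      (if u ∈ insert u F then W (insert u F).card * ψ u else 0) =
      ∑ F ∈ (C.erase u).powerset, W (F.card + 1) * ψ u := by
    refine Finset.sum_congr rfl fun F hF => ?_
    rw [if_pos (Finset.mem_insert_self u F), Finset.card_insert_of_notMem fun h =>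
      Finset.notMem_erase u C (Finset.mem_powerset.1 hF h)]
  have hc : 0 < C.card := Finset.card_pos.2 ⟨u, hu⟩
  rw [h3, h4, zero_add, Finset.sum_powerset_apply_card (fun m => W (m + 1) * ψ u),
    Finset.card_erase_of_mem hu, Nat.sub_add_cancel hc, Finset.sum_mul]
  refine Finset.sum_congr rfl fun m _ => ?_
  rw [nsmul_eq_mul]
  ring

private theorem pst_emp (q : ℝ) (C : Finset α) :
    ex q C (fun O => ind (O = ∅)) = (1 - q) ^ C.card := by
  unfold ex
  rw [Finset.sum_eq_single ∅]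
  · beta_reduce
    rw [ind_true rfl, Finset.card_empty, pow_zero, one_mul, mul_one, Nat.sub_zero]
  · intro F _ hF
    beta_reduce
    rw [ind_false hF, mul_zero]
  · intro h
    exact absurd (Finset.empty_mem_powerset C) h

/-- symmetry: the average over a random nonempty subset of `C` (cf. `LD.ex_avg`) -/
theorem ex_mean (q : ℝ) (C : Finset α) (ψ : α → ℝ) :
    ex q C (fun O => (∑ u ∈ O, ψ u) / (O.card : ℝ)) =
      (1 - (1 - q) ^ C.card) * ((∑ u ∈ C, ψ u) / (C.card : ℝ)) := by
  obtain ⟨W, hW⟩ : ∃ W : ℕ → ℝ, W = fun k => q ^ k * (1 - q) ^ (C.card - k) / (k : ℝ) := ⟨_, rfl⟩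
  obtain ⟨S, hS⟩ : ∃ S : ℝ, S = ∑ m ∈ range C.card, ((C.card - 1).choose m : ℝ) * W (m + 1) :=
    ⟨_, rfl⟩
  have h1 : ∀ ψ : α → ℝ, ex q C (fun O => (∑ u ∈ O, ψ u) / (O.card : ℝ)) = S * ∑ u ∈ C, ψ u := by
    intro ψ
    rw [hS, ← pst_main]
    unfold ex
    refine Finset.sum_congr rfl fun F _ => ?_
    rw [hW]
    ring
  have h2 : ex q C (fun O => (∑ u ∈ O, (fun _ => (1 : ℝ)) u) / (O.card : ℝ)) =
      1 - (1 - q) ^ C.card := by
    rw [← pst_emp q C]
    rw [ex_congr q C (g := fun O => 1 - ind (O = ∅)), ex_sub, ex_const]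
    intro F _
    simp only [Finset.sum_const, nsmul_eq_mul, mul_one]
    by_cases hF : F = ∅
    · rw [ind_true hF, hF, Finset.card_empty, Nat.cast_zero, div_zero, sub_self]
    · have h3 : (F.card : ℝ) ≠ 0 := by
        rw [Ne, Nat.cast_eq_zero, Finset.card_eq_zero]
        exact hF
      rw [ind_false hF, div_self h3, sub_zero]
  rw [h1] at h2
  simp only [Finset.sum_const, nsmul_eq_mul, mul_one] at h2
  rw [h1, ← h2]
  rcases Finset.eq_empty_or_nonempty C with hC | hC
  · rw [hC, Finset.card_empty, Finset.sum_empty]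
    ring
  · have h3 : (C.card : ℝ) ≠ 0 := by
      rw [Ne, Nat.cast_eq_zero, Finset.card_eq_zero]
      exact hC.ne_empty
    field_simp

theorem ex_emp (q : ℝ) (C : Finset α) : ex q C (fun O => ind (O = ∅)) = (1 - q) ^ C.card :=
  pst_emp q C

/-- Exposing the elements of `R`: if `O = R ∩ W` is nonempty use `g W ≤ g (insert e (W \ R))` for
`e ∈ O` and average over `e ∈ O`. -/
theorem exp_one {p : ℝ} (h0 : 0 ≤ p) (h1 : p ≤ 1) (S : Finset α) (g : Finset α → ℝ)
    (hg : ∀ W W', W ⊆ W' → g W' ≤ g W) (R : Finset α) (hR : R ⊆ S) (hne : R.Nonempty)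
    (a : α → ℝ) (b : ℝ)
    (ha : ∀ e ∈ R, ex p (S \ R) (fun W => g (insert e W)) ≤ a e)
    (hb : ex p (S \ R) g ≤ b) :
    ex p S g ≤ (1 - (1 - p) ^ R.card) * ((∑ e ∈ R, a e) / (R.card : ℝ))
      + (1 - p) ^ R.card * b := by
  have hS : ex p S g = ex p (R ∪ S \ R) g := by
    rw [Finset.union_sdiff_of_subset hR]
  have h2 : ∀ F ⊆ R, ex p (S \ R) (fun F' => g (F ∪ F'))
      ≤ (∑ e ∈ F, a e) / (F.card : ℝ) + b * ind (F = ∅) := by
    intro F hF
    by_cases hF0 : F = ∅
    · rw [ind_true hF0, hF0, Finset.card_empty, Finset.sum_empty, zero_div, zero_add, mul_one]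
      have h3 : ex p (S \ R) (fun F' => g (∅ ∪ F')) = ex p (S \ R) g :=
        ex_congr p (S \ R) (fun F' _ => by rw [Finset.empty_union])
      rw [h3]
      exact hb
    · rw [ind_false hF0, mul_zero, add_zero]
      have hpos : (0 : ℝ) < (F.card : ℝ) := by
        exact_mod_cast Finset.card_pos.2 (Finset.nonempty_iff_ne_empty.2 hF0)
      rw [le_div_iff₀ hpos]
      have h4 : ∀ e ∈ F, ex p (S \ R) (fun F' => g (F ∪ F')) ≤ a e := by
        intro e he
        refine le_trans ?_ (ha e (hF he))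
        refine ex_mono h0 h1 (S \ R) (fun F' _ => hg _ _ ?_)
        intro x hx
        rcases Finset.mem_insert.1 hx with h5 | h5
        · rw [h5]
          exact Finset.mem_union_left _ he
        · exact Finset.mem_union_right _ h5
      have h6 := Finset.sum_le_sum h4
      rw [Finset.sum_const, nsmul_eq_mul] at h6
      linarith
  rw [hS, ex_union p R (S \ R) Finset.disjoint_sdiff g]
  refine le_trans (ex_mono h0 h1 R h2) ?_
  rw [ex_add, ex_mean, ex_mul_left, pst_emp]
  linarith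

end Pool.Agent.Lib.MP_56e41f_co.FQ
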