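import Pool.Agent.Lib.MP_56e41f_co.FQ.PStA

/-!
# Exposing one layer at a random set of size `m`
-/

open Finset

namespace Pool.Agent.Lib.MP_56e41f_co.FQ

variable {α : Type*} [DecidableEq α]

private theorem card_mem_powersetCard (C : Finset α) (m : ℕ) (hm : 1 ≤ m) (e : α) (he : e ∈ C) :
    ((C.powersetCard m).filter (fun R => e ∈ R)).card = (C.card - 1).choose (m - 1) := by
  rw [← Finset.card_erase_of_mem he, ← Finset.card_powersetCard]
  refine Finset.card_nbij' (fun R => R.erase e) (fun R => insert e R) ?_ ?_ ?_ ?_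
  · intro R hR
    rw [mem_coe, mem_filter, mem_powersetCard] at hR
    rw [mem_coe, mem_powersetCard]
    exact ⟨erase_subset_erase e hR.1.1, by rw [card_erase_of_mem hR.2, hR.1.2]⟩
  · intro R hR
    rw [mem_coe, mem_powersetCard] at hR
    have heR : e ∉ R := fun h => (notMem_erase e C) (hR.1 h)
    rw [mem_coe, mem_filter, mem_powersetCard]
    refine ⟨⟨?_, ?_⟩, mem_insert_self e R⟩
    · intro x hx
      rcases mem_insert.1 hx with h | h
      · rw [h]; exact he
      · exact mem_of_mem_erase (hR.1 h)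
    · rw [card_insert_of_notMem heR, hR.2]
      omega
  · intro R hR
    rw [mem_coe, mem_filter] at hR
    exact insert_erase hR.2
  · intro R hR
    rw [mem_coe, mem_powersetCard] at hR
    have heR : e ∉ R := fun h => (notMem_erase e C) (hR.1 h)
    exact erase_insert heR

/-- mean over the subsets of size `m` of the means -/
theorem mean_powersetCard (C : Finset α) (m : ℕ) (hm : 1 ≤ m) (hmC : m ≤ C.card) (a : α → ℝ) :
    ∑ R ∈ C.powersetCard m, (∑ e ∈ R, a e) / (m : ℝ) =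
      ((C.powersetCard m).card : ℝ) * ((∑ e ∈ C, a e) / (C.card : ℝ)) := by
  have h1 : ∑ R ∈ C.powersetCard m, ∑ e ∈ R, a e
      = ∑ e ∈ C, ∑ R ∈ (C.powersetCard m).filter (fun R => e ∈ R), a e := by
    refine Finset.sum_comm' ?_
    intro R e
    rw [mem_filter]
    constructor
    · rintro ⟨h2, h3⟩
      exact ⟨⟨h2, h3⟩, (mem_powersetCard.1 h2).1 h3⟩
    · rintro ⟨⟨h2, h3⟩, _⟩
      exact ⟨h2, h3⟩
  have h2 : ∑ R ∈ C.powersetCard m, ∑ e ∈ R, a e
      = (((C.card - 1).choose (m - 1) : ℕ) : ℝ) * ∑ e ∈ C, a e := by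
    rw [h1, mul_sum]
    refine sum_congr rfl fun e he => ?_
    rw [sum_const, nsmul_eq_mul, card_mem_powersetCard C m hm e he]
  have h3 : C.card * (C.card - 1).choose (m - 1) = C.card.choose m * m := by
    obtain ⟨c, hc⟩ : ∃ c, C.card = c + 1 := ⟨C.card - 1, by omega⟩
    obtain ⟨k, hk⟩ : ∃ k, m = k + 1 := ⟨m - 1, by omega⟩
    rw [hc, hk]
    exact Nat.add_one_mul_choose_eq c k
  have h4 : (C.card : ℝ) * (((C.card - 1).choose (m - 1) : ℕ) : ℝ)
      = ((C.card.choose m : ℕ) : ℝ) * (m : ℝ) := by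
    exact_mod_cast h3
  have hC0 : (C.card : ℝ) ≠ 0 := by
    have : 0 < C.card := by omega
    exact_mod_cast this.ne'
  have hm0 : (m : ℝ) ≠ 0 := by
    have : 0 < m := by omega
    exact_mod_cast this.ne'
  rw [← sum_div, h2, card_powersetCard]
  rw [← mul_div_assoc, div_eq_div_iff hm0 hC0]
  linear_combination (∑ e ∈ C, a e) * h4

/-- average of `exp_one` over `R ∈ C.powersetCard m` -/
theorem exp_step {p : ℝ} (h0 : 0 ≤ p) (h1 : p ≤ 1) (S : Finset α) (g : Finset α → ℝ)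
    (hg : ∀ W W', W ⊆ W' → g W' ≤ g W) (C : Finset α) (hC : C ⊆ S) (m : ℕ) (hm : 1 ≤ m)
    (hmC : m ≤ C.card) (a : α → ℝ) (b : ℝ)
    (ha : ∀ R ⊆ C, R.card = m → ∀ e ∈ R, ex p (S \ R) (fun W => g (insert e W)) ≤ a e)
    (hb : ∀ R ⊆ C, R.card = m → ex p (S \ R) g ≤ b) :
    ex p S g ≤ (1 - (1 - p) ^ m) * ((∑ e ∈ C, a e) / (C.card : ℝ)) + (1 - p) ^ m * b := by
  have hN : (0 : ℝ) < ((C.powersetCard m).card : ℝ) := by
    rw [card_powersetCard]
    exact_mod_cast Nat.choose_pos hmC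
  have h2 : ∀ R ∈ C.powersetCard m, ex p S g ≤
      (1 - (1 - p) ^ m) * ((∑ e ∈ R, a e) / (m : ℝ)) + (1 - p) ^ m * b := by
    intro R hR
    rw [mem_powersetCard] at hR
    have hne : R.Nonempty := by
      rw [← card_pos]
      omega
    have h3 := exp_one h0 h1 S g hg R (hR.1.trans hC) hne a b (ha R hR.1 hR.2) (hb R hR.1 hR.2)
    rw [hR.2] at h3
    exact h3
  have h3 := sum_le_sum h2
  rw [sum_const, nsmul_eq_mul, sum_add_distrib, sum_const, nsmul_eq_mul, ← mul_sum,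
    mean_powersetCard C m hm hmC a] at h3
  have h4 : ((C.powersetCard m).card : ℝ) * ex p S g ≤ ((C.powersetCard m).card : ℝ) *
      ((1 - (1 - p) ^ m) * ((∑ e ∈ C, a e) / (C.card : ℝ)) + (1 - p) ^ m * b) := by
    refine h3.trans (le_of_eq ?_)
    ring
  exact le_of_mul_le_mul_left h4 hN

end Pool.Agent.Lib.MP_56e41f_co.FQ
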