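import Pool.Agent.Lib.MP_56e41f_co.FQ.PAsk

/-!
# Leaves of the exposure
-/

open Finset

namespace Pool.Agent.Lib.MP_56e41f_co.FQ

variable {V : Type*} [Fintype V] [DecidableEq V] {t Δ : ℕ}

omit [Fintype V] [DecidableEq V] in
private theorem pst_mono {T : TD t Δ} {W W' : Finset (Sym2 V × ℕ)} (h : W ⊆ W')
    (hE : Emb2 T W) : Emb2 T W' := by
  obtain ⟨φ, hφ, h1⟩ := hE
  refine ⟨φ, hφ, fun i hi => ?_⟩
  obtain ⟨j, hj⟩ := h1 i hi
  exact ⟨j, h hj⟩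

/-- The pairs above the edges without exposed pair are fresh: with
`E' = E.filter (fun e => ∀ j, (e, j) ∉ Q)`, `|E \ E'| ≤ |Q|`, `E' ×ˢ range B ⊆ E ×ˢ range B \ Q`,
and more pairs only help. -/
theorem perc_any (T : TD t Δ) (B : ℕ) {p : ℝ} (h0 : 0 ≤ p) (h1 : p ≤ 1)
    (E : Finset (Sym2 V)) (Q A : Finset (Sym2 V × ℕ)) (M : ℕ) (hQ : Q.card ≤ M) (β : ℝ)
    (hβ : ∀ E' ⊆ E, (E \ E').card ≤ M →
      ex p (E' ×ˢ range B) (fun W => ind (¬ Emb2 T W)) ≤ β) :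
    PF T p (E ×ˢ range B) Q A ≤ β := by
  classical
  have hE : E \ E.filter (fun e => ∀ j, (e, j) ∉ Q) ⊆ Q.image Prod.fst := by
    intro e he
    rw [mem_sdiff, mem_filter] at he
    obtain ⟨he1, he2⟩ := he
    have he3 : ¬ ∀ j, (e, j) ∉ Q := fun hc => he2 ⟨he1, hc⟩
    push Not at he3
    obtain ⟨j, hj⟩ := he3
    exact mem_image.2 ⟨(e, j), hj, rfl⟩
  have hcard : (E \ E.filter (fun e => ∀ j, (e, j) ∉ Q)).card ≤ M :=
    ((card_le_card hE).trans card_image_le).trans hQ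
  refine le_trans ?_ (hβ (E.filter (fun e => ∀ j, (e, j) ∉ Q)) (filter_subset _ _) hcard)
  have hsub : E.filter (fun e => ∀ j, (e, j) ∉ Q) ×ˢ range B ⊆ (E ×ˢ range B) \ Q := by
    intro z hz
    rw [mem_product, mem_filter] at hz
    rw [mem_sdiff, mem_product]
    exact ⟨⟨hz.1.1, hz.2⟩, hz.1.2 z.2⟩
  unfold PF
  have hun : (E ×ˢ range B) \ Q = (E.filter (fun e => ∀ j, (e, j) ∉ Q) ×ˢ range B) ∪
      (((E ×ˢ range B) \ Q) \ (E.filter (fun e => ∀ j, (e, j) ∉ Q) ×ˢ range B)) :=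
    (union_sdiff_of_subset hsub).symm
  rw [hun, ex_union _ _ _ disjoint_sdiff]
  refine ex_mono h0 h1 _ fun W _ => ?_
  have h2 : ind (¬ Emb2 T W) =
      ex p (((E ×ˢ range B) \ Q) \ (E.filter (fun e => ∀ j, (e, j) ∉ Q) ×ˢ range B))
        (fun _ => ind (¬ Emb2 T W)) := (ex_const _ _ _).symm
  rw [h2]
  refine ex_mono h0 h1 _ fun W' _ => ?_
  refine ind_mono fun hn hW => hn (pst_mono ?_ hW)
  exact fun z hz => mem_union_right _ (mem_union_left _ hz)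

/-- at a final state -/
theorem perc_stop (T : TD t Δ) (B : ℕ) {p : ℝ} (h0 : 0 ≤ p) (h1 : p ≤ 1)
    (E : Finset (Sym2 V)) {s : St t} {φ : Lab → V} {F : Finset V}
    {Q A : Finset (Sym2 V × ℕ)} (h : Conc2 s T φ F Q A) (M : ℕ) (hQ : Q.card ≤ M) (β : ℝ)
    (hβ0 : 0 ≤ β)
    (hβ : ∀ E' ⊆ E, (E \ E').card ≤ M →
      ex p (E' ×ˢ range B) (fun W => ind (¬ Emb2 T W)) ≤ β) :
    PF T p (E ×ˢ range B) Q A ≤ β * ind (s.nxt ≠ none) := by
  by_cases hn : s.nxt = none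
  · rw [ind_false (fun hc => hc hn), mul_zero]
    have hall : ∀ i, ∃ x, s.f i = some x := fun i =>
      Option.ne_none_iff_exists'.mp (nxt_eq_none hn i)
    choose g hg using hall
    have hA : Emb2 T A := by
      refine ⟨fun i => φ (g i).lab, fun i i' hii => h.inj i _ i' _ (hg i) (hg i') hii,
        fun i hi => ?_⟩
      exact h.edge i _ _ hi (hg i) (hg (T.par i))
    unfold PF
    have h2 : ex p ((E ×ˢ range B) \ Q) (fun W => ind (¬ Emb2 T (A ∪ W))) =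
        ex p ((E ×ˢ range B) \ Q) (fun _ => 0) :=
      ex_congr _ _ fun W _ => ind_false fun hc => hc (pst_mono subset_union_left hA)
    rw [h2, ex_const]
  · rw [ind_true hn, mul_one]
    exact perc_any T B h0 h1 E Q A M hQ β hβ

end Pool.Agent.Lib.MP_56e41f_co.FQ
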