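import Pool.Agent.Lib.MP_56e41f_co.FQ.QdA

/-!
# From labels to numbers
-/

open Finset

namespace Pool.Agent.Lib.MP_56e41f_co.FQ

variable {V : Type*} [Fintype V] [DecidableEq V] {t Δ : ℕ}

/-- `L` is a list of labels, closed under parents: the parent of the `k`-th label (`1 ≤ k`) is the
`p k`-th label, `p k < k`; the `0`-th label is empty. -/
structure Pln (L : List Lab) (p : ℕ → ℕ) : Prop where
  nd : L.Nodup
  zero : L[0]? = some []
  par : ∀ k, 1 ≤ k → k < L.length → p k < k ∧
    ∃ i a, L[k]? = some (i :: a) ∧ L[p k]? = some a

/-- The card process on labels is the card process on numbers, `x i = φ (L[i])`. Induction on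
`r = L.length - k`; updating `φ` at the new label does not change the other positions
(`L.Nodup`). -/
theorem pv_eq_pn (N : Lab → V → Finset V) (m : ℕ) (L : List Lab) (p : ℕ → ℕ) (hL : Pln L p)
    (r k : ℕ) (hk : 1 ≤ k) (hr : k + r = L.length) (φ : Lab → V) (x : ℕ → V)
    (hx : ∀ i < k, ∀ a, L[i]? = some a → x i = φ a) (F : Finset V) :
    pv N m (L.drop k) φ F = pn (fun i => N (L.getD i [])) p m r k x F := by
  induction r generalizing k φ x F with
  | zero =>
    have h1 : L.drop k = [] := List.drop_eq_nil_of_le (by omega)
    rw [h1, pv, pn]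
  | succ r ih =>
    have hk' : k < L.length := by omega
    obtain ⟨h1, i, a, h2, h3⟩ := hL.par k hk hk'
    have hLk : L[k] = i :: a := by
      rw [List.getElem?_eq_getElem hk'] at h2
      exact Option.some.inj h2
    have h4 : L.drop k = (i :: a) :: L.drop (k + 1) := by
      rw [List.drop_eq_getElem_cons hk', hLk]
    have h5 : L.getD (p k) [] = a := by
      rw [List.getD_eq_getElem?_getD, h3]
      rfl
    have h6 : x (p k) = φ a := hx (p k) h1 a h3
    have h7 : ∀ u F', pv N m (L.drop (k + 1)) (Function.update φ (i :: a) u) F' =
        pn (fun i => N (L.getD i [])) p m r (k + 1) (Function.update x k u) F' := by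
      intro u F'
      refine ih (k + 1) (by omega) (by omega) _ _ (fun j hj b hb => ?_) F'
      rcases Nat.lt_succ_iff_lt_or_eq.1 hj with hj' | rfl
      · have hjl : j < L.length := by omega
        have hne : b ≠ i :: a := by
          rintro rfl
          rw [List.getElem?_eq_getElem hjl] at hb
          have e1 : L[j] = L[k] := by rw [hLk]; exact Option.some.inj hb
          exact hj'.ne ((hL.nd.getElem_inj_iff).1 e1)
        rw [Function.update_of_ne hj'.ne, Function.update_of_ne hne]
        exact hx j hj' b hb
      · have e2 : b = i :: a := by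
          rw [h2] at hb
          exact (Option.some.inj hb).symm
        rw [e2, Function.update_self, Function.update_self]
    rw [h4, pv, pl, pn]
    simp only [h5, h6, h7]

end Pool.Agent.Lib.MP_56e41f_co.FQ
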