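import Pool.Agent.Lib.MP_56e41f_co.FQ.BlkB
import Pool.Agent.Lib.MP_56e41f_co.ValEq

/-!
# Expectation over the bits of the card process
-/

open Finset

namespace Pool.Agent.Lib.MP_56e41f_co.FQ

variable {V : Type*} [Fintype V] [DecidableEq V] {t Δ : ℕ}

/-- expectations commute with one placement -/
theorem pl_ex (N : Lab → V → Finset V) (m : ℕ) (a : Lab) (i : ℕ) (φ : Lab → V)
    (F : Finset V) (p : ℝ) (E : Finset Lab) (Θ : Finset Lab → (Lab → V) → Finset V → ℝ) :
    pl N m a i φ F (fun φ' F' => ex p E (fun b => Θ b φ' F')) =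
      ex p E (fun b => pl N m a i φ F (Θ b)) := by
  by_cases h : m ≤ (F ∩ N a (φ a)).card
  · have h1 : ∀ Θ' : (Lab → V) → Finset V → ℝ, pl N m a i φ F Θ' =
        blk (N a (φ a)) F (fun u F' => Θ' (Function.update φ (i :: a) u) F') := by
      intro Θ'
      unfold pl
      rw [if_pos h]
    rw [h1]
    simp only [h1]
    unfold ex
    refine (blk_sum E.powerset _ _ (fun b u F' => p ^ b.card * (1 - p) ^ (E.card - b.card) *
      Θ b (Function.update φ (i :: a) u) F')).trans ?_
    exact Finset.sum_congr rfl fun b _ => blk_smul _ _ _ _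
  · have h1 : ∀ Θ' : (Lab → V) → Finset V → ℝ, pl N m a i φ F Θ' = 1 := by
      intro Θ'
      unfold pl
      rw [if_neg h]
    rw [h1]
    simp only [h1]
    rw [ex_const]

private theorem qva_pl_nonneg (N : Lab → V → Finset V) (m : ℕ) (a : Lab) (i : ℕ) (φ : Lab → V)
    (F : Finset V) (Θ : (Lab → V) → Finset V → ℝ) (h : ∀ φ' F', 0 ≤ Θ φ' F') :
    0 ≤ pl N m a i φ F Θ := by
  unfold pl
  split_ifs with hm
  · exact blk_nonneg fun u _ S _ => h _ _
  · exact zero_le_one

private theorem qva_pl_le_one (N : Lab → V → Finset V) (m : ℕ) (hm : 1 ≤ m) (a : Lab) (i : ℕ)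
    (φ : Lab → V) (F : Finset V) (Θ : (Lab → V) → Finset V → ℝ) (h : ∀ φ' F', Θ φ' F' ≤ 1) :
    pl N m a i φ F Θ ≤ 1 := by
  unfold pl
  split_ifs with hc
  · have hne : (F ∩ N a (φ a)).Nonempty := Finset.card_pos.1 (by omega)
    calc blk (N a (φ a)) F (fun u F' => Θ (Function.update φ (i :: a) u) F')
        ≤ blk (N a (φ a)) F (fun _ _ => 1) := blk_mono fun u _ S _ => h _ _
      _ = 1 := blk_const hne 1
  · exact le_rfl

theorem Qd_nonneg (T : TD t Δ) (B w : ℕ) (b : Finset Lab) (N : Lab → V → Finset V) (m : ℕ)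
    (n : ℕ) (s : St t) (φ : Lab → V) (F : Finset V) : 0 ≤ Qd T B w b N m n s φ F := by
  induction n generalizing s φ F with
  | zero => exact ind_nonneg _
  | succ n ih =>
    rcases hact : act T B w s with _ | v | ⟨v, u, x⟩ | u
    · simp only [Qd, hact]
      exact ind_nonneg _
    · simp only [Qd, hact]
      exact qva_pl_nonneg _ _ _ _ _ _ _ fun φ' F' => ih _ _ _
    · simp only [Qd, hact]
      split_ifs with hin
      · exact qva_pl_nonneg _ _ _ _ _ _ _ fun φ' F' => ih _ _ _
      · exact ih _ _ _
    · simp only [Qd, hact]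
      exact ih _ _ _

theorem Qd_le_one (T : TD t Δ) (B w : ℕ) (b : Finset Lab) (N : Lab → V → Finset V) (m : ℕ)
    (hm : 1 ≤ m) (n : ℕ) (s : St t) (φ : Lab → V) (F : Finset V) :
    Qd T B w b N m n s φ F ≤ 1 := by
  induction n generalizing s φ F with
  | zero => exact ind_le_one _
  | succ n ih =>
    rcases hact : act T B w s with _ | v | ⟨v, u, x⟩ | u
    · simp only [Qd, hact]
      exact ind_le_one _
    · simp only [Qd, hact]
      exact qva_pl_le_one _ _ hm _ _ _ _ _ fun φ' F' => ih _ _ _
    · simp only [Qd, hact]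
      split_ifs with hin
      · exact qva_pl_le_one _ _ hm _ _ _ _ _ fun φ' F' => ih _ _ _
      · exact ih _ _ _
    · simp only [Qd, hact]
      exact ih _ _ _

private theorem qva_bump {e : ℕ} {f : Fin t → Option Nd} {i : Fin t} {y : Nd}
    (h : bump e f i = some y) : ∃ x, f i = some x ∧ y = ⟨x.lab, x.asks, max x.lev e⟩ := by
  unfold bump at h
  rw [Option.map_eq_some_iff] at h
  obtain ⟨x, hx, rfl⟩ := h
  exact ⟨x, hx, rfl⟩

private theorem qva_root (T : TD t Δ) (B : ℕ) (s : St t) (v : Fin t) (h : Str T B s) :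
    consumed s ⊆ consumed (placeRoot s v) := by
  rintro l ⟨j, a, rfl, ha, hl⟩
  refine ⟨j, a, rfl, List.mem_cons_of_mem _ ha, ?_⟩
  intro i y hy hya
  change Function.update (bump 0 s.f) v (some ⟨[s.roots], 0, 0⟩) i = some y at hy
  by_cases hi : i = v
  · subst hi
    rw [Function.update_self, Option.some.injEq] at hy
    subst hy
    rw [← hya] at ha
    exact absurd (h.rootlab _ ha) (lt_irrefl _)
  · rw [Function.update_of_ne hi] at hy
    obtain ⟨x, hx, rfl⟩ := qva_bump hy
    exact hl i x hx hya

private theorem qva_fail (s : St t) (u : Fin t) (x : Nd) (hu : s.f u = some x) :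
    consumed s ⊆ consumed (failSt s u x) := by
  rintro l ⟨j, a, rfl, ha, hl⟩
  refine ⟨j, a, rfl, ha, ?_⟩
  intro i y hy hya
  change Function.update s.f u (some ⟨x.lab, x.asks + 1, x.lev⟩) i = some y at hy
  by_cases hi : i = u
  · subst hi
    rw [Function.update_self, Option.some.injEq] at hy
    subst hy
    have := hl i x hu hya
    change j < x.asks + 1
    omega
  · rw [Function.update_of_ne hi] at hy
    exact hl i y hy hya

private theorem qva_succ (T : TD t Δ) (B : ℕ) (s : St t) (v u : Fin t) (x : Nd)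
    (h : Str T B s) (hu : s.f u = some x) : consumed s ⊆ consumed (succSt T s v u x) := by
  rintro l ⟨j, a, rfl, ha, hl⟩
  refine ⟨j, a, rfl, List.mem_cons_of_mem _ ha, ?_⟩
  intro i y hy hya
  change Function.update
      (bump (T.dep v) (Function.update s.f u (some ⟨x.lab, x.asks + 1, x.lev⟩))) v
      (some ⟨x.asks :: x.lab, 0, T.dep v⟩) i = some y at hy
  by_cases hi : i = v
  · subst hi
    rw [Function.update_self, Option.some.injEq] at hy
    subst hy
    rw [← hya] at ha
    exact absurd (h.slot u x _ hu ha) (lt_irrefl _)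
  · rw [Function.update_of_ne hi] at hy
    obtain ⟨z, hz, rfl⟩ := qva_bump hy
    by_cases hi' : i = u
    · subst hi'
      rw [Function.update_self, Option.some.injEq] at hz
      subst hz
      have := hl i x hu hya
      change j < x.asks + 1
      omega
    · rw [Function.update_of_ne hi'] at hz
      exact hl i z hz hya

private theorem qva_rem (T : TD t Δ) (s : St t) (u : Fin t) :
    consumed s ⊆ consumed (remSt T s u) := by
  classical
  rintro l ⟨j, a, rfl, ha, hl⟩
  refine ⟨j, a, rfl, ha, ?_⟩
  intro i y hy hya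
  unfold remSt at hy
  simp only at hy
  split_ifs at hy
  exact hl i y hy hya

private theorem qva_fresh {s : St t} {u : Fin t} {x : Nd} (hu : s.f u = some x) :
    x.asks :: x.lab ∉ consumed s := by
  rintro ⟨j, a, he, -, hl⟩
  rw [List.cons.injEq] at he
  obtain ⟨rfl, rfl⟩ := he
  exact absurd (hl u x hu rfl) (lt_irrefl _)

/-- `Qd` does not read the consumed labels; proof as `run_dep` (repeat its private lemmas on
`consumed` with the prefix `qva_`) -/
theorem Qd_dep (T : TD t Δ) (B w : ℕ) (N : Lab → V → Finset V) (m : ℕ) (n : ℕ) (s : St t)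
    (h : Str T B s) (φ : Lab → V) (F : Finset V) :
    Dep (consumed s)ᶜ (fun b => Qd T B w b N m n s φ F) := by
  induction n generalizing s φ F with
  | zero => intro b b' _; rfl
  | succ n ih =>
    intro b b' hb
    have key : ∀ s' : St t, Str T B s' → consumed s ⊆ consumed s' → ∀ (φ' : Lab → V)
        (F' : Finset V), Qd T B w b N m n s' φ' F' = Qd T B w b' N m n s' φ' F' := by
      intro s' hs' hsub φ' F'
      exact ih s' hs' φ' F' b b' fun x hx => hb x fun hx' => hx (hsub hx')
    change Qd T B w b N m (n + 1) s φ F = Qd T B w b' N m (n + 1) s φ F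
    rcases hact : act T B w s with _ | v | ⟨v, u, x⟩ | u
    · simp only [Qd, hact]
    · simp only [Qd, hact]
      have he : (fun φ' F' => Qd T B w b N m n (placeRoot s v) φ' F') =
          fun φ' F' => Qd T B w b' N m n (placeRoot s v) φ' F' := by
        funext φ' F'
        exact key _ (Str_root T B w s v h hact) (qva_root T B s v h) φ' F'
      rw [he]
    · have hu := (act_ask T B w hact).2.2.2.2.1
      have hmem : x.asks :: x.lab ∈ b ↔ x.asks :: x.lab ∈ b' := hb _ (qva_fresh hu)
      simp only [Qd, hact]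
      by_cases hin : x.asks :: x.lab ∈ b
      · rw [if_pos hin, if_pos (hmem.1 hin)]
        have he : (fun φ' F' => Qd T B w b N m n (succSt T s v u x) φ' F') =
            fun φ' F' => Qd T B w b' N m n (succSt T s v u x) φ' F' := by
          funext φ' F'
          exact key _ (Str_succ T B w s v u x h hact) (qva_succ T B s v u x h hu) φ' F'
        rw [he]
      · rw [if_neg hin, if_neg fun h' => hin (hmem.2 h')]
        exact key _ (Str_fail T B w s v u x h hact) (qva_fail s u x hu) φ F
    · simp only [Qd, hact]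
      exact key _ (Str_rem T B w s u h hact) (qva_rem T s u) φ F

end Pool.Agent.Lib.MP_56e41f_co.FQ
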