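import Pool.Agent.Lib.MP_56e41f_co.FQ.V
import Pool.Agent.Lib.MP_56e41f_co.FQ.AT

/-!
# The sparse case
-/

open Finset

namespace Pool.Agent.Lib.MP_56e41f_co.FQ

/-- `attempts` for the edge set of a graph -/
theorem sparse_case (c : ℝ) (hc : 0 < c) (hc1 : c < 1) : SparseCase c := by
  obtain ⟨K0, hK0, h⟩ := attempts c hc hc1
  refine ⟨K0, hK0, fun K hK ε hε => ?_⟩
  obtain ⟨C0, hC0, g⟩ := h K hK ε hε
  refine ⟨C0, hC0, ?_⟩
  intro V _ _ t Δ T G E d p ht hΔ hE hd hdE hn hp hp1 htd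
  refine g V t Δ T E d p ?_ hΔ ht hd hdE hn hp hp1 htd
  intro x hx
  rw [hE] at hx
  exact G.loopless.irrefl x hx

end Pool.Agent.Lib.MP_56e41f_co.FQ
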