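import Pool.Agent.Lib.MP_56e41f_co.FQ.DG
import Pool.Agent.Lib.MP_56e41f_co.LD.Fin

/-!
# All cases

`attempts_to_q1` : if the theorem holds for `n ≥ C0 d`, then it holds for all hosts.
-/

open Finset

namespace Pool.Agent.Lib.MP_56e41f_co.FQ

open Pool.Agent.Lib.MP_56e41f_co.LD

/-- the statement for sparse hosts, `C0 d ≤ n` -/
def SparseCase (c : ℝ) : Prop :=
  ∃ K0 : ℝ, 1 ≤ K0 ∧ ∀ K : ℝ, K0 ≤ K → ∀ ε : ℝ, 0 < ε → ∃ C0 : ℝ, 1 ≤ C0 ∧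
    ∀ (V : Type) [Fintype V] [DecidableEq V] (t Δ : ℕ) (T : TD t Δ) (G : SimpleGraph V)
      (E : Finset (Sym2 V)) (d p : ℝ), 2 ≤ t → 1 ≤ Δ → (∀ u v, s(u, v) ∈ E ↔ G.Adj u v) →
      0 < d → d / 2 * Fintype.card V ≤ E.card → C0 * d ≤ (Fintype.card V : ℝ) →
      K * Δ / d ≤ p → p ≤ 1 → (t : ℝ) ≤ (1 - c) * d → pr p E (fun F => ¬ Emb T F) ≤ ε

/-- Sparse hosts, dense hosts with `Δ ≥ (log n) ^ 10` (`LD.ld_case`), and dense hosts with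
`Δ ≤ (log n) ^ 10` (`dense_case`). -/
theorem all_cases (c : ℝ) (hc : 0 < c) (hc1 : c < 1) (hs : SparseCase c) :
    ∃ K0 : ℝ, 1 ≤ K0 ∧ ∀ K : ℝ, K0 ≤ K → ∀ ε : ℝ, 0 < ε → ∃ n0 : ℕ,
      ∀ (V : Type) [Fintype V] [DecidableEq V] (t Δ : ℕ) (T : TD t Δ) (G : SimpleGraph V)
      (E : Finset (Sym2 V)) (d p : ℝ), n0 ≤ Fintype.card V → 2 ≤ t → 1 ≤ Δ →
      (∀ u v, s(u, v) ∈ E ↔ G.Adj u v) → 0 < d → d ≤ Fintype.card V →
      d / 2 * Fintype.card V ≤ E.card → K * Δ / d ≤ p → p ≤ 1 → (t : ℝ) ≤ (1 - c) * d →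
      pr p E (fun F => ¬ Emb T F) ≤ ε := by
  obtain ⟨K1, hK1, h1⟩ := hs
  obtain ⟨K2, hK2, h2⟩ := dense_case c hc hc1
  obtain ⟨K3, hK3, h3⟩ := ld_case c hc hc1
  refine ⟨max K1 (max K2 K3), le_max_of_le_left hK1, fun K hK ε hε => ?_⟩
  have hk1 : K1 ≤ K := (le_max_left _ _).trans hK
  have hk2 : K2 ≤ K := ((le_max_left _ _).trans (le_max_right _ _)).trans hK
  have hk3 : K3 ≤ K := ((le_max_right _ _).trans (le_max_right _ _)).trans hK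
  obtain ⟨C0, hC0, g1⟩ := h1 K hk1 ε hε
  obtain ⟨n2, g2⟩ := h2 K hk2 C0 hC0 ε hε
  obtain ⟨n3, g3⟩ := h3 K hk3 ε hε
  refine ⟨max n2 n3, ?_⟩
  intro V _ _ t Δ T G E d p hn ht hΔ hE hd hdn hdE hp hp1 htd
  have hn2 : n2 ≤ Fintype.card V := (le_max_left _ _).trans hn
  have hn3 : n3 ≤ Fintype.card V := (le_max_right _ _).trans hn
  rcases le_total (C0 * d) (Fintype.card V : ℝ) with hcase | hcase
  · exact g1 V t Δ T G E d p ht hΔ hE hd hdE hcase hp hp1 htd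
  rcases le_total (Δ : ℝ) (Real.log (Fintype.card V) ^ 10) with hΔn | hΔn
  · exact g2 V t Δ T G E d p hn2 hΔ hE hd hdE hcase hΔn hp hp1 htd
  · refine g3 V t Δ T G E d p hn3 (by omega) hΔ hE hd hdn hdE ?_ hp1 htd
    rw [max_eq_left hΔn]
    exact hp

end Pool.Agent.Lib.MP_56e41f_co.FQ
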